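import Pool.Agent.Work.MP_b27c98_an.Defs

/-
MODULE TlB (size S-M, elementary real analysis). tl t = 1 / ((1+t) √(1+t)) = (1+t)^(-3/2) for t >= 0.

PROOFS. tl_int: the derivative of -2/√(1+t) is tl t, so int_0^R tl = 2 - 2/√(1+R) <= 2.
tl_seg: substitution u = t r: int_0^1 tl (t r) r dt = int_0^r tl <= 2
 (intervalIntegral.integral_comp_mul_right or mul_integral_comp_mul..., r >= 0).
tl_scale: 1 + s <= c (1+t), c >= 1: (1+t) >= (1+s)/c, √(1+t) >= √(1+s)/√c, so tl t <= c √c tl s <= c^2 tl s.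
inv_sq_le_tl: √(1+t) <= 1 + t.   tl_lim: tl t <= 1/(1+t) for t >= 0.
-/

namespace PoolB27

open Complex Set Metric

theorem tl_pos {t : ℝ} (ht : 0 ≤ t) : 0 < tl t := by
  have h1 : 0 < 1 + t := by linarith
  have h2 : 0 < √(1 + t) := Real.sqrt_pos.2 h1
  unfold tl
  positivity

theorem tl_nonneg {t : ℝ} (ht : 0 ≤ t) : 0 ≤ tl t := (tl_pos ht).le

private theorem tl_den_ge {t : ℝ} (ht : 0 ≤ t) : 1 + t ≤ (1 + t) * √(1 + t) := by
  have h1 : 1 ≤ √(1 + t) := by
    rw [Real.one_le_sqrt]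
    linarith
  exact le_mul_of_one_le_right (by linarith) h1

theorem tl_le_one {t : ℝ} (ht : 0 ≤ t) : tl t ≤ 1 := by
  unfold tl
  have h1 := tl_den_ge ht
  rw [div_le_one (by linarith)]
  linarith

theorem tl_anti {s t : ℝ} (hs : 0 ≤ s) (hst : s ≤ t) : tl t ≤ tl s := by
  unfold tl
  have h1 := tl_den_ge hs
  have h2 : √(1 + s) ≤ √(1 + t) := Real.sqrt_le_sqrt (by linarith)
  refine one_div_le_one_div_of_le (by linarith) ?_
  exact mul_le_mul (by linarith) h2 (Real.sqrt_nonneg _) (by linarith)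

theorem tl_cont : ContinuousOn tl (Ici 0) := by
  unfold tl
  refine ContinuousOn.div continuousOn_const ?_ ?_
  · exact (by fun_prop : Continuous fun t : ℝ => (1 + t) * √(1 + t)).continuousOn
  · intro t ht
    have h1 := tl_den_ge (mem_Ici.1 ht)
    have h2 : (0 : ℝ) ≤ t := mem_Ici.1 ht
    intro h
    rw [h] at h1
    linarith

private theorem tl_cont_abs : Continuous fun t : ℝ => tl |t| := by
  have h := tl_cont.comp_continuous continuous_abs (fun t => mem_Ici.2 (abs_nonneg t))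
  exact h

theorem tl_int {R : ℝ} (hR : 0 ≤ R) : ∫ t in (0:ℝ)..R, tl t ≤ 2 := by
  have hder : ∀ t ∈ uIcc 0 R, HasDerivAt (fun t : ℝ => -2 / √(1 + t)) (tl t) t := by
    intro t ht
    rw [uIcc_of_le hR, mem_Icc] at ht
    have h1 : 0 < 1 + t := by linarith
    have h2 : 0 < √(1 + t) := Real.sqrt_pos.2 h1
    have h3 : HasDerivAt (fun t : ℝ => 1 + t) 1 t := by
      simpa using (hasDerivAt_id t).const_add 1
    have h4 := h3.sqrt h1.ne'
    have h5 := (h4.inv h2.ne').const_mul (-2 : ℝ)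
    have h6 : (fun t : ℝ => -2 / √(1 + t)) = fun t : ℝ => (-2 : ℝ) * (√(1 + t))⁻¹ := by
      funext x
      rw [div_eq_mul_inv]
    rw [h6]
    convert! h5 using 1
    unfold tl
    have h7 : √(1 + t) ^ 2 = 1 + t := Real.sq_sqrt h1.le
    rw [h7]
    field_simp
  have hint : IntervalIntegrable tl MeasureTheory.volume 0 R := by
    refine (tl_cont.mono ?_).intervalIntegrable
    rw [uIcc_of_le hR]
    exact fun x hx => mem_Ici.2 hx.1
  rw [intervalIntegral.integral_eq_sub_of_hasDerivAt hder hint]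
  have h1 : (0 : ℝ) ≤ 2 / √(1 + R) := by positivity
  simp only [add_zero, Real.sqrt_one, div_one, neg_div]
  linarith

theorem tl_seg {r : ℝ} (hr : 0 ≤ r) : ∫ t in (0:ℝ)..1, tl (t * r) * r ≤ 2 := by
  rw [intervalIntegral.integral_mul_const, mul_comm, intervalIntegral.mul_integral_comp_mul_right,
    zero_mul, one_mul]
  exact tl_int hr

private theorem tl_int_abs' {s : ℝ} (hs : 0 ≤ s) : 0 ≤ (∫ t in (0:ℝ)..s, tl (|t|)) ∧
    (∫ t in (0:ℝ)..s, tl (|t|)) ≤ 2 := by
  constructor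
  · exact intervalIntegral.integral_nonneg hs fun t _ => tl_nonneg (abs_nonneg t)
  · have h1 : (∫ t in (0:ℝ)..s, tl (|t|)) = ∫ t in (0:ℝ)..s, tl t := by
      refine intervalIntegral.integral_congr fun t ht => ?_
      rw [uIcc_of_le hs] at ht
      simp only [abs_of_nonneg ht.1]
    rw [h1]
    exact tl_int hs

/-- two-sided version for real curves -/
theorem tl_int_abs (s : ℝ) : |(∫ t in (0:ℝ)..s, tl (|t|))| ≤ 2 := by
  rcases le_total 0 s with hs | hs
  · obtain ⟨h1, h2⟩ := tl_int_abs' hs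
    rw [abs_of_nonneg h1]
    exact h2
  · obtain ⟨h1, h2⟩ := tl_int_abs' (s := -s) (by linarith)
    have h3 : (∫ t in (0:ℝ)..(-s), tl (|t|)) = ∫ t in s..0, tl (|t|) := by
      have h4 := intervalIntegral.integral_comp_neg (a := 0) (b := -s) (fun t : ℝ => tl |t|)
      simp only [abs_neg, neg_neg, neg_zero] at h4
      exact h4
    rw [intervalIntegral.integral_symm, abs_neg, ← h3, abs_of_nonneg h1]
    exact h2

theorem tl_lim {e : ℝ} (he : 0 < e) : ∃ R > 0, ∀ t : ℝ, R ≤ t → tl t ≤ e := by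
  refine ⟨1 / e, by positivity, fun t ht => ?_⟩
  have h0 : 0 < 1 / e := by positivity
  have ht0 : 0 ≤ t := by linarith
  have h1 := tl_den_ge ht0
  unfold tl
  rw [div_le_iff₀ (by linarith)]
  have h2 : e * (1 / e) = 1 := by field_simp
  nlinarith

theorem inv_sq_le_tl {t : ℝ} (ht : 0 ≤ t) : 1 / (1 + t) ^ 2 ≤ tl t := by
  unfold tl
  have h1 := tl_den_ge ht
  refine one_div_le_one_div_of_le (by linarith) ?_
  rw [pow_two]
  refine mul_le_mul_of_nonneg_left ?_ (by linarith)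
  rw [Real.sqrt_le_left (by linarith)]
  nlinarith

theorem tl_scale {s t c : ℝ} (hs : 0 ≤ s) (ht : 0 ≤ t) (hc : 1 ≤ c) (h : 1 + s ≤ c * (1 + t)) :
    tl t ≤ c ^ 2 * tl s := by
  unfold tl
  have h1 := tl_den_ge hs
  have h2 := tl_den_ge ht
  rw [mul_one_div, div_le_div_iff₀ (by linarith) (by linarith), one_mul]
  have h3 : √(1 + s) ≤ c * √(1 + t) := by
    rw [Real.sqrt_le_left (mul_nonneg (by linarith) (Real.sqrt_nonneg _)), mul_pow,
      Real.sq_sqrt (by linarith)]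
    nlinarith [mul_nonneg (sub_nonneg.2 hc) (by linarith : (0 : ℝ) ≤ c * (1 + t))]
  calc (1 + s) * √(1 + s) ≤ (c * (1 + t)) * (c * √(1 + t)) :=
        mul_le_mul h h3 (Real.sqrt_nonneg _) (by nlinarith)
    _ = c ^ 2 * ((1 + t) * √(1 + t)) := by ring

end PoolB27
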