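import Pool.Agent.Work.MP_b27c98_an.Defs

/-
MODULE TwB (size M, elementary). Facts on tw w h = (i/2) (conj (e^w h) + e^(-w) h).

Write w = v + i φ, h = a + i b. conj (e^w h) = e^v e^(-iφ) (a - i b), e^(-w) h = e^(-v) e^(-iφ) (a + i b);
the sum is e^(-iφ) (2 a cosh v - 2 i b sinh v); multiply by i/2:
   tw w h = e^(-iφ) (i a cosh v + b sinh v).        (tw_eq)
Hence |tw w h|^2 = (a cosh v)^2 + (b sinh v)^2; with 0 <= sinh v <= cosh v (v >= 0), in general
|sinh v| <= cosh v: bounds tw_lower, tw_upper; tw w i = e^(-iφ) sinh v; bd w = i e^(-iφ) cosh v,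
cosh v >= 1.
tw_diff: |tw w h - tw w' h| <= (1/2) (|e^w - e^w'| + |e^(-w) - e^(-w')|) |h| and
|e^a - e^b| <= e^M |a - b| if Re a, Re b <= M (mean value inequality on the convex set Re <= M:
Convex.norm_image_sub_le_of_norm_deriv_le, |exp'| = e^(Re) <= e^M).
-/

namespace PoolB27

open Complex Set Metric

theorem tw_add (w h k : ℂ) : tw w (h + k) = tw w h + tw w k := by
  simp only [tw, mul_add, map_add]
  ring

theorem tw_real (w h : ℂ) (r : ℝ) : tw w (r * h) = r * tw w h := by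
  simp only [tw, map_mul, conj_ofReal]
  ring

theorem tw_sub (w h k : ℂ) : tw w (h - k) = tw w h - tw w k := by
  simp only [tw, mul_sub, map_sub]
  ring

theorem tw_eq (w h : ℂ) : tw w h = exp (-(w.im * I)) *
    (((Real.cosh w.re * h.re : ℝ) : ℂ) * I + ((Real.sinh w.re * h.im : ℝ) : ℂ)) := by
  have hw : w = (w.re : ℂ) + (w.im : ℂ) * I := (re_add_im w).symm
  have e1 : exp w = exp (w.re : ℂ) * exp ((w.im : ℂ) * I) := by
    conv_lhs => rw [hw]
    rw [exp_add]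
  have e2 : exp (-w) = exp (-(w.re : ℂ)) * exp (-((w.im : ℂ) * I)) := by
    conv_lhs => rw [hw]
    rw [neg_add, exp_add]
  have e3 : starRingEnd ℂ (exp ((w.im : ℂ) * I)) = exp (-((w.im : ℂ) * I)) := by
    rw [← exp_conj]
    congr 1
    simp
  have e4 : starRingEnd ℂ (exp (w.re : ℂ)) = exp (w.re : ℂ) := by
    rw [← exp_conj, conj_ofReal]
  have hh : h = (h.re : ℂ) + (h.im : ℂ) * I := (re_add_im h).symm
  have hc : starRingEnd ℂ h = (h.re : ℂ) - (h.im : ℂ) * I := by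
    apply Complex.ext <;> simp
  have hI : (I : ℂ) ^ 2 = -1 := I_sq
  unfold tw
  rw [map_mul, e1, e2, map_mul, e3, e4, hc]
  conv_lhs => rw [hh]
  simp only [ofReal_mul, ofReal_cosh, ofReal_sinh, Complex.cosh, Complex.sinh, add_re, ofReal_re,
    mul_re, I_re, mul_zero, ofReal_im, I_im, mul_one, sub_self, add_zero, add_im, mul_im, zero_add]
  linear_combination (-(1/2 : ℂ) * exp (-((w.im : ℂ) * I)) * (h.im : ℂ) *
    (exp (w.re : ℂ) - exp (-(w.re : ℂ)))) * hI

theorem norm_tw_sq (w h : ℂ) :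
    ‖tw w h‖ ^ 2 = (Real.cosh w.re * h.re) ^ 2 + (Real.sinh w.re * h.im) ^ 2 := by
  rw [tw_eq, norm_mul]
  have h1 : ‖exp (-((w.im : ℂ) * I))‖ = 1 := by
    rw [norm_exp]
    simp
  rw [h1, one_mul, ← normSq_eq_norm_sq, normSq_apply]
  simp only [add_re, mul_re, ofReal_re, I_re, mul_zero, ofReal_im, I_im, mul_one, sub_self,
    zero_add, add_im, mul_im, add_zero]
  ring

theorem abs_sinh_le_cosh (x : ℝ) : |Real.sinh x| ≤ Real.cosh x := by
  rw [abs_le]
  constructor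
  · have := Real.sinh_lt_cosh (-x)
    rw [Real.sinh_neg, Real.cosh_neg] at this
    linarith
  · exact (Real.sinh_lt_cosh x).le

theorem tw_lower (w h : ℂ) (hw : 0 ≤ w.re) : Real.sinh w.re * ‖h‖ ≤ ‖tw w h‖ := by
  have hs : 0 ≤ Real.sinh w.re := Real.sinh_nonneg_iff.mpr hw
  apply le_of_sq_le_sq _ (norm_nonneg _)
  rw [norm_tw_sq, mul_pow, ← normSq_eq_norm_sq, normSq_apply]
  have h2 : Real.sinh w.re ^ 2 ≤ Real.cosh w.re ^ 2 := by
    have := Real.cosh_sq w.re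
    linarith
  nlinarith [mul_le_mul_of_nonneg_right h2 (sq_nonneg h.re)]

theorem tw_upper (w h : ℂ) : ‖tw w h‖ ≤ Real.cosh w.re * ‖h‖ := by
  apply le_of_sq_le_sq _ (mul_nonneg (Real.cosh_pos _).le (norm_nonneg _))
  rw [norm_tw_sq, mul_pow _ ‖h‖, ← normSq_eq_norm_sq, normSq_apply]
  have h2 : Real.sinh w.re ^ 2 ≤ Real.cosh w.re ^ 2 := by
    have := Real.cosh_sq w.re
    linarith
  nlinarith [mul_le_mul_of_nonneg_right h2 (sq_nonneg h.im)]

theorem norm_exp_sub_le {a b : ℂ} {M : ℝ} (ha : a.re ≤ M) (hb : b.re ≤ M) :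
    ‖exp a - exp b‖ ≤ Real.exp M * ‖a - b‖ := by
  have hconv : Convex ℝ {z : ℂ | z.re ≤ M} := by
    have := (convex_halfSpace_re_le M)
    exact this
  refine hconv.norm_image_sub_le_of_norm_deriv_le (f := exp) (fun x _ => differentiable_exp x)
    (fun x hx => ?_) hb ha
  rw [Complex.deriv_exp, norm_exp]
  exact Real.exp_le_exp.mpr hx

theorem tw_diff {w w' : ℂ} (h : ℂ) {M : ℝ} (hM : |w.re| ≤ M) (hM' : |w'.re| ≤ M) :
    ‖tw w h - tw w' h‖ ≤ Real.exp M * ‖w - w'‖ * ‖h‖ := by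
  have h1 := norm_exp_sub_le (abs_le.mp hM).2 (abs_le.mp hM').2
  have h2 : ‖exp (-w) - exp (-w')‖ ≤ Real.exp M * ‖w - w'‖ := by
    have := norm_exp_sub_le (a := -w) (b := -w') (M := M)
      (by rw [neg_re]; linarith [neg_le_of_abs_le hM]) (by rw [neg_re]; linarith [neg_le_of_abs_le hM'])
    rwa [show -w - -w' = -(w - w') by ring, norm_neg] at this
  have e : tw w h - tw w' h =
      I / 2 * (starRingEnd ℂ ((exp w - exp w') * h) + (exp (-w) - exp (-w')) * h) := by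
    simp only [tw, map_mul, map_sub]
    ring
  rw [e, norm_mul]
  have hI : ‖(I : ℂ) / 2‖ = 1 / 2 := by simp
  rw [hI]
  have h3 : ‖starRingEnd ℂ ((exp w - exp w') * h) + (exp (-w) - exp (-w')) * h‖ ≤
      ‖exp w - exp w'‖ * ‖h‖ + ‖exp (-w) - exp (-w')‖ * ‖h‖ := by
    refine (norm_add_le _ _).trans (le_of_eq ?_)
    rw [RCLike.norm_conj, norm_mul, norm_mul]
  have h4 := mul_le_mul_of_nonneg_right h1 (norm_nonneg h)
  have h5 := mul_le_mul_of_nonneg_right h2 (norm_nonneg h)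
  linarith

theorem bd_eq (w : ℂ) : bd w = I * exp (-(w.im * I)) * ((Real.cosh w.re : ℝ) : ℂ) := by
  unfold bd
  rw [tw_eq]
  simp
  ring

theorem bd_eq' (w : ℂ) : bd w = ((Real.sin w.im * Real.cosh w.re : ℝ) : ℂ) +
    ((Real.cos w.im * Real.cosh w.re : ℝ) : ℂ) * I := by
  rw [bd_eq]
  have : exp (-((w.im : ℂ) * I)) = (Real.cos w.im : ℂ) - (Real.sin w.im : ℂ) * I := by
    rw [show -((w.im : ℂ) * I) = (((-w.im : ℝ)) : ℂ) * I by push_cast; ring, exp_mul_I]
    rw [← ofReal_cos, ← ofReal_sin, Real.cos_neg, Real.sin_neg]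
    push_cast
    ring
  rw [this]
  push_cast
  have hI : (I : ℂ) ^ 2 = -1 := I_sq
  linear_combination (-(Complex.sin (w.im : ℂ) * Complex.cosh (w.re : ℂ))) * hI

theorem bd_im (w : ℂ) : (bd w).im = Real.cos w.im * Real.cosh w.re := by
  rw [bd_eq']
  simp only [add_im, ofReal_im, mul_im, ofReal_re, I_im, I_re]
  ring

theorem bd_re (w : ℂ) : (bd w).re = Real.sin w.im * Real.cosh w.re := by
  rw [bd_eq']
  simp only [add_re, ofReal_im, mul_re, ofReal_re, I_im, I_re]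
  ring

theorem bd_shift (w : ℂ) (β : ℝ) : bd (w + β * I) = exp (-(β * I)) * bd w := by
  rw [bd_eq, bd_eq]
  have h1 : (w + β * I).im = w.im + β := by simp
  have h2 : (w + β * I).re = w.re := by simp
  rw [h1, h2]
  have : exp (-(((w.im + β : ℝ) : ℂ) * I)) = exp (-(β * I)) * exp (-((w.im : ℂ) * I)) := by
    rw [← exp_add]
    congr 1
    push_cast
    ring
  rw [this]
  ring

theorem norm_bd (w : ℂ) : ‖bd w‖ = Real.cosh w.re := by
  have h := norm_tw_sq w 1
  simp only [one_re, mul_one, one_im, mul_zero] at h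
  have h2 : ‖bd w‖ ^ 2 = Real.cosh w.re ^ 2 := by
    unfold bd
    rw [h]
    ring
  exact (sq_eq_sq₀ (norm_nonneg _) (Real.cosh_pos _).le).mp h2

theorem one_le_norm_bd (w : ℂ) : 1 ≤ ‖bd w‖ := by
  rw [norm_bd]
  exact Real.one_le_cosh _

theorem bd_diff {w w' : ℂ} {M : ℝ} (hM : |w.re| ≤ M) (hM' : |w'.re| ≤ M) :
    ‖bd w - bd w'‖ ≤ Real.exp M * ‖w - w'‖ := by
  have := tw_diff 1 hM hM'
  simpa [bd] using this

theorem norm_tw_I (w : ℂ) : ‖tw w I‖ = |Real.sinh w.re| := by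
  have h := norm_tw_sq w I
  simp only [I_re, mul_one, I_im, mul_zero] at h
  have h2 : ‖tw w I‖ ^ 2 = |Real.sinh w.re| ^ 2 := by
    rw [h, sq_abs]
    ring
  exact (sq_eq_sq₀ (norm_nonneg _) (abs_nonneg _)).mp h2

theorem continuous_tw : Continuous (fun p : ℂ × ℂ => tw p.1 p.2) := by
  unfold tw
  fun_prop

theorem continuous_bd : Continuous bd := by
  unfold bd tw
  fun_prop

end PoolB27
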