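import Pool.Agent.Work.MP_b27c98_an.Defs

/-
MODULE Prim (size M). `pr f` is a primitive of `f` on the half plane Im > -d.

PROOF. Fix l with -d < Im l. Choose d' with 0 < d' < d and -d' < Im l. The balls
B_R = ball (i (R - d')) R increase with R and their union is the half plane Im > -d':
z = x + i y is in B_R iff x^2 + (y + d')^2 < 2 R (y + d').  So for R large 0 and l are in B_R,
and B_R is contained in Hd d (a point of B_R has imaginary part > (R - d') - R = -d').
On the ball `f` has a primitive g: `DifferentiableOn.isExactOn_ball` (Complex.IsExactOn f (ball c R),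
i.e. exists g, for all z in ball, HasDerivAt g (f z) z).
For z in B_R the segment [0,z] is in B_R (convex_ball), so with g(t) = g (t z):
  int_0^1 f(t z) z dt = g z - g 0    (intervalIntegral.integral_eq_sub_of_hasDerivAt,
the integrand t -> f (t z) * z is continuous on [0,1], hence interval integrable).
So pr f = g - g 0 on the open set B_R, which contains l: HasDerivAt.congr_of_eventuallyEq.
-/

namespace PoolB27

open Complex Set Metric

theorem pr_hasDerivAt {d : ℝ} (hd : 0 < d) {f : ℂ → ℂ} (hf : DifferentiableOn ℂ f (Hd d))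
    {l : ℂ} (hl : l ∈ Hd d) : HasDerivAt (pr f) (f l) l := by
  have hl' : -d < l.im := hl
  -- choose d' and R
  obtain ⟨d', hd'0, hd'd, hd'l⟩ : ∃ d' : ℝ, 0 < d' ∧ d' < d ∧ -d' < l.im := by
    rcases le_or_gt 0 l.im with h | h
    · exact ⟨d / 2, by linarith, by linarith, by linarith⟩
    · exact ⟨(d - l.im) / 2, by linarith, by linarith, by linarith⟩
  set R : ℝ := d' + (l.re ^ 2 + (l.im + d') ^ 2) / (l.im + d') with hR
  have hy : 0 < l.im + d' := by linarith
  have hRd : d' ≤ R := by
    rw [hR]
    have : 0 ≤ (l.re ^ 2 + (l.im + d') ^ 2) / (l.im + d') := by positivity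
    linarith
  have hR0 : 0 < R := by linarith
  set c : ℂ := ⟨0, R - d'⟩ with hc
  have hball : ball c R ⊆ Hd d := by
    intro z hz
    have h1 : ‖z - c‖ < R := by simpa [dist_eq_norm] using hz
    have h2 : |(z - c).im| < R := (abs_im_le_norm _).trans_lt h1
    have h3 : (z - c).im = z.im - (R - d') := by simp [hc]
    rw [h3, abs_lt] at h2
    show -d < z.im
    linarith [h2.1]
  have hlb : l ∈ ball c R := by
    have h1 : ‖l - c‖ ^ 2 < R ^ 2 := by
      rw [← normSq_eq_norm_sq, normSq_apply]
      have e1 : (l - c).re = l.re := by simp [hc]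
      have e2 : (l - c).im = l.im + d' - R := by simp [hc]; ring
      rw [e1, e2]
      have e3 : R * (l.im + d') = d' * (l.im + d') + (l.re ^ 2 + (l.im + d') ^ 2) := by
        rw [hR]
        field_simp
      nlinarith [mul_pos hd'0 hy, sq_nonneg l.re, mul_pos hy hy]
    have h2 : ‖l - c‖ < R := lt_of_pow_lt_pow_left₀ 2 hR0.le h1
    simpa [dist_eq_norm] using h2
  have h0b : (0 : ℂ) ∈ ball c R := by
    have h2 : ‖(0 : ℂ) - c‖ < R := by
      rw [zero_sub, norm_neg]
      have : c = ((R - d' : ℝ) : ℂ) * I := by
        apply Complex.ext <;> simp [hc]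
      rw [this, norm_mul, norm_I, mul_one, norm_real, Real.norm_eq_abs, abs_of_nonneg (by linarith)]
      linarith
    simpa [dist_eq_norm] using h2
  obtain ⟨g, hg⟩ := (hf.mono hball).isExactOn_ball
  have key : ∀ z ∈ ball c R, pr f z = g z - g 0 := by
    intro z hz
    have hseg : ∀ t ∈ Icc (0:ℝ) 1, (t : ℂ) * z ∈ ball c R := by
      intro t ht
      have := (convex_ball c R).add_smul_sub_mem h0b hz ht
      simpa [real_smul] using this
    have hder : ∀ t ∈ uIcc (0:ℝ) 1, HasDerivAt (fun t : ℝ => g ((t : ℂ) * z))
        (f ((t : ℂ) * z) * z) t := by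
      intro t ht
      rw [uIcc_of_le zero_le_one] at ht
      have h1 := hg _ (hseg t ht)
      have h2 : HasDerivAt (fun t : ℝ => (t:ℂ) * z) z t := by
        have h3 : HasDerivAt (fun t : ℝ => (t:ℂ)) 1 t := ofRealCLM.hasDerivAt
        simpa using h3.mul_const z
      exact HasDerivAt.scomp_of_eq t h1 h2 rfl |>.congr_deriv (by rw [smul_eq_mul, mul_comm])
    have hint : IntervalIntegrable (fun t : ℝ => f ((t : ℂ) * z) * z)
        MeasureTheory.volume 0 1 := by
      apply ContinuousOn.intervalIntegrable
      rw [uIcc_of_le zero_le_one]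
      apply ContinuousOn.mul _ continuousOn_const
      apply hf.continuousOn.comp (by fun_prop)
      intro t ht
      exact hball (hseg t ht)
    have := intervalIntegral.integral_eq_sub_of_hasDerivAt hder hint
    unfold pr
    rw [this]
    simp
  have h1 : HasDerivAt (fun z => g z - g 0) (f l) l := (hg l hlb).sub_const _
  refine h1.congr_of_eventuallyEq ?_
  filter_upwards [isOpen_ball.mem_nhds hlb] with z hz
  exact key z hz

theorem pr_zero (f : ℂ → ℂ) : pr f 0 = 0 := by
  simp [pr]

end PoolB27
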