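import Pool.Agent.Work.MP_b27c98_an.Defs
import Pool.Agent.Work.MP_b27c98_an.Prim
import Pool.Agent.Work.MP_b27c98_an.TwB

/-
MODULE ZfB (size M). Segment formula for zf F (F holomorphic on Im > -d).

PROOF. A := pr (exp o F), B := pr (exp o (-F)) satisfy A' = exp F, B' = exp (-F) on Hd d
(Prim.pr_hasDerivAt; the compositions are differentiable). Hd d is convex. For a, b in Hd d the
function t -> A (a + t (b - a)) has derivative exp (F (a + t(b-a))) (b - a) on [0,1], continuous,
so A b - A a = int_0^1 exp (F (a + t(b-a))) (b-a) dt, same for B. Take conj inside the integral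
(`intervalIntegral` commutes with the real-linear map conj: e.g. ContinuousLinearMap.intervalIntegral_comp_comm
with Complex.conjCLE) and add: zf_sub.
zf_real: for real a, b the same with t -> A t, t in [a,b] (HasDerivAt.comp_ofReal), or substitution.
bd w = tw w 1 = (i/2) (conj (exp w) + exp (-w)).
-/

namespace PoolB27

open Complex Set Metric

theorem zf_zero (F : ℂ → ℂ) : zf F 0 = 0 := by
  simp [zf, pr_zero]

theorem convex_Hd (d : ℝ) : Convex ℝ (Hd d) := by
  exact convex_halfSpace_im_gt (-d)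

theorem isOpen_Hd (d : ℝ) : IsOpen (Hd d) := by
  exact isOpen_lt continuous_const Complex.continuous_im

theorem convex_Hc : Convex ℝ Hc := by
  exact convex_halfSpace_im_ge 0

theorem isClosed_Hc : IsClosed Hc := by
  exact isClosed_le continuous_const Complex.continuous_im

theorem isOpen_Ho : IsOpen Ho := by
  exact isOpen_lt continuous_const Complex.continuous_im

theorem Hc_sub_Hd {d : ℝ} (hd : 0 < d) : Hc ⊆ Hd d := by
  intro z hz
  have : (0:ℝ) ≤ z.im := hz
  show -d < z.im
  linarith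

theorem Ho_sub_Hc : Ho ⊆ Hc := by
  intro z hz
  have : (0:ℝ) < z.im := hz
  exact this.le

theorem real_mem_Hc (s : ℝ) : (s : ℂ) ∈ Hc := by
  show (0:ℝ) ≤ (s : ℂ).im
  simp

private theorem seg_mem {d : ℝ} {a b : ℂ} (ha : a ∈ Hd d) (hb : b ∈ Hd d) {t : ℝ}
    (ht : t ∈ Icc (0:ℝ) 1) : a + t * (b - a) ∈ Hd d := by
  have h := (convex_Hd d).add_smul_sub_mem ha hb ht
  simpa [real_smul] using h

private theorem exp_diff {F : ℂ → ℂ} {d : ℝ} (hF : DifferentiableOn ℂ F (Hd d)) :
    DifferentiableOn ℂ (fun x => exp (F x)) (Hd d) := hF.cexp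

private theorem exp_neg_diff {F : ℂ → ℂ} {d : ℝ} (hF : DifferentiableOn ℂ F (Hd d)) :
    DifferentiableOn ℂ (fun x => exp (-F x)) (Hd d) := hF.neg.cexp

private theorem pr_sub {f : ℂ → ℂ} {d : ℝ} (hd : 0 < d) (hf : DifferentiableOn ℂ f (Hd d)) {a b : ℂ}
    (ha : a ∈ Hd d) (hb : b ∈ Hd d) :
    pr f b - pr f a = ∫ t in (0:ℝ)..1, f (a + t * (b - a)) * (b - a) := by
  have hder : ∀ t ∈ uIcc (0:ℝ) 1, HasDerivAt (fun t : ℝ => pr f (a + t * (b - a)))
      (f (a + t * (b - a)) * (b - a)) t := by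
    intro t ht
    rw [uIcc_of_le zero_le_one] at ht
    have h1 := pr_hasDerivAt hd hf (seg_mem ha hb ht)
    have h2 : HasDerivAt (fun t : ℝ => a + (t:ℂ) * (b - a)) (b - a) t := by
      have h3 : HasDerivAt (fun t : ℝ => (t:ℂ)) 1 t := by
        exact ofRealCLM.hasDerivAt
      simpa using (h3.mul_const (b - a)).const_add a
    exact HasDerivAt.scomp_of_eq t h1 h2 rfl |>.congr_deriv (by rw [smul_eq_mul, mul_comm])
  have hint : IntervalIntegrable (fun t : ℝ => f (a + t * (b - a)) * (b - a))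
      MeasureTheory.volume 0 1 := by
    apply ContinuousOn.intervalIntegrable
    rw [uIcc_of_le zero_le_one]
    apply ContinuousOn.mul _ continuousOn_const
    apply hf.continuousOn.comp (by fun_prop)
    intro t ht
    exact seg_mem ha hb ht
  have := intervalIntegral.integral_eq_sub_of_hasDerivAt hder hint
  rw [this]
  simp

private theorem seg_cont {f : ℂ → ℂ} {d : ℝ} (hf : DifferentiableOn ℂ f (Hd d)) {a b : ℂ}
    (ha : a ∈ Hd d) (hb : b ∈ Hd d) :
    ContinuousOn (fun t : ℝ => f (a + t * (b - a)) * (b - a)) (Icc 0 1) := by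
  apply ContinuousOn.mul _ continuousOn_const
  apply hf.continuousOn.comp (by fun_prop)
  intro t ht
  exact seg_mem ha hb ht

theorem zf_sub {F : ℂ → ℂ} {d : ℝ} (hd : 0 < d) (hF : DifferentiableOn ℂ F (Hd d)) {a b : ℂ}
    (ha : a ∈ Hd d) (hb : b ∈ Hd d) :
    zf F b - zf F a = ∫ t in (0:ℝ)..1, tw (F (a + t * (b - a))) (b - a) := by
  have h1 := pr_sub hd (exp_diff hF) ha hb
  have h2 := pr_sub hd (exp_neg_diff hF) ha hb
  have e : zf F b - zf F a = I / 2 * (starRingEnd ℂ (pr (fun x => exp (F x)) b -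
      pr (fun x => exp (F x)) a) + (pr (fun x => exp (-F x)) b - pr (fun x => exp (-F x)) a)) := by
    simp only [zf, map_sub]
    ring
  rw [e, h1, h2]
  have hi1 : IntervalIntegrable (fun t : ℝ => exp (F (a + t * (b - a))) * (b - a))
      MeasureTheory.volume 0 1 := by
    apply ContinuousOn.intervalIntegrable
    rw [uIcc_of_le zero_le_one]
    exact seg_cont (exp_diff hF) ha hb
  have hi2 : IntervalIntegrable (fun t : ℝ => exp (-F (a + t * (b - a))) * (b - a))
      MeasureTheory.volume 0 1 := by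
    apply ContinuousOn.intervalIntegrable
    rw [uIcc_of_le zero_le_one]
    exact seg_cont (exp_neg_diff hF) ha hb
  have hc : starRingEnd ℂ (∫ t in (0:ℝ)..1, exp (F (a + t * (b - a))) * (b - a)) =
      ∫ t in (0:ℝ)..1, starRingEnd ℂ (exp (F (a + t * (b - a))) * (b - a)) := by
    have h := ContinuousLinearMap.intervalIntegral_comp_comm
      (conjCLE : ℂ →L[ℝ] ℂ) hi1
    simp only [ContinuousLinearEquiv.coe_coe, conjCLE_apply] at h
    exact h.symm
  have hi1' : IntervalIntegrable (fun t : ℝ => starRingEnd ℂ (exp (F (a + t * (b - a))) * (b - a)))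
      MeasureTheory.volume 0 1 := by
    apply ContinuousOn.intervalIntegrable
    rw [uIcc_of_le zero_le_one]
    exact continuous_conj.comp_continuousOn (seg_cont (exp_diff hF) ha hb)
  rw [hc, ← intervalIntegral.integral_add hi1' hi2, ← intervalIntegral.integral_const_mul]
  simp only [tw]

/-- the integrand of the segment formula is continuous on `[0,1]` -/
theorem zf_sub_cont {F : ℂ → ℂ} {d : ℝ} (hF : DifferentiableOn ℂ F (Hd d)) {a b : ℂ}
    (ha : a ∈ Hd d) (hb : b ∈ Hd d) :
    ContinuousOn (fun t : ℝ => tw (F (a + t * (b - a))) (b - a)) (Icc 0 1) := by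
  have h1 : ContinuousOn (fun t : ℝ => F (a + t * (b - a))) (Icc 0 1) := by
    apply hF.continuousOn.comp (by fun_prop)
    intro t ht
    exact seg_mem ha hb ht
  have h2 : Continuous (fun w : ℂ => tw w (b - a)) := by
    unfold tw
    fun_prop
  exact h2.comp_continuousOn h1

theorem cont_real {F : ℂ → ℂ} {d : ℝ} (hd : 0 < d) (hF : DifferentiableOn ℂ F (Hd d)) :
    Continuous (fun t : ℝ => F t) := by
  rw [← continuousOn_univ]
  apply hF.continuousOn.comp (by fun_prop)
  intro t _
  exact Hc_sub_Hd hd (real_mem_Hc t)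

theorem zf_real {F : ℂ → ℂ} {d : ℝ} (hd : 0 < d) (hF : DifferentiableOn ℂ F (Hd d)) (a b : ℝ) :
    zf F b - zf F a = ∫ t in a..b, bd (F t) := by
  have hmem : ∀ t : ℝ, (t : ℂ) ∈ Hd d := fun t => Hc_sub_Hd hd (real_mem_Hc t)
  have hder : ∀ t ∈ uIcc a b, HasDerivAt (fun t : ℝ => zf F t) (bd (F t)) t := by
    intro t _
    have h1 : HasDerivAt (fun t : ℝ => pr (fun x => exp (F x)) t) (exp (F t)) t :=
      (pr_hasDerivAt hd (exp_diff hF) (hmem t)).comp_ofReal
    have h2 : HasDerivAt (fun t : ℝ => pr (fun x => exp (-F x)) t) (exp (-F t)) t :=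
      (pr_hasDerivAt hd (exp_neg_diff hF) (hmem t)).comp_ofReal
    have h3 : HasDerivAt (fun t : ℝ => starRingEnd ℂ (pr (fun x => exp (F x)) t))
        (starRingEnd ℂ (exp (F t))) t := by
      have h4 := (conjCLE : ℂ →L[ℝ] ℂ).hasFDerivAt.comp_hasDerivAt t h1
      exact h4
    have h5 := (h3.add h2).const_mul (I / 2)
    refine h5.congr_deriv ?_
    simp [bd, tw]
  have hcont : Continuous (fun t : ℝ => bd (F t)) := continuous_bd.comp (cont_real hd hF)
  rw [intervalIntegral.integral_eq_sub_of_hasDerivAt hder (hcont.intervalIntegrable a b)]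

theorem zf_eq_cur {F : ℂ → ℂ} {d : ℝ} (hd : 0 < d) (hF : DifferentiableOn ℂ F (Hd d)) (s : ℝ) :
    zf F s = cur (fun t : ℝ => F t) s := by
  have h := zf_real hd hF 0 s
  rw [ofReal_zero, zf_zero, sub_zero] at h
  rw [h]
  rfl

end PoolB27
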