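import Pool.Agent.Work.MP_b27c98_an.Defs
import Pool.Agent.Work.MP_b27c98_an.TwB
import Pool.Agent.Work.MP_b27c98_an.ZfB

/-
MODULE ZfL (size S-M). Lipschitz comparison.

PROOF. Segment formula (ZfB.zf_sub; the segment [a,b] is in the convex set S) and TwB.tw_diff:
zf F b - zf F a - tw w (b-a) = int_0^1 (tw (F (a+t(b-a))) (b-a) - tw w (b-a)) dt, the integrand is
bounded by e^M e |b-a| since |F - w| <= e and |Re F| <= |Re w| + e <= M on S.
Use intervalIntegral.norm_integral_le_of_norm_le_const. Same for two functions.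
-/

namespace PoolB27

open Complex Set Metric

theorem zf_approx {F : ℂ → ℂ} {d : ℝ} (hd : 0 < d) (hF : DifferentiableOn ℂ F (Hd d)) {S : Set ℂ}
    (hS : Convex ℝ S) (hSd : S ⊆ Hd d) {w : ℂ} {e M : ℝ} (he : ∀ z ∈ S, ‖F z - w‖ ≤ e)
    (hM : |w.re| + e ≤ M) {a b : ℂ} (ha : a ∈ S) (hb : b ∈ S) :
    ‖zf F b - zf F a - tw w (b - a)‖ ≤ Real.exp M * e * ‖b - a‖ := by
  have he0 : 0 ≤ e := (norm_nonneg _).trans (he a ha)
  have hseg : ∀ t ∈ Icc (0:ℝ) 1, a + t * (b - a) ∈ S := by
    intro t ht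
    have h := hS.add_smul_sub_mem ha hb ht
    simpa [real_smul] using h
  have hi : IntervalIntegrable (fun t : ℝ => tw (F (a + t * (b - a))) (b - a))
      MeasureTheory.volume 0 1 := by
    apply ContinuousOn.intervalIntegrable
    rw [uIcc_of_le zero_le_one]
    exact zf_sub_cont hF (hSd ha) (hSd hb)
  have e1 : zf F b - zf F a - tw w (b - a) =
      ∫ t in (0:ℝ)..1, (tw (F (a + t * (b - a))) (b - a) - tw w (b - a)) := by
    rw [intervalIntegral.integral_sub hi (by simp), zf_sub hd hF (hSd ha) (hSd hb)]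
    simp
  rw [e1]
  have := intervalIntegral.norm_integral_le_of_norm_le_const (a := (0:ℝ)) (b := 1)
    (f := fun t : ℝ => tw (F (a + t * (b - a))) (b - a) - tw w (b - a))
    (C := Real.exp M * e * ‖b - a‖) ?_
  · simpa using this
  · intro t ht
    rw [uIoc_of_le zero_le_one] at ht
    have hm := hseg t ⟨ht.1.le, ht.2⟩
    have h1 := he _ hm
    have h2 : |(F (a + t * (b - a))).re| ≤ M := by
      have h3 : |(F (a + t * (b - a)) - w).re| ≤ e := (abs_re_le_norm _).trans h1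
      rw [sub_re] at h3
      have h4 := abs_le.mp h3
      have h5 := abs_le.mp (le_refl |w.re|)
      rw [abs_le]
      constructor <;> linarith [h4.1, h4.2, h5.1, h5.2]
    have h3 : |w.re| ≤ M := by linarith
    refine (tw_diff _ h2 h3).trans ?_
    gcongr

theorem zf_close {F F' : ℂ → ℂ} {d : ℝ} (hd : 0 < d) (hF : DifferentiableOn ℂ F (Hd d))
    (hF' : DifferentiableOn ℂ F' (Hd d)) {S : Set ℂ}
    (hS : Convex ℝ S) (hSd : S ⊆ Hd d) {e M : ℝ} (he : ∀ z ∈ S, ‖F z - F' z‖ ≤ e)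
    (hM : ∀ z ∈ S, |(F z).re| ≤ M) (hM' : ∀ z ∈ S, |(F' z).re| ≤ M)
    {a b : ℂ} (ha : a ∈ S) (hb : b ∈ S) :
    ‖(zf F b - zf F a) - (zf F' b - zf F' a)‖ ≤ Real.exp M * e * ‖b - a‖ := by
  have hseg : ∀ t ∈ Icc (0:ℝ) 1, a + t * (b - a) ∈ S := by
    intro t ht
    have h := hS.add_smul_sub_mem ha hb ht
    simpa [real_smul] using h
  have hi : IntervalIntegrable (fun t : ℝ => tw (F (a + t * (b - a))) (b - a))
      MeasureTheory.volume 0 1 := by
    apply ContinuousOn.intervalIntegrable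
    rw [uIcc_of_le zero_le_one]
    exact zf_sub_cont hF (hSd ha) (hSd hb)
  have hi' : IntervalIntegrable (fun t : ℝ => tw (F' (a + t * (b - a))) (b - a))
      MeasureTheory.volume 0 1 := by
    apply ContinuousOn.intervalIntegrable
    rw [uIcc_of_le zero_le_one]
    exact zf_sub_cont hF' (hSd ha) (hSd hb)
  have e1 : (zf F b - zf F a) - (zf F' b - zf F' a) =
      ∫ t in (0:ℝ)..1, (tw (F (a + t * (b - a))) (b - a) - tw (F' (a + t * (b - a))) (b - a)) := by
    rw [intervalIntegral.integral_sub hi hi', zf_sub hd hF (hSd ha) (hSd hb),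
      zf_sub hd hF' (hSd ha) (hSd hb)]
  rw [e1]
  have := intervalIntegral.norm_integral_le_of_norm_le_const (a := (0:ℝ)) (b := 1)
    (f := fun t : ℝ => tw (F (a + t * (b - a))) (b - a) - tw (F' (a + t * (b - a))) (b - a))
    (C := Real.exp M * e * ‖b - a‖) ?_
  · simpa using this
  · intro t ht
    rw [uIoc_of_le zero_le_one] at ht
    have hm := hseg t ⟨ht.1.le, ht.2⟩
    refine (tw_diff _ (hM _ hm) (hM' _ hm)).trans ?_
    have := he _ hm
    gcongr

end PoolB27
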