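import Pool.Agent.Work.MP_b27c98_an.Defs
import Pool.Agent.Work.MP_b27c98_an.TwB
import Pool.Agent.Work.MP_b27c98_an.TlB
import Pool.Agent.Work.MP_b27c98_an.ZfB
import Pool.Agent.Work.MP_b27c98_an.ZfL

/-
MODULE Adj (size M). qf l = 1 + 1/(l/2 + i)^2 and small changes of the value at infinity.

FACTS on qf: put u = l/2 + i. For l ∈ Hd 1: Im u > 1/2, so ‖1/u²‖ ≤ 4, ‖qf l‖ ≤ 5, holomorphic. For l ∈ Hc:
Im u ≥ 1, ‖u‖ ≥ 1, ‖1/u²‖ ≤ 1, so Re (qf l) ≥ 0; ‖u‖² = ‖l‖²/4 + Im l + 1 ≥ (1 + ‖l‖)²/8, so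
‖qf l - 1‖ ≤ 8/(1+‖l‖)² ≤ 8 tl ‖l‖ (TlB.inv_sq_le_tl). qf 0 = 1 + 1/i² = 0.
For real s, with r = s/2: 1/(r + i)² = (r - i)²/(r²+1)², Im qf = -2r/(r²+1)².
ADJUST: τ₀ := min (1/(10 κ)) (1/(10 κ exp(κ+1))) (say). F' := F + τ qf, |τ| ≤ τ₀.
 one_le, diff clear; ‖F'‖ ≤ κ + 5 τ₀ ≤ 2κ; Re F' ≥ κ⁻¹ - 5 τ₀ ≥ (2κ)⁻¹; tail: ‖F' - (w+τ)‖ ≤ (κ + 8|τ|) tl ≤ 2κ tl;
 low: ZfL.zf_close on S = Hc with e = 5 |τ|, M = κ + 1 (5τ₀ ≤ 1):
 ‖zf F' a - zf F' b‖ ≥ κ⁻¹ ‖a-b‖ - exp(κ+1) 5 τ₀ ‖a-b‖ ≥ (2κ)⁻¹ ‖a - b‖.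
-/

set_option autoImplicit false

namespace PoolB27

open Complex Set Metric

private theorem u_im (l : ℂ) : (l / 2 + I).im = l.im / 2 + 1 := by
  rw [add_im, I_im]
  congr 1
  have : l / 2 = ((1 / 2 : ℝ) : ℂ) * l := by push_cast; ring
  rw [this, im_ofReal_mul]
  ring

private theorem u_re (l : ℂ) : (l / 2 + I).re = l.re / 2 := by
  rw [add_re, I_re, add_zero]
  have : l / 2 = ((1 / 2 : ℝ) : ℂ) * l := by push_cast; ring
  rw [this, re_ofReal_mul]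
  ring

private theorem u_ne {l : ℂ} (hl : l ∈ Hd 1) : 1 / 2 < ‖l / 2 + I‖ := by
  have h1 : -1 < l.im := hl
  have h2 := (le_abs_self _).trans (abs_im_le_norm (l / 2 + I))
  rw [u_im] at h2
  linarith

theorem qf_diff : DifferentiableOn ℂ qf (Hd 1) := by
  intro l hl
  have h1 : (l / 2 + I) ^ 2 ≠ 0 := by
    apply pow_ne_zero
    rw [← norm_pos_iff]
    linarith [u_ne hl]
  have h2 : DifferentiableAt ℂ (fun l : ℂ => 1 + 1 / (l / 2 + I) ^ 2) l := by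
    have h3 : DifferentiableAt ℂ (fun l : ℂ => (l / 2 + I) ^ 2) l := by fun_prop
    exact ((differentiableAt_const (1:ℂ)).div h3 h1).const_add 1
  exact h2.differentiableWithinAt

theorem qf_bound : ∀ l ∈ Hd 1, ‖qf l‖ ≤ 5 := by
  intro l hl
  have h1 := u_ne hl
  unfold qf
  refine (norm_add_le _ _).trans ?_
  rw [norm_one, norm_div, norm_one, norm_pow]
  have h2 : (1 / 4 : ℝ) ≤ ‖l / 2 + I‖ ^ 2 := by nlinarith
  have h3 : 1 / ‖l / 2 + I‖ ^ 2 ≤ 1 / (1 / 4 : ℝ) :=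
    div_le_div_of_nonneg_left (by norm_num) (by norm_num) h2
  norm_num at h3 ⊢
  linarith

private theorem u_one {l : ℂ} (hl : l ∈ Hc) : 1 ≤ ‖l / 2 + I‖ := by
  have h1 : 0 ≤ l.im := hl
  have h2 := (le_abs_self _).trans (abs_im_le_norm (l / 2 + I))
  rw [u_im] at h2
  linarith

theorem qf_re : ∀ l ∈ Hc, 0 ≤ (qf l).re := by
  intro l hl
  have h1 := u_one hl
  unfold qf
  rw [add_re, one_re]
  have h2 := (abs_le.mp (abs_re_le_norm (1 / (l / 2 + I) ^ 2))).1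
  rw [norm_div, norm_one, norm_pow] at h2
  have h3 : 1 / ‖l / 2 + I‖ ^ 2 ≤ 1 := by
    rw [div_le_one (by positivity)]
    exact one_le_pow₀ h1
  linarith

theorem qf_zero : qf 0 = 0 := by
  unfold qf
  simp

theorem qf_tail : ∀ l ∈ Hc, ‖qf l - 1‖ ≤ 8 / (1 + ‖l‖) ^ 2 := by
  intro l hl
  have h0 : 0 ≤ l.im := hl
  have h1 := u_one hl
  unfold qf
  rw [add_sub_cancel_left, norm_div, norm_one, norm_pow]
  have h2 : (1 + ‖l‖) ^ 2 / 8 ≤ ‖l / 2 + I‖ ^ 2 := by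
    rw [Complex.sq_norm, normSq_apply, u_re, u_im]
    have h3 := Complex.sq_norm l
    rw [normSq_apply] at h3
    nlinarith [sq_nonneg (1 - ‖l‖)]
  have h3 : (0:ℝ) < (1 + ‖l‖) ^ 2 := by positivity
  rw [div_le_div_iff₀ (by positivity) h3]
  linarith

theorem qf_im (s : ℝ) : (qf s).im = -(2 * (s / 2) / ((s / 2) ^ 2 + 1) ^ 2) := by
  have h1 : qf s = 1 + (((s / 2 : ℝ) : ℂ) - I) ^ 2 / (((s / 2 : ℝ) : ℂ) ^ 2 + 1) ^ 2 := by
    unfold qf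
    congr 1
    have h2 : (((s / 2 : ℝ) : ℂ) - I) * (((s / 2 : ℝ) : ℂ) + I) = ((s / 2 : ℝ) : ℂ) ^ 2 + 1 := by
      have := I_sq
      linear_combination -this
    have h3 : (((s / 2 : ℝ) : ℂ) ^ 2 + 1) ≠ 0 := by
      have : (0:ℝ) < (s / 2) ^ 2 + 1 := by positivity
      exact_mod_cast this.ne'
    have h4 : ((s : ℂ) / 2 + I) = (((s / 2 : ℝ) : ℂ) + I) := by push_cast; rfl
    have h5 : (((s / 2 : ℝ) : ℂ) + I) ≠ 0 := fun h => h3 (by rw [← h2, h, mul_zero])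
    rw [h4, div_eq_div_iff (pow_ne_zero _ h5) (pow_ne_zero _ h3), ← h2]
    ring
  have h6 : (((s / 2 : ℝ) : ℂ) - I) ^ 2 / (((s / 2 : ℝ) : ℂ) ^ 2 + 1) ^ 2 =
      (((((s / 2) ^ 2 - 1) / ((s / 2) ^ 2 + 1) ^ 2 : ℝ)) : ℂ) +
      ((-(2 * (s / 2) / ((s / 2) ^ 2 + 1) ^ 2) : ℝ) : ℂ) * I := by
    have h7 : (((s / 2 : ℝ) : ℂ) - I) ^ 2 = ((s / 2 : ℝ) : ℂ) ^ 2 - 1 -
        2 * ((s / 2 : ℝ) : ℂ) * I := by
      have := I_sq
      linear_combination this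
    rw [h7]
    push_cast
    ring
  rw [h1, h6]
  rw [add_im, add_im, one_im, ofReal_im, im_ofReal_mul, I_im]
  ring

theorem adjust {κ : ℝ} (hκ : 1 ≤ κ) :
    ∃ τ₀ > 0, ∀ (F : ℂ → ℂ) (w : ℂ), Adm κ F w → ∀ τ : ℝ, |τ| ≤ τ₀ →
      Adm (2 * κ) (fun l => F l + τ * qf l) (w + τ) := by
  have hκ0 : 0 < κ := by linarith
  have hexp : 0 < Real.exp (κ + 1) := Real.exp_pos _
  have hexp1 : 1 ≤ Real.exp (κ + 1) := Real.one_le_exp (by linarith)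
  refine ⟨1 / (10 * κ * Real.exp (κ + 1)), by positivity, ?_⟩
  intro F w hF τ hτ
  -- bounds on tau
  have hτ1 : |τ| * (10 * κ * Real.exp (κ + 1)) ≤ 1 := by
    rwa [le_div_iff₀ (by positivity)] at hτ
  have hτ0 := abs_nonneg τ
  have b1 : 5 * |τ| ≤ (2 * κ)⁻¹ := by
    rw [inv_eq_one_div, le_div_iff₀ (by positivity)]
    have : |τ| * (10 * κ) * 1 ≤ |τ| * (10 * κ) * Real.exp (κ + 1) :=
      mul_le_mul_of_nonneg_left hexp1 (by positivity)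
    linarith
  have b2 : Real.exp (κ + 1) * (5 * |τ|) ≤ (2 * κ)⁻¹ := by
    rw [inv_eq_one_div, le_div_iff₀ (by positivity)]
    linarith
  have b3 : (2 * κ)⁻¹ ≤ 1 / 2 := by
    rw [inv_eq_one_div]
    apply div_le_div_of_nonneg_left <;> linarith
  have b4 : κ⁻¹ = (2 * κ)⁻¹ + (2 * κ)⁻¹ := by
    field_simp
    norm_num
  have hqn : ∀ l ∈ Hd 1, ‖(τ : ℂ) * qf l‖ ≤ 5 * |τ| := by
    intro l hl
    rw [norm_mul, norm_real, Real.norm_eq_abs]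
    have := mul_le_mul_of_nonneg_left (qf_bound l hl) hτ0
    linarith
  have hHc : Hc ⊆ Hd 1 := Hc_sub_Hd one_pos
  have hFd := hF.diff
  have hF'd : DifferentiableOn ℂ (fun l => F l + τ * qf l) (Hd 1) :=
    hFd.add (qf_diff.const_mul _)
  refine ⟨⟨by linarith, hF'd, ?_, ?_, ?_⟩, ?_⟩
  · intro l hl
    have h1 := norm_add_le (F l) ((τ : ℂ) * qf l)
    have h2 := hF.bound l hl
    have h3 := hqn l hl
    linarith
  · intro l hl
    have h1 := hF.pos l hl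
    have h2 := hqn l (hHc hl)
    have h3 := (abs_le.mp (abs_re_le_norm ((τ : ℂ) * qf l))).1
    show (2 * κ)⁻¹ ≤ (F l + τ * qf l).re
    rw [add_re]
    linarith
  · intro l hl
    have h1 := hF.tail l hl
    have h2 := qf_tail l hl
    have h3 := inv_sq_le_tl (norm_nonneg l)
    have h4 : 0 ≤ tl ‖l‖ := tl_nonneg (norm_nonneg l)
    have h5 : (F l + τ * qf l) - (w + τ) = (F l - w) + τ * (qf l - 1) := by ring
    show ‖(F l + τ * qf l) - (w + τ)‖ ≤ 2 * κ * tl ‖l‖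
    rw [h5]
    refine (norm_add_le _ _).trans ?_
    rw [norm_mul, norm_real, Real.norm_eq_abs]
    have h6 : 8 / (1 + ‖l‖) ^ 2 ≤ 8 * tl ‖l‖ := by
      have : 8 / (1 + ‖l‖) ^ 2 = 8 * (1 / (1 + ‖l‖) ^ 2) := by ring
      rw [this]
      linarith
    have h7 : |τ| * ‖qf l - 1‖ ≤ |τ| * (8 * tl ‖l‖) :=
      mul_le_mul_of_nonneg_left (h2.trans h6) hτ0
    have h8 : 8 * |τ| ≤ κ := by linarith
    have h9 : 8 * |τ| * tl ‖l‖ ≤ κ * tl ‖l‖ := mul_le_mul_of_nonneg_right h8 h4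
    linarith
  · intro p hp q hq
    have h1 := hF.low p hp q hq
    have hre : ∀ z ∈ Hc, |(F z).re| ≤ κ + 1 := by
      intro z hz
      have := (abs_re_le_norm (F z)).trans (hF.bound z (hHc hz))
      linarith
    have hre' : ∀ z ∈ Hc, |(F z + τ * qf z).re| ≤ κ + 1 := by
      intro z hz
      have h2 := abs_re_le_norm (F z + τ * qf z)
      have h3 := norm_add_le (F z) ((τ : ℂ) * qf z)
      have h4 := hF.bound z (hHc hz)
      have h5 := hqn z (hHc hz)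
      linarith
    have h2 := zf_close (F := F) (F' := fun l => F l + τ * qf l) one_pos hFd hF'd convex_Hc hHc
      (e := 5 * |τ|) (M := κ + 1) (fun z hz => by
        have h3 : F z - (F z + τ * qf z) = -((τ : ℂ) * qf z) := by ring
        rw [h3, norm_neg]
        exact hqn z (hHc hz)) hre hre' hq hp
    have h3 := norm_sub_norm_le (zf F p - zf F q)
      ((zf F p - zf F q) - (zf (fun l => F l + τ * qf l) p - zf (fun l => F l + τ * qf l) q))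
    rw [sub_sub_cancel] at h3
    have h4 : Real.exp (κ + 1) * (5 * |τ|) * ‖p - q‖ ≤ (2 * κ)⁻¹ * ‖p - q‖ :=
      mul_le_mul_of_nonneg_right b2 (norm_nonneg _)
    rw [b4] at h1
    linarith

end PoolB27
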