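import Pool.Agent.Work.MP_b27c98_an.Defs
import Pool.Agent.Work.MP_b27c98_an.TwB

/-
MODULE CurB (size M). Curves cur f s = int_0^s bd (f t) dt for continuous f : ℝ → ℂ.

PROOFS. cur_hasDerivAt, cur_sub: fundamental theorem of calculus, additivity of the integral.
cur_close: |bd (f t) - bd (g t)| <= e^M e by TwB.bd_diff; norm_integral_le_of_norm_le_const.
cur_osc: bd w = i e^(-i φ) cosh v. Multiply by (-i) e^(iθ): Re ((-i) e^(iθ) bd (f t))
 = cos (φ - θ) cosh v >= c on uIcc a b (c >= 0, cosh v >= 1). The integral over [a,b] of the real part is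
 >= c |b - a| (if a <= b; otherwise exchange a and b, the norm is symmetric), and
 |cur f b - cur f a| >= Re ((-i) e^(iθ) (cur f b - cur f a)).
cur_osc_one: cur_osc with θ = Im (f a), c = 1/2: cos x >= 1/2 for |x| <= 1 (cos is even and decreasing
 on [0,1], 1 <= pi/3; e.g. Real.one_sub_sq_div_two_le_cos: cos x >= 1 - x^2/2 >= 1/2).
cur_osc_im: cur_osc with θ = 0.
-/

namespace PoolB27

open Complex Set Metric

private theorem bdc {f : ℝ → ℂ} (hf : Continuous f) : Continuous (fun t => bd (f t)) :=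
  continuous_bd.comp hf

theorem cur_zero (f : ℝ → ℂ) : cur f 0 = 0 := by
  simp [cur]

theorem cur_hasDerivAt {f : ℝ → ℂ} (hf : Continuous f) (s : ℝ) :
    HasDerivAt (cur f) (bd (f s)) s := by
  have h := (bdc hf).integral_hasStrictDerivAt 0 s
  exact h.hasDerivAt

theorem cur_sub {f : ℝ → ℂ} (hf : Continuous f) (a b : ℝ) :
    cur f b - cur f a = ∫ t in a..b, bd (f t) := by
  unfold cur
  exact intervalIntegral.integral_interval_sub_left ((bdc hf).intervalIntegrable _ _)
    ((bdc hf).intervalIntegrable _ _)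

theorem cur_close {f g : ℝ → ℂ} (hf : Continuous f) (hg : Continuous g) {e M a b : ℝ}
    (he : ∀ t ∈ uIcc a b, ‖f t - g t‖ ≤ e) (hM : ∀ t ∈ uIcc a b, |(f t).re| ≤ M)
    (hM' : ∀ t ∈ uIcc a b, |(g t).re| ≤ M) :
    ‖(cur f b - cur f a) - (cur g b - cur g a)‖ ≤ Real.exp M * e * |b - a| := by
  rw [cur_sub hf, cur_sub hg, ← intervalIntegral.integral_sub ((bdc hf).intervalIntegrable _ _)
    ((bdc hg).intervalIntegrable _ _)]
  apply intervalIntegral.norm_integral_le_of_norm_le_const
  intro t ht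
  have ht' : t ∈ uIcc a b := uIoc_subset_uIcc ht
  refine (bd_diff (hM t ht') (hM' t ht')).trans ?_
  have := he t ht'
  gcongr

theorem cur_osc {f : ℝ → ℂ} (hf : Continuous f) {a b θ c : ℝ} (hc : 0 ≤ c)
    (h : ∀ t ∈ uIcc a b, c ≤ Real.cos ((f t).im - θ)) : c * |b - a| ≤ ‖cur f b - cur f a‖ := by
  wlog hab : a ≤ b generalizing a b with H
  · have := H (a := b) (b := a) (by rwa [uIcc_comm]) (le_of_not_ge hab)
    rwa [abs_sub_comm, norm_sub_rev] at this
  rw [abs_of_nonneg (by linarith : 0 ≤ b - a)]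
  rw [uIcc_of_le hab] at h
  -- the direction
  set D : ℂ := (-I) * exp ((θ : ℂ) * I) with hD
  have hDn : ‖D‖ = 1 := by
    rw [hD, norm_mul, norm_neg, norm_I, norm_exp_ofReal_mul_I, one_mul]
  have hre : ∀ t, (D * bd (f t)).re = Real.cos ((f t).im - θ) * Real.cosh (f t).re := by
    intro t
    have e1 : D * bd (f t) = exp (((θ - (f t).im : ℝ) : ℂ) * I) *
        ((Real.cosh (f t).re : ℝ) : ℂ) := by
      rw [hD, bd_eq]
      have e2 : exp ((θ : ℂ) * I) * exp (-(((f t).im : ℂ) * I)) =
          exp (((θ - (f t).im : ℝ) : ℂ) * I) := by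
        rw [← exp_add]
        congr 1
        push_cast
        ring
      rw [← e2]
      have hI : (I : ℂ) * I = -1 := I_mul_I
      linear_combination (-(exp ((θ : ℂ) * I) * exp (-(((f t).im : ℂ) * I)) *
        ((Real.cosh (f t).re : ℝ) : ℂ))) * hI
    rw [e1, re_mul_ofReal, exp_ofReal_mul_I_re, ← Real.cos_neg]
    congr 2
    ring
  have h1 : D * (cur f b - cur f a) = ∫ t in a..b, D * bd (f t) := by
    rw [cur_sub hf, intervalIntegral.integral_const_mul]
  have hcont : Continuous (fun t => D * bd (f t)) := continuous_const.mul (bdc hf)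
  have h2 : (D * (cur f b - cur f a)).re = ∫ t in a..b, (D * bd (f t)).re := by
    rw [h1]
    have := (ContinuousLinearMap.intervalIntegral_comp_comm (μ := MeasureTheory.volume) reCLM
      (hcont.intervalIntegrable a b))
    simpa using this.symm
  have h3 : c * (b - a) ≤ ∫ t in a..b, (D * bd (f t)).re := by
    have h4 : ∫ t in a..b, c ≤ ∫ t in a..b, (D * bd (f t)).re := by
      apply intervalIntegral.integral_mono_on hab (by simp)
        ((Complex.continuous_re.comp hcont).intervalIntegrable a b)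
      intro t ht
      show c ≤ (D * bd (f t)).re
      rw [hre t]
      have h5 := h t ht
      have h6 := Real.one_le_cosh (f t).re
      nlinarith
    simpa [mul_comm] using h4
  calc c * (b - a) ≤ (D * (cur f b - cur f a)).re := by rw [h2]; exact h3
    _ ≤ ‖D * (cur f b - cur f a)‖ := re_le_norm _
    _ = ‖cur f b - cur f a‖ := by rw [norm_mul, hDn, one_mul]

private theorem cos_ge_half {x : ℝ} (hx : |x| ≤ 1) : 1 / 2 ≤ Real.cos x := by
  have h1 := Real.one_sub_sq_div_two_le_cos (x := x)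
  have h2 : x ^ 2 ≤ 1 := by
    rw [← sq_abs]
    nlinarith [abs_nonneg x]
  linarith

theorem cur_osc_one {f : ℝ → ℂ} (hf : Continuous f) {a b : ℝ}
    (h : ∀ t ∈ uIcc a b, |(f t).im - (f a).im| ≤ 1) : |b - a| / 2 ≤ ‖cur f b - cur f a‖ := by
  have := cur_osc hf (a := a) (b := b) (θ := (f a).im) (c := 1 / 2) (by norm_num)
    (fun t ht => cos_ge_half (h t ht))
  linarith

theorem cur_osc_im {f : ℝ → ℂ} (hf : Continuous f) {a b : ℝ}
    (h : ∀ t ∈ uIcc a b, |(f t).im| ≤ 1) : |b - a| / 2 ≤ ‖cur f b - cur f a‖ := by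
  have := cur_osc hf (a := a) (b := b) (θ := 0) (c := 1 / 2) (by norm_num)
    (fun t ht => cos_ge_half (by rw [sub_zero]; exact h t ht))
  linarith

end PoolB27
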