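import Pool.Agent.Work.MP_b27c98_an.Defs

/-
MODULE GgA (size M). Derivative and Lipschitz bounds of gg α on the closed first quadrant Qc, 0 < sin α.

exp(α i) = cos α + i sin α, exp(-α i) = cos α - i sin α. For Im σ > -sin α the points σ + e^{iα} and σ - e^{-iα} have imaginary
part Im σ + sin α > 0, so they are in Complex.slitPlane and log is holomorphic there:
 gg' = 2/(σ + e^{iα}) - 2/(σ - e^{-iα}) = -2 (e^{iα} + e^{-iα}) / ((σ+e^{iα})(σ-e^{-iα})) = -4 cos α/(...).   (gg_hasDerivAt)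
gg_deriv_bound for σ ∈ Qc: both factors have modulus ≥ sin α, and ≥ ‖σ‖ - 1. If ‖σ‖ ≤ 2 the quotient is ≤ 4/sin²α ≤
 20/(sin²α (1+‖σ‖²)); if ‖σ‖ ≥ 2 it is ≤ 4/(‖σ‖-1)² ≤ 16/‖σ‖² ≤ 20/(1+‖σ‖²) ≤ 20/(sin²α (1+‖σ‖²)).
gg_seg: Qc is convex; for points of the segment [σ,τ] ⊆ Qc, ‖(1-t)σ + tτ‖² ≥ (1-t)²‖σ‖² + t²‖τ‖² (as Re(σ conj τ) ≥ 0)
 ≥ ((1-t)²+t²) r² ≥ r²/2. So the derivative is ≤ 20/(sin²α (1 + r²/2)) on the segment: mean value inequality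
 (Convex.norm_image_sub_le_of_norm_hasDerivWithin_le on the segment). gg_lip is the case r = 0.
-/

set_option autoImplicit false

namespace PoolB27

open Complex Set Metric

private theorem e1re (α : ℝ) : (exp (α * I)).re = Real.cos α := exp_ofReal_mul_I_re α

private theorem e1im (α : ℝ) : (exp (α * I)).im = Real.sin α := exp_ofReal_mul_I_im α

private theorem e2re (α : ℝ) : (exp (-(α * I))).re = Real.cos α := by
  have : -((α : ℂ) * I) = ((-α : ℝ) : ℂ) * I := by push_cast; ring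
  rw [this, exp_ofReal_mul_I_re, Real.cos_neg]

private theorem e2im (α : ℝ) : (exp (-(α * I))).im = -Real.sin α := by
  have : -((α : ℂ) * I) = ((-α : ℝ) : ℂ) * I := by push_cast; ring
  rw [this, exp_ofReal_mul_I_im, Real.sin_neg]

private theorem esum (α : ℝ) : exp (α * I) + exp (-(α * I)) = 2 * (Real.cos α : ℂ) := by
  apply Complex.ext
  · rw [add_re, e1re, e2re]
    simp only [mul_re, re_ofNat, im_ofNat, ofReal_re, ofReal_im]
    ring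
  · rw [add_im, e1im, e2im]
    simp only [mul_im, re_ofNat, im_ofNat, ofReal_re, ofReal_im]
    ring

private theorem en1 (α : ℝ) : ‖exp ((α : ℂ) * I)‖ = 1 := norm_exp_ofReal_mul_I α

private theorem en2 (α : ℝ) : ‖exp (-((α : ℂ) * I))‖ = 1 := by
  have : -((α : ℂ) * I) = ((-α : ℝ) : ℂ) * I := by push_cast; ring
  rw [this, norm_exp_ofReal_mul_I]

theorem convex_Qc : Convex ℝ Qc := by
  have h1 : Qc = {z : ℂ | 0 ≤ z.re} ∩ {z : ℂ | 0 ≤ z.im} := rfl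
  rw [h1]
  exact (convex_halfSpace_re_ge 0).inter (convex_halfSpace_im_ge 0)

theorem add_im_pos {α : ℝ} {σ : ℂ} (hσ : -Real.sin α < σ.im) :
    0 < (σ + exp (α * I)).im ∧ 0 < (σ - exp (-(α * I))).im := by
  rw [add_im, sub_im, e1im, e2im]
  constructor <;> linarith

theorem gg_hasDerivAt {α : ℝ} {σ : ℂ} (hσ : -Real.sin α < σ.im) :
    HasDerivAt (gg α) (-4 * Real.cos α / ((σ + exp (α * I)) * (σ - exp (-(α * I))))) σ := by
  obtain ⟨h1, h2⟩ := add_im_pos hσ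
  have s1 : (σ + exp (α * I)) ∈ slitPlane := mem_slitPlane_iff.mpr (Or.inr h1.ne')
  have s2 : (σ - exp (-(α * I))) ∈ slitPlane := mem_slitPlane_iff.mpr (Or.inr h2.ne')
  have n1 := slitPlane_ne_zero s1
  have n2 := slitPlane_ne_zero s2
  have d1 : HasDerivAt (fun σ : ℂ => σ + exp (α * I)) 1 σ := (hasDerivAt_id σ).add_const _
  have d2 : HasDerivAt (fun σ : ℂ => σ - exp (-(α * I))) 1 σ := (hasDerivAt_id σ).sub_const _
  have h3 := (((d1.clog s1).const_mul 2).const_add (2 * Real.pi * I)).sub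
    ((d2.clog s2).const_mul 2)
  have h4 : gg α = fun σ : ℂ => 2 * Real.pi * I + 2 * log (σ + exp (α * I)) -
      2 * log (σ - exp (-(α * I))) := rfl
  rw [h4]
  refine h3.congr_deriv ?_
  have h5 : -4 * (Real.cos α : ℂ) = 2 * (σ - exp (-(α * I))) - 2 * (σ + exp (α * I)) := by
    have := esum α
    linear_combination 2 * this
  rw [h5]
  field_simp

theorem gg_deriv_bound {α : ℝ} (hα : 0 < Real.sin α) {σ : ℂ} (hσ : σ ∈ Qc) :
    ‖-4 * (Real.cos α : ℂ) / ((σ + exp (α * I)) * (σ - exp (-(α * I))))‖ ≤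
      20 / ((Real.sin α) ^ 2 * (1 + ‖σ‖ ^ 2)) := by
  obtain ⟨P, hP⟩ : ∃ P, P = σ + exp (α * I) := ⟨_, rfl⟩
  obtain ⟨Q, hQ⟩ : ∃ Q, Q = σ - exp (-(α * I)) := ⟨_, rfl⟩
  rw [← hP, ← hQ]
  have hσi : 0 ≤ σ.im := hσ.2
  have p1 : Real.sin α ≤ ‖P‖ := by
    have h1 : Real.sin α ≤ P.im := by rw [hP, add_im, e1im]; linarith
    exact h1.trans ((le_abs_self _).trans (abs_im_le_norm P))
  have q1 : Real.sin α ≤ ‖Q‖ := by
    have h1 : Real.sin α ≤ Q.im := by rw [hQ, sub_im, e2im]; linarith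
    exact h1.trans ((le_abs_self _).trans (abs_im_le_norm Q))
  have p2 : ‖σ‖ - 1 ≤ ‖P‖ := by
    have := norm_sub_norm_le σ (-exp (α * I))
    rw [norm_neg, en1, sub_neg_eq_add, ← hP] at this
    exact this
  have q2 : ‖σ‖ - 1 ≤ ‖Q‖ := by
    have := norm_sub_norm_le σ (exp (-(α * I)))
    rw [en2, ← hQ] at this
    exact this
  rw [norm_div, norm_mul, norm_mul, norm_neg]
  have hc : ‖(Real.cos α : ℂ)‖ ≤ 1 := by
    rw [norm_real, Real.norm_eq_abs]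
    exact Real.abs_cos_le_one α
  have h4 : ‖(4:ℂ)‖ = 4 := by simp
  rw [h4]
  have hpq : 0 < ‖P‖ * ‖Q‖ := mul_pos (hα.trans_le p1) (hα.trans_le q1)
  have hD : 0 < (Real.sin α) ^ 2 * (1 + ‖σ‖ ^ 2) := by positivity
  rw [div_le_div_iff₀ hpq hD]
  have hn := norm_nonneg σ
  have hs1 := Real.sin_le_one α
  have key : 4 * ((Real.sin α) ^ 2 * (1 + ‖σ‖ ^ 2)) ≤ 20 * (‖P‖ * ‖Q‖) := by
    rcases le_total ‖σ‖ 2 with h | h
    · have h5 : (Real.sin α) ^ 2 ≤ ‖P‖ * ‖Q‖ := by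
        rw [pow_two]
        exact mul_le_mul p1 q1 hα.le (norm_nonneg _)
      have h6 : 1 + ‖σ‖ ^ 2 ≤ 5 := by nlinarith
      have h7 : (Real.sin α) ^ 2 * (1 + ‖σ‖ ^ 2) ≤ (Real.sin α) ^ 2 * 5 :=
        mul_le_mul_of_nonneg_left h6 (sq_nonneg _)
      linarith
    · have h5 : (‖σ‖ - 1) * (‖σ‖ - 1) ≤ ‖P‖ * ‖Q‖ :=
        mul_le_mul p2 q2 (by linarith) (norm_nonneg _)
      have h6 : (Real.sin α) ^ 2 ≤ 1 := by nlinarith
      have h7 : (Real.sin α) ^ 2 * (1 + ‖σ‖ ^ 2) ≤ 1 * (1 + ‖σ‖ ^ 2) :=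
        mul_le_mul_of_nonneg_right h6 (by positivity)
      nlinarith
  have h8 : 4 * ‖(Real.cos α : ℂ)‖ * ((Real.sin α) ^ 2 * (1 + ‖σ‖ ^ 2)) ≤
      4 * 1 * ((Real.sin α) ^ 2 * (1 + ‖σ‖ ^ 2)) :=
    mul_le_mul_of_nonneg_right (mul_le_mul_of_nonneg_left hc (by norm_num)) hD.le
  linarith

theorem gg_seg {α : ℝ} (hα : 0 < Real.sin α) {σ τ : ℂ} (hσ : σ ∈ Qc) (hτ : τ ∈ Qc) {r : ℝ}
    (hr : 0 ≤ r) (h1 : r ≤ ‖σ‖) (h2 : r ≤ ‖τ‖) :
    ‖gg α σ - gg α τ‖ ≤ 20 / ((Real.sin α) ^ 2 * (1 + r ^ 2 / 2)) * ‖σ - τ‖ := by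
  have hseg : segment ℝ τ σ ⊆ Qc := convex_Qc.segment_subset hτ hσ
  have hb : ∀ z ∈ segment ℝ τ σ, r ^ 2 / 2 ≤ ‖z‖ ^ 2 := by
    rintro z ⟨a, b, ha, hb, hab, rfl⟩
    have k1 := Complex.sq_norm σ
    have k2 := Complex.sq_norm τ
    have k3 := Complex.sq_norm (a • τ + b • σ)
    rw [Complex.normSq_apply] at k1 k2 k3
    rw [k3]
    simp only [add_re, add_im, real_smul, mul_re, mul_im, ofReal_re, ofReal_im, zero_mul, sub_zero,
      add_zero]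
    have m1 : r ^ 2 ≤ σ.re * σ.re + σ.im * σ.im := by rw [← k1]; exact pow_le_pow_left₀ hr h1 2
    have m2 : r ^ 2 ≤ τ.re * τ.re + τ.im * τ.im := by rw [← k2]; exact pow_le_pow_left₀ hr h2 2
    have m3 : 0 ≤ a * b * (τ.re * σ.re + τ.im * σ.im) :=
      mul_nonneg (mul_nonneg ha hb)
        (add_nonneg (mul_nonneg hτ.1 hσ.1) (mul_nonneg hτ.2 hσ.2))
    have m4 : a ^ 2 * r ^ 2 ≤ a ^ 2 * (τ.re * τ.re + τ.im * τ.im) :=
      mul_le_mul_of_nonneg_left m2 (sq_nonneg _)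
    have m5 : b ^ 2 * r ^ 2 ≤ b ^ 2 * (σ.re * σ.re + σ.im * σ.im) :=
      mul_le_mul_of_nonneg_left m1 (sq_nonneg _)
    have m6 : r ^ 2 / 2 ≤ a ^ 2 * r ^ 2 + b ^ 2 * r ^ 2 := by
      have hb' : b = 1 - a := by linarith
      rw [hb']
      nlinarith [mul_nonneg (sq_nonneg (2 * a - 1)) (sq_nonneg r)]
    nlinarith
  have hmv := (convex_segment (𝕜 := ℝ) τ σ).norm_image_sub_le_of_norm_hasDerivWithin_le
    (f := gg α) (f' := fun z => -4 * (Real.cos α : ℂ) / ((z + exp (α * I)) *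
      (z - exp (-(α * I))))) (C := 20 / ((Real.sin α) ^ 2 * (1 + r ^ 2 / 2)))
    (fun z hz => (gg_hasDerivAt (by
      have := (hseg hz).2
      linarith)).hasDerivWithinAt) (fun z hz => by
        refine (gg_deriv_bound hα (hseg hz)).trans ?_
        apply div_le_div_of_nonneg_left (by norm_num) (by positivity)
        apply mul_le_mul_of_nonneg_left _ (by positivity)
        linarith [hb z hz]) (left_mem_segment ℝ τ σ) (right_mem_segment ℝ τ σ)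
  exact hmv

theorem gg_lip {α : ℝ} (hα : 0 < Real.sin α) {σ τ : ℂ} (hσ : σ ∈ Qc) (hτ : τ ∈ Qc) :
    ‖gg α σ - gg α τ‖ ≤ 20 / (Real.sin α) ^ 2 * ‖σ - τ‖ := by
  have h := gg_seg hα hσ hτ (le_refl (0:ℝ)) (norm_nonneg _) (norm_nonneg _)
  have h2 : (Real.sin α) ^ 2 * (1 + (0:ℝ) ^ 2 / 2) = (Real.sin α) ^ 2 := by ring
  rwa [h2] at h

end PoolB27
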