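import Pool.Agent.Work.MP_b27c98_an.Defs
import Pool.Agent.Work.MP_b27c98_an.GgA

/-
MODULE GgB (size S-M). Size of gg α σ - 2πi on the closed first quadrant, 0 < sin α.

PROOF. gg α σ - 2πi = 2 (log p - log q), p = σ + e^{iα}, q = σ - e^{-iα}, p - q = 2 cos α, both with imaginary part
Im σ + sin α ≥ sin α > 0. The segment [q,p] is horizontal, in the slit plane, log' = 1/z.
On the segment ‖z‖ ≥ Im z ≥ sin α: ‖log p - log q‖ ≤ 2|cos α|/sin α: gg_bound.
Its points are σ + (t + i sin α) with |t| ≤ |cos α|, ‖t + i sin α‖ ≤ 1, so ‖z‖ ≥ ‖σ‖ - 1 ≥ ‖σ‖/2 if ‖σ‖ ≥ 2: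
 ‖log p - log q‖ ≤ 2 |cos α| 2/‖σ‖ ≤ 4/‖σ‖: gg_far.
gg_cont: (α, σ) -> gg α σ is continuous at every point with -sin α < Im σ (the arguments of log are in slitPlane).
-/

set_option autoImplicit false

namespace PoolB27

open Complex Set Metric

private theorem e1im (α : ℝ) : (exp (α * I)).im = Real.sin α := exp_ofReal_mul_I_im α

private theorem e2im (α : ℝ) : (exp (-(α * I))).im = -Real.sin α := by
  have : -((α : ℂ) * I) = ((-α : ℝ) : ℂ) * I := by push_cast; ring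
  rw [this, exp_ofReal_mul_I_im, Real.sin_neg]

private theorem en1 (α : ℝ) : ‖exp ((α : ℂ) * I)‖ = 1 := norm_exp_ofReal_mul_I α

private theorem en2 (α : ℝ) : ‖exp (-((α : ℂ) * I))‖ = 1 := by
  have : -((α : ℂ) * I) = ((-α : ℝ) : ℂ) * I := by push_cast; ring
  rw [this, norm_exp_ofReal_mul_I]

/-- mean value bound for the logarithm on a convex set in the open upper half plane -/
private theorem log_bound {C : Set ℂ} (hC : Convex ℝ C) {m : ℝ} (hm : 0 < m)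
    (h1 : ∀ z ∈ C, 0 < z.im ∧ m ≤ ‖z‖) {P Q : ℂ} (hP : P ∈ C) (hQ : Q ∈ C) :
    ‖log P - log Q‖ ≤ 1 / m * ‖P - Q‖ := by
  refine hC.norm_image_sub_le_of_norm_hasDerivWithin_le (f := log) (f' := fun z => z⁻¹)
    (fun z hz => ?_) (fun z hz => ?_) hQ hP
  · exact (hasDerivAt_log (mem_slitPlane_iff.mpr (Or.inr (h1 z hz).1.ne'))).hasDerivWithinAt
  · rw [norm_inv, one_div]
    exact inv_anti₀ hm (h1 z hz).2

private theorem gg_diff (α : ℝ) (σ : ℂ) : gg α σ - 2 * Real.pi * I =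
    2 * (log (σ + exp (α * I)) - log (σ - exp (-(α * I)))) := by
  unfold gg
  ring

private theorem pq_dist (α : ℝ) (σ : ℂ) :
    ‖(σ + exp (α * I)) - (σ - exp (-(α * I)))‖ ≤ 2 := by
  have h : (σ + exp (α * I)) - (σ - exp (-(α * I))) = exp (α * I) + exp (-(α * I)) := by ring
  rw [h]
  have := norm_add_le (exp ((α : ℂ) * I)) (exp (-((α : ℂ) * I)))
  rw [en1, en2] at this
  linarith

theorem gg_bound {α : ℝ} (hα : 0 < Real.sin α) {σ : ℂ} (hσ : σ ∈ Qc) :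
    ‖gg α σ - 2 * Real.pi * I‖ ≤ 4 / Real.sin α := by
  have hσi : 0 ≤ σ.im := hσ.2
  rw [gg_diff, norm_mul]
  have h2 : ‖(2:ℂ)‖ = 2 := by simp
  rw [h2]
  have h3 := log_bound (C := {z : ℂ | Real.sin α ≤ z.im}) (convex_halfSpace_im_ge _) hα
    (fun z hz => ⟨hα.trans_le hz, le_trans hz ((le_abs_self _).trans (abs_im_le_norm z))⟩)
    (P := σ + exp (α * I)) (Q := σ - exp (-(α * I)))
    (by show Real.sin α ≤ (σ + exp (α * I)).im; rw [add_im, e1im]; linarith)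
    (by show Real.sin α ≤ (σ - exp (-(α * I))).im; rw [sub_im, e2im]; linarith)
  have h4 : 1 / Real.sin α * ‖(σ + exp (α * I)) - (σ - exp (-(α * I)))‖ ≤ 1 / Real.sin α * 2 :=
    mul_le_mul_of_nonneg_left (pq_dist α σ) (by positivity)
  have h5 : (4:ℝ) / Real.sin α = 2 * (1 / Real.sin α * 2) := by ring
  rw [h5]
  linarith

theorem gg_far {α : ℝ} (hα : 0 < Real.sin α) {σ : ℂ} (hσ : σ ∈ Qc) (h2 : 2 ≤ ‖σ‖) :
    ‖gg α σ - 2 * Real.pi * I‖ ≤ 8 / ‖σ‖ := by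
  have hσi : 0 ≤ σ.im := hσ.2
  rw [gg_diff, norm_mul]
  have h2' : ‖(2:ℂ)‖ = 2 := by simp
  rw [h2']
  have h3 := log_bound (C := {z : ℂ | 0 < z.im} ∩ closedBall σ 1)
    ((convex_halfSpace_im_gt _).inter (convex_closedBall _ _)) (m := ‖σ‖ / 2) (by linarith)
    (fun z hz => ⟨hz.1, by
      have h4 : ‖z - σ‖ ≤ 1 := by
        have := hz.2
        rwa [mem_closedBall, dist_eq_norm] at this
      have h5 := norm_sub_norm_le σ z
      rw [norm_sub_rev] at h5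
      linarith⟩)
    (P := σ + exp (α * I)) (Q := σ - exp (-(α * I)))
    ⟨by show 0 < (σ + exp (α * I)).im; rw [add_im, e1im]; linarith, by
      rw [mem_closedBall, dist_eq_norm, add_sub_cancel_left, en1]⟩
    ⟨by show 0 < (σ - exp (-(α * I))).im; rw [sub_im, e2im]; linarith, by
      rw [mem_closedBall, dist_eq_norm, sub_sub_cancel_left, norm_neg, en2]⟩
  have h4 : 1 / (‖σ‖ / 2) * ‖(σ + exp (α * I)) - (σ - exp (-(α * I)))‖ ≤ 1 / (‖σ‖ / 2) * 2 :=
    mul_le_mul_of_nonneg_left (pq_dist α σ) (by positivity)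
  have h6 : ‖σ‖ ≠ 0 := by linarith
  have h5 : 8 / ‖σ‖ = 2 * (1 / (‖σ‖ / 2) * 2) := by
    field_simp
    norm_num
  rw [h5]
  linarith

theorem gg_cont {p : ℝ × ℂ} (hp : -Real.sin p.1 < p.2.im) :
    ContinuousAt (fun q : ℝ × ℂ => gg q.1 q.2) p := by
  obtain ⟨h1, h2⟩ := add_im_pos hp
  have c1 : ContinuousAt (fun q : ℝ × ℂ => q.2 + exp (q.1 * I)) p := by fun_prop
  have c2 : ContinuousAt (fun q : ℝ × ℂ => q.2 - exp (-(q.1 * I))) p := by fun_prop
  have d1 := c1.clog (mem_slitPlane_iff.mpr (Or.inr h1.ne'))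
  have d2 := c2.clog (mem_slitPlane_iff.mpr (Or.inr h2.ne'))
  have h3 : (fun q : ℝ × ℂ => gg q.1 q.2) = fun q : ℝ × ℂ => 2 * Real.pi * I +
      2 * log (q.2 + exp (q.1 * I)) - 2 * log (q.2 - exp (-(q.1 * I))) := rfl
  rw [h3]
  exact (continuousAt_const.add (continuousAt_const.mul d1)).sub (continuousAt_const.mul d2)

end PoolB27
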