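import Pool.Agent.Work.MP_b27c98_an.Defs
import Pool.Agent.Work.MP_b27c98_an.GgA

/-
MODULE GgR (size S-M). Real part and exponential of gg α.

PROOF. Re (log z) = Real.log ‖z‖: Re (gg α σ) = 2 log ‖σ + e^{iα}‖ - 2 log ‖σ - e^{-iα}‖. With σ = p + iq, c = cos α,
s = sin α: ‖σ + e^{iα}‖² - ‖σ - e^{-iα}‖² = (p+c)² - (p-c)² = 4 p c (same imaginary part q + s > 0).
So Re gg ≥ 0 if p, c ≥ 0, = 0 if p = 0, > 0 if p, c > 0.
exp_gg: exp(2πi) = 1, exp (log z) = z for z ≠ 0.   gg_half_pi: exp(π/2 i) = i, exp(-π/2 i) = -i.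
-/

set_option autoImplicit false

namespace PoolB27

open Complex Set Metric

private theorem e1re (α : ℝ) : (exp (α * I)).re = Real.cos α := exp_ofReal_mul_I_re α

private theorem e1im (α : ℝ) : (exp (α * I)).im = Real.sin α := exp_ofReal_mul_I_im α

private theorem e2re (α : ℝ) : (exp (-(α * I))).re = Real.cos α := by
  have : -((α : ℂ) * I) = ((-α : ℝ) : ℂ) * I := by push_cast; ring
  rw [this, exp_ofReal_mul_I_re, Real.cos_neg]

private theorem e2im (α : ℝ) : (exp (-(α * I))).im = -Real.sin α := by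
  have : -((α : ℂ) * I) = ((-α : ℝ) : ℂ) * I := by push_cast; ring
  rw [this, exp_ofReal_mul_I_im, Real.sin_neg]

private theorem gg_re (α : ℝ) (σ : ℂ) : (gg α σ).re =
    2 * Real.log ‖σ + exp (α * I)‖ - 2 * Real.log ‖σ - exp (-(α * I))‖ := by
  unfold gg
  simp [Complex.log_re]

private theorem norm_diff (α : ℝ) (σ : ℂ) : ‖σ + exp (α * I)‖ ^ 2 - ‖σ - exp (-(α * I))‖ ^ 2 =
    4 * σ.re * Real.cos α := by
  rw [Complex.sq_norm, Complex.sq_norm, normSq_apply, normSq_apply, add_re, add_im, sub_re,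
    sub_im, e1re, e1im, e2re, e2im]
  ring

private theorem pos2 {α : ℝ} (hα : 0 < Real.sin α) {σ : ℂ} (hσ : σ ∈ Qc) :
    0 < ‖σ + exp (α * I)‖ ∧ 0 < ‖σ - exp (-(α * I))‖ := by
  have hi : 0 ≤ σ.im := hσ.2
  obtain ⟨h1, h2⟩ := add_im_pos (α := α) (σ := σ) (by linarith)
  constructor
  · rw [norm_pos_iff]; intro h; rw [h] at h1; simp at h1
  · rw [norm_pos_iff]; intro h; rw [h] at h2; simp at h2

theorem gg_re_nonneg {α : ℝ} (hα : 0 < Real.sin α) (hc : 0 ≤ Real.cos α) {σ : ℂ} (hσ : σ ∈ Qc) :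
    0 ≤ (gg α σ).re := by
  obtain ⟨h1, h2⟩ := pos2 hα hσ
  rw [gg_re]
  have h3 := norm_diff α σ
  have h4 : 0 ≤ 4 * σ.re * Real.cos α := mul_nonneg (mul_nonneg (by norm_num) hσ.1) hc
  have h5 : ‖σ - exp (-(α * I))‖ ≤ ‖σ + exp (α * I)‖ :=
    le_of_pow_le_pow_left₀ two_ne_zero h1.le (by linarith)
  have h6 := Real.log_le_log h2 h5
  linarith

theorem gg_re_zero {α : ℝ} (hα : 0 < Real.sin α) {y : ℝ} (hy : 0 ≤ y) :
    (gg α (y * I)).re = 0 := by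
  have hσ : ((y : ℂ) * I) ∈ Qc := by
    constructor <;> simp [hy]
  obtain ⟨h1, h2⟩ := pos2 hα hσ
  rw [gg_re]
  have h3 := norm_diff α ((y : ℂ) * I)
  have h4 : ((y : ℂ) * I).re = 0 := by simp
  rw [h4, mul_zero, zero_mul] at h3
  have h5 : ‖(y : ℂ) * I + exp (α * I)‖ = ‖(y : ℂ) * I - exp (-(α * I))‖ := by
    rw [← sq_eq_sq₀ h1.le h2.le]
    linarith
  rw [h5]
  ring

theorem gg_re_pos {α : ℝ} (hα : 0 < Real.sin α) (hc : 0 < Real.cos α) {σ : ℂ} (hσ : σ ∈ Qc)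
    (hσ' : 0 < σ.re) : 0 < (gg α σ).re := by
  obtain ⟨h1, h2⟩ := pos2 hα hσ
  rw [gg_re]
  have h3 := norm_diff α σ
  have h4 : 0 < 4 * σ.re * Real.cos α := mul_pos (mul_pos (by norm_num) hσ') hc
  have h5 : ‖σ - exp (-(α * I))‖ < ‖σ + exp (α * I)‖ :=
    lt_of_pow_lt_pow_left₀ 2 h1.le (by linarith)
  have h6 := Real.log_lt_log h2 h5
  linarith

theorem exp_gg {α : ℝ} (hα : 0 < Real.sin α) {σ : ℂ} (hσ : σ ∈ Qc) :
    exp (gg α σ) = ((σ + exp (α * I)) / (σ - exp (-(α * I)))) ^ 2 := by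
  obtain ⟨h1, h2⟩ := pos2 hα hσ
  have n1 := norm_pos_iff.mp h1
  have n2 := norm_pos_iff.mp h2
  unfold gg
  rw [exp_sub, exp_add, exp_two_pi_mul_I, one_mul]
  have h3 : ∀ z : ℂ, z ≠ 0 → exp (2 * log z) = z ^ 2 := by
    intro z hz
    rw [two_mul, exp_add, exp_log hz, pow_two]
  rw [h3 _ n1, h3 _ n2, div_pow]

theorem gg_half_pi (σ : ℂ) : gg (Real.pi / 2) σ = 2 * Real.pi * I := by
  have h1 : exp (((Real.pi / 2 : ℝ) : ℂ) * I) = I := by
    apply Complex.ext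
    · rw [e1re, Real.cos_pi_div_two]; simp
    · rw [e1im, Real.sin_pi_div_two]; simp
  have h2 : exp (-(((Real.pi / 2 : ℝ) : ℂ) * I)) = -I := by
    rw [exp_neg, h1, inv_I]
  unfold gg
  rw [h1, h2, sub_neg_eq_add]
  ring

end PoolB27
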