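import Pool.Agent.Work.MP_b27c98_an.Defs
import Pool.Agent.Work.MP_b27c98_an.ZfB

/-
MODULE SqB (size M, elementary). sq l = √(‖l‖ + Re l) + i √(‖l‖ - Re l) is the square root of 2 l in the closed first
quadrant, for l in the closed upper half plane.

PROOFS. |Re l| ≤ ‖l‖. sq l ^ 2 = (‖l‖ + Re l) - (‖l‖ - Re l) + 2 i √(‖l‖² - (Re l)²) = 2 Re l + 2 i |Im l| = 2 l if Im l ≥ 0.
‖sq l‖² = 2 ‖l‖. For a, b ∈ Hc: (sq a - sq b)(sq a + sq b) = 2(a - b), and Re (sq a conj (sq b)) ≥ 0 since both are in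
the closed first quadrant, hence ‖sq a + sq b‖ ≥ ‖sq a - sq b‖, ≥ ‖sq a‖: sq_holder, sq_sub.
sq_hasDerivAt: sq is continuous and sq(l)² = 2 l near l ∈ Ho, sq l ≠ 0: difference quotient
(sq a - sq l)/(a - l) = 2/(sq a + sq l) -> 1/sq l. (Or compare with cpow / HasDerivAt.of_local_left_inverse.)
sq_neg: ‖-(y²/2)‖ - Re = y², √(y²) = y for y ≥ 0.
-/

set_option autoImplicit false

namespace PoolB27

open Complex Set Metric

private theorem sq_re (l : ℂ) : (sq l).re = √(‖l‖ + l.re) := by simp [sq]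

private theorem sq_im (l : ℂ) : (sq l).im = √(‖l‖ - l.re) := by simp [sq]

private theorem nn1 (l : ℂ) : 0 ≤ ‖l‖ + l.re := by
  have := (abs_le.mp (abs_re_le_norm l)).1
  linarith

private theorem nn2 (l : ℂ) : 0 ≤ ‖l‖ - l.re := by
  have := (abs_le.mp (abs_re_le_norm l)).2
  linarith

theorem sq_mem (l : ℂ) : sq l ∈ Qc := by
  refine ⟨?_, ?_⟩
  · rw [sq_re]; exact Real.sqrt_nonneg _
  · rw [sq_im]; exact Real.sqrt_nonneg _

theorem continuous_sq : Continuous sq := by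
  unfold sq
  fun_prop

theorem sq_sq {l : ℂ} (hl : l ∈ Hc) : sq l ^ 2 = 2 * l := by
  have hA : √(‖l‖ + l.re) ^ 2 = ‖l‖ + l.re := Real.sq_sqrt (nn1 l)
  have hB : √(‖l‖ - l.re) ^ 2 = ‖l‖ - l.re := Real.sq_sqrt (nn2 l)
  have hAB : √(‖l‖ + l.re) * √(‖l‖ - l.re) = l.im := by
    rw [← Real.sqrt_mul (nn1 l)]
    have h1 : (‖l‖ + l.re) * (‖l‖ - l.re) = l.im ^ 2 := by
      have h2 := Complex.sq_norm l
      rw [Complex.normSq_apply] at h2
      nlinarith [h2]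
    rw [h1, Real.sqrt_sq hl]
  have h3 := sq_re l
  have h4 := sq_im l
  apply Complex.ext
  · rw [pow_two, Complex.mul_re, h3, h4]
    have : (2 * l).re = 2 * l.re := by simp
    rw [this]
    nlinarith [hA, hB]
  · rw [pow_two, Complex.mul_im, h3, h4]
    have : (2 * l).im = 2 * l.im := by simp
    rw [this]
    nlinarith [hAB]

theorem norm_sq_sq (l : ℂ) : ‖sq l‖ ^ 2 = 2 * ‖l‖ := by
  rw [Complex.sq_norm, Complex.normSq_apply, sq_re, sq_im, ← pow_two, ← pow_two,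
    Real.sq_sqrt (nn1 l), Real.sq_sqrt (nn2 l)]
  ring

theorem sq_neg {y : ℝ} (hy : 0 ≤ y) : sq ((-(y ^ 2 / 2) : ℝ) : ℂ) = y * I := by
  have h1 : ‖((-(y ^ 2 / 2) : ℝ) : ℂ)‖ = y ^ 2 / 2 := by
    rw [Complex.norm_real, Real.norm_eq_abs, abs_neg, abs_of_nonneg (by positivity)]
  have h2 : ((-(y ^ 2 / 2) : ℝ) : ℂ).re = -(y ^ 2 / 2) := ofReal_re _
  unfold sq
  rw [h1, h2, add_neg_cancel, Real.sqrt_zero, sub_neg_eq_add, add_halves, Real.sqrt_sq hy]
  simp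

theorem sq_pos {x : ℝ} (hx : 0 ≤ x) : sq ((x ^ 2 / 2 : ℝ) : ℂ) = x := by
  have h1 : ‖((x ^ 2 / 2 : ℝ) : ℂ)‖ = x ^ 2 / 2 := by
    rw [Complex.norm_real, Real.norm_eq_abs, abs_of_nonneg (by positivity)]
  have h2 : ((x ^ 2 / 2 : ℝ) : ℂ).re = x ^ 2 / 2 := ofReal_re _
  unfold sq
  rw [h1, h2, add_halves, sub_self, Real.sqrt_zero, Real.sqrt_sq hx]
  simp

theorem sq_re_pos {s : ℝ} (hs : 0 < s) : 0 < (sq s).re := by
  rw [sq_re]
  apply Real.sqrt_pos.mpr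
  have : 0 ≤ ‖(s : ℂ)‖ := norm_nonneg _
  rw [ofReal_re]
  linarith

theorem sq_hasDerivAt {l : ℂ} (hl : l ∈ Ho) : HasDerivAt sq (1 / sq l) l := by
  have h0 : sq l ≠ 0 := by
    intro h
    have h1 := sq_sq (Ho_sub_Hc hl)
    rw [h] at h1
    have h2 : l = 0 := by
      have h3 : (2:ℂ) * l = 0 := by rw [← h1]; ring
      rcases mul_eq_zero.mp h3 with h4 | h4
      · norm_num at h4
      · exact h4
    have h3 : 0 < l.im := hl
    rw [h2] at h3
    simp at h3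
  have h1 : HasDerivAt (fun w : ℂ => w ^ 2 / 2) (sq l) (sq l) := by
    have := (hasDerivAt_pow 2 (sq l)).div_const 2
    refine this.congr_deriv ?_
    simp
  have h2 := HasDerivAt.of_local_left_inverse (continuous_sq.continuousAt (x := l)) h1 h0 (by
    filter_upwards [isOpen_Ho.mem_nhds hl] with y hy
    rw [sq_sq (Ho_sub_Hc hy)]
    ring)
  rw [one_div]
  exact h2

private theorem qc_le {p q : ℂ} (hp : p ∈ Qc) (hq : q ∈ Qc) :
    ‖p - q‖ ≤ ‖p + q‖ ∧ ‖p‖ ≤ ‖p + q‖ := by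
  have h1 := mul_nonneg hp.1 hq.1
  have h2 := mul_nonneg hp.2 hq.2
  constructor
  · apply le_of_pow_le_pow_left₀ two_ne_zero (norm_nonneg _)
    rw [Complex.sq_norm, Complex.sq_norm, Complex.normSq_apply, Complex.normSq_apply, add_re,
      add_im, sub_re, sub_im]
    nlinarith
  · apply le_of_pow_le_pow_left₀ two_ne_zero (norm_nonneg _)
    rw [Complex.sq_norm, Complex.sq_norm, Complex.normSq_apply, Complex.normSq_apply, add_re,
      add_im]
    nlinarith [mul_self_nonneg q.re, mul_self_nonneg q.im]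

private theorem sq_prod {a b : ℂ} (ha : a ∈ Hc) (hb : b ∈ Hc) :
    ‖sq a - sq b‖ * ‖sq a + sq b‖ = 2 * ‖a - b‖ := by
  rw [← norm_mul]
  have h1 : (sq a - sq b) * (sq a + sq b) = 2 * (a - b) := by
    have h2 := sq_sq ha
    have h3 := sq_sq hb
    linear_combination h2 - h3
  rw [h1, norm_mul]
  simp

theorem sq_holder {a b : ℂ} (ha : a ∈ Hc) (hb : b ∈ Hc) : ‖sq a - sq b‖ ≤ √(2 * ‖a - b‖) := by
  apply Real.le_sqrt_of_sq_le
  rw [← sq_prod ha hb, pow_two]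
  exact mul_le_mul_of_nonneg_left (qc_le (sq_mem a) (sq_mem b)).1 (norm_nonneg _)

theorem sq_sub {a b : ℂ} (ha : a ∈ Hc) (hb : b ∈ Hc) : ‖sq a - sq b‖ * ‖sq a‖ ≤ 2 * ‖a - b‖ := by
  rw [← sq_prod ha hb]
  exact mul_le_mul_of_nonneg_left (qc_le (sq_mem a) (sq_mem b)).2 (norm_nonneg _)

end PoolB27
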