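import Pool.Agent.Work.MP_b27c98_an.Defs
import Pool.Agent.Work.MP_b27c98_an.SqB
import Pool.Agent.Work.MP_b27c98_an.GgA
import Pool.Agent.Work.MP_b27c98_an.GgB
import Pool.Agent.Work.MP_b27c98_an.GgR

/-
MODULE GfB (size S-M). Facts on Gf α l = gg α (sq l); sq l ∈ Qc for every l, sq continuous on ℂ.

Gf_far: ‖sq l‖ = √(2‖l‖) ≥ 2 for ‖l‖ ≥ 2. Gf_holder: GgA.gg_lip and SqB.sq_holder.
Gf_diff: chain rule with SqB.sq_hasDerivAt on Ho. Gf_re_zero: for s ≤ 0 write s = -(y²/2), y = √(-2s), SqB.sq_neg.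
Gf_exp: GgR.exp_gg.
-/

set_option autoImplicit false

namespace PoolB27

open Complex Set Metric

theorem Gf_cont {p : ℝ × ℂ} (hp : 0 < Real.sin p.1) :
    ContinuousAt (fun q : ℝ × ℂ => Gf q.1 q.2) p := by
  have h1 : ContinuousAt (fun q : ℝ × ℂ => ((q.1, sq q.2) : ℝ × ℂ)) p := by
    apply ContinuousAt.prodMk continuousAt_fst
    exact continuous_sq.continuousAt.comp continuousAt_snd
  have h2 : ContinuousAt (fun q : ℝ × ℂ => gg q.1 q.2) ((p.1, sq p.2) : ℝ × ℂ) := by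
    apply gg_cont
    have h3 : 0 ≤ (sq p.2).im := (sq_mem p.2).2
    show -Real.sin p.1 < (sq p.2).im
    linarith
  exact ContinuousAt.comp (f := fun q : ℝ × ℂ => ((q.1, sq q.2) : ℝ × ℂ)) h2 h1

theorem Gf_cont_real {α : ℝ} (hα : 0 < Real.sin α) : Continuous (fun t : ℝ => Gf α t) := by
  rw [continuous_iff_continuousAt]
  intro t
  have h1 : ContinuousAt (fun t : ℝ => ((α, (t : ℂ)) : ℝ × ℂ)) t := by fun_prop
  have h2 : ContinuousAt (fun q : ℝ × ℂ => Gf q.1 q.2) ((α, (t : ℂ)) : ℝ × ℂ) := Gf_cont hα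
  exact ContinuousAt.comp (f := fun t : ℝ => ((α, (t : ℂ)) : ℝ × ℂ)) h2 h1

theorem Gf_diff {α : ℝ} (hα : 0 < Real.sin α) : DifferentiableOn ℂ (Gf α) Ho := by
  intro l hl
  have h3 : 0 ≤ (sq l).im := (sq_mem l).2
  have h1 : HasDerivAt (gg α) _ (sq l) := gg_hasDerivAt (α := α) (σ := sq l) (by linarith)
  have h2 := h1.comp l (sq_hasDerivAt hl)
  exact h2.differentiableAt.differentiableWithinAt

theorem Gf_bound {α : ℝ} (hα : 0 < Real.sin α) (l : ℂ) :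
    ‖Gf α l - 2 * Real.pi * I‖ ≤ 4 / Real.sin α := gg_bound hα (sq_mem l)

theorem Gf_far {α : ℝ} (hα : 0 < Real.sin α) {l : ℂ} (hl : 2 ≤ ‖l‖) :
    ‖Gf α l - 2 * Real.pi * I‖ ≤ 8 / √(2 * ‖l‖) := by
  have h1 : √(2 * ‖l‖) = ‖sq l‖ := by
    rw [← norm_sq_sq, Real.sqrt_sq (norm_nonneg _)]
  rw [h1]
  apply gg_far hα (sq_mem l)
  rw [← h1]
  apply Real.le_sqrt_of_sq_le
  linarith

theorem Gf_holder {α : ℝ} (hα : 0 < Real.sin α) {a b : ℂ} (ha : a ∈ Hc) (hb : b ∈ Hc) :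
    ‖Gf α a - Gf α b‖ ≤ 20 / (Real.sin α) ^ 2 * √(2 * ‖a - b‖) :=
  (gg_lip hα (sq_mem a) (sq_mem b)).trans
    (mul_le_mul_of_nonneg_left (sq_holder ha hb) (by positivity))

theorem Gf_re_nonneg {α : ℝ} (hα : 0 < Real.sin α) (hc : 0 ≤ Real.cos α) (l : ℂ) :
    0 ≤ (Gf α l).re := gg_re_nonneg hα hc (sq_mem l)

theorem Gf_re_zero {α : ℝ} (hα : 0 < Real.sin α) {s : ℝ} (hs : s ≤ 0) : (Gf α s).re = 0 := by
  have h0 : 0 ≤ -2 * s := by linarith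
  have h1 : √(-2 * s) ^ 2 = -2 * s := Real.sq_sqrt h0
  have h2 : s = -(√(-2 * s) ^ 2 / 2) := by rw [h1]; ring
  have h3 : sq (s : ℂ) = (√(-2 * s) : ℂ) * I := by
    conv_lhs => rw [h2]
    exact sq_neg (Real.sqrt_nonneg _)
  unfold Gf
  rw [h3]
  exact gg_re_zero hα (Real.sqrt_nonneg _)

theorem Gf_re_pos {α : ℝ} (hα : 0 < Real.sin α) (hc : 0 < Real.cos α) {s : ℝ} (hs : 0 < s) :
    0 < (Gf α s).re := gg_re_pos hα hc (sq_mem _) (sq_re_pos hs)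

theorem Gf_exp {α : ℝ} (hα : 0 < Real.sin α) (l : ℂ) :
    exp (Gf α l) = ((sq l + exp (α * I)) / (sq l - exp (-(α * I)))) ^ 2 :=
  exp_gg hα (sq_mem l)

theorem Gf_half_pi (l : ℂ) : Gf (Real.pi / 2) l = 2 * Real.pi * I := gg_half_pi _

end PoolB27
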