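import Pool.Agent.Work.MP_b27c98_an.Defs

/-
MODULE Kne (size S-M). Kneser's theorem: an arc with increasing radius of curvature has distinct end points.

c' = -ρ n', |n| = 1 (n is the unit normal pointing from the curve to the centre of curvature m = c + ρ n).
PROOF. m := c + ρ n has derivative m' = -ρ n' + ρ' n + ρ n' = ρ' n on [p,q]. Suppose c p = c q =: P. Then
m q - m p = ρ(q) n(q) - ρ(p) n(p), so ‖m q - m p‖ ≥ ρ(q) - ρ(p) =: Δ (reverse triangle inequality, ρ(q) > ρ(p) ≥ 0).
Also Δ = int_p^q ρ' > 0 and m q - m p = int_p^q ρ' n, ‖m q - m p‖ ≤ Δ. So there is equality; let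
e := (m q - m p)/Δ, ‖e‖ = 1. Then int_p^q ρ' (1 - Re (n conj e)) = Δ - Re ((m q - m p) conj e) = Δ - Δ = 0; the integrand
is continuous and ≥ 0 (|n conj e| = 1), so it vanishes on (p,q) (e.g. intervalIntegral.integral_pos or
integral_pos_iff_support... by contradiction), so Re (n conj e) = 1, hence n = e on (p,q). Then n is constant on (p,q), n' = 0
there, contradiction with hn0.
-/

namespace PoolB27

open Complex Set Metric

/-- a unit vector with real part of `n * conj e` equal to one is `e` -/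
private theorem kn_eq {n e : ℂ} (hn : ‖n‖ = 1) (he : ‖e‖ = 1)
    (h : (n * (starRingEnd ℂ) e).re = 1) : n = e := by
  have h1 : ‖n * (starRingEnd ℂ) e‖ = 1 := by
    rw [norm_mul, Complex.norm_conj, hn, he, one_mul]
  have h2 : n * (starRingEnd ℂ) e = 1 := by
    have h3 : (n * (starRingEnd ℂ) e).re ^ 2 + (n * (starRingEnd ℂ) e).im ^ 2 = 1 := by
      have := Complex.sq_norm (n * (starRingEnd ℂ) e)
      rw [h1, Complex.normSq_apply] at this
      nlinarith
    rw [h] at h3
    have h4 : (n * (starRingEnd ℂ) e).im = 0 := by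
      have : (n * (starRingEnd ℂ) e).im ^ 2 = 0 := by linarith
      exact pow_eq_zero_iff (two_ne_zero) |>.1 this
    apply Complex.ext
    · rw [h]; simp
    · rw [h4]; simp
  have h5 : (starRingEnd ℂ) e * e = 1 := by
    rw [mul_comm, Complex.mul_conj, Complex.normSq_eq_norm_sq, he]
    simp
  calc n = n * ((starRingEnd ℂ) e * e) := by rw [h5, mul_one]
    _ = (n * (starRingEnd ℂ) e) * e := by ring
    _ = e := by rw [h2, one_mul]

theorem kneser {c n n' : ℝ → ℂ} {ρ ρ' : ℝ → ℝ} {p q : ℝ} (hpq : p < q)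
    (hc : ∀ t ∈ Icc p q, HasDerivAt c (-(ρ t : ℂ) * n' t) t)
    (hn : ∀ t ∈ Icc p q, HasDerivAt n (n' t) t) (hn1 : ∀ t ∈ Icc p q, ‖n t‖ = 1)
    (hρ : ∀ t ∈ Icc p q, HasDerivAt ρ (ρ' t) t) (hρc : ContinuousOn ρ' (Icc p q))
    (hρpos : ∀ t ∈ Ioo p q, 0 < ρ' t) (hρp : 0 ≤ ρ p) (hn0 : ∀ t ∈ Ioo p q, n' t ≠ 0) :
    c p ≠ c q := by
  intro hcpq
  have hp : p ∈ Icc p q := left_mem_Icc.2 hpq.le
  have hq : q ∈ Icc p q := right_mem_Icc.2 hpq.le
  have huIcc : uIcc p q = Icc p q := uIcc_of_le hpq.le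
  have hρ0 : ∀ t ∈ Icc p q, 0 ≤ ρ' t := by
    intro t ht
    have h1 : closure (Ioo p q) = Icc p q := closure_Ioo hpq.ne
    have h2 : t ∈ closure (Ioo p q) := by rw [h1]; exact ht
    have h3 : ContinuousWithinAt ρ' (Ioo p q) t := (hρc t ht).mono Ioo_subset_Icc_self
    have : (nhdsWithin t (Ioo p q)).NeBot := mem_closure_iff_nhdsWithin_neBot.1 h2
    refine ge_of_tendsto h3 ?_
    filter_upwards [self_mem_nhdsWithin] with s hs
    exact (hρpos s hs).le
  have hnc : ContinuousOn n (Icc p q) := fun t ht => (hn t ht).continuousAt.continuousWithinAt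
  set m : ℝ → ℂ := fun t => c t + (ρ t : ℂ) * n t with hm
  have hmd : ∀ t ∈ uIcc p q, HasDerivAt m ((ρ' t : ℂ) * n t) t := by
    intro t ht
    rw [huIcc] at ht
    have h1 : HasDerivAt (fun s => (ρ s : ℂ)) ((ρ' t : ℝ) : ℂ) t := (hρ t ht).ofReal_comp
    have h2 : HasDerivAt m (-(ρ t : ℂ) * n' t + (((ρ' t : ℝ) : ℂ) * n t + (ρ t : ℂ) * n' t)) t :=
      (hc t ht).add (h1.mul (hn t ht))
    exact h2.congr_deriv (by ring)
  have hmc : ContinuousOn (fun t => (ρ' t : ℂ) * n t) (uIcc p q) := by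
    rw [huIcc]
    exact (Complex.continuous_ofReal.comp_continuousOn hρc).mul hnc
  have hmi : IntervalIntegrable (fun t => (ρ' t : ℂ) * n t) MeasureTheory.volume p q :=
    hmc.intervalIntegrable
  have hint : ∫ t in p..q, (ρ' t : ℂ) * n t = m q - m p :=
    intervalIntegral.integral_eq_sub_of_hasDerivAt hmd hmi
  have hρi : IntervalIntegrable ρ' MeasureTheory.volume p q := by
    apply ContinuousOn.intervalIntegrable
    rw [huIcc]
    exact hρc
  have hintρ : ∫ t in p..q, ρ' t = ρ q - ρ p :=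
    intervalIntegral.integral_eq_sub_of_hasDerivAt (fun t ht => hρ t (huIcc ▸ ht)) hρi
  set Δ : ℝ := ρ q - ρ p with hΔ
  have hΔpos : 0 < Δ := by
    rw [← hintρ]
    exact intervalIntegral.intervalIntegral_pos_of_pos_on hρi hρpos hpq
  have hge : Δ ≤ ‖m q - m p‖ := by
    have h1 : m q - m p = (ρ q : ℂ) * n q - (ρ p : ℂ) * n p := by
      simp only [hm]
      rw [hcpq]
      ring
    rw [h1]
    have h2 := norm_sub_norm_le ((ρ q : ℂ) * n q) ((ρ p : ℂ) * n p)
    rw [norm_mul, norm_mul, hn1 q hq, hn1 p hp, Complex.norm_real, Complex.norm_real,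
      Real.norm_of_nonneg hρp, Real.norm_of_nonneg (by linarith), mul_one, mul_one] at h2
    exact h2
  have hle : ‖m q - m p‖ ≤ Δ := by
    rw [← hint, ← hintρ]
    apply intervalIntegral.norm_integral_le_of_norm_le hpq.le _ hρi
    apply Filter.Eventually.of_forall
    intro t ht
    have ht' : t ∈ Icc p q := Ioc_subset_Icc_self ht
    rw [norm_mul, hn1 t ht', Complex.norm_real, Real.norm_of_nonneg (hρ0 t ht'), mul_one]
  have heq : ‖m q - m p‖ = Δ := le_antisymm hle hge
  set e : ℂ := (m q - m p) / Δ with he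
  have he1 : ‖e‖ = 1 := by
    rw [he, norm_div, Complex.norm_real, Real.norm_of_nonneg hΔpos.le, heq, div_self hΔpos.ne']
  have hΔc : (Δ : ℂ) ≠ 0 := by exact_mod_cast hΔpos.ne'
  have hmq : m q - m p = Δ * e := by
    rw [he]
    field_simp
  -- the integrand
  set g : ℝ → ℝ := fun t => ρ' t * (1 - (n t * (starRingEnd ℂ) e).re) with hg
  have hnec : ContinuousOn (fun t => (n t * (starRingEnd ℂ) e).re) (Icc p q) :=
    Complex.continuous_re.comp_continuousOn (hnc.mul continuousOn_const)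
  have hgc : ContinuousOn g (Icc p q) := hρc.mul (continuousOn_const.sub hnec)
  have hg0 : ∀ t ∈ Icc p q, 0 ≤ g t := by
    intro t ht
    apply mul_nonneg (hρ0 t ht)
    have h1 : (n t * (starRingEnd ℂ) e).re ≤ ‖n t * (starRingEnd ℂ) e‖ := Complex.re_le_norm _
    rw [norm_mul, Complex.norm_conj, hn1 t ht, he1, mul_one] at h1
    linarith
  have hgint : ∫ t in p..q, g t = 0 := by
    have h1 : ∫ t in p..q, (ρ' t : ℂ) * n t * (starRingEnd ℂ) e = Δ := by
      rw [intervalIntegral.integral_mul_const, hint, hmq, mul_assoc, Complex.mul_conj,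
        Complex.normSq_eq_norm_sq, he1]
      simp
    have h2 : ∫ t in p..q, ((ρ' t : ℂ) * n t * (starRingEnd ℂ) e).re = Δ := by
      have h3 : IntervalIntegrable (fun t => (ρ' t : ℂ) * n t * (starRingEnd ℂ) e)
          MeasureTheory.volume p q := hmi.mul_const _
      have h4 := Complex.reCLM.intervalIntegral_comp_comm h3
      simp only [Complex.reCLM_apply] at h4
      rw [h4, h1]
      simp
    have h5 : ∀ t, g t = ρ' t - ((ρ' t : ℂ) * n t * (starRingEnd ℂ) e).re := by
      intro t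
      simp only [hg]
      rw [mul_assoc, Complex.re_ofReal_mul]
      ring
    simp only [h5]
    rw [intervalIntegral.integral_sub hρi, hintρ, h2, sub_self]
    have h3 : IntervalIntegrable (fun t => (ρ' t : ℂ) * n t * (starRingEnd ℂ) e)
        MeasureTheory.volume p q := hmi.mul_const _
    exact ⟨Complex.reCLM.integrable_comp h3.1, Complex.reCLM.integrable_comp h3.2⟩
  have hgz : ∀ t ∈ Ioo p q, g t = 0 := by
    intro t ht
    by_contra hne
    have htI : t ∈ Icc p q := Ioo_subset_Icc_self ht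
    have hpos : 0 < g t := lt_of_le_of_ne (hg0 t htI) (Ne.symm hne)
    have h1 : 0 < ∫ t in p..q, g t :=
      intervalIntegral.integral_pos hpq hgc (fun x hx => hg0 x (Ioc_subset_Icc_self hx))
        ⟨t, htI, hpos⟩
    rw [hgint] at h1
    exact lt_irrefl _ h1
  have hne : ∀ t ∈ Ioo p q, n t = e := by
    intro t ht
    have htI : t ∈ Icc p q := Ioo_subset_Icc_self ht
    have h1 := hgz t ht
    simp only [hg] at h1
    rcases mul_eq_zero.1 h1 with h2 | h2
    · exact absurd h2 (hρpos t ht).ne'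
    · exact kn_eq (hn1 t htI) he1 (by linarith)
  have hmid : (p + q) / 2 ∈ Ioo p q := ⟨by linarith, by linarith⟩
  have h1 : HasDerivAt n 0 ((p + q) / 2) := by
    have h2 : n =ᶠ[nhds ((p + q) / 2)] fun _ => e := by
      filter_upwards [Ioo_mem_nhds hmid.1 hmid.2] with t ht
      exact hne t ht
    exact (hasDerivAt_const _ e).congr_of_eventuallyEq h2
  have h2 := (hn _ (Ioo_subset_Icc_self hmid)).unique h1
  exact hn0 _ hmid h2

end PoolB27
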