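import Pool.Agent.Work.MP_b27c98_an.Defs
import Pool.Agent.Work.MP_b27c98_an.TwB
import Pool.Agent.Work.MP_b27c98_an.CurB
import Pool.Agent.Work.MP_b27c98_an.SqB
import Pool.Agent.Work.MP_b27c98_an.GfB
import Pool.Agent.Work.MP_b27c98_an.Kne

/-
MODULE ArcL (size M). The left arc (s ≤ 0) of the limit curve is simple.

Let e := exp(α i), e* := exp(-α i) its conjugate, e + e* = 2 cos α. f t := Gf α t (continuous, GfB.Gf_cont_real).
For y ≥ 0: sq(-(y²/2)) = i y (SqB.sq_neg), exp (f) = ((iy + e)/(iy - e*))² (GfB.Gf_exp), and Re f = 0, so |exp f| = 1 and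
bd (f) = (i/2)(conj (exp f) + exp (-f)) = i exp(-f) = i ((iy - e*)/(iy + e))².
APPLY Kne.kneser with parameter y ∈ [p,q] = [y, y'] and
  c y := cur f (-(y²/2)),  derivative -y · bd(f(-(y²/2))) = -i y ((iy - e*)/(iy + e))²   (chain rule, CurB.cur_hasDerivAt),
  n y := -((iy - e*)/(iy + e))²  (defined for all real y: iy + e ≠ 0 since its real part is cos α > 0), |n| = 1 because
     |iy - e*| = |iy + e| (iy - e* = -conj(iy + e)),
  n' y := -2 · (iy - e*)/(iy + e) · i (e + e*)/(iy + e)² = -4 i cos α (iy - e*)/(iy + e)³, nonzero,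
  ρ y := y |iy + e|²/(4 cos α) = y (cos²α + (y + sin α)²)/(4 cos α), ρ' y = (cos²α + (y+sin α)² + 2 y (y + sin α))/(4 cos α) > 0
     for y ≥ 0.
CHECK c' = -ρ n': |iy + e|² = (iy + e)(-iy + e*) = -(iy + e)(iy - e*), so
 -ρ n' = y |iy+e|²/(4 cos α) · 4 i cos α (iy - e*)/(iy+e)³ = -i y (iy - e*)²/(iy + e)².  OK.
-/

namespace PoolB27

open Complex Set Metric

private theorem eL_eq (α : ℝ) : exp ((α : ℂ) * I) = (Real.cos α : ℂ) + (Real.sin α : ℂ) * I := by
  rw [exp_mul_I, ofReal_cos, ofReal_sin]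

private theorem eL_eq' (α : ℝ) :
    exp (-((α : ℂ) * I)) = (Real.cos α : ℂ) - (Real.sin α : ℂ) * I := by
  have h1 : -((α : ℂ) * I) = ((-α : ℝ) : ℂ) * I := by
    push_cast
    ring
  rw [h1, eL_eq, Real.cos_neg, Real.sin_neg]
  push_cast
  ring

theorem arc_left {α : ℝ} (hα : 0 < α) (hα' : α < Real.pi / 2) {y y' : ℝ} (hy : 0 ≤ y)
    (hyy : y < y') :
    cur (fun t : ℝ => Gf α t) (-(y ^ 2 / 2)) ≠ cur (fun t : ℝ => Gf α t) (-(y' ^ 2 / 2)) := by
  have hs : 0 < Real.sin α := Real.sin_pos_of_pos_of_lt_pi hα (by linarith [Real.pi_pos])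
  have hc : 0 < Real.cos α := Real.cos_pos_of_mem_Ioo ⟨by linarith [Real.pi_pos], hα'⟩
  set s : ℝ := Real.sin α with hs'
  set c : ℝ := Real.cos α with hc'
  have hcs : c ^ 2 + s ^ 2 = 1 := Real.cos_sq_add_sin_sq α
  have hf : Continuous (fun t : ℝ => Gf α t) := Gf_cont_real hs
  -- u, v
  let u : ℝ → ℂ := fun t => (t : ℂ) * I - ((c : ℂ) - (s : ℂ) * I)
  let v : ℝ → ℂ := fun t => (t : ℂ) * I + ((c : ℂ) + (s : ℂ) * I)
  have hu0 : ∀ t, u t ≠ 0 := fun t h => by
    have h1 := congrArg Complex.re h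
    simp only [u, sub_re, mul_re, ofReal_re, I_re, mul_zero, ofReal_im, I_im, mul_one, sub_zero,
      zero_re, zero_sub, sub_self] at h1
    linarith
  have hv0 : ∀ t, v t ≠ 0 := fun t h => by
    have h1 := congrArg Complex.re h
    simp only [v, add_re, mul_re, ofReal_re, I_re, mul_zero, ofReal_im, I_im, mul_one,
      zero_re, sub_self, zero_add, add_zero] at h1
    linarith
  have hdu : ∀ t, HasDerivAt u I t := fun t => by
    have h1 : HasDerivAt (fun t : ℝ => (t : ℂ) * I) (1 * I) t :=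
      ((hasDerivAt_id t).ofReal_comp).mul_const I
    rw [one_mul] at h1
    exact h1.sub_const _
  have hdv : ∀ t, HasDerivAt v I t := fun t => by
    have h1 : HasDerivAt (fun t : ℝ => (t : ℂ) * I) (1 * I) t :=
      ((hasDerivAt_id t).ofReal_comp).mul_const I
    rw [one_mul] at h1
    exact h1.add_const _
  have huv : ∀ t, v t - u t = 2 * (c : ℂ) := fun t => by
    simp only [u, v]
    ring
  have hcC : (c : ℂ) ≠ 0 := ofReal_ne_zero.2 hc.ne'
  have hprod : ∀ t : ℝ, ((c ^ 2 + (t + s) ^ 2 : ℝ) : ℂ) = -(u t * v t) := fun t => by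
    simp only [u, v]
    push_cast
    linear_combination ((t : ℂ) + (s : ℂ)) ^ 2 * I_sq
  have hnorm : ∀ t, ‖u t‖ = ‖v t‖ := fun t => by
    have h1 : u t = -(starRingEnd ℂ (v t)) := by
      apply Complex.ext
      · simp [u, v]
      · simp [u, v]
        ring
    rw [h1, norm_neg, RCLike.norm_conj]
  let n : ℝ → ℂ := fun t => -(u t / v t) ^ 2
  let n' : ℝ → ℂ := fun t => -(4 * I * c * u t / (v t) ^ 3)
  let ρ : ℝ → ℝ := fun t => t * (c ^ 2 + (t + s) ^ 2) / (4 * c)
  let ρ' : ℝ → ℝ := fun t => ((c ^ 2 + (t + s) ^ 2) + t * (2 * (t + s))) / (4 * c)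
  have hexp : ∀ t : ℝ, 0 ≤ t → bd (Gf α ((-(t ^ 2 / 2) : ℝ) : ℂ)) = I * (u t / v t) ^ 2 := by
    intro t ht
    have hre : (Gf α ((-(t ^ 2 / 2) : ℝ) : ℂ)).re = 0 := Gf_re_zero hs (by nlinarith [sq_nonneg t])
    have hw : ∀ w : ℂ, w.re = 0 → bd w = I * (exp w)⁻¹ := by
      intro w hw
      rw [bd_eq, hw, Real.cosh_zero, ofReal_one, mul_one, ← exp_neg]
      congr 2
      apply Complex.ext
      · simp [hw]
      · simp
    rw [hw _ hre, Gf_exp hs, sq_neg ht, eL_eq, eL_eq', ← inv_pow, inv_div]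
  refine kneser (c := fun t => cur (fun t : ℝ => Gf α t) (-(t ^ 2 / 2))) (n := n) (n' := n')
    (ρ := ρ) (ρ' := ρ') hyy ?_ ?_ ?_ ?_ ?_ ?_ ?_ ?_
  · intro t ht
    have ht0 : 0 ≤ t := hy.trans ht.1
    have h1 : HasDerivAt (fun t : ℝ => -(t ^ 2 / 2)) (-t) t := by
      have h2 := ((hasDerivAt_pow 2 t).div_const 2).neg
      refine h2.congr_deriv ?_
      push_cast
      ring
    have h2 := (cur_hasDerivAt hf (-(t ^ 2 / 2))).scomp t h1
    refine h2.congr_deriv ?_
    rw [hexp t ht0]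
    have h3 := hprod t
    have h4 : ((ρ t : ℝ) : ℂ) = t * (-(u t * v t)) / (4 * c) := by
      rw [← h3]
      simp only [ρ]
      push_cast
      ring
    rw [h4]
    simp only [n', real_smul]
    have := hv0 t
    push_cast
    field_simp
  · intro t _
    have h0 : HasDerivAt (fun t => u t / v t) ((I * v t - u t * I) / v t ^ 2) t :=
      (hdu t).div (hdv t) (hv0 t)
    have h2 : HasDerivAt (fun t => -(u t / v t) ^ 2)
        (-(((2 : ℕ) : ℂ) * (u t / v t) ^ (2 - 1) * ((I * v t - u t * I) / v t ^ 2))) t :=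
      (h0.pow 2).neg
    refine h2.congr_deriv ?_
    have h5 : I * v t - u t * I = 2 * I * c := by
      linear_combination I * huv t
    have := hv0 t
    simp only [n']
    rw [h5]
    push_cast
    field_simp
    norm_num
    ring
  · intro t _
    simp only [n]
    rw [norm_neg, norm_pow, norm_div, hnorm, div_self, one_pow]
    exact norm_ne_zero_iff.2 (hv0 t)
  · intro t _
    have h1 : HasDerivAt (fun t : ℝ => c ^ 2 + (t + s) ^ 2) (2 * (t + s)) t := by
      have h2 := (((hasDerivAt_id t).add_const s).pow 2).const_add (c ^ 2)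
      refine h2.congr_deriv ?_
      simp
    have h3 := ((hasDerivAt_id t).mul h1).div_const (4 * c)
    refine h3.congr_deriv ?_
    simp only [ρ', id]
    ring
  · apply Continuous.continuousOn
    simp only [ρ']
    fun_prop
  · intro t ht
    have ht0 : 0 < t := hy.trans_lt ht.1
    simp only [ρ']
    positivity
  · simp only [ρ]
    positivity
  · intro t _
    simp only [n']
    rw [neg_ne_zero]
    refine div_ne_zero (mul_ne_zero (mul_ne_zero (mul_ne_zero (by norm_num) I_ne_zero) hcC) (hu0 t))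
      (pow_ne_zero 3 (hv0 t))

end PoolB27
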