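import Pool.Agent.Work.MP_b27c98_an.Defs
import Pool.Agent.Work.MP_b27c98_an.TwB
import Pool.Agent.Work.MP_b27c98_an.CurB
import Pool.Agent.Work.MP_b27c98_an.SqB
import Pool.Agent.Work.MP_b27c98_an.GfB
import Pool.Agent.Work.MP_b27c98_an.Kne

/-
MODULE ArcW (size M). The wall (s ≥ 0) of the limit curve is simple.

Let e := exp(α i), e* := exp(-α i), c := cos α, h := sin α, e + e* = 2c, e - e* = 2ih, e e* = 1, e*² - e² = -4 i h c.
f t := Gf α t. For x ≥ 0: sq(x²/2) = x (SqB.sq_pos), exp f = ((x + e)/(x - e*))² (GfB.Gf_exp), so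
bd f = (i/2)(conj (exp f) + exp(-f)) = (i/2) ( ((x + e*)/(x - e))² + ((x - e*)/(x + e))² ).
P := (x + e)(x + e*) = x² + 2cx + 1, Q := (x - e)(x - e*) = x² - 2cx + 1 (real, positive).
Common denominator ((x-e)(x+e))² = (x² - e²)²: bd f = (i/2)(P² + Q²)/(x² - e²)² and P² + Q² = 2((x²+1)² + 4c²x²).
APPLY Kne.kneser with parameter x ∈ [p,q] = [x, x'] and
  c x := cur f (x²/2), derivative x bd(f(x²/2)) = i x ((x²+1)² + 4c²x²)/(x² - e²)²,
  n x := (x² - e*²)/(x² - e²) (denominator ≠ 0: imaginary part of e² is sin 2α > 0), |n| = 1 (numerator = conj of denominator),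
  n' x := 2x (e*² - e²)/(x² - e²)² = -8 i h c x/(x² - e²)², nonzero for x > 0,
  ρ x := ((x²+1)² + 4c²x²)/(8 h c) > 0, ρ' x = (4x(x²+1) + 8c²x)/(8hc) > 0 for x > 0.
CHECK: -ρ n' = 8 i h c x ρ/(x² - e²)² = i x ((x²+1)² + 4c²x²)/(x²-e²)² = c'.  OK.
-/

namespace PoolB27

open Complex Set Metric

private theorem eW_eq (α : ℝ) : exp ((α : ℂ) * I) = (Real.cos α : ℂ) + (Real.sin α : ℂ) * I := by
  rw [exp_mul_I, ofReal_cos, ofReal_sin]

private theorem eW_eq' (α : ℝ) :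
    exp (-((α : ℂ) * I)) = (Real.cos α : ℂ) - (Real.sin α : ℂ) * I := by
  have h1 : -((α : ℂ) * I) = ((-α : ℝ) : ℂ) * I := by
    push_cast
    ring
  rw [h1, eW_eq, Real.cos_neg, Real.sin_neg]
  push_cast
  ring

theorem arc_wall {α : ℝ} (hα : 0 < α) (hα' : α < Real.pi / 2) {x x' : ℝ} (hx : 0 ≤ x)
    (hxx : x < x') :
    cur (fun t : ℝ => Gf α t) (x ^ 2 / 2) ≠ cur (fun t : ℝ => Gf α t) (x' ^ 2 / 2) := by
  have hs : 0 < Real.sin α := Real.sin_pos_of_pos_of_lt_pi hα (by linarith [Real.pi_pos])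
  have hc : 0 < Real.cos α := Real.cos_pos_of_mem_Ioo ⟨by linarith [Real.pi_pos], hα'⟩
  set s : ℝ := Real.sin α with hs'
  set c : ℝ := Real.cos α with hc'
  have hcs : c ^ 2 + s ^ 2 = 1 := Real.cos_sq_add_sin_sq α
  have hf : Continuous (fun t : ℝ => Gf α t) := Gf_cont_real hs
  let e : ℂ := (c : ℂ) + (s : ℂ) * I
  let e' : ℂ := (c : ℂ) - (s : ℂ) * I
  have hee : e * e' = 1 := by
    have h1 : ((c ^ 2 + s ^ 2 : ℝ) : ℂ) = 1 := by rw [hcs, ofReal_one]
    push_cast at h1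
    simp only [e, e']
    linear_combination h1 - (s : ℂ) ^ 2 * I_sq
  have hee2 : e + e' = 2 * c := by
    simp only [e, e']
    ring
  have hee3 : e - e' = 2 * s * I := by
    simp only [e, e']
    ring
  have hconj : starRingEnd ℂ e = e' := by
    apply Complex.ext <;> simp [e, e']
  have hconj' : starRingEnd ℂ e' = e := by
    rw [← hconj, Complex.conj_conj]
  have hA0 : ∀ t : ℝ, (t : ℂ) - e ≠ 0 := fun t h => by
    have h1 := congrArg Complex.im h
    simp [e] at h1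
    linarith
  have hB0 : ∀ t : ℝ, (t : ℂ) + e ≠ 0 := fun t h => by
    have h1 := congrArg Complex.im h
    simp [e] at h1
    linarith
  have hC0 : ∀ t : ℝ, (t : ℂ) - e' ≠ 0 := fun t h => by
    have h1 := congrArg Complex.im h
    simp [e'] at h1
    linarith
  let N : ℝ → ℂ := fun t => (t : ℂ) ^ 2 - e' ^ 2
  let D : ℝ → ℂ := fun t => (t : ℂ) ^ 2 - e ^ 2
  have hDe : ∀ t, D t = ((t : ℂ) - e) * ((t : ℂ) + e) := fun t => by
    simp only [D]
    ring
  have hD0 : ∀ t, D t ≠ 0 := fun t => by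
    rw [hDe]
    exact mul_ne_zero (hA0 t) (hB0 t)
  have hND : ∀ t, N t = starRingEnd ℂ (D t) := fun t => by
    simp only [N, D, map_sub, map_pow, conj_ofReal, hconj]
  have hND' : ∀ t, D t - N t = -(4 * I * c * s) := fun t => by
    simp only [N, D]
    linear_combination (-(e - e')) * hee2 - 2 * (c : ℂ) * hee3
  have hdN : ∀ t : ℝ, HasDerivAt N (2 * (t : ℂ)) t := fun t => by
    have h1 := (((hasDerivAt_id t).ofReal_comp).pow 2).sub_const (e' ^ 2)
    refine h1.congr_deriv ?_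
    simp
  have hdD : ∀ t : ℝ, HasDerivAt D (2 * (t : ℂ)) t := fun t => by
    have h1 := (((hasDerivAt_id t).ofReal_comp).pow 2).sub_const (e ^ 2)
    refine h1.congr_deriv ?_
    simp
  let n : ℝ → ℂ := fun t => N t / D t
  let n' : ℝ → ℂ := fun t => -(8 * I * c * s * t / (D t) ^ 2)
  let ρ : ℝ → ℝ := fun t => ((t ^ 2 + 1) ^ 2 + 4 * c ^ 2 * t ^ 2) / (8 * s * c)
  let ρ' : ℝ → ℝ := fun t => (4 * t * (t ^ 2 + 1) + 8 * c ^ 2 * t) / (8 * s * c)
  have hcC : (c : ℂ) ≠ 0 := ofReal_ne_zero.2 hc.ne'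
  have hsC : (s : ℂ) ≠ 0 := ofReal_ne_zero.2 hs.ne'
  have hexp : ∀ t : ℝ, 0 ≤ t → bd (Gf α ((t ^ 2 / 2 : ℝ) : ℂ)) =
      I * (((t : ℂ) ^ 2 + 1) ^ 2 + 4 * (c : ℂ) ^ 2 * (t : ℂ) ^ 2) / (D t) ^ 2 := by
    intro t ht
    have h1 : exp (Gf α ((t ^ 2 / 2 : ℝ) : ℂ)) = (((t : ℂ) + e) / ((t : ℂ) - e')) ^ 2 := by
      rw [Gf_exp hs, sq_pos ht, eW_eq, eW_eq']
    have h2 : bd (Gf α ((t ^ 2 / 2 : ℝ) : ℂ)) =
        I / 2 * (((t : ℂ) + e') / ((t : ℂ) - e)) ^ 2 + I / 2 * (((t : ℂ) - e') / ((t : ℂ) + e)) ^ 2 := by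
      unfold bd tw
      rw [mul_one, mul_one, exp_neg, h1, ← inv_pow, inv_div, map_pow, map_div₀, map_add, map_sub,
        conj_ofReal, hconj, hconj']
      ring
    have h3 := hA0 t
    have h4 := hB0 t
    rw [h2, hDe]
    field_simp
    have h5 : ((t : ℂ) + e) * ((t : ℂ) + e') = t ^ 2 + 2 * c * t + 1 := by
      linear_combination (t : ℂ) * hee2 + hee
    have h6 : ((t : ℂ) - e) * ((t : ℂ) - e') = t ^ 2 - 2 * c * t + 1 := by
      linear_combination (-(t : ℂ)) * hee2 + hee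
    have h7 : ((t : ℂ) + e') ^ 2 * ((t : ℂ) + e) ^ 2 + ((t : ℂ) - e) ^ 2 * ((t : ℂ) - e') ^ 2 =
        2 * (((t : ℂ) ^ 2 + 1) ^ 2 + 4 * (c : ℂ) ^ 2 * (t : ℂ) ^ 2) := by
      have h8 : ((t : ℂ) + e') ^ 2 * ((t : ℂ) + e) ^ 2 = (((t : ℂ) + e) * ((t : ℂ) + e')) ^ 2 := by
        ring
      have h9 : ((t : ℂ) - e) ^ 2 * ((t : ℂ) - e') ^ 2 = (((t : ℂ) - e) * ((t : ℂ) - e')) ^ 2 := by
        ring
      rw [h8, h9, h5, h6]
      ring
    linear_combination h7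
  refine kneser (c := fun t => cur (fun t : ℝ => Gf α t) (t ^ 2 / 2)) (n := n) (n' := n')
    (ρ := ρ) (ρ' := ρ') hxx ?_ ?_ ?_ ?_ ?_ ?_ ?_ ?_
  · intro t ht
    have ht0 : 0 ≤ t := hx.trans ht.1
    have h1 : HasDerivAt (fun t : ℝ => t ^ 2 / 2) t t := by
      have h2 := (hasDerivAt_pow 2 t).div_const 2
      refine h2.congr_deriv ?_
      push_cast
      ring
    have h2 := (cur_hasDerivAt hf (t ^ 2 / 2)).scomp t h1
    refine h2.congr_deriv ?_
    rw [hexp t ht0]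
    simp only [n', ρ, real_smul]
    have := hD0 t
    push_cast
    field_simp
  · intro t _
    have h0 : HasDerivAt n ((2 * t * D t - N t * (2 * t)) / D t ^ 2) t :=
      (hdN t).div (hdD t) (hD0 t)
    refine h0.congr_deriv ?_
    have h5 : 2 * t * D t - N t * (2 * t) = -(8 * I * c * s * t) := by
      linear_combination (2 * (t : ℂ)) * hND' t
    simp only [n']
    rw [h5, neg_div]
  · intro t _
    simp only [n]
    rw [norm_div, hND, RCLike.norm_conj, div_self]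
    exact norm_ne_zero_iff.2 (hD0 t)
  · intro t _
    have h1 : HasDerivAt (fun t : ℝ => (t ^ 2 + 1) ^ 2 + 4 * c ^ 2 * t ^ 2)
        (4 * t * (t ^ 2 + 1) + 8 * c ^ 2 * t) t := by
      have h2 := (((hasDerivAt_pow 2 t).add_const 1).pow 2).add
        ((hasDerivAt_pow 2 t).const_mul (4 * c ^ 2))
      refine h2.congr_deriv ?_
      push_cast
      ring
    exact h1.div_const (8 * s * c)
  · apply Continuous.continuousOn
    simp only [ρ']
    fun_prop
  · intro t ht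
    have ht0 : 0 < t := hx.trans_lt ht.1
    simp only [ρ']
    positivity
  · simp only [ρ]
    positivity
  · intro t ht
    have ht0 : 0 < t := hx.trans_lt ht.1
    simp only [n']
    rw [neg_ne_zero]
    exact div_ne_zero (mul_ne_zero (mul_ne_zero (mul_ne_zero (mul_ne_zero (by norm_num) I_ne_zero)
      hcC) hsC) (ofReal_ne_zero.2 ht0.ne')) (pow_ne_zero 2 (hD0 t))

end PoolB27
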