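import Pool.Agent.Work.MP_b27c98_an.Defs
import Pool.Agent.Work.MP_b27c98_an.TwB
import Pool.Agent.Work.MP_b27c98_an.ZfB
import Pool.Agent.Work.MP_b27c98_an.TlB

/-
MODULE Asym (size M). Behaviour of zf F at infinity for Pre κ F w.

PROOFS. pre_w: F (i R) -> w as R -> ∞ (tail, TlB.tl_lim), pass to the limit in ‖F‖ ≤ κ, κ⁻¹ ≤ Re F.
zf_asym: for l ∈ Hc, by ZfB.zf_sub with a = 0, b = l: zf F l - tw w l
 = int_0^1 (tw (F (t l)) l - tw w l) dt; the integrand is bounded by exp κ ‖F (t l) - w‖ ‖l‖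
 ≤ exp κ κ tl(t ‖l‖) ‖l‖ (tw_diff with M = κ: |Re F| ≤ ‖F‖ ≤ κ, |Re w| ≤ κ), integral ≤ 2 κ exp κ (tl_seg).
zf_proper: ‖zf F l‖ ≥ ‖tw w l‖ - 2κ e^κ ≥ sinh(Re w) ‖l‖ - 2κ e^κ (tw_lower), sinh (Re w) > 0.
zf_omit: with φ = Im w: Re (exp(i φ) tw w l) = sinh(Re w) Im l ≥ 0 for l ∈ Hc (tw_eq), so
 Re (exp(iφ) zf F l) ≥ -2κ e^κ; the point p = -exp(-iφ) (2κ e^κ + 1) is omitted.
-/

namespace PoolB27

open Complex Set Metric

private theorem pre_far {κ : ℝ} {F : ℂ → ℂ} {w : ℂ} (h : Pre κ F w) {e : ℝ} (he : 0 < e) :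
    ∃ l ∈ Hc, ‖F l - w‖ ≤ e := by
  have hκ : 0 < κ := lt_of_lt_of_le one_pos h.one_le
  obtain ⟨R, hR, hR2⟩ := tl_lim (div_pos he hκ)
  have hmem : (R : ℂ) * I ∈ Hc := by
    show (0 : ℝ) ≤ ((R : ℂ) * I).im
    simpa using hR.le
  refine ⟨(R : ℂ) * I, hmem, (h.tail _ hmem).trans ?_⟩
  have h1 : ‖(R : ℂ) * I‖ = R := by
    rw [norm_mul, norm_I, mul_one, norm_real, Real.norm_eq_abs, abs_of_pos hR]
  rw [h1]
  calc κ * tl R ≤ κ * (e / κ) := mul_le_mul_of_nonneg_left (hR2 R le_rfl) hκ.le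
    _ = e := by field_simp

theorem pre_w {κ : ℝ} {F : ℂ → ℂ} {w : ℂ} (h : Pre κ F w) : κ⁻¹ ≤ w.re ∧ ‖w‖ ≤ κ := by
  constructor
  · refine le_of_forall_pos_le_add fun e he => ?_
    obtain ⟨l, hl, h1⟩ := pre_far h he
    have h2 := h.pos l hl
    have h3 : |(F l - w).re| ≤ e := (abs_re_le_norm _).trans h1
    rw [sub_re, abs_le] at h3
    linarith [h3.2]
  · refine le_of_forall_pos_le_add fun e he => ?_
    obtain ⟨l, hl, h1⟩ := pre_far h he
    have h2 := h.bound l (Hc_sub_Hd one_pos hl)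
    have h3 : ‖w‖ ≤ ‖F l‖ + ‖F l - w‖ := by
      have h4 : w = F l - (F l - w) := by ring
      calc ‖w‖ = ‖F l - (F l - w)‖ := by rw [← h4]
        _ ≤ _ := norm_sub_le _ _
    linarith

theorem zf_asym {κ : ℝ} {F : ℂ → ℂ} {w : ℂ} (h : Pre κ F w) :
    ∀ l ∈ Hc, ‖zf F l - tw w l‖ ≤ 2 * κ * Real.exp κ := by
  intro l hl
  have hκ : 0 < κ := lt_of_lt_of_le one_pos h.one_le
  have h0 : (0 : ℂ) ∈ Hc := by
    show (0 : ℝ) ≤ (0 : ℂ).im
    simp
  obtain ⟨-, hw⟩ := pre_w h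
  have hwre : |w.re| ≤ κ := (abs_re_le_norm _).trans hw
  have h1 := zf_sub one_pos h.diff (Hc_sub_Hd one_pos h0) (Hc_sub_Hd one_pos hl)
  have h2 := zf_sub_cont h.diff (Hc_sub_Hd one_pos h0) (Hc_sub_Hd one_pos hl)
  rw [zf_zero, sub_zero] at h1
  simp only [sub_zero, zero_add] at h1 h2
  have hi : IntervalIntegrable (fun t : ℝ => tw (F (t * l)) l) MeasureTheory.volume 0 1 := by
    apply ContinuousOn.intervalIntegrable
    rw [uIcc_of_le zero_le_one]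
    exact h2
  have h3 : zf F l - tw w l = ∫ t in (0:ℝ)..1, (tw (F (t * l)) l - tw w l) := by
    rw [intervalIntegral.integral_sub hi intervalIntegrable_const,
      intervalIntegral.integral_const, ← h1]
    simp
  have hmem : ∀ t : ℝ, 0 ≤ t → (t : ℂ) * l ∈ Hc := by
    intro t ht
    have hl' : (0 : ℝ) ≤ l.im := hl
    show (0 : ℝ) ≤ ((t : ℂ) * l).im
    have h7 : ((t : ℂ) * l).im = t * l.im := by simp
    rw [h7]
    positivity
  have hgc : ContinuousOn (fun t : ℝ => Real.exp κ * κ * (tl (t * ‖l‖) * ‖l‖)) (Icc 0 1) := by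
    refine ContinuousOn.mul continuousOn_const (ContinuousOn.mul ?_ continuousOn_const)
    refine tl_cont.comp (by fun_prop) ?_
    intro t ht
    exact mem_Ici.2 (mul_nonneg ht.1 (norm_nonneg _))
  have hg : IntervalIntegrable (fun t : ℝ => Real.exp κ * κ * (tl (t * ‖l‖) * ‖l‖))
      MeasureTheory.volume 0 1 := by
    apply ContinuousOn.intervalIntegrable
    rw [uIcc_of_le zero_le_one]
    exact hgc
  rw [h3]
  refine (intervalIntegral.norm_integral_le_of_norm_le zero_le_one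
    (Filter.Eventually.of_forall fun t ht => ?_) hg).trans ?_
  · have ht0 : 0 ≤ t := ht.1.le
    have hm := hmem t ht0
    have h4 : |(F ((t : ℂ) * l)).re| ≤ κ :=
      (abs_re_le_norm _).trans (h.bound _ (Hc_sub_Hd one_pos hm))
    refine (tw_diff l h4 hwre).trans ?_
    have h5 := h.tail _ hm
    have h6 : ‖(t : ℂ) * l‖ = t * ‖l‖ := by
      rw [norm_mul, norm_real, Real.norm_eq_abs, abs_of_nonneg ht0]
    rw [h6] at h5
    calc Real.exp κ * ‖F ((t : ℂ) * l) - w‖ * ‖l‖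
        ≤ Real.exp κ * (κ * tl (t * ‖l‖)) * ‖l‖ :=
          mul_le_mul_of_nonneg_right (mul_le_mul_of_nonneg_left h5 (Real.exp_pos _).le)
            (norm_nonneg _)
      _ = _ := by ring
  · rw [intervalIntegral.integral_const_mul]
    calc Real.exp κ * κ * ∫ t in (0:ℝ)..1, tl (t * ‖l‖) * ‖l‖ ≤ Real.exp κ * κ * 2 :=
          mul_le_mul_of_nonneg_left (tl_seg (norm_nonneg _))
            (mul_nonneg (Real.exp_pos _).le hκ.le)
      _ = _ := by ring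

private theorem sinh_pos' {κ : ℝ} {F : ℂ → ℂ} {w : ℂ} (h : Pre κ F w) : 0 < Real.sinh w.re := by
  have hκ : 0 < κ := lt_of_lt_of_le one_pos h.one_le
  exact Real.sinh_pos_iff.2 (lt_of_lt_of_le (inv_pos.2 hκ) (pre_w h).1)

theorem zf_proper {κ : ℝ} {F : ℂ → ℂ} {w : ℂ} (h : Pre κ F w) :
    ∀ R : ℝ, ∃ r : ℝ, ∀ l ∈ Hc, r ≤ ‖l‖ → R ≤ ‖zf F l‖ := by
  intro R
  have hs := sinh_pos' h
  have hκ : 0 < κ := lt_of_lt_of_le one_pos h.one_le
  refine ⟨(R + 2 * κ * Real.exp κ) / Real.sinh w.re, fun l hl hr => ?_⟩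
  have h1 := zf_asym h l hl
  have h2 := tw_lower w l ((inv_pos.2 hκ).le.trans (pre_w h).1)
  have h3 : ‖tw w l‖ ≤ ‖zf F l‖ + ‖zf F l - tw w l‖ := by
    have h4 : tw w l = zf F l - (zf F l - tw w l) := by ring
    calc ‖tw w l‖ = ‖zf F l - (zf F l - tw w l)‖ := by rw [← h4]
      _ ≤ _ := norm_sub_le _ _
  rw [div_le_iff₀ hs] at hr
  linarith [mul_comm (Real.sinh w.re) ‖l‖]

theorem zf_omit {κ : ℝ} {F : ℂ → ℂ} {w : ℂ} (h : Pre κ F w) : ∃ p : ℂ, ∀ l ∈ Hc, zf F l ≠ p := by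
  have hs := sinh_pos' h
  have hκ : 0 < κ := lt_of_lt_of_le one_pos h.one_le
  refine ⟨-(exp (-(w.im * I)) * ((2 * κ * Real.exp κ + 1 : ℝ) : ℂ)), fun l hl hEq => ?_⟩
  have h1 := zf_asym h l hl
  have hl' : (0 : ℝ) ≤ l.im := hl
  have h2 : zf F l - tw w l = -(exp (-(w.im * I)) *
      (((Real.cosh w.re * l.re : ℝ) : ℂ) * I +
        ((2 * κ * Real.exp κ + 1 + Real.sinh w.re * l.im : ℝ) : ℂ))) := by
    rw [hEq, tw_eq]
    push_cast
    ring
  have h3 : ‖exp (-((w.im : ℂ) * I))‖ = 1 := by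
    rw [norm_exp]
    simp
  rw [h2, norm_neg, norm_mul, h3, one_mul] at h1
  have h4 : |(((Real.cosh w.re * l.re : ℝ) : ℂ) * I +
        ((2 * κ * Real.exp κ + 1 + Real.sinh w.re * l.im : ℝ) : ℂ)).re| ≤ 2 * κ * Real.exp κ :=
    (abs_re_le_norm _).trans h1
  have h5 : (((Real.cosh w.re * l.re : ℝ) : ℂ) * I +
        ((2 * κ * Real.exp κ + 1 + Real.sinh w.re * l.im : ℝ) : ℂ)).re =
      2 * κ * Real.exp κ + 1 + Real.sinh w.re * l.im := by
    simp only [add_re, mul_re, ofReal_re, I_re, mul_zero, ofReal_im, I_im, mul_one, sub_self,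
      zero_add]
  rw [h5] at h4
  have h6 := (abs_le.1 h4).2
  have h7 : 0 ≤ Real.sinh w.re * l.im := mul_nonneg hs.le hl'
  linarith

end PoolB27
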