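import Pool.Agent.Work.MP_b27c98_an.Defs
import Pool.Agent.Work.MP_b27c98_an.TwB
import Pool.Agent.Work.MP_b27c98_an.SqB
import Pool.Agent.Work.MP_b27c98_an.GfB

/-
MODULE CrC (size S-M). bd (Gf α s) -> b0 s uniformly on [-3/2, 1/4] as α -> 0+.

PROOF. bd w = (i/2)(conj (exp w) + exp(-w)), exp (Gf α s) = E_α(σ) := ((σ + e)/(σ - e*))², σ = sq s, e = exp(αi), e* = exp(-αi)
(GfB.Gf_exp; exp(-w) = (exp w)⁻¹), b0 s is the same expression with e = e* = 1. Consider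
 Φ(α, s) := (i/2)(conj E_α(sq s) + (E_α(sq s))⁻¹) for α ∈ [0, 1/10], s ∈ [-3/2,1/4]: it is continuous on this compact set
because sq is continuous and the denominators do not vanish: |e - 1|, |e* - 1| ≤ α ≤ 1/10 (Complex.norm_exp_sub_one... or
|exp(iα) - 1| ≤ α), and |σ - 1| ≥ 1 - 1/√2 > 1/10 [σ = iy: |iy - 1| ≥ 1; σ = x ∈ [0, 1/√2]], |σ + 1| ≥ 1.
Uniform continuity (IsCompact.uniformContinuousOn_of_continuous) gives the claim: |Φ(α,s) - Φ(0,s)| ≤ e for α ≤ a₀.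
-/

namespace PoolB27

open Complex Set Metric

private noncomputable def crE (p : ℝ × ℝ) : ℂ :=
  ((sq p.2 + exp (p.1 * I)) / (sq p.2 - exp (-(p.1 * I)))) ^ 2

private noncomputable def crPhi (p : ℝ × ℝ) : ℂ :=
  I / 2 * (starRingEnd ℂ (crE p) + (crE p)⁻¹)

private theorem crA_ne {p : ℝ × ℝ} (hp : p ∈ Icc (0:ℝ) (1 / 10) ×ˢ Icc (-3 / 2 : ℝ) (1 / 4)) :
    sq p.2 + exp (p.1 * I) ≠ 0 := by
  intro h0
  have h1 := congrArg Complex.re h0
  rw [add_re, exp_ofReal_mul_I_re, zero_re] at h1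
  have h2 : 0 < Real.cos p.1 := Real.cos_pos_of_mem_Ioo
    ⟨by linarith [hp.1.1, Real.pi_pos], by linarith [hp.1.2, Real.pi_gt_three]⟩
  have h3 := (sq_mem (p.2 : ℂ)).1
  linarith

private theorem crB_ne {p : ℝ × ℝ} (hp : p ∈ Icc (0:ℝ) (1 / 10) ×ˢ Icc (-3 / 2 : ℝ) (1 / 4)) :
    sq p.2 - exp (-(p.1 * I)) ≠ 0 := by
  intro h0
  have h1 : sq p.2 = exp (((-p.1 : ℝ) : ℂ) * I) := by
    rw [sub_eq_zero.1 h0]
    congr 1
    push_cast
    ring
  have h3 := (sq_mem (p.2 : ℂ)).2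
  rw [h1, exp_ofReal_mul_I_im, Real.sin_neg] at h3
  rcases eq_or_lt_of_le hp.1.1 with h4 | h4
  · rw [← h4] at h1
    have h5 := sq_sq (real_mem_Hc p.2)
    rw [h1] at h5
    simp only [neg_zero, ofReal_zero, zero_mul, exp_zero, one_pow] at h5
    have h6 : (1:ℝ) = 2 * p.2 := by exact_mod_cast h5
    linarith [hp.2.2]
  · have := Real.sin_pos_of_pos_of_lt_pi h4 (by linarith [hp.1.2, Real.pi_gt_three])
    linarith

private theorem crPhi_cont :
    ContinuousOn crPhi (Icc (0:ℝ) (1 / 10) ×ˢ Icc (-3 / 2 : ℝ) (1 / 4)) := by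
  have hA : Continuous (fun p : ℝ × ℝ => sq (p.2 : ℂ) + exp ((p.1 : ℂ) * I)) :=
    (continuous_sq.comp (continuous_ofReal.comp continuous_snd)).add
      (continuous_exp.comp ((continuous_ofReal.comp continuous_fst).mul continuous_const))
  have hB : Continuous (fun p : ℝ × ℝ => sq (p.2 : ℂ) - exp (-((p.1 : ℂ) * I))) :=
    (continuous_sq.comp (continuous_ofReal.comp continuous_snd)).sub
      (continuous_exp.comp ((continuous_ofReal.comp continuous_fst).mul continuous_const).neg)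
  have hE : ContinuousOn crE (Icc (0:ℝ) (1 / 10) ×ˢ Icc (-3 / 2 : ℝ) (1 / 4)) :=
    (hA.continuousOn.div hB.continuousOn (fun p hp => crB_ne hp)).pow 2
  have hE0 : ∀ p ∈ Icc (0:ℝ) (1 / 10) ×ˢ Icc (-3 / 2 : ℝ) (1 / 4), crE p ≠ 0 := fun p hp =>
    pow_ne_zero 2 (div_ne_zero (crA_ne hp) (crB_ne hp))
  exact continuousOn_const.mul ((continuous_conj.comp_continuousOn hE).add (hE.inv₀ hE0))

theorem b0_close : ∀ e > 0, ∃ a₀ > 0, ∀ α : ℝ, 0 < α → α ≤ a₀ →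
    ∀ s ∈ Icc (-3 / 2 : ℝ) (1 / 4), ‖bd (Gf α s) - b0 s‖ ≤ e := by
  intro e he
  have hK : IsCompact (Icc (0:ℝ) (1 / 10) ×ˢ Icc (-3 / 2 : ℝ) (1 / 4)) :=
    isCompact_Icc.prod isCompact_Icc
  obtain ⟨δ, hδ, h⟩ := Metric.uniformContinuousOn_iff.1
    (hK.uniformContinuousOn_of_continuous crPhi_cont) e he
  refine ⟨min (δ / 2) (1 / 10), lt_min (by linarith) (by norm_num), fun α hα hα' s hs => ?_⟩
  have hα1 : α ≤ δ / 2 := hα'.trans (min_le_left _ _)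
  have hα2 : α ≤ 1 / 10 := hα'.trans (min_le_right _ _)
  have hsin : 0 < Real.sin α :=
    Real.sin_pos_of_pos_of_lt_pi hα (by linarith [Real.pi_gt_three])
  have h1 : bd (Gf α s) = crPhi (α, s) := by
    unfold bd tw crPhi crE
    rw [exp_neg, Gf_exp hsin]
    simp only [mul_one]
  have h2 : b0 s = crPhi (0, s) := by
    unfold b0 crPhi crE
    simp
  rw [h1, h2, ← dist_eq_norm]
  refine (h (α, s) ⟨⟨hα.le, hα2⟩, hs⟩ (0, s) ⟨⟨le_rfl, by norm_num⟩, hs⟩ ?_).le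
  rw [Prod.dist_eq]
  simp only [dist_self, Real.dist_eq, sub_zero]
  rw [abs_of_pos hα, max_eq_left hα.le]
  linarith

end PoolB27
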