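import Pool.Agent.Work.MP_b27c98_an.Defs
import Pool.Agent.Work.MP_b27c98_an.SqB

/-
MODULE CrE (size M-L, calculus). The explicit limit curve for α = 0: Z s := int_0^s b0.

LEFT PART. For y ≥ 0, s = -(y²/2): sq s = i y, ((iy+1)/(iy-1))² =: E, |E| = 1, conj E = E⁻¹ = ((1-iy)/(1+iy))² so
 b0 s = i ((1-iy)/(1+iy))².  (1-iy)/(1+iy) = (1-iy)²/(1+y²), so b0 s = i (1-iy)⁴/(1+y²)²
   = i (1 - 6y² + y⁴ - 4iy(1-y²))/(1+y²)² = (4y(1-y²) + i(1-6y²+y⁴))/(1+y²)².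
 d/dy Z(-(y²/2)) = -y b0(-(y²/2)) = X'(y) + i Y'(y), where
 X(y) = 4 (y - 2 arctan y + y/(1+y²)),          X' = -4y²(1-y²)/(1+y²)²,
 Y(y) = -(1/2)(y² + 8 - 8 log(1+y²) - 8/(1+y²)),  Y' = -y(1-6y²+y⁴)/(1+y²)².  X(0) = Y(0) = 0.
 So Z(-(y²/2)) = X(y) + i Y(y) for y ≥ 0.
 y = 1 (s = -1/2): X = 6 - 2π ≤ -0.28 (π > 3.14), Y = 4 log 2 - 5/2 ≥ 1/4 (log 2 ≥ 0.6875; Real.log_two_gt_d9).
 y = √3 (s = -3/2): arctan √3 = π/3, X = 5√3 - 8π/3 ≥ 0.28 (√3 ≥ 1.732, π < 3.1416), Y = 8 log 2 - 9/2 ≤ 1.06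
 (log 4 = 2 log 2, log 2 < 0.6932).
 For y ∈ [1,√3], with p = y² ∈ [1,3], 1 - 6p + p² < 0, so Y is increasing there: 1/4 ≤ Y ≤ 1.06.
WALL. For x ∈ [0, 1/√2], s = x²/2 ∈ [0,1/4]: sq s = x, E = ((x+1)/(x-1))² real ≥ 1, b0 s = (i/2)(E + 1/E): purely imaginary,
 Im b0 s ≥ 1. With p = 2s = x² ∈ [0,1/2]: (1/2)(E + 1/E) = (1/2) ((1+x)⁴ + (1-x)⁴)/(1-x²)² = (1 + 6p + p²)/(1-p)² = 1 + 8p/(1-p)²,
 Im Z(s) = int_0^s (1 + 16 t/(1-2t)²) dt = s + 4 (2s/(1-2s) + log(1-2s)) (check the derivative: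
 4 (2/(1-2s)² - 2/(1-2s)) = 4 · 2 · 2s/(1-2s)² = 16 s/(1-2s)²). At s = 1/4: 1/4 + 4 (1 - log 2) ≥ 1.4.
CONTINUITY of b0 on [-3/2,1/4]: sq is continuous, sq s - 1 ≠ 0 (sq s = iy, or real ≤ 1/√2 < 1), and E ≠ 0 (sq s + 1 ≠ 0).
-/

set_option autoImplicit false

namespace PoolB27

open Complex Set Metric

private theorem ofReal_mem_Hc (s : ℝ) : (s : ℂ) ∈ Hc := by
  show 0 ≤ (s : ℂ).im
  rw [ofReal_im]

private theorem sq_ne {s : ℝ} (hs : s ≤ 1 / 4) : sq (s : ℂ) - 1 ≠ 0 ∧ sq (s : ℂ) + 1 ≠ 0 := by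
  have h := sq_sq (ofReal_mem_Hc s)
  constructor
  · intro h1
    have h2 : sq (s : ℂ) = 1 := sub_eq_zero.mp h1
    rw [h2, one_pow] at h
    have h3 := congrArg Complex.re h
    simp at h3
    linarith
  · intro h1
    have h2 : sq (s : ℂ) = -1 := eq_neg_of_add_eq_zero_left h1
    rw [h2] at h
    have h3 := congrArg Complex.re h
    simp at h3
    linarith

theorem b0_cont : ContinuousOn b0 (Icc (-3 / 2) (1 / 4)) := by
  have hsq : Continuous (fun s : ℝ => sq (s : ℂ)) := continuous_sq.comp continuous_ofReal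
  have h1 : ContinuousOn (fun s : ℝ => ((sq (s : ℂ) + 1) / (sq (s : ℂ) - 1)) ^ 2)
      (Icc (-3 / 2) (1 / 4)) := by
    apply ContinuousOn.pow
    apply ContinuousOn.div
    · exact (hsq.add continuous_const).continuousOn
    · exact (hsq.sub continuous_const).continuousOn
    · intro s hs
      exact (sq_ne hs.2).1
  have h2 : ∀ s ∈ Icc (-3 / 2 : ℝ) (1 / 4), ((sq (s : ℂ) + 1) / (sq (s : ℂ) - 1)) ^ 2 ≠ 0 := by
    intro s hs
    exact pow_ne_zero _ (div_ne_zero (sq_ne hs.2).2 (sq_ne hs.2).1)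
  have h3 : ContinuousOn (fun s : ℝ => I / 2 * (starRingEnd ℂ
      (((sq (s : ℂ) + 1) / (sq (s : ℂ) - 1)) ^ 2) +
      (((sq (s : ℂ) + 1) / (sq (s : ℂ) - 1)) ^ 2)⁻¹)) (Icc (-3 / 2) (1 / 4)) := by
    apply ContinuousOn.mul continuousOn_const
    apply ContinuousOn.add
    · exact continuous_conj.comp_continuousOn h1
    · exact h1.inv₀ h2
  exact h3

private theorem b0_neg_val {u : ℝ} (hu : 0 ≤ u) : b0 (-(u ^ 2 / 2)) =
    ((4 * u * (1 - u ^ 2) / (1 + u ^ 2) ^ 2 : ℝ) : ℂ) +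
      ((1 - 6 * u ^ 2 + u ^ 4) / (1 + u ^ 2) ^ 2 : ℝ) * I := by
  have hD : (1 + (u : ℂ) ^ 2) ≠ 0 := by
    have : (0:ℝ) < 1 + u ^ 2 := by positivity
    exact_mod_cast this.ne'
  have hI : I ^ 2 = -1 := I_sq
  have e1 : (1 + (u : ℂ) * I) * (1 - (u : ℂ) * I) = 1 + (u : ℂ) ^ 2 := by
    linear_combination (-(u : ℂ) ^ 2) * hI
  have n1 : (1 + (u : ℂ) * I) ≠ 0 := fun h => hD (by rw [← e1, h, zero_mul])
  have n2 : ((u : ℂ) * I - 1) ≠ 0 := fun h => hD (by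
    rw [← e1, show (1 - (u : ℂ) * I) = -((u : ℂ) * I - 1) by ring, h]; simp)
  have hw : ((u : ℂ) * I + 1) / ((u : ℂ) * I - 1) = -(1 + (u : ℂ) * I) ^ 2 / (1 + (u : ℂ) ^ 2) := by
    rw [div_eq_div_iff n2 hD]
    linear_combination ((u : ℂ) ^ 2 + (u : ℂ) ^ 3 * I) * hI
  have hE : (((u : ℂ) * I + 1) / ((u : ℂ) * I - 1)) ^ 2 =
      (1 + (u : ℂ) * I) ^ 4 / (1 + (u : ℂ) ^ 2) ^ 2 := by
    rw [hw, div_pow]
    ring
  have hconj : (starRingEnd ℂ) ((1 + (u : ℂ) * I) ^ 4 / (1 + (u : ℂ) ^ 2) ^ 2) =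
      (1 - (u : ℂ) * I) ^ 4 / (1 + (u : ℂ) ^ 2) ^ 2 := by
    simp only [map_div₀, map_pow, map_add, map_one, map_mul, conj_ofReal, conj_I]
    ring
  have hinv : ((1 + (u : ℂ) * I) ^ 4 / (1 + (u : ℂ) ^ 2) ^ 2)⁻¹ =
      (1 - (u : ℂ) * I) ^ 4 / (1 + (u : ℂ) ^ 2) ^ 2 := by
    rw [inv_div, div_eq_div_iff (pow_ne_zero _ n1) (pow_ne_zero _ hD), ← e1]
    ring
  have h4 : I * (1 - (u : ℂ) * I) ^ 4 = 4 * u * (1 - (u : ℂ) ^ 2) +
      (1 - 6 * (u : ℂ) ^ 2 + (u : ℂ) ^ 4) * I := by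
    have hI3 : I ^ 3 = -I := by
      rw [pow_succ, hI]; ring
    have hI4 : I ^ 4 = 1 := by
      rw [pow_succ, hI3]; linear_combination -hI
    have hI5 : I ^ 5 = I := by
      rw [pow_succ, hI4]; ring
    linear_combination (-4 * (u : ℂ)) * hI + 6 * (u : ℂ) ^ 2 * hI3 - 4 * (u : ℂ) ^ 3 * hI4 +
      (u : ℂ) ^ 4 * hI5
  unfold b0
  rw [sq_neg hu, hE, hconj, hinv]
  have h5 : I / 2 * ((1 - (u : ℂ) * I) ^ 4 / (1 + (u : ℂ) ^ 2) ^ 2 +
      (1 - (u : ℂ) * I) ^ 4 / (1 + (u : ℂ) ^ 2) ^ 2) =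
      (I * (1 - (u : ℂ) * I) ^ 4) / (1 + (u : ℂ) ^ 2) ^ 2 := by ring
  rw [h5, h4]
  push_cast
  ring

/-- real part of the left branch -/
private noncomputable def XX (y : ℝ) : ℝ := 4 * (y - 2 * Real.arctan y + y / (1 + y ^ 2))

/-- imaginary part of the left branch -/
private noncomputable def YY (y : ℝ) : ℝ :=
  4 * Real.log (1 + y ^ 2) - (1 + y ^ 2) / 2 - 7 / 2 + 4 / (1 + y ^ 2)

private theorem XX_deriv (y : ℝ) :
    HasDerivAt XX (-y * (4 * y * (1 - y ^ 2) / (1 + y ^ 2) ^ 2)) y := by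
  have hD : (1 + y ^ 2) ≠ 0 := by positivity
  have h1 : HasDerivAt (fun y : ℝ => 1 + y ^ 2) (2 * y) y := by
    have := (hasDerivAt_pow 2 y).const_add 1
    simpa using this
  have h2 := ((hasDerivAt_id y).sub ((Real.hasDerivAt_arctan y).const_mul 2)).add
    ((hasDerivAt_id y).div h1 hD)
  have h3 := h2.const_mul 4
  refine h3.congr_deriv ?_
  simp only [id]
  field_simp
  ring

private theorem YY_deriv (y : ℝ) :
    HasDerivAt YY (-y * ((1 - 6 * y ^ 2 + y ^ 4) / (1 + y ^ 2) ^ 2)) y := by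
  have hD : (1 + y ^ 2) ≠ 0 := by positivity
  have h1 : HasDerivAt (fun y : ℝ => 1 + y ^ 2) (2 * y) y := by
    have := (hasDerivAt_pow 2 y).const_add 1
    simpa using this
  have h2 := ((((h1.log hD).const_mul 4).sub (h1.div_const 2)).sub_const (7 / 2)).add
    ((hasDerivAt_const y (4:ℝ)).div h1 hD)
  refine h2.congr_deriv ?_
  field_simp
  ring

private theorem left_val {y : ℝ} (hy : 0 ≤ y) (hy3 : y ^ 2 ≤ 3) :
    ∫ t in (0:ℝ)..(-(y ^ 2 / 2)), b0 t = (XX y : ℂ) + (YY y : ℂ) * I := by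
  have hsub := intervalIntegral.integral_deriv_smul_comp' (a := 0) (b := y)
    (f := fun u : ℝ => -(u ^ 2 / 2)) (f' := fun u : ℝ => -u) (g := b0) (by
      intro x _
      have h1 := ((hasDerivAt_pow 2 x).div_const 2).neg
      refine h1.congr_deriv ?_
      simp) (by fun_prop) (by
      apply b0_cont.mono
      rintro _ ⟨u, hu, rfl⟩
      rw [uIcc_of_le hy] at hu
      have h2 : u ^ 2 ≤ y ^ 2 := pow_le_pow_left₀ hu.1 hu.2 2
      constructor
      · show -3 / 2 ≤ -(u ^ 2 / 2)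
        linarith
      · show -(u ^ 2 / 2) ≤ 1 / 4
        have : 0 ≤ u ^ 2 := sq_nonneg u
        linarith)
  simp only [ne_eq, OfNat.ofNat_ne_zero, not_false_eq_true, zero_pow, zero_div, neg_zero] at hsub
  rw [← hsub]
  have hG : ∀ u ∈ uIcc 0 y, HasDerivAt (fun u : ℝ => (XX u : ℂ) + (YY u : ℂ) * I)
      ((-u) • (b0 ∘ fun u : ℝ => -(u ^ 2 / 2)) u) u := by
    intro u hu
    rw [uIcc_of_le hy] at hu
    have h1 := (XX_deriv u).ofReal_comp
    have h2 := ((YY_deriv u).ofReal_comp).mul_const I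
    refine (h1.add h2).congr_deriv ?_
    rw [Function.comp_apply, b0_neg_val hu.1, real_smul]
    push_cast
    ring
  have hcont : ContinuousOn (fun u : ℝ => (-u) • (b0 ∘ fun u : ℝ => -(u ^ 2 / 2)) u)
      (uIcc 0 y) := by
    apply ContinuousOn.smul continuous_neg.continuousOn
    apply b0_cont.comp (by fun_prop)
    intro u hu
    rw [uIcc_of_le hy] at hu
    have h2 : u ^ 2 ≤ y ^ 2 := pow_le_pow_left₀ hu.1 hu.2 2
    have h3 : 0 ≤ u ^ 2 := sq_nonneg u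
    constructor
    · show -3 / 2 ≤ -(u ^ 2 / 2)
      linarith
    · show -(u ^ 2 / 2) ≤ 1 / 4
      linarith
  rw [intervalIntegral.integral_eq_sub_of_hasDerivAt hG hcont.intervalIntegrable]
  have hX0 : XX 0 = 0 := by simp [XX]
  have hY0 : YY 0 = 0 := by
    simp [YY]
    norm_num
  rw [hX0, hY0]
  simp

private theorem re_ri (x y : ℝ) : ((x : ℂ) + (y : ℂ) * I).re = x := by simp

private theorem im_ri (x y : ℝ) : ((x : ℂ) + (y : ℂ) * I).im = y := by simp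

private theorem log4 : Real.log 4 = 2 * Real.log 2 := by
  rw [show (4:ℝ) = 2 ^ 2 by norm_num, Real.log_pow]
  norm_num

private noncomputable def YT (t : ℝ) : ℝ := 4 * Real.log t - t / 2 - 7 / 2 + 4 / t

private theorem YT_mono : MonotoneOn YT (Icc 2 4) := by
  apply monotoneOn_of_deriv_nonneg (convex_Icc 2 4)
  · unfold YT
    apply ContinuousOn.add
    · apply ContinuousOn.sub
      · apply ContinuousOn.sub
        · apply ContinuousOn.mul continuousOn_const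
          apply Real.continuousOn_log.mono
          intro t ht
          simp only [mem_compl_iff, mem_singleton_iff]
          linarith [ht.1]
        · fun_prop
      · fun_prop
    · apply ContinuousOn.div continuousOn_const continuousOn_id
      intro t ht
      simp only [id]
      linarith [ht.1]
  · intro t ht
    rw [interior_Icc] at ht
    have h0 : t ≠ 0 := by linarith [ht.1]
    have h1 := ((((Real.hasDerivAt_log h0).const_mul 4).sub ((hasDerivAt_id t).div_const 2)).sub_const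
      (7 / 2)).add ((hasDerivAt_const t (4:ℝ)).div (hasDerivAt_id t) h0)
    exact h1.differentiableAt.differentiableWithinAt
  · intro t ht
    rw [interior_Icc] at ht
    have h0 : t ≠ 0 := by linarith [ht.1]
    have h1 := ((((Real.hasDerivAt_log h0).const_mul 4).sub ((hasDerivAt_id t).div_const 2)).sub_const
      (7 / 2)).add ((hasDerivAt_const t (4:ℝ)).div (hasDerivAt_id t) h0)
    have h2 : deriv YT t = _ := h1.deriv
    rw [h2]
    simp only [id]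
    have h3 : 4 * t⁻¹ - 1 / 2 + (0 * t - 4 * 1) / t ^ 2 = (8 * t - t ^ 2 - 8) / (2 * t ^ 2) := by
      field_simp
      ring
    rw [h3]
    apply div_nonneg
    · nlinarith [ht.1, ht.2]
    · positivity

theorem b0_left : (∀ s ∈ Icc (-3 / 2 : ℝ) (-1 / 2),
      1 / 4 ≤ (∫ t in (0:ℝ)..s, b0 t).im ∧ (∫ t in (0:ℝ)..s, b0 t).im ≤ 1.06) ∧
    (∫ t in (0:ℝ)..(-1 / 2), b0 t).re ≤ -0.28 ∧ 0.28 ≤ (∫ t in (0:ℝ)..(-3 / 2), b0 t).re := by
  have hl1 := Real.log_two_gt_d9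
  have hl2 := Real.log_two_lt_d9
  refine ⟨?_, ?_, ?_⟩
  · intro s hs
    have h0 : 0 ≤ -2 * s := by linarith [hs.2]
    have h1 : √(-2 * s) ^ 2 = -2 * s := Real.sq_sqrt h0
    have h2 : s = -(√(-2 * s) ^ 2 / 2) := by rw [h1]; ring
    have h3 := left_val (Real.sqrt_nonneg (-2 * s)) (by rw [h1]; linarith [hs.1])
    rw [← h2] at h3
    rw [h3]
    have h4 : ((XX √(-2 * s) : ℂ) + (YY √(-2 * s) : ℂ) * I).im = YT (1 - 2 * s) := by
      rw [im_ri, YY, YT, h1]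
      ring_nf
    rw [h4]
    have m1 : (1 - 2 * s) ∈ Icc (2:ℝ) 4 := ⟨by linarith [hs.2], by linarith [hs.1]⟩
    have k1 := YT_mono (left_mem_Icc.mpr (by norm_num)) m1 m1.1
    have k2 := YT_mono m1 (right_mem_Icc.mpr (by norm_num)) m1.2
    have v1 : YT 2 = 4 * Real.log 2 - 5 / 2 := by unfold YT; ring
    have v2 : YT 4 = 8 * Real.log 2 - 9 / 2 := by unfold YT; rw [log4]; ring
    rw [v1] at k1
    rw [v2] at k2
    constructor <;> linarith
  · have h3 := left_val (y := 1) (by norm_num) (by norm_num)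
    rw [show (-(1 ^ 2 / 2) : ℝ) = -1 / 2 by norm_num] at h3
    rw [h3]
    have h4 : ((XX 1 : ℂ) + (YY 1 : ℂ) * I).re = 6 - 2 * Real.pi := by
      rw [re_ri, XX, Real.arctan_one]
      ring
    rw [h4]
    have := Real.pi_gt_d2
    linarith
  · have hs3 : √3 ^ 2 = 3 := Real.sq_sqrt (by norm_num)
    have h3 := left_val (y := √3) (Real.sqrt_nonneg 3) (by rw [hs3])
    rw [show (-(√3 ^ 2 / 2) : ℝ) = -3 / 2 by rw [hs3]; norm_num] at h3
    rw [h3]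
    have h4 : ((XX √3 : ℂ) + (YY √3 : ℂ) * I).re = 5 * √3 - 8 * Real.pi / 3 := by
      rw [re_ri, XX, Real.arctan_sqrt_three, hs3]
      ring
    rw [h4]
    have h5 := Real.pi_lt_d4
    have h6 : (1.732:ℝ) ≤ √3 := by
      apply Real.le_sqrt_of_sq_le
      norm_num
    linarith

private theorem b0_pos_val {s : ℝ} (hs : s ∈ Icc (0:ℝ) (1 / 4)) :
    b0 s = I * ((1 + 16 * s / (1 - 2 * s) ^ 2 : ℝ) : ℂ) := by
  have h0 : 0 ≤ 2 * s := by linarith [hs.1]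
  obtain ⟨x, hx⟩ : ∃ x, x = √(2 * s) := ⟨_, rfl⟩
  have hx0 : 0 ≤ x := hx ▸ Real.sqrt_nonneg _
  have h1 : x ^ 2 = 2 * s := by rw [hx]; exact Real.sq_sqrt h0
  have h2 : s = x ^ 2 / 2 := by rw [h1]; ring
  have hx1 : x < 1 := by
    by_contra hcon
    have h3 : (1:ℝ) ≤ x ^ 2 := one_le_pow₀ (not_lt.mp hcon)
    linarith [hs.2]
  have n1 : (x : ℂ) - 1 ≠ 0 := by
    have : x - 1 ≠ 0 := by linarith
    exact_mod_cast this
  have n2 : (x : ℂ) + 1 ≠ 0 := by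
    have : x + 1 ≠ 0 := by linarith
    exact_mod_cast this
  have n3 : (1 - (x : ℂ) ^ 2) ≠ 0 := by
    have : (1 - (x : ℂ) ^ 2) = -(((x : ℂ) - 1) * ((x : ℂ) + 1)) := by ring
    rw [this]
    exact neg_ne_zero.mpr (mul_ne_zero n1 n2)
  have h3 : b0 s = I / 2 * (starRingEnd ℂ (((sq (s : ℂ) + 1) / (sq (s : ℂ) - 1)) ^ 2) +
      (((sq (s : ℂ) + 1) / (sq (s : ℂ) - 1)) ^ 2)⁻¹) := rfl
  have h4 : sq (s : ℂ) = x := by
    rw [h2]
    exact sq_pos hx0
  rw [h3, h4]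
  have h5 : starRingEnd ℂ ((((x : ℂ) + 1) / ((x : ℂ) - 1)) ^ 2) =
      (((x : ℂ) + 1) / ((x : ℂ) - 1)) ^ 2 := by
    simp only [map_div₀, map_pow, map_add, map_sub, map_one, conj_ofReal]
  rw [h5]
  have h6 : (2 * (s : ℂ)) = (x : ℂ) ^ 2 := by
    have := congrArg (fun r : ℝ => (r : ℂ)) h1
    simp only [ofReal_pow, ofReal_mul, ofReal_ofNat] at this
    exact this.symm
  have h7 : (16 * (s : ℂ)) = 8 * (x : ℂ) ^ 2 := by rw [← h6]; ring
  push_cast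
  rw [h7, h6]
  field_simp
  ring

theorem b0_wall : (∀ s ∈ Icc (0 : ℝ) (1 / 4), (∫ t in (0:ℝ)..s, b0 t).re = 0) ∧
    1.4 ≤ (∫ t in (0:ℝ)..(1 / 4), b0 t).im ∧ (∀ s ∈ Icc (0 : ℝ) (1 / 4), 1 ≤ (b0 s).im) := by
  have key : ∀ s ∈ Icc (0 : ℝ) (1 / 4), ∫ t in (0:ℝ)..s, b0 t =
      I * ((∫ t in (0:ℝ)..s, (1 + 16 * t / (1 - 2 * t) ^ 2) : ℝ) : ℂ) := by
    intro s hs
    have h1 : ∫ t in (0:ℝ)..s, b0 t =
        ∫ t in (0:ℝ)..s, I * ((1 + 16 * t / (1 - 2 * t) ^ 2 : ℝ) : ℂ) := by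
      apply intervalIntegral.integral_congr
      intro t ht
      rw [uIcc_of_le hs.1] at ht
      exact b0_pos_val ⟨ht.1, ht.2.trans hs.2⟩
    rw [h1, intervalIntegral.integral_const_mul, intervalIntegral.integral_ofReal]
  refine ⟨?_, ?_, ?_⟩
  · intro s hs
    rw [key s hs]
    simp
  · rw [key (1 / 4) (by constructor <;> norm_num)]
    have h2 : (I * ((∫ t in (0:ℝ)..(1 / 4), (1 + 16 * t / (1 - 2 * t) ^ 2) : ℝ) : ℂ)).im =
        ∫ t in (0:ℝ)..(1 / 4), (1 + 16 * t / (1 - 2 * t) ^ 2) := by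
      simp
    rw [h2]
    have hne : ∀ t ∈ uIcc (0:ℝ) (1 / 4), 1 - 2 * t ≠ 0 := by
      intro t ht
      rw [uIcc_of_le (by norm_num)] at ht
      linarith [ht.2]
    have hder : ∀ t ∈ uIcc (0:ℝ) (1 / 4), HasDerivAt
        (fun t : ℝ => t + 4 * (2 * t / (1 - 2 * t) + Real.log (1 - 2 * t)))
        (1 + 16 * t / (1 - 2 * t) ^ 2) t := by
      intro t ht
      have h3 := hne t ht
      have h4 : HasDerivAt (fun t : ℝ => 2 * t) 2 t := by
        simpa using (hasDerivAt_id t).const_mul 2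
      have h5 : HasDerivAt (fun t : ℝ => 1 - 2 * t) (-2) t := by
        simpa using h4.const_sub 1
      have h6 := (hasDerivAt_id t).add (((h4.div h5 h3).add (h5.log h3)).const_mul 4)
      refine h6.congr_deriv ?_
      field_simp
      ring
    have hcont : ContinuousOn (fun t : ℝ => 1 + 16 * t / (1 - 2 * t) ^ 2)
        (uIcc (0:ℝ) (1 / 4)) := by
      apply ContinuousOn.add continuousOn_const
      apply ContinuousOn.div (by fun_prop) (by fun_prop)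
      intro t ht
      exact pow_ne_zero _ (hne t ht)
    rw [intervalIntegral.integral_eq_sub_of_hasDerivAt hder hcont.intervalIntegrable]
    have h7 : Real.log (1 / 2) = -Real.log 2 := by
      rw [one_div, Real.log_inv]
    have h8 : (1:ℝ) - 2 * (1 / 4) = 1 / 2 := by norm_num
    rw [h8, h7]
    have := Real.log_two_lt_d9
    norm_num
    linarith
  · intro s hs
    rw [b0_pos_val hs]
    have h1 : (I * ((1 + 16 * s / (1 - 2 * s) ^ 2 : ℝ) : ℂ)).im =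
        1 + 16 * s / (1 - 2 * s) ^ 2 := by
      rw [I_mul_im, ofReal_re]
    rw [h1]
    have : 0 ≤ 16 * s / (1 - 2 * s) ^ 2 := by
      apply div_nonneg
      · linarith [hs.1]
      · positivity
    linarith

end PoolB27
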