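import Pool.Agent.Work.MP_b27c98_an.Defs

/-
MODULE Crs (size S-M, intermediate value theorem only). A crossing lemma.

PROOF. W := Im Γ is continuous and strictly increasing on [0,1/4], from 0 to a value > 6/5. For every y ∈ [0, 6/5] there is a
unique w(y) ∈ [0,1/4] with W(w(y)) = y, and y -> w(y) is continuous on [0, 6/5] (inverse of a strictly monotone continuous
function on a compact interval; e.g. by compactness: if y_n -> y, any subsequence of w(y_n) has a further subsequence converging to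
some w* with W(w*) = y, so w* = w(y); or StrictMonoOn.orderIso / ContinuousOn of the inverse function).
h(s) := Re Γ(s) - Re Γ(w(Im Γ(s))) is continuous on [-3/2,-1/2]; h(-1/2) < -1/10 + 1/10 = 0, h(-3/2) > 0. So h(s) = 0 for some s in
the interval; with w := w(Im Γ s): Re Γ s = Re Γ w, Im Γ s = W(w) = Im Γ w.
-/

namespace PoolB27

open Complex Set Metric

theorem cross {Γ : ℝ → ℂ} (hc : ContinuousOn Γ (Icc (-3 / 2) (1 / 4)))
    (hm : StrictMonoOn (fun s => (Γ s).im) (Icc 0 (1 / 4))) (h0 : (Γ 0).im = 0)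
    (h1 : 6 / 5 < (Γ (1 / 4)).im) (hw : ∀ s ∈ Icc (0 : ℝ) (1 / 4), |(Γ s).re| ≤ 1 / 10)
    (hl : ∀ s ∈ Icc (-3 / 2 : ℝ) (-1 / 2), 0 < (Γ s).im ∧ (Γ s).im < 6 / 5)
    (hr : (Γ (-1 / 2)).re < -1 / 10) (hr' : 1 / 10 < (Γ (-3 / 2)).re) :
    ∃ s ∈ Icc (-3 / 2 : ℝ) (-1 / 2), ∃ w ∈ Icc (0 : ℝ) (1 / 4), Γ s = Γ w := by
  have hcw : ContinuousOn Γ (Icc 0 (1 / 4)) :=
    hc.mono (Icc_subset_Icc (by norm_num) le_rfl)
  have hcs : ContinuousOn Γ (Icc (-3 / 2) (-1 / 2)) :=
    hc.mono (Icc_subset_Icc le_rfl (by norm_num))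
  -- existence of the point of the wall at the same height
  have hex : ∀ s : Icc (-3 / 2 : ℝ) (-1 / 2), ∃ w : Icc (0 : ℝ) (1 / 4),
      (Γ w).im = (Γ s).im := by
    rintro ⟨s, hs⟩
    have h2 := intermediate_value_Icc (show (0 : ℝ) ≤ 1 / 4 by norm_num)
      (Complex.continuous_im.comp_continuousOn hcw)
    have h3 : (Γ s).im ∈ Icc ((Complex.im ∘ Γ) 0) ((Complex.im ∘ Γ) (1 / 4)) := by
      refine ⟨?_, ?_⟩
      · change (Γ 0).im ≤ _
        rw [h0]
        exact (hl s hs).1.le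
      · exact ((hl s hs).2.trans h1).le
    obtain ⟨w, hw1, hw2⟩ := h2 h3
    exact ⟨⟨w, hw1⟩, hw2⟩
  choose g hg using hex
  have hfc : Continuous (fun w : Icc (0 : ℝ) (1 / 4) => (Γ w).im) :=
    Complex.continuous_im.comp (continuousOn_iff_continuous_domRestrict.1 hcw)
  have hfi : Function.Injective (fun w : Icc (0 : ℝ) (1 / 4) => (Γ w).im) := by
    intro x y hxy
    exact Subtype.ext (hm.injOn x.2 y.2 hxy)
  have hemb := hfc.isClosedEmbedding hfi
  have hsc : Continuous (fun s : Icc (-3 / 2 : ℝ) (-1 / 2) => Γ s) :=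
    continuousOn_iff_continuous_domRestrict.1 hcs
  have hgc : Continuous g := by
    rw [hemb.isInducing.continuous_iff]
    have : (fun w : Icc (0 : ℝ) (1 / 4) => (Γ w).im) ∘ g =
        fun s : Icc (-3 / 2 : ℝ) (-1 / 2) => (Γ s).im := funext hg
    rw [this]
    exact Complex.continuous_im.comp hsc
  have hwc : Continuous (fun w : Icc (0 : ℝ) (1 / 4) => Γ w) :=
    continuousOn_iff_continuous_domRestrict.1 hcw
  have hhc : Continuous (fun s : Icc (-3 / 2 : ℝ) (-1 / 2) => (Γ s).re - (Γ (g s)).re) :=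
    (Complex.continuous_re.comp hsc).sub (Complex.continuous_re.comp (hwc.comp hgc))
  have : PreconnectedSpace (Icc (-3 / 2 : ℝ) (-1 / 2)) :=
    Subtype.preconnectedSpace isPreconnected_Icc
  have hr0 : (0 : ℝ) ∈ range (fun s : Icc (-3 / 2 : ℝ) (-1 / 2) => (Γ s).re - (Γ (g s)).re) := by
    refine mem_range_of_exists_le_of_exists_ge hhc ?_ ?_
    · refine ⟨⟨-1 / 2, by norm_num, by norm_num⟩, ?_⟩
      have h4 := abs_le.1 (hw _ (g ⟨-1 / 2, by norm_num, by norm_num⟩).2)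
      change (Γ (-1 / 2)).re - _ ≤ 0
      linarith [h4.1]
    · refine ⟨⟨-3 / 2, by norm_num, by norm_num⟩, ?_⟩
      have h4 := abs_le.1 (hw _ (g ⟨-3 / 2, by norm_num, by norm_num⟩).2)
      change 0 ≤ (Γ (-3 / 2)).re - _
      linarith [h4.2]
  obtain ⟨s, hs⟩ := hr0
  refine ⟨s, s.2, g s, (g s).2, Complex.ext ?_ (hg s).symm⟩
  exact sub_eq_zero.1 hs

end PoolB27
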