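import Pool.Agent.Work.MP_b27c98_an.Defs
import Pool.Agent.Work.MP_b27c98_an.TlB
import Pool.Agent.Work.MP_b27c98_an.SqB
import Pool.Agent.Work.MP_b27c98_an.GgA
import Pool.Agent.Work.MP_b27c98_an.GgB

/-
MODULE FamT (size M). Tail of fam α ε: exponent 3/2.

fam α ε z - (ε + 2πi) = Gf α (z + iε) - Gf α (z + iK), K := 128/ε².
PROOF. z ∈ Hc, z₁ := z + iε, z₂ := z + iK ∈ Ho, σ₁ := sq z₁, σ₂ := sq z₂ ∈ Qc. ‖z₁‖, ‖z₂‖ ≥ ‖z‖ (adding a positive imaginary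
part), and ‖z₁‖ ≥ ε, so ‖z₁‖ ≥ c₁ (1 + ‖z‖) with c₁ := min(ε,1)/2·... (‖z₁‖ ≥ max(‖z‖, ε) ≥ (min 1 ε)/2 (1 + ‖z‖)).
GgA.gg_seg with r := √(2‖z‖) ≤ ‖σ₁‖, ‖σ₂‖ (SqB.norm_sq_sq): 1 + r²/2 = 1 + ‖z‖:
 ‖gg σ₁ - gg σ₂‖ ≤ 20/(sin²α (1+‖z‖)) ‖σ₁ - σ₂‖, and by SqB.sq_sub ‖σ₁ - σ₂‖ ≤ 2 |K - ε|/‖σ₁‖ = 2|K-ε|/√(2‖z₁‖)
 ≤ C'/√(1+‖z‖). Together C tl ‖z‖.
-/

set_option autoImplicit false

namespace PoolB27

open Complex Set Metric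

private theorem norm_up {z : ℂ} (hz : z ∈ Hc) {t : ℝ} (ht : 0 ≤ t) :
    ‖z‖ ≤ ‖z + t * I‖ ∧ t ≤ ‖z + t * I‖ ∧ z + t * I ∈ Hc := by
  have h0 : 0 ≤ z.im := hz
  have hre : (z + t * I).re = z.re := by simp
  have him : (z + t * I).im = z.im + t := by simp
  refine ⟨?_, ?_, ?_⟩
  · apply le_of_pow_le_pow_left₀ two_ne_zero (norm_nonneg _)
    rw [Complex.sq_norm, Complex.sq_norm, normSq_apply, normSq_apply, hre, him]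
    nlinarith
  · have h1 := (le_abs_self _).trans (abs_im_le_norm (z + t * I))
    rw [him] at h1
    linarith
  · show 0 ≤ (z + t * I).im
    rw [him]
    linarith

theorem fam_tail {α ε : ℝ} (hα : 0 < Real.sin α) (hε : 0 < ε) :
    ∃ C : ℝ, ∀ z ∈ Hc, ‖fam α ε z - (ε + 2 * Real.pi * I)‖ ≤ C * tl ‖z‖ := by
  obtain ⟨K, hK⟩ : ∃ K : ℝ, K = 128 / ε ^ 2 := ⟨_, rfl⟩
  have hK0 : 0 ≤ K := by rw [hK]; positivity
  set m : ℝ := min 1 ε with hm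
  have hm0 : 0 < m := lt_min one_pos hε
  refine ⟨20 / (Real.sin α) ^ 2 * (2 * |ε - K| / √m), fun z hz => ?_⟩
  obtain ⟨n1, n2, c1⟩ := norm_up hz hε.le
  obtain ⟨n3, n4, c2⟩ := norm_up hz hK0
  have h1 : fam α ε z - (ε + 2 * Real.pi * I) = gg α (sq (z + ε * I)) - gg α (sq (z + K * I)) := by
    unfold fam Gf
    rw [← hK]
    ring
  rw [h1]
  have hr : √(2 * ‖z‖) ^ 2 = 2 * ‖z‖ := Real.sq_sqrt (by positivity)
  have s1 : √(2 * ‖z‖) ≤ ‖sq (z + ε * I)‖ := by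
    apply Real.sqrt_le_iff.mpr
    refine ⟨norm_nonneg _, ?_⟩
    rw [norm_sq_sq]
    linarith
  have s2 : √(2 * ‖z‖) ≤ ‖sq (z + K * I)‖ := by
    apply Real.sqrt_le_iff.mpr
    refine ⟨norm_nonneg _, ?_⟩
    rw [norm_sq_sq]
    linarith
  have h2 := gg_seg hα (sq_mem (z + ε * I)) (sq_mem (z + K * I)) (Real.sqrt_nonneg _) s1 s2
  rw [hr, mul_div_cancel_left₀ _ (two_ne_zero' ℝ)] at h2
  refine h2.trans ?_
  have h3 := sq_sub c1 c2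
  have h4 : (z + ε * I) - (z + K * I) = ((ε - K : ℝ) : ℂ) * I := by push_cast; ring
  rw [h4, norm_mul, norm_I, mul_one, norm_real, Real.norm_eq_abs] at h3
  have h5 : √m * √(1 + ‖z‖) ≤ ‖sq (z + ε * I)‖ := by
    rw [← Real.sqrt_mul hm0.le]
    apply Real.sqrt_le_iff.mpr
    refine ⟨norm_nonneg _, ?_⟩
    rw [norm_sq_sq]
    have h6 : m ≤ 1 := min_le_left _ _
    have h7 : m ≤ ε := min_le_right _ _
    nlinarith [norm_nonneg z]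
  have hz1 : 0 < √(1 + ‖z‖) := Real.sqrt_pos.mpr (by positivity)
  have hm1 : 0 < √m := Real.sqrt_pos.mpr hm0
  have h6 : ‖sq (z + ε * I) - sq (z + K * I)‖ ≤ 2 * |ε - K| / (√m * √(1 + ‖z‖)) := by
    rw [le_div_iff₀ (mul_pos hm1 hz1)]
    exact (mul_le_mul_of_nonneg_left h5 (norm_nonneg _)).trans h3
  have h7 : 20 / (Real.sin α) ^ 2 * (2 * |ε - K| / √m) * tl ‖z‖ =
      20 / ((Real.sin α) ^ 2 * (1 + ‖z‖)) * (2 * |ε - K| / (√m * √(1 + ‖z‖))) := by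
    unfold tl
    have := hα.ne'
    have h8 : (1 + ‖z‖) ≠ 0 := by positivity
    field_simp
  rw [h7]
  exact mul_le_mul_of_nonneg_left h6 (by positivity)

end PoolB27
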