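import Pool.Agent.Work.MP_b27c98_an.Defs
import Pool.Agent.Work.MP_b27c98_an.ZfB
import Pool.Agent.Work.MP_b27c98_an.GfB
import Pool.Agent.Work.MP_b27c98_an.FamT

/-
MODULE FamG (size M). fam α ε is in the class GCl, uniformly for α ∈ [a, π/2]; closeness to Gf α on the real line.

For α ∈ [a, π/2]: sin α ≥ sin a > 0, cos α ≥ 0. K := 128/ε² ≥ 128 (ε ≤ 1). For z ∈ Hd ε: z + iε, z + iK ∈ Ho.
diff: GfB.Gf_diff.  bound on Hd ε: ‖fam‖ ≤ (2π + 4/sin a) + 1 + 4/sin a ≤ 8/sin a + 8 = cV a (2π + 1 < 8).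
pos on Hc: Re fam ≥ Re Gf(z+iε) + ε - ‖Gf (z + iK) - 2πi‖ ≥ 0 + ε - 8/√(2K) = ε - 8 ε/16 = ε/2 (Gf_far: ‖z + iK‖ ≥ K ≥ 2,
 monotone in the norm; √(2K) = 16/ε).
tail: FamT.fam_tail.
osc: |Im fam s - Im fam s'| ≤ 2 * 20/sin²a √(2|s-s'|) ≤ 1 if |s-s'| ≤ cD a = sin⁴a/3200 (Gf_holder twice,
 (s + iε) - (s' + iε) = s - s').
fam_sup: ‖fam α ε s - Gf α s‖ ≤ ‖Gf(s+iε) - Gf s‖ + ε + ε/2 ≤ 20/sin²a √(2ε) + 2ε.
fam_half_pi: Gf (π/2) = 2πi, so fam (π/2) ε = 2πi + ε.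
fam_cont: joint continuity in (α, z), z ∈ Hd ε not even needed: Gf is continuous at all (α, l) with sin α > 0 (GfB.Gf_cont).
-/

set_option autoImplicit false

namespace PoolB27

open Complex Set Metric

private theorem sin_pos' {a : ℝ} (ha : 0 < a) (ha' : a < Real.pi / 2) : 0 < Real.sin a :=
  Real.sin_pos_of_pos_of_lt_pi ha (by linarith [Real.pi_pos])

private theorem sin_mono' {a α : ℝ} (ha : 0 < a)
    (hα : α ∈ Icc a (Real.pi / 2)) : Real.sin a ≤ Real.sin α :=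
  Real.sin_le_sin_of_le_of_le_pi_div_two (by linarith [Real.pi_pos]) hα.2 hα.1

private theorem cos_nonneg' {a α : ℝ} (ha : 0 < a)
    (hα : α ∈ Icc a (Real.pi / 2)) : 0 ≤ Real.cos α :=
  Real.cos_nonneg_of_neg_pi_div_two_le_of_le (by linarith [Real.pi_pos, hα.1]) hα.2

theorem cV_pos {a : ℝ} (ha : 0 < a) (ha' : a < Real.pi / 2) : 0 < cV a := by
  have := sin_pos' ha ha'
  unfold cV
  positivity

theorem cD_pos {a : ℝ} (ha : 0 < a) (ha' : a < Real.pi / 2) : 0 < cD a ∧ cD a ≤ 1 := by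
  have h := sin_pos' ha ha'
  unfold cD
  refine ⟨by positivity, ?_⟩
  have h1 : Real.sin a ^ 4 ≤ 1 := pow_le_one₀ h.le (Real.sin_le_one a)
  linarith

private theorem norm_up {z : ℂ} {t : ℝ} : z.im + t ≤ ‖z + t * I‖ := by
  have him : (z + t * I).im = z.im + t := by simp
  rw [← him]
  exact (le_abs_self _).trans (abs_im_le_norm (z + t * I))

private theorem kk {ε : ℝ} (hε : ε ∈ Ioc (0:ℝ) 1) : 128 ≤ 128 / ε ^ 2 := by
  rw [le_div_iff₀ (pow_pos hε.1 2)]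
  have : ε ^ 2 ≤ 1 := pow_le_one₀ hε.1.le hε.2
  linarith

/-- the far term is small on `Hc` -/
private theorem far_small {α : ℝ} (hα : 0 < Real.sin α) {ε : ℝ} (hε : ε ∈ Ioc (0:ℝ) 1) {z : ℂ}
    (hz : z ∈ Hc) : ‖Gf α (z + (128 / ε ^ 2 : ℝ) * I) - 2 * Real.pi * I‖ ≤ ε / 2 := by
  have h0 : 0 ≤ z.im := hz
  have h1 : 128 / ε ^ 2 ≤ ‖z + (128 / ε ^ 2 : ℝ) * I‖ := by
    have := norm_up (z := z) (t := 128 / ε ^ 2)
    linarith
  have h2 := kk hε
  have h3 := Gf_far hα (l := z + (128 / ε ^ 2 : ℝ) * I) (by linarith)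
  refine h3.trans ?_
  have h4 : 16 / ε ≤ √(2 * ‖z + (128 / ε ^ 2 : ℝ) * I‖) := by
    apply Real.le_sqrt_of_sq_le
    have h5 : (16 / ε) ^ 2 = 2 * (128 / ε ^ 2) := by
      rw [div_pow]
      ring
    rw [h5]
    linarith
  have h5 : 0 < 16 / ε := div_pos (by norm_num) hε.1
  have h6 : 8 / √(2 * ‖z + (128 / ε ^ 2 : ℝ) * I‖) ≤ 8 / (16 / ε) :=
    div_le_div_of_nonneg_left (by norm_num) h5 h4
  have h7 : 8 / (16 / ε) = ε / 2 := by
    have := hε.1.ne'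
    field_simp
    norm_num
  rw [← h7]
  exact h6

theorem fam_gcl {a : ℝ} (ha : 0 < a) (ha' : a < Real.pi / 2) {ε : ℝ} (hε : ε ∈ Ioc 0 1) {α : ℝ}
    (hα : α ∈ Icc a (Real.pi / 2)) :
    GCl (cV a) ε (ε / 2) (cD a) (fam α ε) (ε + 2 * Real.pi * I) := by
  have hs0 := sin_pos' ha ha'
  have hs1 := sin_mono' ha hα
  have hs : 0 < Real.sin α := hs0.trans_le hs1
  have hc := cos_nonneg' ha hα
  have h128 := kk hε
  have h4 : 4 / Real.sin α ≤ 4 / Real.sin a := div_le_div_of_nonneg_left (by norm_num) hs0 hs1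
  have hεn : ‖(ε : ℂ)‖ ≤ 1 := by
    rw [norm_real, Real.norm_eq_abs, abs_of_pos hε.1]
    exact hε.2
  refine ⟨?_, ?_, ?_, fam_tail hs hε.1, ?_⟩
  · have h1 : DifferentiableOn ℂ (fun l : ℂ => Gf α (l + ε * I)) (Hd ε) := by
      apply (Gf_diff hs).comp (by fun_prop)
      intro z hz
      have : -ε < z.im := hz
      show 0 < (z + ε * I).im
      simp
      linarith
    have h2 : DifferentiableOn ℂ (fun l : ℂ => Gf α (l + (128 / ε ^ 2 : ℝ) * I)) (Hd ε) := by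
      apply (Gf_diff hs).comp (by fun_prop)
      intro z hz
      have h3 : -ε < z.im := hz
      show 0 < (z + (128 / ε ^ 2 : ℝ) * I).im
      have h5 : (z + (128 / ε ^ 2 : ℝ) * I).im = z.im + 128 / ε ^ 2 := by
        rw [add_im, im_ofReal_mul, I_im, mul_one]
      rw [h5]
      linarith [hε.2]
    have h3 : fam α ε = fun l : ℂ => Gf α (l + ε * I) + ε -
        (Gf α (l + (128 / ε ^ 2 : ℝ) * I) - 2 * Real.pi * I) := rfl
    rw [h3]
    exact (h1.add_const _).sub (h2.sub_const _)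
  · intro l _
    have h1 := Gf_bound hs (l + ε * I)
    have h2 := Gf_bound hs (l + (128 / ε ^ 2 : ℝ) * I)
    have h3 : fam α ε l = (Gf α (l + ε * I) - 2 * Real.pi * I) + 2 * Real.pi * I + ε -
        (Gf α (l + (128 / ε ^ 2 : ℝ) * I) - 2 * Real.pi * I) := by
      unfold fam
      ring
    have h5 : ‖(2 * Real.pi * I : ℂ)‖ = 2 * Real.pi := by
      rw [norm_mul, norm_mul, norm_I, norm_real, Real.norm_eq_abs, abs_of_pos Real.pi_pos]
      simp
    rw [h3]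
    refine (norm_sub_le _ _).trans ?_
    have h6 := norm_add_le ((Gf α (l + ε * I) - 2 * Real.pi * I) + 2 * Real.pi * I) (ε : ℂ)
    have h7 := norm_add_le (Gf α (l + ε * I) - 2 * Real.pi * I) (2 * Real.pi * I)
    rw [h5] at h7
    have h8 := Real.pi_lt_d2
    unfold cV
    have h9 : 8 / Real.sin a = 4 / Real.sin a + 4 / Real.sin a := by ring
    rw [h9]
    linarith
  · intro l hl
    have h1 := Gf_re_nonneg hs hc (l + ε * I)
    have h2 := far_small hs hε hl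
    have h3 := (le_abs_self _).trans (abs_re_le_norm
      (Gf α (l + (128 / ε ^ 2 : ℝ) * I) - 2 * Real.pi * I))
    have h5 : (fam α ε l).re = (Gf α (l + ε * I)).re + ε -
        (Gf α (l + (128 / ε ^ 2 : ℝ) * I) - 2 * Real.pi * I).re := by
      unfold fam
      rw [sub_re, add_re, ofReal_re]
    rw [h5]
    linarith
  · intro s s' hss
    have m1 : ∀ (t : ℝ), 0 ≤ t → ∀ s : ℝ, (s : ℂ) + t * I ∈ Hc := by
      intro t ht s
      show 0 ≤ ((s : ℂ) + t * I).im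
      simp [ht]
    have h1 := Gf_holder hs (m1 ε hε.1.le s) (m1 ε hε.1.le s')
    have h2 := Gf_holder hs (m1 (128 / ε ^ 2) (by linarith) s) (m1 (128 / ε ^ 2) (by linarith) s')
    have h3 : ∀ t : ℝ, ((s : ℂ) + t * I) - ((s' : ℂ) + t * I) = ((s - s' : ℝ) : ℂ) := by
      intro t
      push_cast
      ring
    rw [h3, norm_real, Real.norm_eq_abs] at h1 h2
    have h5 : √(2 * |s - s'|) ≤ (Real.sin a) ^ 2 / 40 := by
      apply Real.sqrt_le_iff.mpr
      refine ⟨by positivity, ?_⟩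
      unfold cD at hss
      have : (Real.sin a ^ 2 / 40) ^ 2 = 2 * (Real.sin a ^ 4 / 3200) := by ring
      rw [this]
      linarith
    have h6 : 20 / (Real.sin α) ^ 2 * √(2 * |s - s'|) ≤ 1 / 2 := by
      have h7 : 20 / (Real.sin α) ^ 2 ≤ 20 / (Real.sin a) ^ 2 :=
        div_le_div_of_nonneg_left (by norm_num) (by positivity) (pow_le_pow_left₀ hs0.le hs1 2)
      calc 20 / (Real.sin α) ^ 2 * √(2 * |s - s'|) ≤
          20 / (Real.sin a) ^ 2 * ((Real.sin a) ^ 2 / 40) :=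
            mul_le_mul h7 h5 (Real.sqrt_nonneg _) (by positivity)
        _ = 1 / 2 := by
            have := hs0.ne'
            field_simp
            norm_num
    rw [← sub_im]
    refine (abs_im_le_norm _).trans ?_
    have h8 : fam α ε s - fam α ε s' = (Gf α (s + ε * I) - Gf α (s' + ε * I)) -
        (Gf α (s + (128 / ε ^ 2 : ℝ) * I) - Gf α (s' + (128 / ε ^ 2 : ℝ) * I)) := by
      unfold fam
      ring
    rw [h8]
    refine (norm_sub_le _ _).trans ?_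
    linarith

theorem fam_sup {a : ℝ} (ha : 0 < a) (ha' : a < Real.pi / 2) {ε : ℝ} (hε : ε ∈ Ioc 0 1) {α : ℝ}
    (hα : α ∈ Icc a (Real.pi / 2)) (s : ℝ) :
    ‖fam α ε s - Gf α s‖ ≤ 20 / (Real.sin a) ^ 2 * √(2 * ε) + 2 * ε := by
  have hs0 := sin_pos' ha ha'
  have hs1 := sin_mono' ha hα
  have hs : 0 < Real.sin α := hs0.trans_le hs1
  have h1 := Gf_holder hs (a := s + ε * I) (b := s) (by
    show 0 ≤ ((s : ℂ) + ε * I).im
    simp [hε.1.le]) (by
    show 0 ≤ (s : ℂ).im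
    simp)
  rw [add_sub_cancel_left, norm_mul, norm_I, mul_one, norm_real, Real.norm_eq_abs,
    abs_of_pos hε.1] at h1
  have h2 := far_small hs hε (z := (s : ℂ)) (by
    show 0 ≤ (s : ℂ).im
    simp)
  have h7 : 20 / (Real.sin α) ^ 2 * √(2 * ε) ≤ 20 / (Real.sin a) ^ 2 * √(2 * ε) :=
    mul_le_mul_of_nonneg_right (div_le_div_of_nonneg_left (by norm_num) (by positivity)
      (pow_le_pow_left₀ hs0.le hs1 2)) (Real.sqrt_nonneg _)
  have h8 : fam α ε s - Gf α s = (Gf α (s + ε * I) - Gf α s) + ε -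
      (Gf α (s + (128 / ε ^ 2 : ℝ) * I) - 2 * Real.pi * I) := by
    unfold fam
    ring
  rw [h8]
  refine (norm_sub_le _ _).trans ?_
  have h9 := norm_add_le (Gf α (s + ε * I) - Gf α s) (ε : ℂ)
  rw [norm_real, Real.norm_eq_abs, abs_of_pos hε.1] at h9
  linarith [hε.1]

theorem fam_half_pi (ε : ℝ) (l : ℂ) : fam (Real.pi / 2) ε l = ε + 2 * Real.pi * I := by
  unfold fam
  rw [Gf_half_pi, Gf_half_pi]
  ring

theorem fam_cont (ε : ℝ) {p : ℝ × ℂ} (hp : 0 < Real.sin p.1) :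
    ContinuousAt (fun q : ℝ × ℂ => fam q.1 ε q.2) p := by
  have key : ∀ c : ℂ, ContinuousAt (fun q : ℝ × ℂ => Gf q.1 (q.2 + c)) p := by
    intro c
    have h1 : ContinuousAt (fun q : ℝ × ℂ => ((q.1, q.2 + c) : ℝ × ℂ)) p := by fun_prop
    have h2 : ContinuousAt (fun q : ℝ × ℂ => Gf q.1 q.2) ((p.1, p.2 + c) : ℝ × ℂ) :=
      Gf_cont hp
    exact ContinuousAt.comp (f := fun q : ℝ × ℂ => ((q.1, q.2 + c) : ℝ × ℂ)) h2 h1
  have h3 : (fun q : ℝ × ℂ => fam q.1 ε q.2) = fun q : ℝ × ℂ => Gf q.1 (q.2 + ε * I) + ε -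
        (Gf q.1 (q.2 + (128 / ε ^ 2 : ℝ) * I) - 2 * Real.pi * I) := rfl
  rw [h3]
  exact ((key _).add continuousAt_const).sub ((key _).sub continuousAt_const)

end PoolB27
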