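import Pool.Agent.Work.MP_b27c98_an.Defs
import Pool.Agent.Work.MP_b27c98_an.TwB
import Pool.Agent.Work.MP_b27c98_an.ZfB
import Pool.Agent.Work.MP_b27c98_an.CurB
import Pool.Agent.Work.MP_b27c98_an.GfB
import Pool.Agent.Work.MP_b27c98_an.FamG
import Pool.Agent.Work.MP_b27c98_an.Crs
import Pool.Agent.Work.MP_b27c98_an.CrE
import Pool.Agent.Work.MP_b27c98_an.CrC

/-
MODULE BadE (size M). For a small a and all small ε the boundary curve of fam a ε is not injective.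

PROOF. CrC.b0_close with e = 1/40: a₀. a := min a₀ 1 (0 < a ≤ 1 < π/2). Choose ε₀ ∈ (0,1] such that
exp(cV a) (20/sin²a √(2ε) + 2ε) ≤ 1/40 for 0 < ε ≤ ε₀. Let f t := fam a ε t, continuous (ZfB.cont_real, FamG.fam_gcl).
TwB.bd_diff, FamG.fam_sup (|Re| ≤ cV a for both: |Re Gf| ≤ ‖Gf - 2πi‖ ≤ 4/sin a): ‖bd (f t) - bd (Gf a t)‖ ≤ 1/40 for all t, so
‖bd (f t) - b0 t‖ ≤ 1/20 for t ∈ [-3/2, 1/4]. Γ s := zf (fam a ε) s = cur f s = int_0^s bd (f t) dt (ZfB.zf_eq_cur), so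
‖Γ s - int_0^s b0‖ ≤ |s|/20 ≤ 3/40 on [-3/2,1/4].
Apply Crs.cross to Γ: StrictMonoOn Im Γ on [0,1/4]: derivative Im bd (f t) ≥ 1 - 1/20 > 0 (CrE.b0_wall);
 Im Γ 0 = 0; Im Γ(1/4) ≥ 1.4 - 3/40 > 6/5; |Re Γ| ≤ 0 + 3/40 ≤ 1/10 on [0,1/4]; on [-3/2,-1/2]: 0 < 1/4 - 3/40 ≤ Im Γ ≤ 1.06 + 3/40 < 6/5;
 Re Γ(-1/2) ≤ -0.28 + 3/40 < -1/10; Re Γ(-3/2) ≥ 0.28 - 3/40 > 1/10. The two points s ≤ -1/2 < 0 ≤ w are different.
-/

set_option autoImplicit false

namespace PoolB27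

open Complex Set Metric Filter Topology

theorem bad_end : ∃ a : ℝ, 0 < a ∧ a < Real.pi / 2 ∧ ∃ ε₀ ∈ Ioc (0:ℝ) 1, ∀ ε ∈ Ioc 0 ε₀,
    ∃ s s' : ℝ, s ≠ s' ∧ zf (fam a ε) s = zf (fam a ε) s' := by
  obtain ⟨a₀, ha₀, hclose⟩ := b0_close (1 / 40) (by norm_num)
  obtain ⟨a, ha⟩ : ∃ a, a = min a₀ 1 := ⟨_, rfl⟩
  have ha0 : 0 < a := ha ▸ lt_min ha₀ one_pos
  have haa : a ≤ a₀ := ha ▸ min_le_left _ _
  have ha1 : a ≤ 1 := ha ▸ min_le_right _ _
  have ha' : a < Real.pi / 2 := by linarith [Real.pi_gt_three]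
  refine ⟨a, ha0, ha', ?_⟩
  set b : ℝ → ℝ := fun ε => 20 / (Real.sin a) ^ 2 * √(2 * ε) + 2 * ε with hb
  have hT : Tendsto (fun ε => Real.exp (cV a) * b ε) (𝓝 0) (𝓝 0) := by
    have hbc : Continuous b := by
      simp only [hb]
      fun_prop
    have h1 := (hbc.tendsto 0).const_mul (Real.exp (cV a))
    simpa [hb] using h1
  have ev1 : ∀ᶠ ε in 𝓝 (0:ℝ), Real.exp (cV a) * b ε < 1 / 40 :=
    hT.eventually (gt_mem_nhds (by norm_num))
  obtain ⟨r, hr, hball⟩ := Metric.eventually_nhds_iff.mp ev1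
  refine ⟨min (r / 2) 1, ⟨lt_min (by linarith) one_pos, min_le_right _ _⟩, ?_⟩
  intro ε hε
  have hε1 : ε ∈ Ioc (0:ℝ) 1 := ⟨hε.1, hε.2.trans (min_le_right _ _)⟩
  have hεr : dist ε 0 < r := by
    rw [dist_zero_right, Real.norm_eq_abs, abs_of_pos hε.1]
    have := hε.2.trans (min_le_left _ _)
    linarith
  have k1 := hball hεr
  have hα : a ∈ Icc a (Real.pi / 2) := left_mem_Icc.mpr ha'.le
  have hsin : 0 < Real.sin a := Real.sin_pos_of_pos_of_lt_pi ha0 (by linarith [Real.pi_pos])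
  have hG := fam_gcl ha0 ha' hε1 hα
  have hfc : Continuous (fun t : ℝ => fam a ε t) := cont_real hε.1 hG.diff
  have hsup := fam_sup ha0 ha' hε1 hα
  have hreal : ∀ t : ℝ, (t : ℂ) ∈ Hd ε := fun t => Hc_sub_Hd hε.1 (real_mem_Hc t)
  have hM : ∀ t : ℝ, |(fam a ε t).re| ≤ cV a := fun t =>
    (abs_re_le_norm _).trans (hG.bound _ (hreal t))
  have hM' : ∀ t : ℝ, |(Gf a t).re| ≤ cV a := by
    intro t
    have h1 := Gf_bound hsin (t : ℂ)
    have h2 := abs_re_le_norm (Gf a t - 2 * Real.pi * I)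
    have h3 : (Gf a t - 2 * Real.pi * I).re = (Gf a t).re := by simp
    rw [h3] at h2
    have h5 : 4 / Real.sin a ≤ 8 / Real.sin a :=
      div_le_div_of_nonneg_right (by norm_num) hsin.le
    unfold cV
    linarith
  have hbd : ∀ t ∈ Icc (-3 / 2 : ℝ) (1 / 4), ‖bd (fam a ε t) - b0 t‖ ≤ 1 / 20 := by
    intro t ht
    have h1 := bd_diff (hM t) (hM' t)
    have h2 : Real.exp (cV a) * ‖fam a ε t - Gf a t‖ ≤ Real.exp (cV a) * b ε :=
      mul_le_mul_of_nonneg_left (hsup t) (Real.exp_pos _).le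
    have h3 := hclose a ha0 haa t ht
    have h4 := norm_sub_le_norm_sub_add_norm_sub (bd (fam a ε t)) (bd (Gf a t)) (b0 t)
    linarith
  have hbdc : Continuous (fun t : ℝ => bd (fam a ε t)) := continuous_bd.comp hfc
  have hzf : ∀ s : ℝ, zf (fam a ε) s = ∫ t in (0:ℝ)..s, bd (fam a ε t) := fun s =>
    zf_eq_cur hε.1 hG.diff s
  have hsub : ∀ s ∈ Icc (-3 / 2 : ℝ) (1 / 4), uIcc 0 s ⊆ Icc (-3 / 2 : ℝ) (1 / 4) := by
    intro s hs
    exact uIcc_subset_Icc ⟨by norm_num, by norm_num⟩ hs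
  have hdiff : ∀ s ∈ Icc (-3 / 2 : ℝ) (1 / 4),
      ‖zf (fam a ε) s - ∫ t in (0:ℝ)..s, b0 t‖ ≤ 3 / 40 := by
    intro s hs
    rw [hzf, ← intervalIntegral.integral_sub (hbdc.intervalIntegrable _ _)
      ((b0_cont.mono (hsub s hs)).intervalIntegrable)]
    have h1 : ‖∫ t in (0:ℝ)..s, (bd (fam a ε t) - b0 t)‖ ≤ 1 / 20 * |s - 0| := by
      apply intervalIntegral.norm_integral_le_of_norm_le_const
      intro t ht
      exact hbd t (hsub s hs (uIoc_subset_uIcc ht))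
    rw [sub_zero] at h1
    have h2 : |s| ≤ 3 / 2 := by
      rw [abs_le]
      constructor <;> linarith [hs.1, hs.2]
    linarith
  have hre : ∀ s ∈ Icc (-3 / 2 : ℝ) (1 / 4),
      |(zf (fam a ε) s).re - (∫ t in (0:ℝ)..s, b0 t).re| ≤ 3 / 40 := by
    intro s hs
    rw [← sub_re]
    exact (abs_re_le_norm _).trans (hdiff s hs)
  have him : ∀ s ∈ Icc (-3 / 2 : ℝ) (1 / 4),
      |(zf (fam a ε) s).im - (∫ t in (0:ℝ)..s, b0 t).im| ≤ 3 / 40 := by
    intro s hs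
    rw [← sub_im]
    exact (abs_im_le_norm _).trans (hdiff s hs)
  obtain ⟨hl1, hl2, hl3⟩ := b0_left
  obtain ⟨hw1, hw2, hw3⟩ := b0_wall
  have hzc : Continuous (fun s : ℝ => zf (fam a ε) s) := by
    have h1 : (fun s : ℝ => zf (fam a ε) s) = cur (fun t : ℝ => fam a ε t) := by
      funext s
      exact zf_eq_cur hε.1 hG.diff s
    rw [h1, continuous_iff_continuousAt]
    exact fun s => (cur_hasDerivAt hfc s).continuousAt
  have hder : ∀ s : ℝ, HasDerivAt (fun s : ℝ => zf (fam a ε) s) (bd (fam a ε s)) s := by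
    intro s
    have h1 : (fun s : ℝ => zf (fam a ε) s) = cur (fun t : ℝ => fam a ε t) := by
      funext s
      exact zf_eq_cur hε.1 hG.diff s
    rw [h1]
    exact cur_hasDerivAt hfc s
  obtain ⟨s, hs, w, hw, heq⟩ := cross (Γ := fun s : ℝ => zf (fam a ε) s) hzc.continuousOn (by
      have hder2 : ∀ s : ℝ, HasDerivAt (fun s : ℝ => (zf (fam a ε) s).im)
          (bd (fam a ε s)).im s := by
        intro s
        have h2 := imCLM.hasFDerivAt.comp_hasDerivAt s (hder s)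
        exact h2
      apply strictMonoOn_of_deriv_pos (convex_Icc _ _)
      · exact (continuous_im.comp hzc).continuousOn
      · intro s hs
        rw [interior_Icc] at hs
        rw [(hder2 s).deriv]
        have h3 := hw3 s ⟨hs.1.le, hs.2.le⟩
        have h4 := hbd s ⟨by linarith [hs.1], hs.2.le⟩
        have h5 := (abs_le.mp ((abs_im_le_norm _).trans h4)).1
        rw [sub_im] at h5
        linarith) (by
      have h1 := zf_zero (fam a ε)
      have h2 : zf (fam a ε) ((0:ℝ) : ℂ) = 0 := by simpa using h1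
      show (zf (fam a ε) ((0:ℝ) : ℂ)).im = 0
      rw [h2]
      rfl) (by
      have h1 := (abs_le.mp (him (1 / 4) ⟨by norm_num, by norm_num⟩)).1
      show 6 / 5 < (zf (fam a ε) ((1 / 4 : ℝ) : ℂ)).im
      norm_num at hw2 h1 ⊢
      linarith) (by
      intro s hs
      have h1 := hre s ⟨by linarith [hs.1], hs.2⟩
      rw [hw1 s hs, sub_zero] at h1
      show |(zf (fam a ε) (s : ℂ)).re| ≤ 1 / 10
      linarith) (by
      intro s hs
      have h1 := abs_le.mp (him s ⟨hs.1, by linarith [hs.2]⟩)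
      obtain ⟨h2, h3⟩ := hl1 s hs
      show 0 < (zf (fam a ε) (s : ℂ)).im ∧ (zf (fam a ε) (s : ℂ)).im < 6 / 5
      norm_num at h3
      constructor
      · linarith [h1.1]
      · linarith [h1.2]) (by
      have h1 := (abs_le.mp (hre (-1 / 2) ⟨by norm_num, by norm_num⟩)).2
      show (zf (fam a ε) ((-1 / 2 : ℝ) : ℂ)).re < -1 / 10
      norm_num at hl2 h1 ⊢
      linarith) (by
      have h1 := (abs_le.mp (hre (-3 / 2) ⟨by norm_num, by norm_num⟩)).1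
      show 1 / 10 < (zf (fam a ε) ((-3 / 2 : ℝ) : ℂ)).re
      norm_num at hl3 h1 ⊢
      linarith)
  refine ⟨s, w, ?_, heq⟩
  intro h
  rw [h] at hs
  linarith [hs.2, hw.1]

end PoolB27
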