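import Pool.Agent.Work.MP_b27c98_an.Defs
import Pool.Agent.Work.MP_b27c98_an.TwB
import Pool.Agent.Work.MP_b27c98_an.CurB
import Pool.Agent.Work.MP_b27c98_an.GfB
import Pool.Agent.Work.MP_b27c98_an.ArcL
import Pool.Agent.Work.MP_b27c98_an.ArcW

/-
MODULE Cls (size S). Double points of the limit curve consist of a point with s < 0 and a point with s > 0.

PROOF. α = π/2: Gf (π/2) = 2πi (GfB.Gf_half_pi), bd (2πi) = i, cur s = i s is injective: contradiction with s < s', so
α < π/2. If s' ≤ 0: s = -(y'²/2), s' = -(y²/2) with y = √(-2s') < y' = √(-2s): ArcL.arc_left. If s ≥ 0: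
s = x²/2, s' = x'²/2: ArcW.arc_wall.
-/

namespace PoolB27

open Complex Set Metric

theorem classify {a : ℝ} (ha : 0 < a) (ha' : a < Real.pi / 2) :
    ∀ α ∈ Icc a (Real.pi / 2), ∀ s s' : ℝ, s < s' →
      cur (fun t : ℝ => Gf α t) s = cur (fun t : ℝ => Gf α t) s' →
      s < 0 ∧ 0 < s' ∧ α < Real.pi / 2 := by
  intro α hα s s' hss h
  have hα0 : 0 < α := ha.trans_le hα.1
  have hlt : α < Real.pi / 2 := by
    by_contra hcon
    have hαe : α = Real.pi / 2 := le_antisymm hα.2 (not_lt.1 hcon)
    subst hαe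
    have h1 : (fun t : ℝ => Gf (Real.pi / 2) (t : ℂ)) = fun _ => 2 * Real.pi * I := by
      funext t
      exact Gf_half_pi _
    rw [h1] at h
    have h2 := cur_sub (f := fun _ : ℝ => (2 * Real.pi * I : ℂ)) continuous_const s s'
    rw [← h, sub_self, intervalIntegral.integral_const] at h2
    have h3 : bd (2 * Real.pi * I) ≠ 0 := by
      intro h4
      have h5 := one_le_norm_bd (2 * Real.pi * I)
      rw [h4, norm_zero] at h5
      linarith
    rcases smul_eq_zero.1 h2.symm with h4 | h4
    · linarith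
    · exact h3 h4
  refine ⟨?_, ?_, hlt⟩
  · by_contra hcon
    push Not at hcon
    have e1 : (√(2 * s)) ^ 2 / 2 = s := by
      rw [Real.sq_sqrt (by linarith)]
      ring
    have e2 : (√(2 * s')) ^ 2 / 2 = s' := by
      rw [Real.sq_sqrt (by linarith)]
      ring
    have h1 := arc_wall hα0 hlt (Real.sqrt_nonneg (2 * s))
      (Real.sqrt_lt_sqrt (by linarith) (show 2 * s < 2 * s' by linarith))
    rw [e1, e2] at h1
    exact h1 h
  · by_contra hcon
    push Not at hcon
    have e1 : -((√(-(2 * s))) ^ 2 / 2) = s := by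
      rw [Real.sq_sqrt (by linarith)]
      ring
    have e2 : -((√(-(2 * s'))) ^ 2 / 2) = s' := by
      rw [Real.sq_sqrt (by linarith)]
      ring
    have h1 := arc_left hα0 hlt (Real.sqrt_nonneg (-(2 * s')))
      (Real.sqrt_lt_sqrt (by linarith) (show -(2 * s') < -(2 * s) by linarith))
    rw [e1, e2] at h1
    exact h1 h.symm

end PoolB27
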