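import Pool.Agent.Work.MP_b27c98_an.Defs

/-
MODULE ConA (size M-L, compactness only). First contact of a one parameter family of curves.

PROOF. T := {α ∈ [a,b] | ∃ s ≠ s', Γ α s = Γ α s'}. For such a pair |s - s'| > δ (hnear: otherwise
 ‖Γ α s - Γ α s'‖ ≥ |s-s'|/2 > 0) and then |s|, |s'| < S (hfar, c > 0). Let P := {(s,s') | |s| ≤ S, |s'| ≤ S,
 δ ≤ |s - s'|}, compact. T is closed: α_n -> α, pairs in P, subsequence -> (s,s') ∈ P, Γ α s = Γ α s' by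
 continuity on [a,b] × ℝ, s ≠ s' as |s-s'| ≥ δ > 0. a ∈ T, b ∉ T. α₀ := sSup T ∈ T, α₀ < b, and α ∉ T for α₀ < α ≤ b.
 Let (x₀,x₀') be a contact pair at α₀ (in P). α_n := α₀ + (b - α₀)/(n+1) ∈ (α₀, b].
 On P the continuous function (x,y) -> ‖Γ α_n x - Γ α_n y‖ attains its minimum μ_n at (t_n, t_n') (P is nonempty);
 μ_n > 0 because α_n ∉ T; μ_n ≤ ‖Γ α_n x₀ - Γ α_n x₀'‖ -> 0. By symmetry we may take t_n < t_n'.
 Pass to a subsequence: (t_n,t_n') -> (s,s') ∈ P, s ≤ s', δ ≤ s' - s, Γ α₀ s = Γ α₀ s' by continuity.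
 For r > 0: take n large: |α_n - α₀| < r, |t_n - s| < r, |t_n' - s'| < r, μ_n < r and μ_n < c. m := μ_n. For all x, y with
 δ ≤ |x - y|: if |x|, |y| ≤ S then (x,y) ∈ P and m ≤ ‖..‖; otherwise S ≤ max |x| |y| and hfar gives ≥ c ≥ m.
-/

set_option autoImplicit false

namespace PoolB27

open Complex Set Metric Filter Topology

private def PS (δ S : ℝ) : Set (ℝ × ℝ) := {p | |p.1| ≤ S ∧ |p.2| ≤ S ∧ δ ≤ |p.1 - p.2|}

private theorem PS_closed (δ S : ℝ) : IsClosed (PS δ S) := by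
  have h1 : IsClosed {p : ℝ × ℝ | |p.1| ≤ S} :=
    isClosed_le (continuous_fst.abs) continuous_const
  have h2 : IsClosed {p : ℝ × ℝ | |p.2| ≤ S} :=
    isClosed_le (continuous_snd.abs) continuous_const
  have h3 : IsClosed {p : ℝ × ℝ | δ ≤ |p.1 - p.2|} :=
    isClosed_le continuous_const ((continuous_fst.sub continuous_snd).abs)
  exact h1.inter (h2.inter h3)

private theorem PS_compact (δ S : ℝ) : IsCompact (PS δ S) := by
  apply IsCompact.of_isClosed_subset (isCompact_Icc.prod isCompact_Icc) (PS_closed δ S)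
  rintro ⟨x, y⟩ ⟨h1, h2, _⟩
  exact ⟨abs_le.mp h1, abs_le.mp h2⟩

theorem contact_fixed {a b δ c S : ℝ} (hab : a < b) (hδ : 0 < δ) (hc : 0 < c) {Γ : ℝ → ℝ → ℂ}
    (hΓ : ContinuousOn (fun p : ℝ × ℝ => Γ p.1 p.2) (Icc a b ×ˢ univ))
    (hnear : ∀ α ∈ Icc a b, ∀ s s' : ℝ, |s - s'| ≤ δ → |s - s'| / 2 ≤ ‖Γ α s - Γ α s'‖)
    (hfar : ∀ α ∈ Icc a b, ∀ s s' : ℝ, δ ≤ |s - s'| → S ≤ max |s| |s'| → c ≤ ‖Γ α s - Γ α s'‖)
    (hgood : ∀ s s' : ℝ, Γ b s = Γ b s' → s = s')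
    (hbad : ∃ s s' : ℝ, s ≠ s' ∧ Γ a s = Γ a s') : Touch a b δ S Γ := by
  set g : ℝ × (ℝ × ℝ) → ℂ := fun q => Γ q.1 q.2.1 - Γ q.1 q.2.2 with hg
  have hgc : ContinuousOn g (Icc a b ×ˢ univ) := by
    apply ContinuousOn.sub
    · exact hΓ.comp (f := fun q : ℝ × (ℝ × ℝ) => (q.1, q.2.1)) (by fun_prop)
        (fun q hq => ⟨hq.1, mem_univ _⟩)
    · exact hΓ.comp (f := fun q : ℝ × (ℝ × ℝ) => (q.1, q.2.2)) (by fun_prop)
        (fun q hq => ⟨hq.1, mem_univ _⟩)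
  have hin : ∀ α ∈ Icc a b, ∀ s s' : ℝ, s ≠ s' → Γ α s = Γ α s' → (s, s') ∈ PS δ S := by
    intro α hα s s' hne heq
    have h1 : δ < |s - s'| := by
      by_contra hcon
      have h2 := hnear α hα s s' (not_lt.mp hcon)
      rw [heq, sub_self, norm_zero] at h2
      have h3 : 0 < |s - s'| := abs_pos.mpr (sub_ne_zero.mpr hne)
      linarith
    have h4 : max |s| |s'| < S := by
      by_contra hcon
      have h2 := hfar α hα s s' h1.le (not_lt.mp hcon)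
      rw [heq, sub_self, norm_zero] at h2
      linarith
    exact ⟨((le_max_left _ _).trans_lt h4).le, ((le_max_right _ _).trans_lt h4).le, h1.le⟩
  set K : Set (ℝ × (ℝ × ℝ)) := (Icc a b ×ˢ PS δ S) ∩ {q | g q = 0} with hK
  have hcomp : IsCompact (Icc a b ×ˢ PS δ S) := isCompact_Icc.prod (PS_compact δ S)
  have hgc' : ContinuousOn g (Icc a b ×ˢ PS δ S) :=
    hgc.mono (fun q hq => ⟨hq.1, mem_univ _⟩)
  have hKc : IsCompact K := by
    have h1 : IsClosed K :=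
      hgc'.preimage_isClosed_of_isClosed hcomp.isClosed isClosed_singleton
    exact hcomp.of_isClosed_subset h1 inter_subset_left
  set T : Set ℝ := Prod.fst '' K with hT
  have hTc : IsCompact T := hKc.image continuous_fst
  obtain ⟨s1, s1', hne1, heq1⟩ := hbad
  have haI : a ∈ Icc a b := ⟨le_rfl, hab.le⟩
  have hTn : T.Nonempty :=
    ⟨a, (a, (s1, s1')), ⟨⟨haI, hin a haI s1 s1' hne1 heq1⟩, sub_eq_zero.mpr heq1⟩, rfl⟩
  obtain ⟨α₀, hα₀⟩ : ∃ α₀, α₀ = sSup T := ⟨_, rfl⟩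
  have hα₀T : α₀ ∈ T := hα₀ ▸ hTc.sSup_mem hTn
  obtain ⟨⟨α₀', x0⟩, ⟨⟨hα₀I, hx0⟩, hx0g⟩, hfst⟩ := hα₀T
  simp only at hfst hα₀I hx0
  subst hfst
  have hlt : α₀' < b := by
    rcases lt_or_eq_of_le hα₀I.2 with h | h
    · exact h
    · exfalso
      rw [h] at hx0g
      have h1 : Γ b x0.1 = Γ b x0.2 := sub_eq_zero.mp hx0g
      have h2 := hgood _ _ h1
      have h3 := hx0.2.2
      rw [h2, sub_self, abs_zero] at h3
      linarith
  have hnot : ∀ α ∈ Icc a b, α₀' < α → ∀ p ∈ PS δ S, g (α, p) ≠ 0 := by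
    intro α hα hlt' p hp h0
    have h1 : α ∈ T := ⟨(α, p), ⟨⟨hα, hp⟩, h0⟩, rfl⟩
    have h2 := le_csSup hTc.bddAbove h1
    rw [← hα₀] at h2
    linarith
  -- the sequence
  set αn : ℕ → ℝ := fun n => α₀' + (b - α₀') / (n + 1) with hαn
  have hαnI : ∀ n, αn n ∈ Icc a b ∧ α₀' < αn n := by
    intro n
    have h1 : (0:ℝ) < (n:ℝ) + 1 := by positivity
    have h2 : 0 < (b - α₀') / ((n:ℝ) + 1) := div_pos (by linarith) h1
    have h3 : (b - α₀') / ((n:ℝ) + 1) ≤ b - α₀' :=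
      div_le_self (by linarith) (by linarith [Nat.cast_nonneg (α := ℝ) n])
    simp only [hαn]
    exact ⟨⟨by linarith [hα₀I.1], by linarith⟩, by linarith⟩
  have hαnlim : Tendsto αn atTop (𝓝 α₀') := by
    have h1 : Tendsto (fun n : ℕ => (b - α₀') / ((n:ℝ) + 1)) atTop (𝓝 0) := by
      have h2 := (tendsto_one_div_add_atTop_nhds_zero_nat (𝕜 := ℝ)).const_mul (b - α₀')
      rw [mul_zero] at h2
      refine h2.congr (fun n => ?_)
      rw [mul_one_div]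
    have h3 := h1.const_add α₀'
    rw [add_zero] at h3
    exact h3
  have hmin : ∀ n, ∃ q ∈ PS δ S, q.1 ≤ q.2 ∧ ∀ p ∈ PS δ S, ‖g (αn n, q)‖ ≤ ‖g (αn n, p)‖ := by
    intro n
    have h1 : ContinuousOn (fun p : ℝ × ℝ => ‖g (αn n, p)‖) (PS δ S) := by
      apply ContinuousOn.norm
      exact hgc.comp (f := fun p : ℝ × ℝ => (αn n, p)) (by fun_prop)
        (fun p _ => ⟨(hαnI n).1, mem_univ _⟩)
    obtain ⟨q, hq, hqm⟩ := (PS_compact δ S).exists_isMinOn ⟨x0, hx0⟩ h1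
    have hqm' : ∀ p ∈ PS δ S, ‖g (αn n, q)‖ ≤ ‖g (αn n, p)‖ := fun p hp => hqm hp
    rcases le_total q.1 q.2 with h | h
    · exact ⟨q, hq, h, hqm'⟩
    · refine ⟨(q.2, q.1), ⟨hq.2.1, hq.1, ?_⟩, h, ?_⟩
      · show δ ≤ |q.2 - q.1|
        rw [abs_sub_comm]
        exact hq.2.2
      · intro p hp
        have h2 : ‖g (αn n, (q.2, q.1))‖ = ‖g (αn n, q)‖ := by
          simp only [hg]
          rw [norm_sub_rev]
        rw [h2]
        exact hqm' p hp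
  choose q hqP hqle hqmin using hmin
  obtain ⟨p, hpP, φ, hφ, hφlim⟩ := (PS_compact δ S).tendsto_subseq hqP
  have hlimq : Tendsto (fun n => ((αn (φ n), q (φ n)) : ℝ × (ℝ × ℝ))) atTop
      (𝓝[Icc a b ×ˢ univ] (α₀', p)) := by
    rw [tendsto_nhdsWithin_iff]
    refine ⟨(hαnlim.comp hφ.tendsto_atTop).prodMk_nhds hφlim, ?_⟩
    exact Eventually.of_forall (fun n => ⟨(hαnI (φ n)).1, mem_univ _⟩)
  have hlimx : Tendsto (fun n => ((αn (φ n), x0) : ℝ × (ℝ × ℝ))) atTop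
      (𝓝[Icc a b ×ˢ univ] (α₀', x0)) := by
    rw [tendsto_nhdsWithin_iff]
    refine ⟨(hαnlim.comp hφ.tendsto_atTop).prodMk_nhds tendsto_const_nhds, ?_⟩
    exact Eventually.of_forall (fun n => ⟨(hαnI (φ n)).1, mem_univ _⟩)
  have hg1 : Tendsto (fun n => ‖g (αn (φ n), q (φ n))‖) atTop (𝓝 ‖g (α₀', p)‖) :=
    ((hgc (α₀', p) ⟨hα₀I, mem_univ _⟩).tendsto.comp hlimq).norm
  have hg2 : Tendsto (fun n => ‖g (αn (φ n), x0)‖) atTop (𝓝 0) := by
    have h1 := ((hgc (α₀', x0) ⟨hα₀I, mem_univ _⟩).tendsto.comp hlimx).norm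
    have h2 : g (α₀', x0) = 0 := hx0g
    rw [h2, norm_zero] at h1
    exact h1
  have hg3 : Tendsto (fun n => ‖g (αn (φ n), q (φ n))‖) atTop (𝓝 0) :=
    squeeze_zero (fun n => norm_nonneg _) (fun n => hqmin (φ n) x0 hx0) hg2
  have hgp : g (α₀', p) = 0 := by
    rw [← norm_eq_zero]
    exact tendsto_nhds_unique hg1 hg3
  have hple : p.1 ≤ p.2 := by
    have h1 : Tendsto (fun n => (q (φ n)).1) atTop (𝓝 p.1) :=
      (continuous_fst.tendsto p).comp hφlim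
    have h2 : Tendsto (fun n => (q (φ n)).2) atTop (𝓝 p.2) :=
      (continuous_snd.tendsto p).comp hφlim
    exact le_of_tendsto_of_tendsto' h1 h2 (fun n => hqle (φ n))
  have hpδ : δ ≤ p.2 - p.1 := by
    have h1 := hpP.2.2
    rwa [abs_sub_comm, abs_of_nonneg (by linarith)] at h1
  refine ⟨α₀', hα₀I, p.1, p.2, by linarith, hpδ, hpP.1, hpP.2.1, sub_eq_zero.mp hgp, ?_⟩
  intro r hr
  have e1 : ∀ᶠ n in atTop, |αn (φ n) - α₀'| < r := by
    have := (hαnlim.comp hφ.tendsto_atTop).eventually (Metric.ball_mem_nhds α₀' hr)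
    filter_upwards [this] with n hn
    simpa [Real.dist_eq] using hn
  have e2 : ∀ᶠ n in atTop, |(q (φ n)).1 - p.1| < r := by
    have := ((continuous_fst.tendsto p).comp hφlim).eventually (Metric.ball_mem_nhds p.1 hr)
    filter_upwards [this] with n hn
    simpa [Real.dist_eq] using hn
  have e3 : ∀ᶠ n in atTop, |(q (φ n)).2 - p.2| < r := by
    have := ((continuous_snd.tendsto p).comp hφlim).eventually (Metric.ball_mem_nhds p.2 hr)
    filter_upwards [this] with n hn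
    simpa [Real.dist_eq] using hn
  have e4 : ∀ᶠ n in atTop, ‖g (αn (φ n), q (φ n))‖ < min r c :=
    hg3.eventually (gt_mem_nhds (lt_min hr hc))
  obtain ⟨n, h1, h2, h3, h4⟩ := (e1.and (e2.and (e3.and e4))).exists
  refine ⟨αn (φ n), (hαnI _).1, (q (φ n)).1, (q (φ n)).2, ‖g (αn (φ n), q (φ n))‖, h1, h2, h3,
    ?_, h4.trans_le (min_le_left _ _), (hqP (φ n)).2.2, rfl, ?_⟩
  · exact norm_pos_iff.mpr (hnot _ (hαnI _).1 (hαnI _).2 _ (hqP _))
  · intro x y hxy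
    by_cases hm : S ≤ max |x| |y|
    · have h5 := hfar _ (hαnI (φ n)).1 x y hxy hm
      have h6 := h4.trans_le (min_le_right _ _)
      linarith
    · rw [not_le] at hm
      exact hqmin (φ n) (x, y) ⟨((le_max_left _ _).trans_lt hm).le,
        ((le_max_right _ _).trans_lt hm).le, hxy⟩

end PoolB27
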