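import Pool.Agent.Work.MP_b27c98_an.Defs

/-
MODULE ConB (size M-L, compactness only). The limit ε -> 0 of the contacts.

PROOF. For ε_n := ε₀/(n+1) ∈ (0, ε₀] take from hfix n the data α_n ∈ [a,b], s_n < s_n', δ ≤ s_n' - s_n, |s_n|, |s_n'| ≤ S,
 Γ ε_n α_n s_n = Γ ε_n α_n s_n'. Subsequence: α_n -> α∘ ∈ [a,b], s_n -> s∘, s_n' -> s∘', |s∘|,|s∘'| ≤ S, s∘' - s∘ ≥ δ > 0.
 Then Γ0 α∘ s∘ = Γ0 α∘ s∘': ‖Γ0 α_n s_n - Γ0 α_n s_n'‖ ≤ 2 e for n large (hconv), and Γ0 is continuous on [a,b] × ℝ.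
 By hcl: s∘ < 0 < s∘', α∘ < b. A₀ := v0 α∘ s∘' > 0 (hpos); v0 α∘ s∘ = 0 (hneg).
 Given η > 0: by continuity of v0 at (α∘, s∘') and (α∘, s∘) and hconv (with e = η/8) choose n (in the subsequence)
 with ε := ε_n ≤ η, |v ε α_n s_n' - A₀| ≤ η/2 and |v ε α_n s_n| ≤ η/2 (|v ε α_n s_n' - v0 α_n s_n'| ≤ η/8 as |s_n'| ≤ S).
 Given μ > 0: v ε is continuous on [a,b] × ℝ: choose 0 < r ≤ μ such that |α - α_n| < r, |t - s_n| < r, |t' - s_n'| < r, α ∈ [a,b],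
 imply |v ε α t - v ε α_n s_n| ≤ η/2, |v ε α t' - v ε α_n s_n'| ≤ η/2. The second part of Touch with this r
 gives α, t, t', m; take s₀ := t', s₁ := t.
-/

set_option autoImplicit false

namespace PoolB27

open Complex Set Metric Filter Topology

theorem contact_limit {a b δ S ε₀ : ℝ} (hε₀ : 0 < ε₀) (hδ : 0 < δ)
    {Γ : ℝ → ℝ → ℝ → ℂ} {v : ℝ → ℝ → ℝ → ℝ} {Γ0 : ℝ → ℝ → ℂ} {v0 : ℝ → ℝ → ℝ}
    (hΓ0 : ContinuousOn (fun p : ℝ × ℝ => Γ0 p.1 p.2) (Icc a b ×ˢ univ))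
    (hv0 : ContinuousOn (fun p : ℝ × ℝ => v0 p.1 p.2) (Icc a b ×ˢ univ))
    (hv : ∀ ε ∈ Ioc 0 ε₀, ContinuousOn (fun p : ℝ × ℝ => v ε p.1 p.2) (Icc a b ×ˢ univ))
    (hconv : ∀ e > 0, ∃ ε₁ > 0, ∀ ε ∈ Ioc 0 ε₁, ∀ α ∈ Icc a b, ∀ s : ℝ, |s| ≤ S →
      ‖Γ ε α s - Γ0 α s‖ ≤ e ∧ |v ε α s - v0 α s| ≤ e)
    (hcl : ∀ α ∈ Icc a b, ∀ s s' : ℝ, s < s' → Γ0 α s = Γ0 α s' → s < 0 ∧ 0 < s' ∧ α < b)
    (hneg : ∀ α ∈ Icc a b, ∀ s ≤ 0, v0 α s = 0)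
    (hpos : ∀ α ∈ Icc a b, α < b → ∀ s > 0, 0 < v0 α s)
    (hfix : ∀ ε ∈ Ioc 0 ε₀, Touch a b δ S (Γ ε)) :
    ∃ A₀ > 0, ∀ η > 0, ∃ ε ∈ Ioc 0 ε₀, ε ≤ η ∧ ∀ μ > 0,
      ∃ α ∈ Icc a b, ∃ s₀ s₁ m : ℝ, 0 < m ∧ m ≤ μ ∧ ‖Γ ε α s₁ - Γ ε α s₀‖ = m ∧
        δ ≤ |s₁ - s₀| ∧ (∀ x y : ℝ, δ ≤ |x - y| → m ≤ ‖Γ ε α x - Γ ε α y‖) ∧
        |v ε α s₀ - A₀| ≤ η ∧ |v ε α s₁| ≤ η := by
  set εn : ℕ → ℝ := fun n => ε₀ * (1 / ((n : ℝ) + 1)) with hεn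
  have hεnI : ∀ n, εn n ∈ Ioc 0 ε₀ := by
    intro n
    have h1 : (0:ℝ) < 1 / ((n:ℝ) + 1) := by positivity
    have h2 : 1 / ((n:ℝ) + 1) ≤ 1 := by
      rw [div_le_one (by positivity)]
      linarith [Nat.cast_nonneg (α := ℝ) n]
    refine ⟨mul_pos hε₀ h1, ?_⟩
    calc ε₀ * (1 / ((n:ℝ) + 1)) ≤ ε₀ * 1 := mul_le_mul_of_nonneg_left h2 hε₀.le
      _ = ε₀ := mul_one _
  have hεnlim : Tendsto εn atTop (𝓝 0) := by
    have h2 := (tendsto_one_div_add_atTop_nhds_zero_nat (𝕜 := ℝ)).const_mul ε₀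
    rw [mul_zero] at h2
    exact h2
  choose αn hαn sn sn' hlt hδn hSn hSn' heq htouch using fun n => hfix (εn n) (hεnI n)
  -- compactness
  set P : Set (ℝ × (ℝ × ℝ)) := Icc a b ×ˢ (Icc (-S) S ×ˢ Icc (-S) S) with hP
  have hPc : IsCompact P := isCompact_Icc.prod (isCompact_Icc.prod isCompact_Icc)
  have hqP : ∀ n, (αn n, (sn n, sn' n)) ∈ P := fun n =>
    ⟨hαn n, abs_le.mp (hSn n), abs_le.mp (hSn' n)⟩
  obtain ⟨⟨α, s, s'⟩, ⟨hα, hs, hs'⟩, φ, hφ, hφlim⟩ := hPc.tendsto_subseq hqP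
  simp only at hα hs hs'
  have lα : Tendsto (fun n => αn (φ n)) atTop (𝓝 α) := (continuous_fst.tendsto _).comp hφlim
  have lss : Tendsto (fun n => (sn (φ n), sn' (φ n))) atTop (𝓝 (s, s')) :=
    (continuous_snd.tendsto _).comp hφlim
  have ls : Tendsto (fun n => sn (φ n)) atTop (𝓝 s) := (continuous_fst.tendsto _).comp lss
  have ls' : Tendsto (fun n => sn' (φ n)) atTop (𝓝 s') := (continuous_snd.tendsto _).comp lss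
  have lε : Tendsto (fun n => εn (φ n)) atTop (𝓝 0) := hεnlim.comp hφ.tendsto_atTop
  have hαm : ∀ n, αn (φ n) ∈ Icc a b := fun n => hαn (φ n)
  have lw : ∀ {t : ℕ → ℝ} {t0 : ℝ}, Tendsto t atTop (𝓝 t0) →
      Tendsto (fun n => ((αn (φ n), t n) : ℝ × ℝ)) atTop (𝓝[Icc a b ×ˢ univ] (α, t0)) := by
    intro t t0 ht
    rw [tendsto_nhdsWithin_iff]
    exact ⟨lα.prodMk_nhds ht, Eventually.of_forall (fun n => ⟨hαm n, mem_univ _⟩)⟩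
  have lΓs : Tendsto (fun n => Γ0 (αn (φ n)) (sn (φ n))) atTop (𝓝 (Γ0 α s)) :=
    (hΓ0 (α, s) ⟨hα, mem_univ _⟩).tendsto.comp (lw ls)
  have lΓs' : Tendsto (fun n => Γ0 (αn (φ n)) (sn' (φ n))) atTop (𝓝 (Γ0 α s')) :=
    (hΓ0 (α, s') ⟨hα, mem_univ _⟩).tendsto.comp (lw ls')
  have lvs : Tendsto (fun n => v0 (αn (φ n)) (sn (φ n))) atTop (𝓝 (v0 α s)) :=
    (hv0 (α, s) ⟨hα, mem_univ _⟩).tendsto.comp (lw ls)
  have lvs' : Tendsto (fun n => v0 (αn (φ n)) (sn' (φ n))) atTop (𝓝 (v0 α s')) :=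
    (hv0 (α, s') ⟨hα, mem_univ _⟩).tendsto.comp (lw ls')
  have hsδ : δ ≤ s' - s := ge_of_tendsto' (ls'.sub ls) (fun n => hδn (φ n))
  -- eventually close
  have hev : ∀ e > 0, ∀ᶠ n in atTop, ‖Γ (εn (φ n)) (αn (φ n)) (sn (φ n)) -
      Γ0 (αn (φ n)) (sn (φ n))‖ ≤ e ∧ |v (εn (φ n)) (αn (φ n)) (sn (φ n)) -
      v0 (αn (φ n)) (sn (φ n))| ≤ e ∧ ‖Γ (εn (φ n)) (αn (φ n)) (sn' (φ n)) -
      Γ0 (αn (φ n)) (sn' (φ n))‖ ≤ e ∧ |v (εn (φ n)) (αn (φ n)) (sn' (φ n)) -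
      v0 (αn (φ n)) (sn' (φ n))| ≤ e := by
    intro e he
    obtain ⟨ε₁, hε₁, h1⟩ := hconv e he
    have h2 : ∀ᶠ n in atTop, εn (φ n) < ε₁ := lε.eventually (gt_mem_nhds hε₁)
    filter_upwards [h2] with n hn
    have h3 : εn (φ n) ∈ Ioc 0 ε₁ := ⟨(hεnI (φ n)).1, hn.le⟩
    have h4 := h1 _ h3 _ (hαm n) _ (hSn (φ n))
    have h5 := h1 _ h3 _ (hαm n) _ (hSn' (φ n))
    exact ⟨h4.1, h4.2, h5.1, h5.2⟩
  have hΓeq : Γ0 α s = Γ0 α s' := by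
    have h1 : Tendsto (fun n => Γ0 (αn (φ n)) (sn (φ n)) - Γ0 (αn (φ n)) (sn' (φ n))) atTop
        (𝓝 (Γ0 α s - Γ0 α s')) := lΓs.sub lΓs'
    have h2 : Tendsto (fun n => Γ0 (αn (φ n)) (sn (φ n)) - Γ0 (αn (φ n)) (sn' (φ n))) atTop
        (𝓝 0) := by
      rw [Metric.tendsto_atTop]
      intro e he
      obtain ⟨N, hN⟩ := (eventually_atTop.mp (hev (e / 4) (by linarith)))
      refine ⟨N, fun n hn => ?_⟩
      obtain ⟨h3, _, h4, _⟩ := hN n hn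
      rw [dist_zero_right]
      have h5 := heq (φ n)
      have h6 : Γ0 (αn (φ n)) (sn (φ n)) - Γ0 (αn (φ n)) (sn' (φ n)) =
          -(Γ (εn (φ n)) (αn (φ n)) (sn (φ n)) - Γ0 (αn (φ n)) (sn (φ n))) +
          (Γ (εn (φ n)) (αn (φ n)) (sn' (φ n)) - Γ0 (αn (φ n)) (sn' (φ n))) := by
        rw [h5]
        ring
      rw [h6]
      have h7 := norm_add_le (-(Γ (εn (φ n)) (αn (φ n)) (sn (φ n)) - Γ0 (αn (φ n)) (sn (φ n))))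
        (Γ (εn (φ n)) (αn (φ n)) (sn' (φ n)) - Γ0 (αn (φ n)) (sn' (φ n)))
      rw [norm_neg] at h7
      linarith
    exact sub_eq_zero.mp (tendsto_nhds_unique h1 h2)
  obtain ⟨hs0, hs'0, hαb⟩ := hcl α hα s s' (by linarith) hΓeq
  have hA := hpos α hα hαb s' hs'0
  have hv0s : v0 α s = 0 := hneg α hα s hs0.le
  refine ⟨v0 α s', hA, ?_⟩
  intro η hη
  have e1 := hev (η / 8) (by linarith)
  have e2 : ∀ᶠ n in atTop, |v0 (αn (φ n)) (sn' (φ n)) - v0 α s'| < η / 8 := by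
    have := lvs'.eventually (Metric.ball_mem_nhds (v0 α s') (show 0 < η / 8 by linarith))
    filter_upwards [this] with n hn
    simpa [Real.dist_eq] using hn
  have e3 : ∀ᶠ n in atTop, |v0 (αn (φ n)) (sn (φ n)) - v0 α s| < η / 8 := by
    have := lvs.eventually (Metric.ball_mem_nhds (v0 α s) (show 0 < η / 8 by linarith))
    filter_upwards [this] with n hn
    simpa [Real.dist_eq] using hn
  have e4 : ∀ᶠ n in atTop, εn (φ n) < η := lε.eventually (gt_mem_nhds hη)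
  obtain ⟨n, ⟨_, h1, _, h2⟩, h3, h4, h5⟩ := (e1.and (e2.and (e3.and e4))).exists
  refine ⟨εn (φ n), hεnI (φ n), h5.le, ?_⟩
  intro μ hμ
  rw [hv0s] at h4
  have hcA : |v (εn (φ n)) (αn (φ n)) (sn' (φ n)) - v0 α s'| ≤ η / 4 := by
    have := abs_sub_le (v (εn (φ n)) (αn (φ n)) (sn' (φ n))) (v0 (αn (φ n)) (sn' (φ n)))
      (v0 α s')
    linarith
  have hcB : |v (εn (φ n)) (αn (φ n)) (sn (φ n))| ≤ η / 4 := by
    have := abs_sub_le (v (εn (φ n)) (αn (φ n)) (sn (φ n))) (v0 (αn (φ n)) (sn (φ n))) 0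
    rw [sub_zero] at this
    linarith
  have hvc := hv (εn (φ n)) (hεnI (φ n))
  have c1 := hvc (αn (φ n), sn (φ n)) ⟨hαm n, mem_univ _⟩
  have c2 := hvc (αn (φ n), sn' (φ n)) ⟨hαm n, mem_univ _⟩
  rw [Metric.continuousWithinAt_iff] at c1 c2
  obtain ⟨r1, hr1, d1⟩ := c1 (η / 2) (by linarith)
  obtain ⟨r2, hr2, d2⟩ := c2 (η / 2) (by linarith)
  obtain ⟨α', hα', t, t', m, k1, k2, k3, k4, k5, k6, k7, k8⟩ :=
    htouch (φ n) (min μ (min r1 r2)) (lt_min hμ (lt_min hr1 hr2))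
  have mr1 : min μ (min r1 r2) ≤ r1 := (min_le_right _ _).trans (min_le_left _ _)
  have mr2 : min μ (min r1 r2) ≤ r2 := (min_le_right _ _).trans (min_le_right _ _)
  refine ⟨α', hα', t', t, m, k4, k5.le.trans (min_le_left _ _), k7, k6, k8, ?_, ?_⟩
  · have h6 := @d2 (α', t') ⟨hα', mem_univ _⟩ (by
      rw [Prod.dist_eq, Real.dist_eq, Real.dist_eq]
      exact max_lt (k1.trans_le mr2) (k3.trans_le mr2))
    rw [Real.dist_eq] at h6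
    simp only at h6
    have := abs_sub_le (v (εn (φ n)) α' t') (v (εn (φ n)) (αn (φ n)) (sn' (φ n))) (v0 α s')
    linarith
  · have h6 := @d1 (α', t) ⟨hα', mem_univ _⟩ (by
      rw [Prod.dist_eq, Real.dist_eq, Real.dist_eq]
      exact max_lt (k1.trans_le mr1) (k2.trans_le mr1))
    rw [Real.dist_eq] at h6
    simp only at h6
    have := abs_sub_le (v (εn (φ n)) α' t) (v (εn (φ n)) (αn (φ n)) (sn (φ n))) 0
    rw [sub_zero, sub_zero] at this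
    linarith

end PoolB27
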