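import Pool.Agent.Work.MP_b27c98_an.Defs
import Pool.Agent.Work.MP_b27c98_an.TwB
import Pool.Agent.Work.MP_b27c98_an.ZfB
import Pool.Agent.Work.MP_b27c98_an.CurB
import Pool.Agent.Work.MP_b27c98_an.GfB
import Pool.Agent.Work.MP_b27c98_an.FamG

/-
MODULE FamC (size M). Joint continuity of the curves in (α, s), and the limit ε -> 0.

PROOF. (α, t) -> bd (fam α ε t) is continuous at all points with sin α > 0 (FamG.fam_cont, TwB.continuous_bd). To use
intervalIntegral.continuous_parametric_intervalIntegral_of_continuous (or a direct estimate) compose with the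
continuous retraction α -> projIcc a (π/2) α, for which sin > 0 everywhere: the resulting function of (α, t) is
continuous on ℝ × ℝ, so (α, s) -> int_0^s is continuous, and on [a, π/2] it is cur (fam α ε ·) s = zf (fam α ε) s (ZfB.zf_eq_cur).
Same for Gf.
fam_conv: ‖zf (fam α ε) s - cur (Gf α ·) s‖ ≤ |s| exp(cV a) (20/sin²a √(2ε) + 2ε) (CurB.cur_close with a := 0, b := s,
M = cV a: |Re Gf| ≤ 4/sin a ≤ cV a; FamG.fam_sup), and |Re fam - Re Gf| ≤ the same bound without |s| exp. It tends to 0.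
-/

set_option autoImplicit false

namespace PoolB27

open Complex Set Metric Filter Topology

private theorem sin_pos' {a : ℝ} (ha : 0 < a) (ha' : a < Real.pi / 2) {α : ℝ}
    (hα : α ∈ Icc a (Real.pi / 2)) : 0 < Real.sin α :=
  Real.sin_pos_of_pos_of_lt_pi (ha.trans_le hα.1) (by linarith [Real.pi_pos, hα.2])

/-- continuity of the integral with parameters -/
private theorem cur_cont {a : ℝ} (ha' : a < Real.pi / 2) {f : ℝ → ℝ → ℂ}
    (hf : ∀ α ∈ Icc a (Real.pi / 2), ∀ t : ℝ, ContinuousAt (fun q : ℝ × ℝ => f q.1 q.2) (α, t)) :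
    ContinuousOn (fun p : ℝ × ℝ => cur (f p.1) p.2) (Icc a (Real.pi / 2) ×ˢ univ) := by
  set ρ : ℝ → ℝ := fun α => (projIcc a (Real.pi / 2) ha'.le α : ℝ) with hρ
  have hρc : Continuous ρ := continuous_subtype_val.comp continuous_projIcc
  have hρm : ∀ α, ρ α ∈ Icc a (Real.pi / 2) := fun α => (projIcc a (Real.pi / 2) ha'.le α).2
  have hg : Continuous (Function.uncurry fun (p : ℝ) (t : ℝ) => bd (f (ρ p) t)) := by
    rw [continuous_iff_continuousAt]
    rintro ⟨α, t⟩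
    have h1 : ContinuousAt (fun q : ℝ × ℝ => ((ρ q.1, q.2) : ℝ × ℝ)) (α, t) :=
      ((hρc.comp continuous_fst).prodMk continuous_snd).continuousAt
    have h2 : ContinuousAt (fun q : ℝ × ℝ => f q.1 q.2) ((ρ α, t) : ℝ × ℝ) := hf _ (hρm α) t
    have h3 := ContinuousAt.comp (f := fun q : ℝ × ℝ => ((ρ q.1, q.2) : ℝ × ℝ)) h2 h1
    exact ContinuousAt.comp (f := fun q : ℝ × ℝ => f (ρ q.1) q.2)
      continuous_bd.continuousAt h3
  have h4 : Continuous (fun p : ℝ × ℝ => ∫ t in (0:ℝ)..p.2, bd (f (ρ p.1) t)) := by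
    have h5 : Continuous (Function.uncurry fun (p : ℝ × ℝ) (t : ℝ) => bd (f (ρ p.1) t)) :=
      hg.comp ((continuous_fst.comp continuous_fst).prodMk continuous_snd)
    exact intervalIntegral.continuous_parametric_intervalIntegral_of_continuous h5 continuous_snd
  refine h4.continuousOn.congr ?_
  rintro ⟨α, s⟩ ⟨hα, _⟩
  have h6 : ρ α = α := by
    simp only [hρ]
    rw [projIcc_of_mem ha'.le hα]
  show cur (f α) s = ∫ t in (0:ℝ)..s, bd (f (ρ α) t)
  rw [h6]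
  rfl

private theorem cast_cont {g : ℝ → ℂ → ℂ} {α t : ℝ}
    (h : ContinuousAt (fun q : ℝ × ℂ => g q.1 q.2) ((α, (t : ℂ)) : ℝ × ℂ)) :
    ContinuousAt (fun q : ℝ × ℝ => g q.1 (q.2 : ℂ)) (α, t) := by
  have h1 : ContinuousAt (fun q : ℝ × ℝ => ((q.1, (q.2 : ℂ)) : ℝ × ℂ)) (α, t) := by fun_prop
  exact ContinuousAt.comp (f := fun q : ℝ × ℝ => ((q.1, (q.2 : ℂ)) : ℝ × ℂ)) h h1

theorem fam_curve_cont {a : ℝ} (ha : 0 < a) (ha' : a < Real.pi / 2) {ε : ℝ} (hε : ε ∈ Ioc 0 1) :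
    ContinuousOn (fun p : ℝ × ℝ => zf (fam p.1 ε) p.2) (Icc a (Real.pi / 2) ×ˢ univ) := by
  have h1 := cur_cont ha' (f := fun α t => fam α ε t) (fun α hα t =>
    cast_cont (g := fun α l => fam α ε l) (fam_cont ε (sin_pos' ha ha' hα)))
  refine h1.congr ?_
  rintro ⟨α, s⟩ ⟨hα, _⟩
  exact zf_eq_cur hε.1 (fam_gcl ha ha' hε hα).diff s

theorem fam_re_cont {a : ℝ} (ha : 0 < a) (ha' : a < Real.pi / 2) (ε : ℝ) :
    ContinuousOn (fun p : ℝ × ℝ => (fam p.1 ε p.2).re) (Icc a (Real.pi / 2) ×ˢ univ) := by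
  rintro ⟨α, s⟩ ⟨hα, _⟩
  have h1 := cast_cont (g := fun α l => fam α ε l) (α := α) (t := s)
    (fam_cont ε (p := ((α, (s : ℂ)) : ℝ × ℂ)) (sin_pos' ha ha' hα))
  exact (ContinuousAt.comp (f := fun q : ℝ × ℝ => fam q.1 ε (q.2 : ℂ))
    continuous_re.continuousAt h1).continuousWithinAt

theorem lim_curve_cont {a : ℝ} (ha : 0 < a) (ha' : a < Real.pi / 2) :
    ContinuousOn (fun p : ℝ × ℝ => cur (fun t : ℝ => Gf p.1 t) p.2)
      (Icc a (Real.pi / 2) ×ˢ univ) :=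
  cur_cont ha' (f := fun α t => Gf α t) (fun α hα t =>
    cast_cont (g := fun α l => Gf α l) (Gf_cont (sin_pos' ha ha' hα)))

theorem lim_re_cont {a : ℝ} (ha : 0 < a) (ha' : a < Real.pi / 2) :
    ContinuousOn (fun p : ℝ × ℝ => (Gf p.1 p.2).re) (Icc a (Real.pi / 2) ×ˢ univ) := by
  rintro ⟨α, s⟩ ⟨hα, _⟩
  have h1 := cast_cont (g := fun α l => Gf α l) (α := α) (t := s)
    (Gf_cont (p := ((α, (s : ℂ)) : ℝ × ℂ)) (sin_pos' ha ha' hα))
  exact (ContinuousAt.comp (f := fun q : ℝ × ℝ => Gf q.1 (q.2 : ℂ))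
    continuous_re.continuousAt h1).continuousWithinAt

theorem fam_conv {a : ℝ} (ha : 0 < a) (ha' : a < Real.pi / 2) (S : ℝ) :
    ∀ e > 0, ∃ ε₁ > 0, ∀ ε ∈ Ioc 0 ε₁, ∀ α ∈ Icc a (Real.pi / 2), ∀ s : ℝ, |s| ≤ S →
      ‖zf (fam α ε) s - cur (fun t : ℝ => Gf α t) s‖ ≤ e ∧
        |(fam α ε s).re - (Gf α s).re| ≤ e := by
  intro e he
  set b : ℝ → ℝ := fun ε => 20 / (Real.sin a) ^ 2 * √(2 * ε) + 2 * ε with hb
  have hb0 : Tendsto b (𝓝 0) (𝓝 0) := by
    have : Continuous b := by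
      simp only [hb]
      fun_prop
    have h1 := this.tendsto 0
    simpa [hb] using h1
  have hT : Tendsto (fun ε => Real.exp (cV a) * b ε * |S|) (𝓝 0) (𝓝 0) := by
    have h1 := (hb0.const_mul (Real.exp (cV a))).mul_const |S|
    simpa using h1
  have ev1 : ∀ᶠ ε in 𝓝 (0:ℝ), Real.exp (cV a) * b ε * |S| < e := hT.eventually (gt_mem_nhds he)
  have ev2 : ∀ᶠ ε in 𝓝 (0:ℝ), b ε < e := hb0.eventually (gt_mem_nhds he)
  obtain ⟨r, hr, hball⟩ := Metric.eventually_nhds_iff.mp (ev1.and ev2)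
  refine ⟨min (r / 2) 1, lt_min (by linarith) one_pos, ?_⟩
  intro ε hε α hα s hs
  have hε1 : ε ∈ Ioc (0:ℝ) 1 := ⟨hε.1, hε.2.trans (min_le_right _ _)⟩
  have hεr : dist ε 0 < r := by
    rw [dist_zero_right, Real.norm_eq_abs, abs_of_pos hε.1]
    have := hε.2.trans (min_le_left _ _)
    linarith
  obtain ⟨k1, k2⟩ := hball hεr
  have hsin := sin_pos' ha ha' hα
  have hsina := sin_pos' ha ha' (left_mem_Icc.mpr ha'.le)
  have hG := fam_gcl ha ha' hε1 hα
  have hfc : Continuous (fun t : ℝ => fam α ε t) := cont_real hε.1 hG.diff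
  have hgc : Continuous (fun t : ℝ => Gf α t) := Gf_cont_real hsin
  have hsup := fam_sup ha ha' hε1 hα
  have hreal : ∀ t : ℝ, (t : ℂ) ∈ Hd ε := fun t => Hc_sub_Hd hε.1 (real_mem_Hc t)
  have hM : ∀ t : ℝ, |(fam α ε t).re| ≤ cV a := fun t =>
    (abs_re_le_norm _).trans (hG.bound _ (hreal t))
  have hM' : ∀ t : ℝ, |(Gf α t).re| ≤ cV a := by
    intro t
    have h1 := Gf_bound hsin (t : ℂ)
    have h2 := abs_re_le_norm (Gf α t - 2 * Real.pi * I)
    have h3 : (Gf α t - 2 * Real.pi * I).re = (Gf α t).re := by simp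
    rw [h3] at h2
    have h4 : 4 / Real.sin α ≤ 4 / Real.sin a := by
      apply div_le_div_of_nonneg_left (by norm_num) hsina
      exact Real.sin_le_sin_of_le_of_le_pi_div_two (by linarith [Real.pi_pos]) hα.2 hα.1
    have h5 : 4 / Real.sin a ≤ 8 / Real.sin a :=
      div_le_div_of_nonneg_right (by norm_num) hsina.le
    unfold cV
    linarith
  constructor
  · rw [zf_eq_cur hε.1 hG.diff]
    have h1 := cur_close hfc hgc (e := b ε) (M := cV a) (a := 0) (b := s)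
      (fun t _ => hsup t) (fun t _ => hM t) (fun t _ => hM' t)
    rw [cur_zero, cur_zero, sub_zero, sub_zero, sub_zero] at h1
    refine h1.trans (le_trans ?_ k1.le)
    have hb1 : 0 ≤ b ε := (norm_nonneg _).trans (hsup 0)
    apply mul_le_mul_of_nonneg_left (hs.trans (le_abs_self S))
    exact mul_nonneg (Real.exp_pos _).le hb1
  · rw [← sub_re]
    exact ((abs_re_le_norm _).trans (hsup s)).trans k2.le

end PoolB27
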