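import Pool.Agent.Work.MP_b27c98_an.Defs
import Pool.Agent.Work.MP_b27c98_an.TwB
import Pool.Agent.Work.MP_b27c98_an.CurB

/-
MODULE Far (size S-M). Far pairs of points of a curve which is almost vertical outside [-S,S].

PROOF. By symmetry s < s' (s' - s ≥ δ). Im (bd (f t)) = cos (Im f t) cosh (Re f t) (TwB.bd_im) is ≥ 1/2 for |t| ≥ S
(cosh ≥ 1), and ≥ -cosh V for all t. Im (cur f s' - cur f s) = int_s^{s'} Im bd (f t) dt.
If s ≥ S or s' ≤ -S: |t| ≥ S on [s,s'], the integral is ≥ (s' - s)/2 ≥ δ/2.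
Otherwise s < S and s' > -S. The set [s,s'] ∩ [-S,S] has length ≤ 2S and contributes ≥ -2 S cosh V.
 If max(|s|,|s'|) = |s'|: s' ≥ S + 4 S cosh V + 2 (s' > -S excludes the negative sign, as |s'| > S or S = 0 = ...;
 if |s'| is large and s' > -S then s' > 0); the part [S, s'] ⊆ [s,s'] contributes ≥ (4 S cosh V + 2)/2, and the part
 [s, -S] (if s < -S) contributes ≥ 0: total ≥ 2 S cosh V + 1 - 2 S cosh V = 1 ≥ δ/2. Same if it is |s|.
-/

namespace PoolB27

open Complex Set Metric

/-- the vertical velocity is at least `m` on `[a, b]` -/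
private theorem far_mvt {f : ℝ → ℂ} (hf : Continuous f) {a b m : ℝ} (hab : a ≤ b)
    (h : ∀ t ∈ Icc a b, m ≤ (bd (f t)).im) : m * (b - a) ≤ (cur f b).im - (cur f a).im := by
  rcases hab.eq_or_lt with rfl | hlt
  · simp
  · have hd : ∀ s : ℝ, HasDerivAt (fun s => (cur f s).im) ((bd (f s)).im) s := fun s =>
      Complex.imCLM.hasFDerivAt.comp_hasDerivAt s (cur_hasDerivAt hf s)
    obtain ⟨c, hc, hc2⟩ := exists_hasDerivAt_eq_slope (fun s => (cur f s).im)
      (fun s => (bd (f s)).im) hlt (fun s _ => (hd s).continuousAt.continuousWithinAt)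
      (fun s _ => hd s)
    have h1 := h c (Ioo_subset_Icc_self hc)
    have h2 : (bd (f c)).im = ((cur f b).im - (cur f a).im) / (b - a) := hc2
    rw [h2, le_div_iff₀ (by linarith)] at h1
    exact h1

private theorem far_lower {f : ℝ → ℂ} {V S : ℝ} (hV : ∀ t, |(f t).re| ≤ V)
    (hS : ∀ t, S ≤ |t| → 1 / 2 ≤ Real.cos (f t).im) (t : ℝ) :
    (S ≤ |t| → 1 / 2 ≤ (bd (f t)).im) ∧ -Real.cosh V ≤ (bd (f t)).im := by
  have h1 : 1 ≤ Real.cosh (f t).re := Real.one_le_cosh _
  have h2 : Real.cosh (f t).re ≤ Real.cosh V := by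
    rw [Real.cosh_le_cosh]
    exact le_trans (hV t) (le_abs_self V)
  rw [bd_im]
  refine ⟨fun ht => ?_, ?_⟩
  · have h3 := hS t ht
    nlinarith
  · have h3 := Real.neg_one_le_cos (f t).im
    nlinarith

private theorem far_aux {f : ℝ → ℂ} (hf : Continuous f) {V S δ : ℝ} (hV : ∀ t, |(f t).re| ≤ V)
    (hS0 : 0 ≤ S) (hS : ∀ t, S ≤ |t| → 1 / 2 ≤ Real.cos (f t).im) (hδ2 : δ ≤ 2)
    {s s' : ℝ} (hss : s ≤ s') (h1 : δ ≤ s' - s)
    (h2 : S + 4 * S * Real.cosh V + 2 ≤ max |s| |s'|) :
    δ / 2 ≤ (cur f s').im - (cur f s).im := by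
  have hc : 1 ≤ Real.cosh V := Real.one_le_cosh V
  have hlow := far_lower hV hS
  have hSc : 0 ≤ S * Real.cosh V := mul_nonneg hS0 (by linarith)
  have half : ∀ a b : ℝ, a ≤ b → (∀ t ∈ Icc a b, S ≤ |t|) →
      1 / 2 * (b - a) ≤ (cur f b).im - (cur f a).im := fun a b hab ht =>
    far_mvt hf hab fun t h => (hlow t).1 (ht t h)
  have low : ∀ a b : ℝ, a ≤ b → -Real.cosh V * (b - a) ≤ (cur f b).im - (cur f a).im :=
    fun a b hab => far_mvt hf hab fun t _ => (hlow t).2
  by_cases hA : S ≤ s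
  · have h3 := half s s' hss fun t ht => le_trans (le_trans hA ht.1) (le_abs_self t)
    linarith
  by_cases hB : s' ≤ -S
  · have h3 := half s s' hss fun t ht => by
      have h4 := neg_abs_le t
      have h5 := ht.2
      have h6 := neg_le_abs t
      linarith
    linarith
  push Not at hA hB
  -- the three parts
  have hmid : ∀ a b : ℝ, -S ≤ a → b ≤ S → a ≤ b →
      -(2 * (S * Real.cosh V)) ≤ (cur f b).im - (cur f a).im := by
    intro a b ha hb hab
    have h3 := low a b hab
    have h4 : Real.cosh V * (b - a) ≤ Real.cosh V * (2 * S) :=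
      mul_le_mul_of_nonneg_left (by linarith) (by linarith)
    nlinarith
  have hleft : s ≤ -S → 1 / 2 * (-S - s) ≤ (cur f (-S)).im - (cur f s).im := fun h =>
    half s (-S) h fun t ht => by
      have h5 := ht.2
      have h6 := neg_le_abs t
      linarith
  have hright : S ≤ s' → 1 / 2 * (s' - S) ≤ (cur f s').im - (cur f S).im := fun h =>
    half S s' h fun t ht => le_trans ht.1 (le_abs_self t)
  rcases le_max_iff.1 h2 with h3 | h3
  · -- `|s|` is large, so `s` is very negative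
    have h4 : s ≤ -(S + 4 * S * Real.cosh V + 2) := by
      rcases le_abs.1 h3 with h5 | h5
      · exfalso
        nlinarith
      · linarith
    have h5 : s ≤ -S := by nlinarith
    have h6 := hleft h5
    have h7 : 2 * (S * Real.cosh V) + 1 ≤ 1 / 2 * (-S - s) := by nlinarith
    by_cases h8 : S ≤ s'
    · have h9 := hright h8
      have h10 := hmid (-S) S le_rfl le_rfl (by linarith)
      nlinarith
    · push Not at h8
      have h10 := hmid (-S) s' le_rfl h8.le hB.le
      nlinarith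
  · have h4 : S + 4 * S * Real.cosh V + 2 ≤ s' := by
      rcases le_abs.1 h3 with h5 | h5
      · exact h5
      · exfalso
        nlinarith
    have h5 : S ≤ s' := by nlinarith
    have h6 := hright h5
    have h7 : 2 * (S * Real.cosh V) + 1 ≤ 1 / 2 * (s' - S) := by nlinarith
    by_cases h8 : s ≤ -S
    · have h9 := hleft h8
      have h10 := hmid (-S) S le_rfl le_rfl (by linarith)
      nlinarith
    · push Not at h8
      have h10 := hmid s S h8.le le_rfl hA.le
      nlinarith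

theorem far_pairs {f : ℝ → ℂ} (hf : Continuous f) {V S δ : ℝ} (hV : ∀ t, |(f t).re| ≤ V)
    (hS0 : 0 ≤ S) (hS : ∀ t, S ≤ |t| → 1 / 2 ≤ Real.cos (f t).im) (hδ : 0 < δ) (hδ2 : δ ≤ 2) :
    ∀ s s' : ℝ, δ ≤ |s - s'| → S + 4 * S * Real.cosh V + 2 ≤ max |s| |s'| →
      δ / 2 ≤ ‖cur f s - cur f s'‖ := by
  intro s s' h1 h2
  have key : ∀ a b : ℝ, δ / 2 ≤ (cur f b).im - (cur f a).im → δ / 2 ≤ ‖cur f a - cur f b‖ := by
    intro a b h
    have h3 := Complex.abs_im_le_norm (cur f a - cur f b)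
    rw [Complex.sub_im] at h3
    have h4 := neg_le_abs ((cur f a).im - (cur f b).im)
    linarith
  rcases le_total s s' with h | h
  · refine key s s' (far_aux hf hV hS0 hS hδ2 h ?_ h2)
    rwa [abs_sub_comm, abs_of_nonneg (by linarith)] at h1
  · rw [norm_sub_rev]
    refine key s' s (far_aux hf hV hS0 hS hδ2 h ?_ (by rwa [max_comm]))
    rwa [abs_of_nonneg (by linarith)] at h1

end PoolB27
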