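import Pool.Agent.Work.MP_b27c98_an.Defs
import Pool.Agent.Work.MP_b27c98_an.TwB
import Pool.Agent.Work.MP_b27c98_an.ZfB
import Pool.Agent.Work.MP_b27c98_an.CurB
import Pool.Agent.Work.MP_b27c98_an.Far
import Pool.Agent.Work.MP_b27c98_an.GfB
import Pool.Agent.Work.MP_b27c98_an.FamG

/-
MODULE FamN (size S-M). Near pairs, far pairs and the good end for the curves s -> zf (fam α ε) s.

near: GCl.osc (FamG.fam_gcl) + CurB.cur_osc_one + ZfB.zf_eq_cur (all t between s and s' satisfy |t - s| ≤ cD a).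
far: for real t with |t| ≥ 128: |Im fam - 2π| ≤ ‖Gf(t+iε) - 2πi‖ + ‖Gf(t + iK) - 2πi‖ ≤ 8/√256 + ε/2 ≤ 1 (Gf_far,
 K = 128/ε²; the real constant ε has no imaginary part), cos (2π + x) = cos x ≥ 1/2 for |x| ≤ 1. Then
 Far.far_pairs with S = 128, V = cV a (|Re fam| ≤ ‖fam‖ ≤ cV a on Hd ε ∋ t), δ = cD a ≤ 1 ≤ 2.
 cS a := 128 + 4*128*cosh (cV a) + 2 is written out.
good end: fam (π/2) ε = ε + 2πi is constant, bd (ε + 2πi) = i cosh ε: zf = i cosh ε s, injective.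
-/

namespace PoolB27

open Complex Set Metric

theorem fam_near {a : ℝ} (ha : 0 < a) (ha' : a < Real.pi / 2) {ε : ℝ} (hε : ε ∈ Ioc 0 1) {α : ℝ}
    (hα : α ∈ Icc a (Real.pi / 2)) (s s' : ℝ) (h : |s - s'| ≤ cD a) :
    |s - s'| / 2 ≤ ‖zf (fam α ε) s - zf (fam α ε) s'‖ := by
  have hG := fam_gcl ha ha' hε hα
  have hd : 0 < ε := hε.1
  rw [zf_eq_cur hd hG.diff, zf_eq_cur hd hG.diff]
  apply cur_osc_one (cont_real hd hG.diff)
  intro t ht
  exact hG.osc t s' ((abs_sub_left_of_mem_uIcc ht).trans h)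

private theorem cos_half {x : ℝ} (hx : |x - 2 * Real.pi| ≤ 1) : 1 / 2 ≤ Real.cos x := by
  have h1 := Real.one_sub_sq_div_two_le_cos (x := x - 2 * Real.pi)
  rw [Real.cos_sub_two_pi] at h1
  have h2 : (x - 2 * Real.pi) ^ 2 ≤ 1 := by
    rw [← sq_abs]
    nlinarith [abs_nonneg (x - 2 * Real.pi)]
  linarith

private theorem far_im {α : ℝ} (hα : 0 < Real.sin α) {t : ℝ} (ht : 128 ≤ |t|) (y : ℝ) :
    |(Gf α (t + (y : ℂ) * I) - 2 * Real.pi * I).im| ≤ 1 / 2 := by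
  have h1 : |t| ≤ ‖(t : ℂ) + (y : ℂ) * I‖ := by
    have h2 := abs_re_le_norm ((t : ℂ) + (y : ℂ) * I)
    simpa using h2
  have h3 : (2:ℝ) ≤ ‖(t : ℂ) + (y : ℂ) * I‖ := by linarith
  refine (abs_im_le_norm _).trans ((Gf_far hα h3).trans ?_)
  have h4 : (16:ℝ) ≤ √(2 * ‖(t : ℂ) + (y : ℂ) * I‖) := by
    apply Real.le_sqrt_of_sq_le
    linarith
  rw [div_le_iff₀ (by linarith)]
  linarith

theorem fam_far {a : ℝ} (ha : 0 < a) (ha' : a < Real.pi / 2) {ε : ℝ} (hε : ε ∈ Ioc 0 1) {α : ℝ}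
    (hα : α ∈ Icc a (Real.pi / 2)) (s s' : ℝ) (h : cD a ≤ |s - s'|)
    (h' : 128 + 4 * 128 * Real.cosh (cV a) + 2 ≤ max |s| |s'|) :
    cD a / 2 ≤ ‖zf (fam α ε) s - zf (fam α ε) s'‖ := by
  have hG := fam_gcl ha ha' hε hα
  have hd : 0 < ε := hε.1
  have hsin : 0 < Real.sin α := Real.sin_pos_of_pos_of_lt_pi (by linarith [hα.1])
    (by linarith [hα.2, Real.pi_pos])
  rw [zf_eq_cur hd hG.diff, zf_eq_cur hd hG.diff]
  apply far_pairs (cont_real hd hG.diff) (V := cV a) (S := 128) ?_ (by norm_num) ?_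
    (cD_pos ha ha').1 (by linarith [(cD_pos ha ha').2]) s s' h h'
  · intro t
    refine (abs_re_le_norm _).trans (hG.bound t ?_)
    show -ε < ((t : ℂ)).im
    rw [ofReal_im]
    linarith
  · intro t ht
    apply cos_half
    have h1 := far_im hsin ht ε
    have h2 := far_im hsin ht (128 / ε ^ 2)
    have e : (fam α ε t).im - 2 * Real.pi = (Gf α (t + (ε : ℂ) * I) - 2 * Real.pi * I).im -
        (Gf α (t + ((128 / ε ^ 2 : ℝ) : ℂ) * I) - 2 * Real.pi * I).im := by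
      unfold fam
      simp only [sub_im, add_im, ofReal_im, mul_im, mul_re, ofReal_re, I_im, I_re]
      simp
      ring
    rw [e]
    exact (abs_sub _ _).trans (by linarith)

theorem fam_good {ε : ℝ} (hε : ε ∈ Ioc 0 1) (s s' : ℝ)
    (h : zf (fam (Real.pi / 2) ε) s = zf (fam (Real.pi / 2) ε) s') : s = s' := by
  have hF : fam (Real.pi / 2) ε = fun _ => (ε : ℂ) + 2 * Real.pi * I := by
    funext l
    exact fam_half_pi ε l
  rw [hF] at h
  have hdiff : DifferentiableOn ℂ (fun _ : ℂ => (ε : ℂ) + 2 * Real.pi * I) (Hd 1) :=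
    differentiableOn_const _
  have e : ∀ x : ℝ, zf (fun _ : ℂ => (ε : ℂ) + 2 * Real.pi * I) x =
      x • bd ((ε : ℂ) + 2 * Real.pi * I) := by
    intro x
    rw [zf_eq_cur one_pos hdiff]
    unfold cur
    rw [intervalIntegral.integral_const, sub_zero]
  rw [e, e] at h
  have hb : bd ((ε : ℂ) + 2 * Real.pi * I) ≠ 0 := by
    intro h0
    have := one_le_norm_bd ((ε : ℂ) + 2 * Real.pi * I)
    rw [h0, norm_zero] at this
    linarith
  exact smul_left_injective ℝ hb h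

end PoolB27
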