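import Pool.Agent.Work.MP_b27c98_an.Defs
import Pool.Agent.Work.MP_b27c98_an.ZfB
import Pool.Agent.Work.MP_b27c98_an.GfB
import Pool.Agent.Work.MP_b27c98_an.FamG
import Pool.Agent.Work.MP_b27c98_an.FamN
import Pool.Agent.Work.MP_b27c98_an.FamC
import Pool.Agent.Work.MP_b27c98_an.Cls
import Pool.Agent.Work.MP_b27c98_an.BadE
import Pool.Agent.Work.MP_b27c98_an.ConA
import Pool.Agent.Work.MP_b27c98_an.ConB

/-
MODULE Fold (size M, assembly). The fold theorem.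

PROOF. a, ε₀ from BadE.bad_end. b := π/2, δ := cD a, c := cD a/2, S := 128 + 4*128*cosh (cV a) + 2, V := cV a.
For ε ∈ (0, ε₀]: ConA.contact_fixed for Γ α s := zf (fam α ε) s (FamC.fam_curve_cont, FamN.fam_near, fam_far, fam_good,
bad_end) gives Touch a b δ S.
ConB.contact_limit with Γ ε α s := zf (fam α ε) s, v ε α s := (fam α ε s).re, Γ0 α s := cur (Gf α ·) s, v0 α s := (Gf α s).re:
hypotheses from FamC (lim_curve_cont, lim_re_cont, fam_re_cont, fam_conv), Cls.classify, GfB.Gf_re_zero, Gf_re_pos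
(0 < cos α for α < π/2).
It yields A₀ > 0 and for η > 0 an ε ∈ (0, ε₀], ε ≤ η: take d := ε, g := ε/2; for μ > 0: G := fam α ε, wG := ε + 2πi (real part ε ≤ η),
GCl by FamG.fam_gcl.   |v ε α s₁| ≤ η gives (G s₁).re ≤ η.
-/

namespace PoolB27

open Complex Set Metric

theorem fold : ∃ V δ A₀ : ℝ, 0 ≤ V ∧ 0 < δ ∧ 0 < A₀ ∧ ∀ η > 0, ∃ d > 0, ∃ g > 0, ∀ μ > 0,
    ∃ (G : ℂ → ℂ) (wG : ℂ) (s₀ s₁ m : ℝ), GCl V d g δ G wG ∧ wG.re ≤ η ∧ 0 < m ∧ m ≤ μ ∧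
      (∀ x y : ℝ, δ ≤ |x - y| → m ≤ ‖zf G x - zf G y‖) ∧ ‖zf G s₁ - zf G s₀‖ = m ∧
      δ ≤ |s₁ - s₀| ∧ |(G s₀).re - A₀| ≤ η ∧ (G s₁).re ≤ η := by
  obtain ⟨a, ha, ha', ε₀, hε₀, hbad⟩ := bad_end
  have hV := cV_pos ha ha'
  have hD := cD_pos ha ha'
  have hsin : ∀ α ∈ Icc a (Real.pi / 2), 0 < Real.sin α := fun α hα =>
    Real.sin_pos_of_pos_of_lt_pi (ha.trans_le hα.1) (by linarith [hα.2, Real.pi_pos])
  have h01 : ∀ ε ∈ Ioc 0 ε₀, ε ∈ Ioc (0:ℝ) 1 := fun ε hε => ⟨hε.1, hε.2.trans hε₀.2⟩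
  have hfix : ∀ ε ∈ Ioc 0 ε₀, Touch a (Real.pi / 2) (cD a)
      (128 + 4 * 128 * Real.cosh (cV a) + 2) (fun α s => zf (fam α ε) s) := by
    intro ε hε
    have h1 := h01 ε hε
    refine contact_fixed (c := cD a / 2) ha' hD.1 (half_pos hD.1) (fam_curve_cont ha ha' h1) ?_ ?_
      ?_ ?_
    · intro α hα s s' h
      exact fam_near ha ha' h1 hα s s' h
    · intro α hα s s' h h'
      exact fam_far ha ha' h1 hα s s' h h'
    · intro s s' h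
      exact fam_good h1 s s' h
    · exact hbad ε hε
  obtain ⟨A₀, hA₀, hmain⟩ := contact_limit (a := a) (b := Real.pi / 2) (δ := cD a)
    (S := 128 + 4 * 128 * Real.cosh (cV a) + 2) (ε₀ := ε₀) hε₀.1 hD.1
    (Γ := fun ε α s => zf (fam α ε) s) (v := fun ε α s => (fam α ε s).re)
    (Γ0 := fun α s => cur (fun t : ℝ => Gf α t) s) (v0 := fun α s => (Gf α s).re)
    (lim_curve_cont ha ha') (lim_re_cont ha ha') (fun ε _ => fam_re_cont ha ha' ε)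
    (by
      intro e he
      obtain ⟨ε₁, h1, h2⟩ := fam_conv ha ha' (128 + 4 * 128 * Real.cosh (cV a) + 2) e he
      exact ⟨ε₁, h1, h2⟩)
    (classify ha ha')
    (fun α hα s hs => Gf_re_zero (hsin α hα) hs)
    (fun α hα hα' s hs => Gf_re_pos (hsin α hα)
      (Real.cos_pos_of_mem_Ioo ⟨by linarith [hα.1, Real.pi_pos], hα'⟩) hs)
    hfix
  refine ⟨cV a, cD a, A₀, hV.le, hD.1, hA₀, fun η hη => ?_⟩
  obtain ⟨ε, hε, hεη, h2⟩ := hmain η hη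
  refine ⟨ε, hε.1, ε / 2, half_pos hε.1, fun μ hμ => ?_⟩
  obtain ⟨α, hα, s₀, s₁, m, hm, hmμ, h3, h4, h5, h6, h7⟩ := h2 μ hμ
  refine ⟨fam α ε, ε + 2 * Real.pi * I, s₀, s₁, m, fam_gcl ha ha' (h01 ε hε) hα, ?_, hm, hmμ, h5,
    h3, h4, h6, (le_abs_self _).trans h7⟩
  have h8 : ((ε : ℂ) + 2 * Real.pi * I).re = ε := by simp
  rw [h8]
  exact hεη

end PoolB27
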