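import Pool.Agent.Work.MP_b27c98_an.Defs
import Pool.Agent.Work.MP_b27c98_an.ZfB

/-
MODULE GLip (size S). A function bounded by V and holomorphic on Im > -d is Lipschitz on Im > -d/2.

PROOF. For a ∈ Hd (d/2) the closed ball of radius d/2 around a is in Hd d (imaginary part ≥ Im a - d/2 > -d).
Cauchy's estimate (Complex.norm_deriv_le_of_forall_mem_sphere_norm_le, G is DiffContOnCl on the ball because it is
differentiable on the larger open set): ‖deriv G a‖ ≤ V / (d/2) = 2 V / d. Hd (d/2) is convex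
(ZfB.convex_Hd): Convex.norm_image_sub_le_of_norm_deriv_le.
-/

namespace PoolB27

open Complex Set Metric

theorem gcl_nonneg {V d g δ : ℝ} {G : ℂ → ℂ} {wG : ℂ} (hG : GCl V d g δ G wG) (hd : 0 < d) :
    0 ≤ V := by
  have h : (0 : ℂ) ∈ Hd d := by
    show -d < (0 : ℂ).im
    simpa using hd
  exact (norm_nonneg _).trans (hG.bound 0 h)

theorem gcl_lip {V d g δ : ℝ} {G : ℂ → ℂ} {wG : ℂ} (hG : GCl V d g δ G wG) (hd : 0 < d) :
    ∀ a ∈ Hd (d / 2), ∀ b ∈ Hd (d / 2), ‖G a - G b‖ ≤ 2 * V / d * ‖a - b‖ := by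
  have hsub : ∀ x ∈ Hd (d / 2), closedBall x (d / 2) ⊆ Hd d := by
    intro x hx z hz
    have h1 : ‖z - x‖ ≤ d / 2 := by simpa [dist_eq_norm] using hz
    have h2 : |(z - x).im| ≤ d / 2 := (abs_im_le_norm _).trans h1
    rw [sub_im, abs_le] at h2
    have h3 : -(d / 2) < x.im := hx
    show -d < z.im
    linarith [h2.1]
  have hdiff : ∀ x ∈ Hd (d / 2), DifferentiableAt ℂ G x := by
    intro x hx
    exact hG.diff.differentiableAt ((isOpen_Hd d).mem_nhds (hsub x hx (mem_closedBall_self (by linarith))))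
  have hder : ∀ x ∈ Hd (d / 2), ‖deriv G x‖ ≤ 2 * V / d := by
    intro x hx
    have h1 : DiffContOnCl ℂ G (ball x (d / 2)) := by
      apply DifferentiableOn.diffContOnCl
      rw [closure_ball x (by linarith : d / 2 ≠ 0)]
      exact hG.diff.mono (hsub x hx)
    have h2 := norm_deriv_le_of_forall_mem_sphere_norm_le (by linarith : 0 < d / 2) h1
      (C := V) (fun z hz => hG.bound z (hsub x hx (sphere_subset_closedBall hz)))
    calc ‖deriv G x‖ ≤ V / (d / 2) := h2
      _ = 2 * V / d := by field_simp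
  intro a ha b hb
  exact (convex_Hd (d / 2)).norm_image_sub_le_of_norm_deriv_le hdiff hder hb ha

end PoolB27
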