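import Pool.Agent.Work.MP_b27c98_an.Defs
import Pool.Agent.Work.MP_b27c98_an.ZfB
import Pool.Agent.Work.MP_b27c98_an.GLip

/-
MODULE InsD (size S). First facts on ins F G s L l = F l + G (s + l/L) - G s.

For l ∈ Hd 1: Im (s + l/L) = Im l / L > -1/L ≥ -d if 1 ≤ d L, and ≥ -d/2 if 2 ≤ d L.
ins_sub_F: ins - F = G (s + l/L) - G s, GLip.gcl_lip. On Hc only L > 0 is needed (Hc ⊆ Hd (d/2)).
-/

namespace PoolB27

open Complex Set Metric

theorem eta_pos {κ V d : ℝ} (hκ : 1 ≤ κ) (hV : 0 ≤ V) (hd : 0 < d) : 0 < eta κ V d := by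
  unfold eta
  positivity

theorem eta_ineq {κ V d : ℝ} (hκ : 1 ≤ κ) (hV : 0 ≤ V) (hd : 0 < d) :
    Real.exp (κ + 2 * V) * (2 * V / d * eta κ V d) ≤ (2 * κ)⁻¹ := by
  have hE : 0 < Real.exp (κ + 2 * V) := Real.exp_pos _
  have e : Real.exp (κ + 2 * V) * (2 * V / d * eta κ V d) = V / (V + 1) * (2 * κ)⁻¹ := by
    unfold eta
    have : κ ≠ 0 := by linarith
    have : V + 1 ≠ 0 := by linarith
    field_simp
    ring
  rw [e]
  have h1 : V / (V + 1) ≤ 1 := by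
    rw [div_le_one (by linarith)]
    linarith
  have h2 : 0 ≤ (2 * κ)⁻¹ := by positivity
  nlinarith

private theorem shift_mem {d : ℝ} (s : ℝ) {L : ℝ} (hL : 0 < L) (hdL : 1 ≤ d * L) {l : ℂ}
    (hl : l ∈ Hd 1) : (s : ℂ) + l / L ∈ Hd d := by
  have h1 : -1 < l.im := hl
  show -d < ((s : ℂ) + l / L).im
  rw [add_im, ofReal_im, zero_add, div_ofReal_im]
  have h2 : -(d * L) < l.im := by linarith
  rw [lt_div_iff₀ hL]
  linarith

theorem ins_diff {V d g δ : ℝ} {F G : ℂ → ℂ} {wG : ℂ} (hF : DifferentiableOn ℂ F (Hd 1))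
    (hG : GCl V d g δ G wG) (s : ℝ) {L : ℝ} (hL : 0 < L) (hdL : 1 ≤ d * L) :
    DifferentiableOn ℂ (ins F G s L) (Hd 1) := by
  have h1 : DifferentiableOn ℂ (fun l : ℂ => G ((s : ℂ) + l / L)) (Hd 1) := by
    apply hG.diff.comp (f := fun l : ℂ => (s : ℂ) + l / L)
    · fun_prop
    · intro l hl
      exact shift_mem (d := d) s hL hdL hl
  exact (hF.add h1).sub_const _

theorem ins_norm {κ V d g δ : ℝ} {F G : ℂ → ℂ} {w wG : ℂ} (hF : Pre κ F w)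
    (hG : GCl V d g δ G wG) (hd : 0 < d) (s : ℝ) {L : ℝ} (hL : 0 < L) (hdL : 1 ≤ d * L) :
    ∀ l ∈ Hd 1, ‖ins F G s L l‖ ≤ κ + 2 * V := by
  intro l hl
  have h1 := hF.bound l hl
  have h2 := hG.bound _ (shift_mem (d := d) s hL hdL hl)
  have h3 := hG.bound _ (Hc_sub_Hd hd (real_mem_Hc s))
  unfold ins
  calc ‖F l + G ((s : ℂ) + l / L) - G s‖ ≤ ‖F l + G ((s : ℂ) + l / L)‖ + ‖G s‖ := norm_sub_le _ _
    _ ≤ ‖F l‖ + ‖G ((s : ℂ) + l / L)‖ + ‖G s‖ := by gcongr; exact norm_add_le _ _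
    _ ≤ κ + 2 * V := by linarith

private theorem ins_sub_eq (F G : ℂ → ℂ) (s L : ℝ) (l : ℂ) :
    ins F G s L l - F l = G ((s : ℂ) + l / L) - G s := by
  unfold ins
  ring

private theorem shift_norm (s : ℝ) {L : ℝ} (hL : 0 < L) (l : ℂ) :
    ‖((s : ℂ) + l / L) - s‖ = ‖l‖ / L := by
  rw [add_sub_cancel_left, norm_div, norm_real, Real.norm_eq_abs, abs_of_pos hL]

theorem ins_sub_F {V d g δ : ℝ} {F G : ℂ → ℂ} {wG : ℂ} (hG : GCl V d g δ G wG) (hd : 0 < d)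
    (s : ℝ) {L : ℝ} (hL : 0 < L) (hdL : 2 ≤ d * L) :
    ∀ l ∈ Hd 1, ‖ins F G s L l - F l‖ ≤ 2 * V / d * (‖l‖ / L) := by
  intro l hl
  rw [ins_sub_eq, ← shift_norm s hL l]
  apply gcl_lip hG hd
  · exact shift_mem (d := d / 2) s hL (by linarith) hl
  · exact Hc_sub_Hd (by linarith) (real_mem_Hc s)

theorem ins_sub_F_Hc {V d g δ : ℝ} {F G : ℂ → ℂ} {wG : ℂ} (hG : GCl V d g δ G wG) (hd : 0 < d)
    (s : ℝ) {L : ℝ} (hL : 0 < L) :
    ∀ l ∈ Hc, ‖ins F G s L l - F l‖ ≤ 2 * V / d * (‖l‖ / L) := by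
  intro l hl
  rw [ins_sub_eq, ← shift_norm s hL l]
  apply gcl_lip hG hd
  · apply Hc_sub_Hd (by linarith)
    have h1 : (0:ℝ) ≤ l.im := hl
    show (0:ℝ) ≤ ((s : ℂ) + l / L).im
    rw [add_im, ofReal_im, zero_add, div_ofReal_im]
    positivity
  · exact Hc_sub_Hd (by linarith) (real_mem_Hc s)

end PoolB27
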