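import Pool.Agent.Work.MP_b27c98_an.Defs
import Pool.Agent.Work.MP_b27c98_an.TwB
import Pool.Agent.Work.MP_b27c98_an.TlB
import Pool.Agent.Work.MP_b27c98_an.ZfB
import Pool.Agent.Work.MP_b27c98_an.CurB
import Pool.Agent.Work.MP_b27c98_an.InsD

/-
MODULE InsC (size M). The boundary curve of the inserted function is the L-fold enlargement of the boundary
curve of G, up to a rotation and a bounded error.

PROOF. β := Im w - Im (G s), so G s + β i = w (using (G s).re = w.re). F₁ := ins F G s L. For real t let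
H t := G (s + t/L) + β i. Then F₁ t - H t = F t - w, of norm ≤ κ tl |t| ≤ κ.
|Re (H t)| ≤ V, |Re (F₁ t)| ≤ V + κ. By TwB.bd_diff with M = V + κ:
  ‖bd (F₁ t) - bd (H t)‖ ≤ exp(V+κ) κ tl |t|.
zf F₁ t - zf F₁ t' = int_{t'}^t bd (F₁ τ) dτ (ZfB.zf_real) and
int_{t'}^t bd (H τ) dτ = exp(-iβ) int_{t'}^t bd (G (s + τ/L)) dτ (TwB.bd_shift)
  = exp(-iβ) L (zf G (s + t/L) - zf G (s + t'/L)) (substitution u = s + τ/L and ZfB.zf_real for G).
The difference is at most exp(V+κ) κ |int_{t'}^t tl |τ| dτ| ≤ 4 κ exp(V+κ) = 2 C0 κ V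
(TlB.tl_int_abs for t and t').  Reverse triangle inequality, |exp(-iβ)| = 1.
-/

namespace PoolB27

open Complex Set Metric

theorem ins_cmp {κ V d g δ : ℝ} {F G : ℂ → ℂ} {w wG : ℂ} (hF : Pre κ F w)
    (hG : GCl V d g δ G wG) (hd : 0 < d) {s : ℝ} (hs : (G s).re = w.re) {L : ℝ} (hL : 0 < L)
    (hdL : 1 ≤ d * L) (t t' : ℝ) :
    |‖zf (ins F G s L) t - zf (ins F G s L) t'‖ -
      L * ‖zf G ((s + t / L : ℝ) : ℂ) - zf G ((s + t' / L : ℝ) : ℂ)‖| ≤ 2 * C0 κ V := by
  have hκ0 : 0 < κ := by linarith [hF.one_le]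
  have hmemd : ∀ x : ℝ, (x : ℂ) ∈ Hd d := fun x => Hc_sub_Hd hd (real_mem_Hc x)
  have hmem1 : ∀ x : ℝ, (x : ℂ) ∈ Hd 1 := fun x => Hc_sub_Hd one_pos (real_mem_Hc x)
  set β : ℝ := w.im - (G s).im with hβ
  have hGsβ : G s + β * I = w := by
    apply Complex.ext
    · simp [hs]
    · simp [hβ]
  set F₁ := ins F G s L with hF₁
  have hF₁d : DifferentiableOn ℂ F₁ (Hd 1) := ins_diff hF.diff hG s hL hdL
  have cF₁ : Continuous (fun τ : ℝ => F₁ τ) := cont_real one_pos hF₁d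
  have cG : Continuous (fun τ : ℝ => G τ) := cont_real hd hG.diff
  let Hh : ℝ → ℂ := fun τ => G ((s + τ / L : ℝ) : ℂ) + β * I
  have cH : Continuous Hh := by
    have h1 : Continuous (fun τ : ℝ => s + τ / L) := by fun_prop
    exact (cG.comp h1).add continuous_const
  have hdiff : ∀ τ : ℝ, F₁ τ - Hh τ = F τ - w := by
    intro τ
    show F τ + G ((s : ℂ) + (τ : ℂ) / L) - G s - (G ((s + τ / L : ℝ) : ℂ) + β * I) = F τ - w
    push_cast
    linear_combination -hGsβ
  have hHre : ∀ τ : ℝ, |(Hh τ).re| ≤ V := by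
    intro τ
    have h1 : (Hh τ).re = (G ((s + τ / L : ℝ) : ℂ)).re := by simp [Hh]
    rw [h1]
    exact (abs_re_le_norm _).trans (hG.bound _ (hmemd _))
  have htail : ∀ τ : ℝ, ‖F τ - w‖ ≤ κ * tl |τ| := by
    intro τ
    have h1 := hF.tail τ (real_mem_Hc τ)
    rwa [Complex.norm_real, Real.norm_eq_abs] at h1
  have htail1 : ∀ τ : ℝ, ‖F τ - w‖ ≤ κ := fun τ =>
    (htail τ).trans (by
      have := tl_le_one (abs_nonneg τ)
      nlinarith)
  have hF₁re : ∀ τ : ℝ, |(F₁ τ).re| ≤ V + κ := by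
    intro τ
    have h1 : (F₁ τ).re = (Hh τ).re + (F τ - w).re := by
      rw [← hdiff τ, sub_re]; ring
    rw [h1]
    refine (abs_add_le _ _).trans (add_le_add (hHre τ) ?_)
    exact (abs_re_le_norm _).trans (htail1 τ)
  have hbd : ∀ τ : ℝ, ‖bd (F₁ τ) - bd (Hh τ)‖ ≤ Real.exp (V + κ) * κ * tl |τ| := by
    intro τ
    have h1 := bd_diff (hF₁re τ) ((hHre τ).trans (by linarith : V ≤ V + κ))
    rw [hdiff τ] at h1
    refine h1.trans ?_
    rw [mul_assoc]
    exact mul_le_mul_of_nonneg_left (htail τ) (Real.exp_pos _).le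
  have ctl : Continuous (fun τ : ℝ => tl (|τ|)) :=
    tl_cont.comp_continuous continuous_abs fun τ => abs_nonneg τ
  have hint : |(∫ τ in t'..t, tl (|τ|))| ≤ 4 := by
    have h1 : ∫ τ in t'..t, tl (|τ|) = (∫ τ in (0:ℝ)..t, tl (|τ|)) - ∫ τ in (0:ℝ)..t', tl (|τ|) := by
      rw [intervalIntegral.integral_interval_sub_left (ctl.intervalIntegrable _ _)
        (ctl.intervalIntegrable _ _)]
    rw [h1]
    have h2 := abs_le.1 (tl_int_abs t)
    have h3 := abs_le.1 (tl_int_abs t')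
    rw [abs_le]
    constructor <;> linarith [h2.1, h2.2, h3.1, h3.2]
  have hz1 : zf F₁ t - zf F₁ t' = ∫ τ in t'..t, bd (F₁ τ) := zf_real one_pos hF₁d t' t
  have hz2 : exp (-(β * I)) * (L * (zf G ((s + t / L : ℝ) : ℂ) - zf G ((s + t' / L : ℝ) : ℂ))) =
      ∫ τ in t'..t, bd (Hh τ) := by
    rw [zf_real hd hG.diff (s + t' / L) (s + t / L)]
    have h1 : ∫ τ in t'..t, bd (Hh τ) =
        ∫ τ in t'..t, exp (-(β * I)) * bd (G ((s + τ / L : ℝ) : ℂ)) := by
      refine intervalIntegral.integral_congr fun τ _ => ?_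
      exact bd_shift _ β
    rw [h1, intervalIntegral.integral_const_mul]
    congr 1
    have h2 := intervalIntegral.integral_comp_add_div (a := t') (b := t)
      (fun u : ℝ => bd (G (u : ℂ))) hL.ne' s
    rw [h2, real_smul]
  have hn : ‖exp (-(β * I)) * (L * (zf G ((s + t / L : ℝ) : ℂ) - zf G ((s + t' / L : ℝ) : ℂ)))‖ =
      L * ‖zf G ((s + t / L : ℝ) : ℂ) - zf G ((s + t' / L : ℝ) : ℂ)‖ := by
    rw [norm_mul, norm_mul, Complex.norm_real, Real.norm_eq_abs, abs_of_pos hL, norm_exp]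
    simp
  rw [← hn]
  refine (abs_norm_sub_norm_le _ _).trans ?_
  rw [hz1, hz2]
  have cb1 : Continuous (fun τ : ℝ => bd (F₁ τ)) := continuous_bd.comp cF₁
  have cb2 : Continuous (fun τ : ℝ => bd (Hh τ)) := continuous_bd.comp cH
  rw [← intervalIntegral.integral_sub (cb1.intervalIntegrable _ _) (cb2.intervalIntegrable _ _)]
  have cg : Continuous (fun τ : ℝ => Real.exp (V + κ) * κ * tl |τ|) := continuous_const.mul ctl
  have h1 := intervalIntegral.norm_integral_le_abs_of_norm_le (μ := MeasureTheory.volume)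
    (a := t') (b := t) (f := fun τ : ℝ => bd (F₁ τ) - bd (Hh τ))
    (g := fun τ : ℝ => Real.exp (V + κ) * κ * tl |τ|)
    (Filter.Eventually.of_forall fun τ => hbd τ) (cg.intervalIntegrable _ _)
  refine h1.trans ?_
  rw [intervalIntegral.integral_const_mul, abs_mul,
    abs_of_pos (by positivity : 0 < Real.exp (V + κ) * κ)]
  have h2 : 2 * C0 κ V = Real.exp (V + κ) * κ * 4 := by
    unfold C0; ring
  rw [h2]
  exact mul_le_mul_of_nonneg_left hint (by positivity)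

end PoolB27
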