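import Pool.Agent.Work.MP_b27c98_an.Defs
import Pool.Agent.Work.MP_b27c98_an.TwB
import Pool.Agent.Work.MP_b27c98_an.TlB
import Pool.Agent.Work.MP_b27c98_an.ZfB
import Pool.Agent.Work.MP_b27c98_an.GLip
import Pool.Agent.Work.MP_b27c98_an.InsD
import Pool.Agent.Work.MP_b27c98_an.InsC

/-
MODULE InsG (size M). The point of large height above the second contact point.

PROOF. F₁ := ins F G s₀ L, c := L (s₁ - s₀) (real), p := c + h i.
‖p‖ ≥ |c| ≥ L δ ≥ Λ if L ≥ |Λ|/δ.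
For 0 ≤ y ≤ h: F₁ (c + i y) = (F(c + iy) - w) + G (s₁ + i y/L) + (w - G s₀), so
 |Re F₁(c + iy)| ≤ κ tl ‖c + iy‖ + |Re G (s₁ + i y/L)| where (w - G s₀ is purely imaginary)
 0 ≤ g ≤ Re G (s₁ + iy/L) ≤ Re G s₁ + (2V/d)(h/L) ≤ 1/h + (2V/d)(h/L) (GLip.gcl_lip), and ‖c + iy‖ ≥ L δ. Choose L₀
 such that (2V/d) h/L ≤ 1/(2h) and κ tl (L δ) ≤ 1/(2h) for L ≥ L₀: |Re F₁| ≤ 2/h ≤ 1 on the vertical segment.
 By the segment formula ZfB.zf_sub (a = c, b = p, b - a = h i), TwB.tw_real, norm_tw_I: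
 ‖zf F₁ p - zf F₁ c‖ ≤ h sinh(2/h) ≤ 4: sinh x ≤ 2 x for 0 ≤ x ≤ 1 (e.g. sinh x ≤ x cosh x, cosh 1 ≤ 2).
 At the bottom: InsC.ins_cmp with t = c, t' = 0: ‖zf F₁ c‖ ≤ L ‖zf G s₁ - zf G s₀‖ + 2 C0 κ V
 (s₀ + c/L = s₁, s₀ + 0/L = s₀, zf F₁ 0 = 0).
 Also L₀ ≥ 2/d.
-/

namespace PoolB27

open Complex Set Metric

private theorem abs_sinh_le {x : ℝ} (hx : |x| ≤ 1) : |Real.sinh x| ≤ 2 * |x| := by
  have h1 := Real.abs_exp_sub_one_le hx
  have h2 := Real.abs_exp_sub_one_le (x := -x) (by rwa [abs_neg])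
  rw [abs_neg] at h2
  rw [Real.sinh_eq, abs_le]
  rw [abs_le] at h1 h2
  constructor <;> linarith [h1.1, h1.2, h2.1, h2.2]

theorem ins_growth {κ V h d δ Λ : ℝ} (hκ : 1 ≤ κ) (hV : 0 ≤ V) (hh : 2 ≤ h) (hd : 0 < d)
    (hδ : 0 < δ) :
    ∃ L₀ > 0, ∀ (F : ℂ → ℂ) (w : ℂ), Pre κ F w → ∀ (G : ℂ → ℂ) (wG : ℂ) (g : ℝ),
      GCl V d g δ G wG → 0 ≤ g → ∀ s₀ s₁ : ℝ, (G s₀).re = w.re → δ ≤ |s₁ - s₀| →
      (G s₁).re ≤ 1 / h → ∀ L : ℝ, L₀ ≤ L →
        Λ ≤ ‖((L * (s₁ - s₀) : ℝ) : ℂ) + h * I‖ ∧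
        ‖zf (ins F G s₀ L) (((L * (s₁ - s₀) : ℝ) : ℂ) + h * I)‖ ≤
          L * ‖zf G s₁ - zf G s₀‖ + 2 * C0 κ V + 4 := by
  have hκ0 : 0 < κ := lt_of_lt_of_le one_pos hκ
  have hh0 : 0 < h := by linarith
  obtain ⟨R₁, hR₁, hR₁'⟩ := tl_lim (e := 1 / (2 * h * κ)) (by positivity)
  have hL₀ : 0 < 2 / d + |Λ| / δ + 4 * V * h ^ 2 / d + R₁ / δ := by positivity
  refine ⟨2 / d + |Λ| / δ + 4 * V * h ^ 2 / d + R₁ / δ, hL₀,
    fun F w hF G wG g hG hg s₀ s₁ hs₀ hs hs₁ L hL => ?_⟩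
  have a1 : 0 < 2 / d := by positivity
  have a2 : 0 ≤ |Λ| / δ := by positivity
  have a3 : 0 ≤ 4 * V * h ^ 2 / d := by positivity
  have a4 : 0 < R₁ / δ := by positivity
  have hL0 : 0 < L := by linarith
  have b1 : 2 ≤ d * L := by
    have : 2 / d ≤ L := by linarith
    rw [div_le_iff₀ hd] at this
    linarith
  have b2 : |Λ| ≤ L * δ := by
    have : |Λ| / δ ≤ L := by linarith
    rwa [div_le_iff₀ hδ] at this
  have b3 : 4 * V * h ^ 2 ≤ L * d := by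
    have : 4 * V * h ^ 2 / d ≤ L := by linarith
    rwa [div_le_iff₀ hd] at this
  have b4 : R₁ ≤ L * δ := by
    have : R₁ / δ ≤ L := by linarith
    rwa [div_le_iff₀ hδ] at this
  obtain ⟨c, hc⟩ : ∃ c : ℝ, c = L * (s₁ - s₀) := ⟨_, rfl⟩
  rw [← hc]
  have hcabs : L * δ ≤ |c| := by
    rw [hc, abs_mul, abs_of_pos hL0]
    exact mul_le_mul_of_nonneg_left hs hL0.le
  have hcL : s₀ + c / L = s₁ := by
    rw [hc]
    field_simp
    ring
  have hzn : ∀ y : ℝ, |c| ≤ ‖(c : ℂ) + y * I‖ := by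
    intro y
    have h1 : ((c : ℂ) + y * I).re = c := by simp
    calc |c| = |((c : ℂ) + y * I).re| := by rw [h1]
      _ ≤ _ := abs_re_le_norm _
  refine ⟨?_, ?_⟩
  · exact (le_abs_self Λ).trans (b2.trans (hcabs.trans (hzn h)))
  -- the real part on the vertical segment
  have hre : ∀ y : ℝ, 0 ≤ y → y ≤ h → |(ins F G s₀ L ((c : ℂ) + y * I)).re| ≤ 2 / h := by
    intro y hy0 hyh
    have hzmem : (c : ℂ) + y * I ∈ Hc := by
      show (0 : ℝ) ≤ ((c : ℂ) + y * I).im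
      simpa using hy0
    have e1 : (s₀ : ℂ) + ((c : ℂ) + y * I) / L = (s₁ : ℂ) + (y / L : ℝ) * I := by
      have hLc : (L : ℂ) ≠ 0 := ofReal_ne_zero.2 hL0.ne'
      rw [← hcL]
      push_cast
      field_simp
      ring
    have e2 : (ins F G s₀ L ((c : ℂ) + y * I)).re =
        (F ((c : ℂ) + y * I) - w).re + (G ((s₁ : ℂ) + (y / L : ℝ) * I)).re := by
      unfold ins
      rw [e1, sub_re, add_re, sub_re, hs₀]
      ring
    have t1 : |(F ((c : ℂ) + y * I) - w).re| ≤ 1 / (2 * h) := by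
      refine (abs_re_le_norm _).trans ((hF.tail _ hzmem).trans ?_)
      have h3 := hR₁' _ (b4.trans (hcabs.trans (hzn y)))
      calc κ * tl ‖(c : ℂ) + y * I‖ ≤ κ * (1 / (2 * h * κ)) :=
            mul_le_mul_of_nonneg_left h3 hκ0.le
        _ = 1 / (2 * h) := by field_simp
    have hmem2 : (s₁ : ℂ) + (y / L : ℝ) * I ∈ Hc := by
      show (0 : ℝ) ≤ ((s₁ : ℂ) + (y / L : ℝ) * I).im
      have h3 : 0 ≤ y / L := by positivity
      simpa using h3
    have t2 : 0 ≤ (G ((s₁ : ℂ) + (y / L : ℝ) * I)).re := hg.trans (hG.pos _ hmem2)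
    have t3 : (G ((s₁ : ℂ) + (y / L : ℝ) * I)).re ≤ 1 / h + 1 / (2 * h) := by
      have h3 := gcl_lip hG hd _ (Hc_sub_Hd (by linarith) hmem2) _
        (Hc_sub_Hd (by linarith : 0 < d / 2) (real_mem_Hc s₁))
      have h4 : ‖((s₁ : ℂ) + (y / L : ℝ) * I) - s₁‖ = y / L := by
        rw [add_sub_cancel_left, norm_mul, norm_I, mul_one, norm_real, Real.norm_eq_abs,
          abs_of_nonneg (by positivity)]
      rw [h4] at h3
      have h5 : |(G ((s₁ : ℂ) + (y / L : ℝ) * I) - G s₁).re| ≤ 2 * V / d * (y / L) :=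
        (abs_re_le_norm _).trans h3
      rw [sub_re, abs_le] at h5
      have h6 : 2 * V / d * (y / L) ≤ 1 / (2 * h) := by
        calc 2 * V / d * (y / L) ≤ 2 * V / d * (h / L) := by gcongr
          _ ≤ 1 / (2 * h) := by
            rw [div_mul_div_comm, div_le_div_iff₀ (by positivity) (by positivity)]
            nlinarith
      linarith [h5.2]
    rw [e2]
    have t4 : 1 / (2 * h) + (1 / h + 1 / (2 * h)) = 2 / h := by
      field_simp
      ring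
    rw [abs_le] at t1 ⊢
    constructor <;> linarith [t1.1, t1.2, div_pos one_pos hh0]
  -- the vertical segment
  have hdiff := ins_diff hF.diff hG s₀ hL0 (by linarith : 1 ≤ d * L)
  have hcmem : (c : ℂ) ∈ Hd 1 := Hc_sub_Hd one_pos (real_mem_Hc c)
  have hpmem : (c : ℂ) + h * I ∈ Hd 1 := by
    refine Hc_sub_Hd one_pos ?_
    show (0 : ℝ) ≤ ((c : ℂ) + h * I).im
    simpa using hh0.le
  have hseg := zf_sub one_pos hdiff hcmem hpmem
  have hvert : ‖zf (ins F G s₀ L) ((c : ℂ) + h * I) - zf (ins F G s₀ L) c‖ ≤ 4 := by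
    rw [hseg]
    have h1 := intervalIntegral.norm_integral_le_of_norm_le_const (a := (0 : ℝ)) (b := 1)
      (f := fun t : ℝ => tw (ins F G s₀ L ((c : ℂ) + t * ((c : ℂ) + h * I - c)))
        ((c : ℂ) + h * I - c)) (C := 4) ?_
    · simpa using h1
    · intro t ht
      rw [uIoc_of_le zero_le_one] at ht
      rw [add_sub_cancel_left, tw_real, norm_mul, norm_tw_I, norm_real, Real.norm_eq_abs,
        abs_of_pos hh0]
      have h2 : (c : ℂ) + t * (h * I) = (c : ℂ) + ((t * h : ℝ) : ℂ) * I := by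
        push_cast
        ring
      rw [h2]
      have h3 := hre (t * h) (mul_nonneg ht.1.le hh0.le) (by nlinarith [ht.2])
      have h4 : 2 / h ≤ 1 := by
        rw [div_le_one hh0]
        exact hh
      have h5 := abs_sinh_le (h3.trans h4)
      calc h * |Real.sinh (ins F G s₀ L ((c : ℂ) + ((t * h : ℝ) : ℂ) * I)).re|
          ≤ h * (2 * (2 / h)) := by
            refine mul_le_mul_of_nonneg_left (h5.trans ?_) hh0.le
            linarith
        _ = 4 := by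
            field_simp
            norm_num
  have hcmp := ins_cmp hF hG hd hs₀ hL0 (by linarith : 1 ≤ d * L) c 0
  rw [zero_div, add_zero, hcL, ofReal_zero, zf_zero, sub_zero] at hcmp
  have h6 := (abs_le.1 hcmp).2
  calc ‖zf (ins F G s₀ L) ((c : ℂ) + h * I)‖
      = ‖zf (ins F G s₀ L) c + (zf (ins F G s₀ L) ((c : ℂ) + h * I) -
          zf (ins F G s₀ L) c)‖ := by
        congr 1
        ring
    _ ≤ ‖zf (ins F G s₀ L) c‖ + ‖zf (ins F G s₀ L) ((c : ℂ) + h * I) -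
          zf (ins F G s₀ L) c‖ := norm_add_le _ _
    _ ≤ _ := by linarith

end PoolB27
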