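import Pool.Agent.Work.MP_b27c98_an.Defs

/-
MODULE Exit (size S-M, pure topology).

PROOF. Let U := {l ∈ Hc | r < ‖l‖ ∧ ‖z l‖ < k}. Suppose l₁ ∈ Hc, r ≤ ‖l₁‖, ‖z l₁‖ < k. By h1 ‖l₁‖ ≠ r,
so l₁ ∈ U. U contains no real point by h2, so U ⊆ Ho, and U = {l ∈ Ho | r < ‖l‖ ∧ ‖z l‖ < k} is open
(z is continuous on the open set Ho). So z '' U is open (hopen) and contained in ball 0 k.
z '' U is closed in ball 0 k: z l_n -> y, ‖y‖ < k, l_n ∈ U. By hprop l_n is bounded, subsequence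
l_n -> l ∈ Hc, z l = y, ‖l‖ ≥ r, and ‖l‖ = r is impossible by h1 as ‖z l‖ < k; so l ∈ U, y ∈ z '' U.
The ball is connected, z '' U is nonempty, so z '' U = ball 0 k, which contains 0 = z 0 (k > 0 because
‖z l₁‖ < k). So there is l ∈ U with z l = z 0, hence l = 0 by hinj, but ‖l‖ > r > 0. Contradiction.
-/

namespace PoolB27

open Complex Set Metric Filter Topology

private theorem ex_closedHc : IsClosed Hc :=
  isClosed_Ici.preimage Complex.continuous_im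

private theorem ex_openHo : IsOpen Ho :=
  isOpen_Ioi.preimage Complex.continuous_im

private theorem ex_sub : Ho ⊆ Hc := fun _ (h : (0 : ℝ) < _) => (le_of_lt h : (0 : ℝ) ≤ _)

private theorem ex_subseq {z : ℂ → ℂ} (hc : ContinuousOn z Hc)
    (hprop : ∀ R : ℝ, ∃ r : ℝ, ∀ l ∈ Hc, r ≤ ‖l‖ → R ≤ ‖z l‖) {l : ℕ → ℂ}
    (hl : ∀ n, l n ∈ Hc) {y : ℂ} (hy : Tendsto (fun n => z (l n)) atTop (𝓝 y)) :
    ∃ a ∈ Hc, ∃ φ : ℕ → ℕ, StrictMono φ ∧ Tendsto (l ∘ φ) atTop (𝓝 a) ∧ z a = y := by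
  obtain ⟨r, hr⟩ := hprop (‖y‖ + 1)
  have h1 : ∀ᶠ n in atTop, ‖z (l n)‖ < ‖y‖ + 1 :=
    hy.norm.eventually (gt_mem_nhds (lt_add_one _))
  have h2 : ∀ᶠ n in atTop, l n ∈ Hc ∩ closedBall 0 r := by
    filter_upwards [h1] with n hn
    refine ⟨hl n, ?_⟩
    rw [mem_closedBall_zero_iff]
    by_contra hcon
    push Not at hcon
    have := hr (l n) (hl n) hcon.le
    linarith
  have hK : IsCompact (Hc ∩ closedBall (0 : ℂ) r) :=
    (isCompact_closedBall 0 r).inter_left ex_closedHc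
  obtain ⟨a, ha, φ, hφ, hlim⟩ := hK.tendsto_subseq' h2.frequently
  refine ⟨a, ha.1, φ, hφ, hlim, ?_⟩
  have h3 : Tendsto (fun n => z ((l ∘ φ) n)) atTop (𝓝 (z a)) := by
    refine Tendsto.comp (hc a ha.1) ?_
    rw [tendsto_nhdsWithin_iff]
    exact ⟨hlim, Eventually.of_forall fun n => hl _⟩
  exact tendsto_nhds_unique h3 (hy.comp hφ.tendsto_atTop)

theorem exit_bound {z : ℂ → ℂ} (hc : ContinuousOn z Hc)
    (hprop : ∀ R : ℝ, ∃ r : ℝ, ∀ l ∈ Hc, r ≤ ‖l‖ → R ≤ ‖z l‖)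
    (hopen : ∀ U : Set ℂ, U ⊆ Ho → IsOpen U → IsOpen (z '' U))
    (hinj : InjOn z Hc) (h0 : z 0 = 0) {r k : ℝ} (hr : 0 < r)
    (h1 : ∀ l ∈ Hc, ‖l‖ = r → k ≤ ‖z l‖) (h2 : ∀ s : ℝ, r ≤ |s| → k ≤ ‖z s‖) :
    ∀ l ∈ Hc, r ≤ ‖l‖ → k ≤ ‖z l‖ := by
  intro l₁ hl₁ hr₁
  by_contra hcon
  push Not at hcon
  set U : Set ℂ := {l | l ∈ Ho ∧ r < ‖l‖ ∧ ‖z l‖ < k} with hU
  have key : ∀ l ∈ Hc, r ≤ ‖l‖ → ‖z l‖ < k → l ∈ U := by
    intro l hl hrl hzl
    have hne : ‖l‖ ≠ r := by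
      intro h
      exact absurd (h1 l hl h) (not_le.2 hzl)
    refine ⟨?_, lt_of_le_of_ne hrl (Ne.symm hne), hzl⟩
    rcases lt_or_eq_of_le (show (0 : ℝ) ≤ l.im from hl) with h | h
    · exact h
    · exfalso
      have h3 : l = ((l.re : ℝ) : ℂ) := by
        apply Complex.ext
        · simp
        · simp [← h]
      have h4 : r ≤ |l.re| := by
        rw [h3, Complex.norm_real, Real.norm_eq_abs] at hrl
        exact hrl
      have h5 := h2 l.re h4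
      rw [← h3] at h5
      linarith
  have hUo : IsOpen U := by
    rw [isOpen_iff_mem_nhds]
    rintro l ⟨hl, hrl, hzl⟩
    have h3 : ContinuousAt z l := hc.continuousAt (mem_of_superset (ex_openHo.mem_nhds hl) ex_sub)
    filter_upwards [ex_openHo.mem_nhds hl, continuous_norm.continuousAt.eventually (lt_mem_nhds hrl),
      h3.norm.eventually (gt_mem_nhds hzl)] with μ h4 h5 h6
    exact ⟨h4, h5, h6⟩
  have hzo : IsOpen (z '' U) := hopen U (fun l hl => hl.1) hUo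
  have hsub : ball (0 : ℂ) k ⊆ z '' U := by
    apply (convex_ball (0 : ℂ) k).isPreconnected.subset_of_closure_inter_subset hzo
    · refine ⟨z l₁, ?_, l₁, key l₁ hl₁ hr₁ hcon, rfl⟩
      rw [mem_ball_zero_iff]
      exact hcon
    · rintro y ⟨hy, hyk⟩
      rw [mem_closure_iff_seq_limit] at hy
      obtain ⟨x, hx, hlim⟩ := hy
      choose l hl hzl using hx
      have h3 : Tendsto (fun n => z (l n)) atTop (𝓝 y) := by
        simpa only [hzl] using hlim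
      obtain ⟨a, ha, φ, _, hlimφ, h4⟩ := ex_subseq hc hprop (fun n => ex_sub (hl n).1) h3
      have h5 : r ≤ ‖a‖ := by
        refine ge_of_tendsto hlimφ.norm (Eventually.of_forall fun n => ?_)
        exact (hl (φ n)).2.1.le
      refine ⟨a, key a ha h5 ?_, h4⟩
      rw [h4]
      rw [mem_ball_zero_iff] at hyk
      exact hyk
  have hk : 0 < k := (norm_nonneg _).trans_lt hcon
  obtain ⟨l, hl, hzl⟩ := hsub (mem_ball_self hk)
  have h3 : l = 0 := by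
    apply hinj (ex_sub hl.1) (by simp [Hc])
    rw [hzl, h0]
  have h4 := hl.2.1
  rw [h3, norm_zero] at h4
  linarith

end PoolB27
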