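import Pool.Agent.Work.MP_b27c98_an.Defs
import Pool.Agent.Work.MP_b27c98_an.ZfB
import Pool.Agent.Work.MP_b27c98_an.ZfL
import Pool.Agent.Work.MP_b27c98_an.InsD

/-
MODULE InsS (size S). Lower Lipschitz bound for the inserted function on the half disc of radius eta L.

PROOF. S := Hc ∩ closedBall 0 (eta κ V d * L), convex, contained in Hd 1. On S:
‖ins F G s L z - F z‖ ≤ e := 2V/d * eta κ V d (InsD.ins_sub_F_Hc), both real parts are ≤ κ + 2V in absolute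
value. ZfL.zf_close with M = κ + 2V and InsD.eta_ineq: the difference of the increments of zf is at most
(2κ)⁻¹ ‖a - b‖, and ‖zf F a - zf F b‖ ≥ κ⁻¹ ‖a - b‖ (Adm.low).  κ⁻¹ - (2κ)⁻¹ = (2κ)⁻¹.
-/

namespace PoolB27

open Complex Set Metric

theorem ins_small {κ V d g δ : ℝ} {F G : ℂ → ℂ} {w wG : ℂ} (hF : Adm κ F w)
    (hG : GCl V d g δ G wG) (hd : 0 < d) (s : ℝ) {L : ℝ} (hL : 0 < L) (hdL : 2 ≤ d * L)
    {a b : ℂ} (ha : a ∈ Hc) (hb : b ∈ Hc) (ha' : ‖a‖ ≤ eta κ V d * L)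
    (hb' : ‖b‖ ≤ eta κ V d * L) :
    (2 * κ)⁻¹ * ‖a - b‖ ≤ ‖zf (ins F G s L) a - zf (ins F G s L) b‖ := by
  have hκ := hF.one_le
  have hV := gcl_nonneg hG hd
  have hη := eta_pos hκ hV hd
  set R := eta κ V d * L with hR
  have hS : Convex ℝ (Hc ∩ closedBall (0:ℂ) R) := convex_Hc.inter (convex_closedBall _ _)
  have hSd : Hc ∩ closedBall (0:ℂ) R ⊆ Hd 1 := fun z hz => Hc_sub_Hd one_pos hz.1
  have he : ∀ z ∈ Hc ∩ closedBall (0:ℂ) R, ‖ins F G s L z - F z‖ ≤ 2 * V / d * eta κ V d := by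
    intro z hz
    refine (ins_sub_F_Hc hG hd s hL z hz.1).trans ?_
    have h1 : ‖z‖ ≤ R := by simpa using hz.2
    have h2 : ‖z‖ / L ≤ eta κ V d := by
      rw [div_le_iff₀ hL]
      exact h1
    gcongr
  have hM : ∀ z ∈ Hc ∩ closedBall (0:ℂ) R, |(ins F G s L z).re| ≤ κ + 2 * V := fun z hz =>
    (abs_re_le_norm _).trans (ins_norm hF.toPre hG hd s hL (by linarith) z (hSd hz))
  have hM' : ∀ z ∈ Hc ∩ closedBall (0:ℂ) R, |(F z).re| ≤ κ + 2 * V := fun z hz =>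
    ((abs_re_le_norm _).trans (hF.bound z (hSd hz))).trans (by linarith)
  have haS : a ∈ Hc ∩ closedBall (0:ℂ) R := ⟨ha, by simpa using ha'⟩
  have hbS : b ∈ Hc ∩ closedBall (0:ℂ) R := ⟨hb, by simpa using hb'⟩
  have h1 := zf_close one_pos (ins_diff hF.diff hG s hL (by linarith)) hF.diff hS hSd he hM hM' hbS haS
  have h2 := hF.low a ha b hb
  have h3 := eta_ineq hκ hV hd
  have h4 : Real.exp (κ + 2 * V) * (2 * V / d * eta κ V d) * ‖a - b‖ ≤ (2 * κ)⁻¹ * ‖a - b‖ := by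
    gcongr
  have h5 : κ⁻¹ * ‖a - b‖ = (2 * κ)⁻¹ * ‖a - b‖ + (2 * κ)⁻¹ * ‖a - b‖ := by
    rw [mul_inv]
    ring
  have h6 := norm_sub_norm_le (zf F a - zf F b) (zf (ins F G s L) a - zf (ins F G s L) b)
  rw [norm_sub_rev] at h1
  have h7 : ‖zf F a - zf F b - (zf (ins F G s L) a - zf (ins F G s L) b)‖ ≤
      Real.exp (κ + 2 * V) * (2 * V / d * eta κ V d) * ‖a - b‖ := h1
  linarith

end PoolB27
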