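import Pool.Agent.Work.MP_b27c98_an.Defs
import Pool.Agent.Work.MP_b27c98_an.TwB
import Pool.Agent.Work.MP_b27c98_an.TlB
import Pool.Agent.Work.MP_b27c98_an.ZfB
import Pool.Agent.Work.MP_b27c98_an.CurB
import Pool.Agent.Work.MP_b27c98_an.InsD
import Pool.Agent.Work.MP_b27c98_an.InsS
import Pool.Agent.Work.MP_b27c98_an.InsC

/-
MODULE InsB (size M). Injectivity of the boundary curve of the inserted function.

Notation: η := eta κ V d, δ₁ := min δ (η/2), R := 2 C0 κ V + k + 1, F₁ := ins F G s L,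
Γ x := zf G x for real x, σ(t) := s + t/L.
CHOICE of L₀: L₀ ≥ 2/d, L₀ ≥ 1, L₀ δ₁ / 2 ≥ R, and 2 κ tl(η L₀/2) ≤ 1/5 (TlB.tl_lim, tl_anti).
(A) if |σ - σ'| ≥ δ₁ (real numbers) then L ‖Γ σ - Γ σ'‖ ≥ R: if |σ - σ'| ≥ δ by hypothesis
  ‖Γ σ - Γ σ'‖ ≥ m and L m ≥ R. If δ₁ ≤ |σ - σ'| ≤ δ: hG.osc and CurB.cur_osc_one (through ZfB.zf_eq_cur,
  cont_real) give ‖Γ σ - Γ σ'‖ ≥ |σ - σ'|/2 ≥ δ₁/2, and L δ₁/2 ≥ R.
(B) consequently for real t, t' with |t - t'| ≥ δ₁ L: ‖zf F₁ t - zf F₁ t'‖ ≥ R - 2 C0 = k + 1 > 0 (InsC.ins_cmp).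
(C) second claim: |t| ≥ η L ≥ δ₁ L: (B) with t' = 0, zf F₁ 0 = 0.
(D) first claim: let t ≠ t'. If |t - t'| ≥ δ₁ L use (B). Assume |t - t'| < δ₁ L.
  If both |t|, |t'| ≤ η L: InsS.ins_small gives ‖zf F₁ t - zf F₁ t'‖ ≥ (2κ)⁻¹ |t - t'| > 0.
  Otherwise one of them, hence every τ between t and t', satisfies |τ| ≥ η L - δ₁ L ≥ η L/2. For such τ
   Im F₁ τ - Im F₁ t = Im (F τ - w) - Im (F t - w) + Im G(σ(τ)) - Im G(σ(t)), in absolute value
   ≤ 2 κ tl(η L/2) + 1 ≤ 6/5 (hG.osc since |σ(τ) - σ(t)| ≤ δ₁ ≤ δ). cos x ≥ 1 - x²/2 ≥ 1/4 for |x| ≤ 6/5.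
   CurB.cur_osc with θ = Im F₁ t, c = 1/4: ‖zf F₁ t - zf F₁ t'‖ ≥ |t - t'|/4 > 0.
-/

namespace PoolB27

open Complex Set Metric

private theorem cos_quarter {x : ℝ} (hx : |x| ≤ 6 / 5) : 1 / 4 ≤ Real.cos x := by
  have h1 := Real.one_sub_sq_div_two_le_cos (x := x)
  have h2 : x ^ 2 ≤ 36 / 25 := by
    rw [← sq_abs]
    nlinarith [abs_nonneg x]
  linarith

theorem ins_boundary {κ V d g δ k : ℝ} (hκ : 1 ≤ κ) (hV : 0 ≤ V) (hd : 0 < d)
    (hδ : 0 < δ) (hk : 0 ≤ k) :
    ∃ L₀ > 0, ∀ (F : ℂ → ℂ) (w : ℂ), Adm κ F w → ∀ (G : ℂ → ℂ) (wG : ℂ), GCl V d g δ G wG →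
      ∀ s : ℝ, (G s).re = w.re →
      ∀ m : ℝ, (∀ a b : ℝ, δ ≤ |a - b| → m ≤ ‖zf G a - zf G b‖) →
      ∀ L : ℝ, L₀ ≤ L → 2 * C0 κ V + k + 1 ≤ L * m →
        (∀ t t' : ℝ, zf (ins F G s L) t = zf (ins F G s L) t' → t = t') ∧
        (∀ t : ℝ, eta κ V d * L ≤ |t| → k ≤ ‖zf (ins F G s L) t‖) := by
  have hη : 0 < eta κ V d := eta_pos hκ hV hd
  have hC0 : 0 ≤ C0 κ V := by
    unfold C0
    positivity
  set η := eta κ V d with hηdef
  set δ₁ := min δ (η / 2) with hδ₁def
  have hδ₁ : 0 < δ₁ := lt_min hδ (by linarith)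
  have hδ₁δ : δ₁ ≤ δ := min_le_left _ _
  have hδ₁η : δ₁ ≤ η / 2 := min_le_right _ _
  set R := 2 * C0 κ V + k + 1 with hR
  have hR0 : 0 < R := by linarith
  obtain ⟨R₁, hR₁, htl⟩ := tl_lim (e := 1 / (10 * κ)) (by positivity)
  refine ⟨max (max (2 / d) 1) (max (2 * R / δ₁) (2 * R₁ / η)), by positivity, ?_⟩
  intro F w hF G wG hG s hs m hm L hL hLm
  have hL1 : 2 / d ≤ L := (le_max_left _ _).trans ((le_max_left _ _).trans hL)
  have hL2 : 1 ≤ L := (le_max_right _ _).trans ((le_max_left _ _).trans hL)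
  have hL3 : 2 * R / δ₁ ≤ L := (le_max_left _ _).trans ((le_max_right _ _).trans hL)
  have hL4 : 2 * R₁ / η ≤ L := (le_max_right _ _).trans ((le_max_right _ _).trans hL)
  have hL0 : 0 < L := by linarith
  have hdL : 2 ≤ d * L := by
    rw [div_le_iff₀ hd] at hL1
    linarith
  rw [div_le_iff₀ hδ₁] at hL3
  rw [div_le_iff₀ hη] at hL4
  have hFd : DifferentiableOn ℂ (ins F G s L) (Hd 1) := ins_diff hF.diff hG s hL0 (by linarith)
  -- (A)
  have hA : ∀ x y : ℝ, δ₁ ≤ |x - y| → R ≤ L * ‖zf G x - zf G y‖ := by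
    intro x y hxy
    rcases le_or_gt δ |x - y| with h | h
    · have h1 := hm x y h
      calc R ≤ L * m := hLm
        _ ≤ L * ‖zf G x - zf G y‖ := by gcongr
    · have h1 : |y - x| / 2 ≤ ‖cur (fun t : ℝ => G t) y - cur (fun t : ℝ => G t) x‖ := by
        apply cur_osc_one (cont_real hd hG.diff)
        intro t ht
        apply hG.osc
        have h2 : |t - x| ≤ |y - x| := abs_sub_left_of_mem_uIcc ht
        rw [abs_sub_comm y x] at h2
        linarith
      rw [← zf_eq_cur hd hG.diff, ← zf_eq_cur hd hG.diff, norm_sub_rev, abs_sub_comm] at h1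
      have h3 : δ₁ / 2 ≤ ‖zf G x - zf G y‖ := by linarith
      calc R ≤ L * (δ₁ / 2) := by linarith
        _ ≤ L * ‖zf G x - zf G y‖ := by gcongr
  -- (B)
  have hB : ∀ t t' : ℝ, δ₁ * L ≤ |t - t'| →
      k + 1 ≤ ‖zf (ins F G s L) t - zf (ins F G s L) t'‖ := by
    intro t t' htt
    have h1 : δ₁ ≤ |(s + t / L) - (s + t' / L)| := by
      have e : (s + t / L) - (s + t' / L) = (t - t') / L := by ring
      rw [e, abs_div, abs_of_pos hL0, le_div_iff₀ hL0]
      exact htt
    have h2 := hA _ _ h1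
    have h3 := ins_cmp hF.toPre hG hd hs hL0 (by linarith : 1 ≤ d * L) t t'
    have h4 := (abs_le.mp h3).1
    linarith
  constructor
  · intro t t' heq
    by_contra hne
    have hpos : 0 < |t - t'| := abs_pos.mpr (sub_ne_zero.mpr hne)
    rcases le_or_gt (δ₁ * L) |t - t'| with h | h
    · have h1 := hB t t' h
      rw [heq, sub_self, norm_zero] at h1
      linarith
    · by_cases hsm : |t| ≤ η * L ∧ |t'| ≤ η * L
      · have h1 := ins_small hF hG hd s hL0 hdL (real_mem_Hc t) (real_mem_Hc t')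
          (by rw [norm_real, Real.norm_eq_abs]; exact hsm.1)
          (by rw [norm_real, Real.norm_eq_abs]; exact hsm.2)
        rw [heq, sub_self, norm_zero, ← ofReal_sub, norm_real, Real.norm_eq_abs] at h1
        have h2 : 0 < (2 * κ)⁻¹ * |t - t'| := by positivity
        linarith
      · have hbig : ∀ τ ∈ uIcc t t', η * L / 2 ≤ |τ| := by
          intro τ hτ
          have h1 : |τ - t| ≤ |t' - t| := abs_sub_left_of_mem_uIcc hτ
          have h2 : |τ - t'| ≤ |t - t'| := by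
            rw [uIcc_comm] at hτ
            exact abs_sub_left_of_mem_uIcc hτ
          rw [abs_sub_comm t' t] at h1
          have h3 : δ₁ * L ≤ η * L / 2 := by nlinarith
          have h4 : |t| ≤ |τ| + |τ - t| := by
            have := abs_sub_abs_le_abs_sub t τ
            rw [abs_sub_comm t τ] at this
            linarith
          have h5 : |t'| ≤ |τ| + |τ - t'| := by
            have := abs_sub_abs_le_abs_sub t' τ
            rw [abs_sub_comm t' τ] at this
            linarith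
          by_contra hcon
          apply hsm
          constructor
          · linarith
          · linarith
        have htail : ∀ τ ∈ uIcc t t', ‖F τ - w‖ ≤ 1 / 10 := by
          intro τ hτ
          have h1 := hF.tail τ (real_mem_Hc τ)
          rw [norm_real, Real.norm_eq_abs] at h1
          have h2 := htl |τ| (by linarith [hbig τ hτ])
          calc ‖F τ - w‖ ≤ κ * tl |τ| := h1
            _ ≤ κ * (1 / (10 * κ)) := by gcongr
            _ = 1 / 10 := by field_simp
        have h1 : 1 / 4 * |t' - t| ≤ ‖cur (fun τ : ℝ => ins F G s L τ) t' -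
            cur (fun τ : ℝ => ins F G s L τ) t‖ := by
          apply cur_osc (cont_real one_pos hFd) (θ := (ins F G s L t).im) (by norm_num)
          intro τ hτ
          apply cos_quarter
          have e : (ins F G s L τ).im - (ins F G s L t).im =
              (F τ - w).im - (F t - w).im + ((G ((s + τ / L : ℝ) : ℂ)).im -
                (G ((s + t / L : ℝ) : ℂ)).im) := by
            unfold ins
            push_cast
            simp only [sub_im, add_im]
            ring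
          have h2 : |(F τ - w).im| ≤ 1 / 10 := (abs_im_le_norm _).trans (htail τ hτ)
          have h3 : |(F t - w).im| ≤ 1 / 10 := (abs_im_le_norm _).trans (htail t left_mem_uIcc)
          have h4 : |(G ((s + τ / L : ℝ) : ℂ)).im - (G ((s + t / L : ℝ) : ℂ)).im| ≤ 1 := by
            apply hG.osc
            have e2 : (s + τ / L) - (s + t / L) = (τ - t) / L := by ring
            have h5 : |τ - t| ≤ |t' - t| := abs_sub_left_of_mem_uIcc hτ
            rw [e2, abs_div, abs_of_pos hL0, div_le_iff₀ hL0]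
            rw [abs_sub_comm t' t] at h5
            nlinarith
          rw [e]
          rw [abs_le] at h2 h3 h4 ⊢
          constructor <;> linarith [h2.1, h2.2, h3.1, h3.2, h4.1, h4.2]
        rw [← zf_eq_cur one_pos hFd, ← zf_eq_cur one_pos hFd, heq, sub_self, norm_zero,
          abs_sub_comm] at h1
        linarith
  · intro t ht
    have h1 : δ₁ * L ≤ |t - 0| := by
      rw [sub_zero]
      nlinarith
    have h2 := hB t 0 h1
    rw [ofReal_zero, zf_zero, sub_zero] at h2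
    linarith

end PoolB27
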