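import Pool.Agent.Work.MP_b27c98_an.Defs
import Pool.Agent.Work.MP_b27c98_an.TlB
import Pool.Agent.Work.MP_b27c98_an.ZfB
import Pool.Agent.Work.MP_b27c98_an.GLip
import Pool.Agent.Work.MP_b27c98_an.InsD

/-
MODULE InsP (size M). The inserted function is Pre for some κ'.

PROOF. η := eta κ V d > 0. Choose R₁ with κ tl t ≤ g/2 for t ≥ R₁ (TlB.tl_lim) and
L₀ := max (2/d) (max 1 (R₁/η)). Let L ≥ L₀, F₁ := ins F G s L.
diff, bound (≤ κ + 2V): InsD.
pos: for l ∈ Hc with ‖l‖ ≤ η L: Re F₁ ≥ κ⁻¹ - 2V/d (‖l‖/L) ≥ κ⁻¹ - 2V/d η ≥ κ⁻¹ - (2κ)⁻¹ = (2κ)⁻¹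
 (InsD.ins_sub_F_Hc, eta_ineq, exp ≥ 1). For ‖l‖ ≥ η L ≥ R₁:
 Re F₁ = Re (F l - w) + Re G(s + l/L) + (Re w - Re G s) ≥ -κ tl‖l‖ + g + 0 ≥ g/2.
 So Re F₁ ≥ min ((2κ)⁻¹) (g/2) on Hc.
tail: F₁ l - (w + wG - G s) = (F l - w) + (G (s + l/L) - wG), norm ≤ κ tl‖l‖ + |C| tl ‖s + l/L‖ and
 1 + ‖l‖ ≤ c (1 + ‖s + l/L‖) with c = 1 + L + L |s| (because ‖l‖ ≤ L ‖s + l/L‖ + L |s|), so
 tl ‖s + l/L‖ ≤ c² tl ‖l‖ (TlB.tl_scale).   (s + l/L ∈ Hc.)
κ' := max of 1, κ + 2V, 2κ, 2/g, κ + |C| c².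
-/

namespace PoolB27

open Complex Set Metric

theorem ins_pre {κ V d g δ : ℝ} (hκ : 1 ≤ κ) (hV : 0 ≤ V) (hd : 0 < d) (hg : 0 < g) :
    ∃ L₀ > 0, ∀ (F : ℂ → ℂ) (w : ℂ), Pre κ F w → ∀ (G : ℂ → ℂ) (wG : ℂ), GCl V d g δ G wG →
      ∀ s : ℝ, (G s).re = w.re → ∀ L : ℝ, L₀ ≤ L →
        ∃ κ' : ℝ, Pre κ' (ins F G s L) (w + wG - G s) := by
  have hη := eta_pos hκ hV hd
  have hineq := eta_ineq hκ hV hd
  set η := eta κ V d with hηdef
  have hκ0 : 0 < κ := by linarith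
  obtain ⟨R₁, hR₁, htl⟩ := tl_lim (e := g / (2 * κ)) (by positivity)
  refine ⟨max (2 / d) (max 1 (R₁ / η)), by positivity, ?_⟩
  intro F w hF G wG hG s hs L hL
  have hL1 : 2 / d ≤ L := (le_max_left _ _).trans hL
  have hL2 : 1 ≤ L := ((le_max_left _ _).trans (le_max_right _ _)).trans hL
  have hL3 : R₁ / η ≤ L := ((le_max_right _ _).trans (le_max_right _ _)).trans hL
  have hL0 : 0 < L := by linarith
  have hdL2 : 2 ≤ d * L := by rwa [div_le_iff₀ hd, mul_comm] at hL1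
  have hdL : 1 ≤ d * L := by linarith
  have hRη : R₁ ≤ η * L := by rwa [div_le_iff₀ hη, mul_comm] at hL3
  obtain ⟨C, hC⟩ := hG.tail
  have hsub := ins_sub_F_Hc (F := F) hG hd s hL0
  have hmem : ∀ l ∈ Hc, (s : ℂ) + l / L ∈ Hc := by
    intro l hl
    have h1 : ((s : ℂ) + l / L).im = l.im / L := by
      rw [add_im, ofReal_im, zero_add, div_ofReal_im]
    show 0 ≤ ((s : ℂ) + l / L).im
    rw [h1]
    exact div_nonneg hl hL0.le
  have hpos : ∀ l ∈ Hc, (2 * κ)⁻¹ ≤ (ins F G s L l).re ∨ g / 2 ≤ (ins F G s L l).re := by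
    intro l hl
    rcases le_total ‖l‖ (η * L) with h | h
    · left
      have h1 := hsub l hl
      have h2 : |(ins F G s L l - F l).re| ≤ 2 * V / d * (‖l‖ / L) :=
        (abs_re_le_norm _).trans h1
      rw [sub_re] at h2
      have h3 := (abs_le.1 h2).1
      have h4 := hF.pos l hl
      have h5 : ‖l‖ / L ≤ η := by rw [div_le_iff₀ hL0]; exact h
      have hVd : 0 ≤ 2 * V / d := by positivity
      have h6 : 2 * V / d * (‖l‖ / L) ≤ 2 * V / d * η := mul_le_mul_of_nonneg_left h5 hVd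
      have h7 : 2 * V / d * η ≤ (2 * κ)⁻¹ := by
        have h8 : (1 : ℝ) ≤ Real.exp (κ + 2 * V) := Real.one_le_exp (by positivity)
        have h9 : 0 ≤ 2 * V / d * η := by positivity
        nlinarith
      have h10 : κ⁻¹ = 2 * (2 * κ)⁻¹ := by field_simp
      linarith
    · right
      have h1 := hF.tail l hl
      have h2 : |(F l - w).re| ≤ κ * tl ‖l‖ := (abs_re_le_norm _).trans h1
      rw [sub_re] at h2
      have h3 := (abs_le.1 h2).1
      have h4 := htl ‖l‖ (hRη.trans h)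
      have h5 : κ * tl ‖l‖ ≤ g / 2 := by
        calc κ * tl ‖l‖ ≤ κ * (g / (2 * κ)) := mul_le_mul_of_nonneg_left h4 hκ0.le
          _ = g / 2 := by field_simp
      have h6 := hG.pos _ (hmem l hl)
      have h7 : (ins F G s L l).re = (F l).re + (G ((s : ℂ) + l / L)).re - (G s).re := by
        simp [ins]
      rw [h7]
      linarith
  set c := 1 + L + L * |s| with hc
  have hc1 : 1 ≤ c := by
    have : 0 ≤ L * |s| := by positivity
    linarith
  refine ⟨1 + (κ + 2 * V) + 2 * κ + 2 / g + (κ + |C| * c ^ 2), ?_, ?_, ?_, ?_, ?_⟩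
  · have : 0 ≤ (κ + 2 * V) + 2 * κ + 2 / g + (κ + |C| * c ^ 2) := by positivity
    linarith
  · exact ins_diff hF.diff hG s hL0 hdL
  · intro l hl
    have h1 := ins_norm hF hG hd s hL0 hdL l hl
    have : 0 ≤ 2 * κ + 2 / g + (κ + |C| * c ^ 2) := by positivity
    linarith
  · intro l hl
    rcases hpos l hl with h | h
    · refine le_trans ?_ h
      apply inv_anti₀ (by positivity)
      have : 0 ≤ 1 + (κ + 2 * V) + 2 / g + (κ + |C| * c ^ 2) := by positivity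
      linarith
    · refine le_trans ?_ h
      have h1 : g / 2 = (2 / g)⁻¹ := by rw [inv_div]
      rw [h1]
      apply inv_anti₀ (by positivity)
      have : 0 ≤ 1 + (κ + 2 * V) + 2 * κ + (κ + |C| * c ^ 2) := by positivity
      linarith
  · intro l hl
    have h1 : ins F G s L l - (w + wG - G s) = (F l - w) + (G ((s : ℂ) + l / L) - wG) := by
      simp only [ins]; ring
    rw [h1]
    refine (norm_add_le _ _).trans ?_
    have h2 := hF.tail l hl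
    have h3 := hC _ (hmem l hl)
    have hx0 : 0 ≤ ‖(s : ℂ) + l / L‖ := norm_nonneg _
    have h4 : 1 + ‖l‖ ≤ c * (1 + ‖(s : ℂ) + l / L‖) := by
      have h5 : ‖l / L‖ ≤ ‖(s : ℂ) + l / L‖ + |s| := by
        have h6 : l / L = ((s : ℂ) + l / L) - s := by ring
        calc ‖l / L‖ = ‖((s : ℂ) + l / L) - s‖ := by rw [← h6]
          _ ≤ ‖(s : ℂ) + l / L‖ + ‖(s : ℂ)‖ := norm_sub_le _ _
          _ = ‖(s : ℂ) + l / L‖ + |s| := by rw [Complex.norm_real, Real.norm_eq_abs]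
      have h6 : ‖l / L‖ = ‖l‖ / L := by
        rw [norm_div, Complex.norm_real, Real.norm_eq_abs, abs_of_pos hL0]
      rw [h6, div_le_iff₀ hL0] at h5
      have h7 : 0 ≤ |s| := abs_nonneg s
      have h8 : 0 ≤ L * |s| * ‖(s : ℂ) + l / L‖ := by positivity
      rw [hc]
      nlinarith
    have h5 := tl_scale (norm_nonneg l) hx0 hc1 h4
    have h6 := tl_nonneg (norm_nonneg l)
    have h7 := tl_nonneg hx0
    have h8 : C * tl ‖(s : ℂ) + l / L‖ ≤ |C| * (c ^ 2 * tl ‖l‖) := by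
      calc C * tl ‖(s : ℂ) + l / L‖ ≤ |C| * tl ‖(s : ℂ) + l / L‖ :=
            mul_le_mul_of_nonneg_right (le_abs_self C) h7
        _ ≤ |C| * (c ^ 2 * tl ‖l‖) := mul_le_mul_of_nonneg_left h5 (abs_nonneg C)
    have h9 : 0 ≤ (1 + (κ + 2 * V) + 2 * κ + 2 / g) * tl ‖l‖ := by positivity
    nlinarith

end PoolB27
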