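import Pool.Agent.Work.MP_b27c98_an.Defs
import Pool.Agent.Work.MP_b27c98_an.Prim
import Pool.Agent.Work.MP_b27c98_an.TwB

/-
MODULE ZfC (size M). Smoothness of zf F on Im > -d.

PROOF. A := pr (exp o F), B := pr (exp o (-F)) are holomorphic on the open set Hd d with derivatives
exp F, exp (-F) (Prim.pr_hasDerivAt). So they are analytic there (DifferentiableOn.analyticAt),
hence ContDiffAt ℂ n and, restricting scalars, ContDiffAt ℝ n (ContDiffAt.restrict_scalars), and
have strict derivatives (AnalyticAt.hasStrictDerivAt or ContDiffAt.hasStrictFDerivAt).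
zf F = (i/2) (conj A + B); conj = Complex.conjCLE is real linear. The real derivative of zf F at l is
h -> (i/2) (conj (exp (F l) h) + exp (-F l) h) = tw (F l) h.
-/

namespace PoolB27

open Complex Set Metric

private theorem Hd_open' (d : ℝ) : IsOpen (Hd d) :=
  isOpen_lt continuous_const Complex.continuous_im

private theorem pr_analytic {f : ℂ → ℂ} {d : ℝ} (hd : 0 < d) (hf : DifferentiableOn ℂ f (Hd d))
    {l : ℂ} (hl : l ∈ Hd d) : AnalyticAt ℂ (pr f) l := by
  have h : DifferentiableOn ℂ (pr f) (Hd d) := fun z hz =>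
    (pr_hasDerivAt hd hf hz).differentiableAt.differentiableWithinAt
  exact h.analyticAt ((Hd_open' d).mem_nhds hl)

private theorem zf_eq (F : ℂ → ℂ) : zf F = fun l => I / 2 *
    (conjCLE (pr (fun x => exp (F x)) l) + pr (fun x => exp (-F x)) l) := by
  funext l
  simp [zf]

theorem zf_deriv {F : ℂ → ℂ} {d : ℝ} (hd : 0 < d) (hF : DifferentiableOn ℂ F (Hd d)) {l : ℂ}
    (hl : l ∈ Hd d) :
    ∃ T : ℂ →L[ℝ] ℂ, (∀ h, T h = tw (F l) h) ∧ HasStrictFDerivAt (zf F) T l := by
  have hN : DifferentiableOn ℂ (fun x => exp (-F x)) (Hd d) := hF.neg.cexp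
  have hA := pr_analytic hd hF.cexp hl
  have hB := pr_analytic hd hN hl
  have dA := pr_hasDerivAt hd hF.cexp hl
  have dB := pr_hasDerivAt hd hN hl
  have sA : HasStrictDerivAt (pr (fun x => exp (F x))) (exp (F l)) l := by
    have h := hA.hasStrictDerivAt
    rwa [dA.deriv] at h
  have sB : HasStrictDerivAt (pr (fun x => exp (-F x))) (exp (-F l)) l := by
    have h := hB.hasStrictDerivAt
    rwa [dB.deriv] at h
  have fA := (sA.hasStrictFDerivAt.restrictScalars ℝ)
  have fB := (sB.hasStrictFDerivAt.restrictScalars ℝ)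
  have fC := (conjCLE : ℂ →L[ℝ] ℂ).hasStrictFDerivAt.comp l fA
  have fS := (fC.add fB).const_mul (I / 2)
  have hz : HasStrictFDerivAt (zf F) ((I / 2) •
      (((conjCLE : ℂ →L[ℝ] ℂ).comp (ContinuousLinearMap.restrictScalars ℝ
        (ContinuousLinearMap.toSpanSingleton ℂ (exp (F l))))) +
        ContinuousLinearMap.restrictScalars ℝ
          (ContinuousLinearMap.toSpanSingleton ℂ (exp (-F l))))) l := by
    rw [zf_eq]
    exact fS
  refine ⟨_, fun h => ?_, hz⟩
  simp [tw]
  ring

theorem zf_contDiffAt {F : ℂ → ℂ} {d : ℝ} (hd : 0 < d) (hF : DifferentiableOn ℂ F (Hd d)) {l : ℂ}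
    (hl : l ∈ Hd d) : ContDiffAt ℝ 2 (zf F) l := by
  have hN : DifferentiableOn ℂ (fun x => exp (-F x)) (Hd d) := hF.neg.cexp
  have hA := pr_analytic hd hF.cexp hl
  have hB := pr_analytic hd hN hl
  have cA : ContDiffAt ℝ 2 (pr (fun x => exp (F x))) l :=
    (hA.contDiffAt (n := 2)).restrict_scalars ℝ
  have cB : ContDiffAt ℝ 2 (pr (fun x => exp (-F x))) l :=
    (hB.contDiffAt (n := 2)).restrict_scalars ℝ
  rw [zf_eq]
  exact contDiffAt_const.mul ((conjCLE.contDiff.contDiffAt.comp l cA).add cB)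

theorem zf_continuousOn {F : ℂ → ℂ} {d : ℝ} (hd : 0 < d) (hF : DifferentiableOn ℂ F (Hd d)) :
    ContinuousOn (zf F) (Hd d) := by
  intro l hl
  exact (zf_contDiffAt hd hF hl).continuousAt.continuousWithinAt

end PoolB27
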