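import Pool.Agent.Work.MP_b27c98_an.Defs
import Pool.Agent.Work.MP_b27c98_an.TwB
import Pool.Agent.Work.MP_b27c98_an.ZfB
import Pool.Agent.Work.MP_b27c98_an.ZfC
import Pool.Agent.Work.MP_b27c98_an.ZfL

/-
MODULE Low (size S-M). Local lower Lipschitz bound, and zf F is open where Re F > 0.

PROOF of zf_low_loc: let w = F l, v = Re w > 0. Choose 0 < e ≤ 1 with exp(v + 1) e ≤ sinh v / 2 and r > 0 with
ball l r ⊆ Hd d and ‖F z - w‖ ≤ e on the ball (F continuous at l, Hd d open). ZfL.zf_approx with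
S = ball l r, M = v + 1 and TwB.tw_lower: for a, b in the ball
 ‖zf F b - zf F a‖ ≥ ‖tw w (b-a)‖ - exp(v+1) e ‖b-a‖ ≥ (sinh v / 2) ‖b-a‖.
PROOF of zf_open: at a point l with Re F l > 0 the strict derivative T h = tw (F l) h (ZfC.zf_deriv) is
injective (tw_lower, sinh > 0), hence a linear equivalence of the 2-dimensional real space ℂ
(LinearEquiv.ofInjectiveEndo / ContinuousLinearEquiv), so HasStrictFDerivAt.map_nhds_eq_of_equiv
(or `map_nhds_eq_of_surj` with T surjective): zf F maps neighbourhoods of l to neighbourhoods of zf F l.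
Therefore images of open subsets are open (isOpen_iff_mem_nhds).
-/

namespace PoolB27

open Complex Set Metric

theorem zf_low_loc {F : ℂ → ℂ} {d : ℝ} (hd : 0 < d) (hF : DifferentiableOn ℂ F (Hd d)) {l : ℂ}
    (hl : l ∈ Hd d) (hp : 0 < (F l).re) :
    ∃ r > 0, ∃ c > 0, ∀ a ∈ ball l r, ∀ b ∈ ball l r, c * ‖a - b‖ ≤ ‖zf F a - zf F b‖ := by
  have hs : 0 < Real.sinh (F l).re := Real.sinh_pos_iff.2 hp
  have hE : 0 < Real.exp ((F l).re + 1) := Real.exp_pos _
  obtain ⟨e, he0, he1, he2⟩ : ∃ e : ℝ, 0 < e ∧ e ≤ 1 ∧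
      Real.exp ((F l).re + 1) * e ≤ Real.sinh (F l).re / 2 := by
    refine ⟨min 1 (Real.sinh (F l).re / (2 * Real.exp ((F l).re + 1))), lt_min one_pos (by
      positivity), min_le_left _ _, ?_⟩
    calc Real.exp ((F l).re + 1) * min 1 (Real.sinh (F l).re / (2 * Real.exp ((F l).re + 1)))
        ≤ Real.exp ((F l).re + 1) * (Real.sinh (F l).re / (2 * Real.exp ((F l).re + 1))) :=
          mul_le_mul_of_nonneg_left (min_le_right _ _) hE.le
      _ = Real.sinh (F l).re / 2 := by field_simp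
  have hc : ContinuousAt F l := hF.continuousOn.continuousAt ((isOpen_Hd d).mem_nhds hl)
  obtain ⟨r0, hr0, hr0'⟩ := Metric.continuousAt_iff.1 hc e he0
  obtain ⟨r1, hr1, hr1'⟩ := Metric.isOpen_iff.1 (isOpen_Hd d) l hl
  refine ⟨min r0 r1, lt_min hr0 hr1, Real.sinh (F l).re / 2, by positivity, ?_⟩
  intro a ha b hb
  have h1 := zf_approx hd hF (convex_ball l (min r0 r1))
    (fun z hz => hr1' (ball_subset_ball (min_le_right _ _) hz)) (w := F l) (e := e)
    (M := (F l).re + 1) (fun z hz => by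
      rw [← dist_eq_norm]
      exact (hr0' (ball_subset_ball (min_le_left _ _) hz)).le) (by
      rw [abs_of_pos hp]
      linarith) hb ha
  have h2 := tw_lower (F l) (a - b) hp.le
  have h3 : Real.exp ((F l).re + 1) * e * ‖a - b‖ ≤ Real.sinh (F l).re / 2 * ‖a - b‖ :=
    mul_le_mul_of_nonneg_right he2 (norm_nonneg _)
  have h4 : ‖tw (F l) (a - b)‖ ≤ ‖zf F a - zf F b‖ + ‖zf F a - zf F b - tw (F l) (a - b)‖ := by
    have h5 := norm_sub_norm_le (tw (F l) (a - b)) (zf F a - zf F b)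
    rw [norm_sub_rev (tw (F l) (a - b))] at h5
    linarith
  linarith

theorem zf_inj_loc {F : ℂ → ℂ} {d : ℝ} (hd : 0 < d) (hF : DifferentiableOn ℂ F (Hd d)) {l : ℂ}
    (hl : l ∈ Hd d) (hp : 0 < (F l).re) : ∃ r > 0, InjOn (zf F) (Hc ∩ ball l r) := by
  obtain ⟨r, hr, c, hc, h⟩ := zf_low_loc hd hF hl hp
  refine ⟨r, hr, fun a ha b hb hab => ?_⟩
  have h1 := h a ha.2 b hb.2
  rw [hab, sub_self, norm_zero] at h1
  have h2 : ‖a - b‖ ≤ 0 := by
    by_contra hcon
    push Not at hcon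
    nlinarith
  exact sub_eq_zero.1 (norm_le_zero_iff.1 h2)

theorem zf_open {F : ℂ → ℂ} {d : ℝ} (hd : 0 < d) (hF : DifferentiableOn ℂ F (Hd d))
    (hp : ∀ l ∈ Ho, 0 < (F l).re) : ∀ U : Set ℂ, U ⊆ Ho → IsOpen U → IsOpen (zf F '' U) := by
  intro U hU hUo
  rw [isOpen_iff_mem_nhds]
  rintro _ ⟨l, hl, rfl⟩
  have hlo : l ∈ Ho := hU hl
  obtain ⟨T, hT, hT'⟩ := zf_deriv hd hF (Hc_sub_Hd hd (Ho_sub_Hc hlo))
  have hs : 0 < Real.sinh (F l).re := Real.sinh_pos_iff.2 (hp l hlo)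
  have hinj : Function.Injective (T : ℂ →ₗ[ℝ] ℂ) := by
    rw [← LinearMap.ker_eq_bot, LinearMap.ker_eq_bot']
    intro h hh
    have h1 : tw (F l) h = 0 := by
      rw [← hT]
      exact hh
    have h2 := tw_lower (F l) h (hp l hlo).le
    rw [h1, norm_zero] at h2
    have h3 : ‖h‖ ≤ 0 := by
      by_contra hcon
      push Not at hcon
      nlinarith
    exact norm_le_zero_iff.1 h3
  have hsurj : Function.Surjective (T : ℂ →ₗ[ℝ] ℂ) := LinearMap.injective_iff_surjective.1 hinj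
  have h1 := hT'.map_nhds_eq_of_surj (LinearMap.range_eq_top.2 hsurj)
  rw [← h1]
  exact Filter.image_mem_map (hUo.mem_nhds hl)

end PoolB27
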