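import Pool.Agent.Work.MP_b27c98_an.Defs

/-
MODULE Topo (size M, pure topology of the plane, no analysis). Injectivity on the boundary implies
injectivity on the closed half plane.

PROOF. z is continuous on Hc, proper (hprop), locally injective on Hc (hloc), maps open subsets of Ho
to open sets, is injective on the real line, and omits a value p.
(a) S := {s : ℝ | z s ∈ z '' Ho}. S is OPEN: z '' Ho is open (hopen) and s -> z s is continuous.
  S is CLOSED: let s_n -> s, z s_n = z l_n, l_n ∈ Ho. z s_n is bounded so l_n is bounded by hprop; pass to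
  a convergent subsequence l_n -> l ∈ Hc (Hc closed, closed balls compact), z l = z s by continuity.
  If l ∈ Ho: s ∈ S. Otherwise l is real, hence l = s by hbd; take ε from hloc at s: for large n
  both s_n and l_n are in Hc ∩ ball s ε, z s_n = z l_n, so s_n = l_n, but Im l_n > 0: contradiction.
  ℝ is connected: S = ∅ or S = ℝ.
(b) S = ℝ is impossible: then z '' Hc = z '' Ho is open, and closed by properness (z l_n -> y implies
  l_n bounded, subsequence l_n -> l ∈ Hc, z l = y), nonempty, so = ℂ (ℂ connected), contradicting homit.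
(c) So S = ∅: no real point has the same image as a point of Ho.
  N := {l ∈ Ho | ∃ l' ∈ Ho, l' ≠ l ∧ z l' = z l}. N is open: for l ≠ l' with the same image take disjoint
  open U ∋ l, U' ∋ l' in Ho; z '' U' is open and contains z l, z is continuous on Ho, so for μ near l,
  μ ∈ U, z μ ∈ z '' U': μ ∈ N. N is closed in Ho: l_n -> l ∈ Ho, l_n' with z l_n' = z l_n bounded (hprop),
  subsequence l_n' -> l' ∈ Hc, z l' = z l; l' is not real by S = ∅, so l' ∈ Ho; if l' = l then l_n, l_n' are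
  two different points of ball l ε with the same image for large n, contradiction to hloc. So l ∈ N.
  Ho is connected (convex): N = ∅ or N = Ho.
  N = Ho is impossible: take l_n = i/(n+1) -> 0, l_n' ∈ Ho, l_n' ≠ l_n, z l_n' = z l_n -> z 0; bounded,
  subsequence l_n' -> l' ∈ Hc, z l' = z 0; l' is not in Ho by S = ∅, so l' is real and l' = 0 by hbd;
  contradiction with hloc at 0.
(d) N = ∅, S = ∅ and hbd give injectivity on Hc.
Hints: IsPreconnected / isClopen_iff for ℝ, ℂ; for Ho use (convex).isPreconnected and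
isPreconnected_iff_subset_of_disjoint or `IsPreconnected.subset_of_closure_inter_subset`;
tendsto_subseq_of_bounded or IsCompact.tendsto_subseq for closedBall 0 r ∩ Hc.
-/

namespace PoolB27

open Complex Set Metric Filter Topology

private theorem tp_closedHc : IsClosed Hc :=
  isClosed_Ici.preimage Complex.continuous_im

private theorem tp_openHo : IsOpen Ho :=
  isOpen_Ioi.preimage Complex.continuous_im

private theorem tp_sub : Ho ⊆ Hc := fun _ (h : (0 : ℝ) < _) => (le_of_lt h : (0 : ℝ) ≤ _)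

/-- extraction of a convergent subsequence -/
private theorem tp_subseq {z : ℂ → ℂ} (hc : ContinuousOn z Hc)
    (hprop : ∀ R : ℝ, ∃ r : ℝ, ∀ l ∈ Hc, r ≤ ‖l‖ → R ≤ ‖z l‖) {l : ℕ → ℂ}
    (hl : ∀ n, l n ∈ Hc) {y : ℂ} (hy : Tendsto (fun n => z (l n)) atTop (𝓝 y)) :
    ∃ a ∈ Hc, ∃ φ : ℕ → ℕ, StrictMono φ ∧ Tendsto (l ∘ φ) atTop (𝓝 a) ∧ z a = y := by
  obtain ⟨r, hr⟩ := hprop (‖y‖ + 1)
  have h1 : ∀ᶠ n in atTop, ‖z (l n)‖ < ‖y‖ + 1 :=
    hy.norm.eventually (gt_mem_nhds (lt_add_one _))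
  have h2 : ∀ᶠ n in atTop, l n ∈ Hc ∩ closedBall 0 r := by
    filter_upwards [h1] with n hn
    refine ⟨hl n, ?_⟩
    rw [mem_closedBall_zero_iff]
    by_contra hcon
    push Not at hcon
    have := hr (l n) (hl n) hcon.le
    linarith
  have hK : IsCompact (Hc ∩ closedBall (0 : ℂ) r) :=
    (isCompact_closedBall 0 r).inter_left tp_closedHc
  obtain ⟨a, ha, φ, hφ, hlim⟩ := hK.tendsto_subseq' h2.frequently
  refine ⟨a, ha.1, φ, hφ, hlim, ?_⟩
  have h3 : Tendsto (fun n => z ((l ∘ φ) n)) atTop (𝓝 (z a)) := by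
    refine Tendsto.comp (hc a ha.1) ?_
    rw [tendsto_nhdsWithin_iff]
    exact ⟨hlim, Eventually.of_forall fun n => hl _⟩
  exact tendsto_nhds_unique h3 (hy.comp hφ.tendsto_atTop)

/-- a proper continuous map has closed image -/
theorem closed_image {z : ℂ → ℂ} (hc : ContinuousOn z Hc)
    (hprop : ∀ R : ℝ, ∃ r : ℝ, ∀ l ∈ Hc, r ≤ ‖l‖ → R ≤ ‖z l‖) : IsClosed (z '' Hc) := by
  apply isClosed_of_closure_subset
  intro y hy
  rw [mem_closure_iff_seq_limit] at hy
  obtain ⟨x, hx, hlim⟩ := hy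
  choose l hl hzl using hx
  have h1 : Tendsto (fun n => z (l n)) atTop (𝓝 y) := by
    simpa only [hzl] using hlim
  obtain ⟨a, ha, _, _, _, h2⟩ := tp_subseq hc hprop hl h1
  exact ⟨a, ha, h2⟩

private theorem tp_real_or {l : ℂ} (hl : l ∈ Hc) : l ∈ Ho ∨ ∃ s : ℝ, l = s := by
  rcases lt_or_eq_of_le (show (0 : ℝ) ≤ l.im from hl) with h | h
  · exact Or.inl h
  · right
    refine ⟨l.re, ?_⟩
    apply Complex.ext
    · simp
    · simp [← h]

private theorem tp_ofReal_mem (s : ℝ) : (s : ℂ) ∈ Hc := by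
  simp [Hc]

/-- two sequences with the same limit and the same images agree from some point on -/
private theorem tp_loc {z : ℂ → ℂ} (hloc : ∀ l ∈ Hc, ∃ ε > 0, InjOn z (Hc ∩ ball l ε)) {a : ℂ}
    (ha : a ∈ Hc) {l l' : ℕ → ℂ} (hl : ∀ n, l n ∈ Hc) (hl' : ∀ n, l' n ∈ Hc)
    (h1 : Tendsto l atTop (𝓝 a)) (h2 : Tendsto l' atTop (𝓝 a)) (h : ∀ n, z (l n) = z (l' n)) :
    ∃ n, l n = l' n := by
  obtain ⟨ε, hε, hinj⟩ := hloc a ha
  have h3 : ∀ᶠ n in atTop, l n ∈ ball a ε := h1.eventually (ball_mem_nhds a hε)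
  have h4 : ∀ᶠ n in atTop, l' n ∈ ball a ε := h2.eventually (ball_mem_nhds a hε)
  obtain ⟨n, hn, hn'⟩ := (h3.and h4).exists
  exact ⟨n, hinj ⟨hl n, hn⟩ ⟨hl' n, hn'⟩ (h n)⟩

theorem inj_of_boundary {z : ℂ → ℂ} (hc : ContinuousOn z Hc)
    (hprop : ∀ R : ℝ, ∃ r : ℝ, ∀ l ∈ Hc, r ≤ ‖l‖ → R ≤ ‖z l‖)
    (hloc : ∀ l ∈ Hc, ∃ ε > 0, InjOn z (Hc ∩ ball l ε))
    (hopen : ∀ U : Set ℂ, U ⊆ Ho → IsOpen U → IsOpen (z '' U))
    (hbd : ∀ s s' : ℝ, z s = z s' → s = s')
    (homit : ∃ p : ℂ, ∀ l ∈ Hc, z l ≠ p) : InjOn z Hc := by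
  have hHo : IsOpen (z '' Ho) := hopen Ho subset_rfl tp_openHo
  have hreal : Continuous (fun s : ℝ => z s) := by
    rw [← continuousOn_univ]
    exact hc.comp (Complex.continuous_ofReal.continuousOn) (fun s _ => tp_ofReal_mem s)
  -- (a)
  set S : Set ℝ := {s : ℝ | z s ∈ z '' Ho} with hS
  have hSo : IsOpen S := hHo.preimage hreal
  have hSc : IsClosed S := by
    apply isClosed_of_closure_subset
    intro s hs
    rw [mem_closure_iff_seq_limit] at hs
    obtain ⟨x, hx, hlim⟩ := hs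
    choose l hl hzl using hx
    have h1 : Tendsto (fun n => z (l n)) atTop (𝓝 (z s)) := by
      have := (hreal.tendsto s).comp hlim
      refine this.congr ?_
      intro n
      exact (hzl n).symm
    obtain ⟨a, ha, φ, hφ, hlimφ, h2⟩ := tp_subseq hc hprop (fun n => tp_sub (hl n)) h1
    rcases tp_real_or ha with h3 | ⟨s', rfl⟩
    · exact ⟨a, h3, h2⟩
    · exfalso
      have h3 : s' = s := hbd s' s h2
      subst h3
      have h4 : Tendsto (fun n => ((x (φ n) : ℝ) : ℂ)) atTop (𝓝 (s' : ℂ)) :=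
        (Complex.continuous_ofReal.tendsto s').comp (hlim.comp hφ.tendsto_atTop)
      obtain ⟨n, hn⟩ := tp_loc hloc ha (l := l ∘ φ) (l' := fun n => ((x (φ n) : ℝ) : ℂ))
        (fun n => tp_sub (hl _)) (fun n => tp_ofReal_mem _) hlimφ h4 (fun n => hzl _)
      have h5 : 0 < (l (φ n)).im := hl (φ n)
      have h6 : l (φ n) = ((x (φ n) : ℝ) : ℂ) := hn
      rw [h6] at h5
      simp at h5
  have hS2 : S = ∅ := by
    rcases isClopen_iff.1 ⟨hSc, hSo⟩ with h | h
    · exact h
    · exfalso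
      have h1 : z '' Hc = z '' Ho := by
        apply Subset.antisymm
        · rintro _ ⟨l, hl, rfl⟩
          rcases tp_real_or hl with h2 | ⟨s, rfl⟩
          · exact ⟨l, h2, rfl⟩
          · have : s ∈ S := by rw [h]; trivial
            exact this
        · exact image_mono tp_sub
      have h2 : IsClosed (z '' Ho) := h1 ▸ closed_image hc hprop
      obtain ⟨p, hp⟩ := homit
      rcases isClopen_iff.1 ⟨h2, hHo⟩ with h3 | h3
      · have : z I ∈ z '' Ho := ⟨I, by simp [Ho], rfl⟩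
        rw [h3] at this
        exact this
      · have : p ∈ z '' Ho := by rw [h3]; trivial
        obtain ⟨l, hl, hlp⟩ := this
        exact hp l (tp_sub hl) hlp
  have hSne : ∀ (s : ℝ) (l : ℂ), l ∈ Ho → z s ≠ z l := by
    intro s l hl h
    have : s ∈ S := ⟨l, hl, h.symm⟩
    rw [hS2] at this
    exact this
  -- (c)
  set N : Set ℂ := {l | l ∈ Ho ∧ ∃ l' ∈ Ho, l' ≠ l ∧ z l' = z l} with hN
  have hNsub : N ⊆ Ho := fun l hl => hl.1
  have hNo : IsOpen N := by
    rw [isOpen_iff_mem_nhds]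
    rintro l ⟨hl, l', hl', hne, hz⟩
    obtain ⟨U, U', hU, hU', hlU, hlU', hdis⟩ := t2_separation hne.symm
    have h1 : IsOpen (z '' (U' ∩ Ho)) := hopen _ inter_subset_right (hU'.inter tp_openHo)
    have h2 : z l ∈ z '' (U' ∩ Ho) := ⟨l', ⟨hlU', hl'⟩, hz⟩
    have h3 : ContinuousAt z l := hc.continuousAt (mem_of_superset (tp_openHo.mem_nhds hl) tp_sub)
    filter_upwards [hU.mem_nhds hlU, tp_openHo.mem_nhds hl, h3 (h1.mem_nhds h2)] with μ h4 h5 h6
    obtain ⟨μ', ⟨h7, h8⟩, h9⟩ := h6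
    refine ⟨h5, μ', h8, ?_, h9⟩
    intro h10
    rw [h10] at h7
    exact disjoint_left.1 hdis h4 h7
  have hNc : closure N ∩ Ho ⊆ N := by
    rintro l ⟨hlc, hl⟩
    rw [mem_closure_iff_seq_limit] at hlc
    obtain ⟨x, hx, hlim⟩ := hlc
    have hx1 : ∀ n, x n ∈ Ho := fun n => (hx n).1
    have hx2 := fun n => (hx n).2
    choose l' hl' hne hz using hx2
    have h3 : ContinuousAt z l := hc.continuousAt (mem_of_superset (tp_openHo.mem_nhds hl) tp_sub)
    have h1 : Tendsto (fun n => z (l' n)) atTop (𝓝 (z l)) := by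
      have := h3.tendsto.comp hlim
      refine this.congr ?_
      intro n
      exact (hz n).symm
    obtain ⟨a, ha, φ, hφ, hlimφ, h2⟩ := tp_subseq hc hprop (fun n => tp_sub (hl' n)) h1
    rcases tp_real_or ha with h4 | ⟨s, rfl⟩
    · refine ⟨hl, a, h4, ?_, h2⟩
      intro hal
      subst hal
      obtain ⟨n, hn⟩ := tp_loc hloc ha (l := l' ∘ φ) (l' := x ∘ φ)
        (fun n => tp_sub (hl' _)) (fun n => tp_sub (hx1 _)) hlimφ (hlim.comp hφ.tendsto_atTop)
        (fun n => hz _)
      exact hne (φ n) hn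
    · exact absurd h2 (hSne s l hl)
  have hHoconn : IsPreconnected Ho := by
    have : Convex ℝ Ho := (convex_Ioi (0 : ℝ)).is_linear_preimage
      (IsLinearMap.mk (fun a b => Complex.add_im a b) (fun c a => by simp))
    exact this.isPreconnected
  have hNe : N = ∅ := by
    by_contra hcon
    have hne : (Ho ∩ N).Nonempty := by
      obtain ⟨l, hl⟩ := nonempty_iff_ne_empty.2 hcon
      exact ⟨l, hNsub hl, hl⟩
    have hsub : Ho ⊆ N := hHoconn.subset_of_closure_inter_subset hNo hne hNc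
    -- the sequence i / (n+1)
    set x : ℕ → ℂ := fun n => I * ((1 / ((n : ℝ) + 1) : ℝ) : ℂ) with hx
    have hxHo : ∀ n, x n ∈ Ho := by
      intro n
      simp only [hx, Ho, mem_setOf_eq, mul_im, I_re, ofReal_im, mul_zero, I_im, ofReal_re, one_mul,
        zero_add]
      positivity
    have hxlim : Tendsto x atTop (𝓝 0) := by
      have h1 : Tendsto (fun n : ℕ => ((1 / ((n : ℝ) + 1) : ℝ) : ℂ)) atTop (𝓝 ((0 : ℝ) : ℂ)) :=
        (Complex.continuous_ofReal.tendsto 0).comp tendsto_one_div_add_atTop_nhds_zero_nat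
      have h2 := h1.const_mul I
      rw [ofReal_zero, mul_zero] at h2
      exact h2
    have hx2 := fun n => (hsub (hxHo n)).2
    choose l' hl' hne' hz using hx2
    have h0 : (0 : ℂ) ∈ Hc := by simp [Hc]
    have h1 : Tendsto (fun n => z (l' n)) atTop (𝓝 (z 0)) := by
      have : Tendsto (fun n => z (x n)) atTop (𝓝 (z 0)) := by
        refine Tendsto.comp (hc 0 h0) ?_
        rw [tendsto_nhdsWithin_iff]
        exact ⟨hxlim, Eventually.of_forall fun n => tp_sub (hxHo n)⟩
      refine this.congr ?_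
      intro n
      exact (hz n).symm
    obtain ⟨a, ha, φ, hφ, hlimφ, h2⟩ := tp_subseq hc hprop (fun n => tp_sub (hl' n)) h1
    rcases tp_real_or ha with h4 | ⟨s, rfl⟩
    · have := hSne 0 a h4
      rw [ofReal_zero] at this
      exact this h2.symm
    · have h3 : s = 0 := hbd s 0 (by rw [ofReal_zero]; exact h2)
      subst h3
      obtain ⟨n, hn⟩ := tp_loc hloc ha (l := l' ∘ φ) (l' := x ∘ φ)
        (fun n => tp_sub (hl' _)) (fun n => tp_sub (hxHo _)) hlimφ
        (by rw [ofReal_zero]; exact hxlim.comp hφ.tendsto_atTop) (fun n => hz _)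
      exact hne' (φ n) hn
  -- (d)
  intro a ha b hb hab
  rcases tp_real_or ha with h1 | ⟨s, rfl⟩
  · rcases tp_real_or hb with h2 | ⟨s', rfl⟩
    · by_contra hne
      have : b ∈ N := ⟨h2, a, h1, hne, hab⟩
      rw [hNe] at this
      exact this
    · exact absurd hab.symm (hSne s' a h1)
  · rcases tp_real_or hb with h2 | ⟨s', rfl⟩
    · exact absurd hab (hSne s b h2)
    · rw [hbd s s' hab]

end PoolB27
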