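import Pool.Agent.Work.MP_b27c98_an.Defs
import Pool.Agent.Work.MP_b27c98_an.ZfB
import Pool.Agent.Work.MP_b27c98_an.ZfC
import Pool.Agent.Work.MP_b27c98_an.Low
import Pool.Agent.Work.MP_b27c98_an.Asym
import Pool.Agent.Work.MP_b27c98_an.Topo

/-
MODULE TInj (size S, assembly): Topo.inj_of_boundary for z = zf F with
ZfC.zf_continuousOn, Asym.zf_proper, Low.zf_inj_loc, Low.zf_open, Asym.zf_omit (d = 1,
Re F ≥ κ⁻¹ > 0 on Hc).
-/

namespace PoolB27

open Complex Set Metric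

theorem pre_inj {κ : ℝ} {F : ℂ → ℂ} {w : ℂ} (h : Pre κ F w)
    (hbd : ∀ s s' : ℝ, zf F s = zf F s' → s = s') : InjOn (zf F) Hc := by
  have hκ : 0 < κ⁻¹ := inv_pos.2 (by linarith [h.one_le])
  have hp : ∀ l ∈ Hc, 0 < (F l).re := fun l hl => hκ.trans_le (h.pos l hl)
  refine inj_of_boundary ((zf_continuousOn one_pos h.diff).mono (Hc_sub_Hd one_pos))
    (zf_proper h) (fun l hl => zf_inj_loc one_pos h.diff (Hc_sub_Hd one_pos hl) (hp l hl))
    (zf_open one_pos h.diff (fun l hl => hp l (Ho_sub_Hc hl))) hbd (zf_omit h)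

end PoolB27
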