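import Pool.Agent.Work.MP_b27c98_an.Defs
import Pool.Agent.Work.MP_b27c98_an.TwB
import Pool.Agent.Work.MP_b27c98_an.TlB
import Pool.Agent.Work.MP_b27c98_an.ZfB
import Pool.Agent.Work.MP_b27c98_an.ZfC
import Pool.Agent.Work.MP_b27c98_an.ZfL
import Pool.Agent.Work.MP_b27c98_an.Low
import Pool.Agent.Work.MP_b27c98_an.Asym

/-
MODULE TLow (size M). Global lower Lipschitz bound from injectivity.

CLAIM: ∃ c > 0, ∀ a b ∈ Hc, c ‖a - b‖ ≤ ‖zf F a - zf F b‖. Then κ' := max κ c⁻¹ works (Pre κ F w implies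
Pre κ' F w for κ' ≥ κ because tl ≥ 0; κ'⁻¹ ≤ c).
PROOF. v := Re w > 0 (Asym.pre_w), K := 2 κ exp κ.
(1) FAR APART: R₂ := 4 K / sinh v. If ‖a - b‖ ≥ R₂: by zf_asym, tw_sub, tw_lower
   ‖zf F a - zf F b‖ ≥ sinh v ‖a-b‖ - 2 K ≥ (sinh v / 2) ‖a - b‖.
(2) NEAR INFINITY: choose 0 < e ≤ 1 with exp(v + 1) e ≤ sinh v / 2, R₃ > 0 with κ tl t ≤ e for t ≥ R₃.
   If ‖a - b‖ ≤ R₂ and ‖a‖ ≥ R₃ + R₂: the segment [a,b] consists of points of Hc of norm ≥ R₃, so
   ‖F - w‖ ≤ e there; ZfL.zf_approx on S = segment ℝ a b gives ‖zf F b - zf F a‖ ≥ (sinh v / 2) ‖a-b‖.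
   Same if ‖b‖ ≥ R₃ + R₂.
(3) COMPACT PART: K₀ := Hc ∩ closedBall 0 (R₃ + R₂), compact. Suppose there is no c for a, b ∈ K₀: there are
   a_n ≠ b_n in K₀ with ‖zf F a_n - zf F b_n‖ < ‖a_n - b_n‖ / (n+1). Subsequences a_n -> a, b_n -> b in K₀,
   zf F a = zf F b (continuity, ‖a_n - b_n‖ bounded), so a = b by injectivity; but near a there is a
   lower Lipschitz bound (Low.zf_low_loc): contradiction for large n.
-/

namespace PoolB27

open Complex Set Metric

private theorem tlow_compact {κ : ℝ} {F : ℂ → ℂ} {w : ℂ} (h : Pre κ F w)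
    (hinj : InjOn (zf F) Hc) (R : ℝ) :
    ∃ c > 0, ∀ a ∈ Hc ∩ closedBall 0 R, ∀ b ∈ Hc ∩ closedBall 0 R,
      c * ‖a - b‖ ≤ ‖zf F a - zf F b‖ := by
  have hκ0 : 0 < κ := by linarith [h.one_le]
  have hK : IsCompact (Hc ∩ closedBall (0:ℂ) R) :=
    (isCompact_closedBall 0 R).inter_left isClosed_Hc
  have hKK := hK.prod hK
  have key : ∃ c > 0, ∀ p ∈ (Hc ∩ closedBall (0:ℂ) R) ×ˢ (Hc ∩ closedBall (0:ℂ) R),
      c * ‖p.1 - p.2‖ ≤ ‖zf F p.1 - zf F p.2‖ := by
    refine hKK.induction_on (p := fun S => ∃ c > 0, ∀ p ∈ S,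
      c * ‖p.1 - p.2‖ ≤ ‖zf F p.1 - zf F p.2‖) ?_ ?_ ?_ ?_
    · exact ⟨1, one_pos, fun p hp => absurd hp (notMem_empty p)⟩
    · rintro S T hST ⟨c, hc, hcT⟩
      exact ⟨c, hc, fun p hp => hcT p (hST hp)⟩
    · rintro S T ⟨c, hc, hcS⟩ ⟨c', hc', hcT⟩
      refine ⟨min c c', lt_min hc hc', fun p hp => ?_⟩
      rcases hp with hp | hp
      · exact (mul_le_mul_of_nonneg_right (min_le_left _ _) (norm_nonneg _)).trans (hcS p hp)
      · exact (mul_le_mul_of_nonneg_right (min_le_right _ _) (norm_nonneg _)).trans (hcT p hp)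
    · rintro ⟨a, b⟩ ⟨ha, hb⟩
      have haH : a ∈ Hc := ha.1
      have hbH : b ∈ Hc := hb.1
      by_cases hab : a = b
      · subst hab
        have hpos : 0 < (F a).re := lt_of_lt_of_le (inv_pos.2 hκ0) (h.pos a haH)
        obtain ⟨r, hr, c, hc, hlow⟩ := zf_low_loc one_pos h.diff (Hc_sub_Hd one_pos haH) hpos
        refine ⟨ball a r ×ˢ ball a r, ?_, c, hc, ?_⟩
        · exact mem_nhdsWithin_of_mem_nhds (prod_mem_nhds (ball_mem_nhds a hr) (ball_mem_nhds a hr))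
        · rintro ⟨x, y⟩ ⟨hx, hy⟩
          exact hlow x hx y hy
      · have hne : zf F a ≠ zf F b := fun he => hab (hinj haH hbH he)
        have hm : 0 < ‖zf F a - zf F b‖ := norm_pos_iff.2 (sub_ne_zero.2 hne)
        set m := ‖zf F a - zf F b‖ with hmdef
        have hca : ContinuousAt (zf F) a :=
          (zf_continuousOn one_pos h.diff).continuousAt ((isOpen_Hd 1).mem_nhds (Hc_sub_Hd one_pos haH))
        have hcb : ContinuousAt (zf F) b :=
          (zf_continuousOn one_pos h.diff).continuousAt ((isOpen_Hd 1).mem_nhds (Hc_sub_Hd one_pos hbH))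
        have hc1 : ContinuousAt (fun p : ℂ × ℂ => ‖zf F p.1 - zf F p.2‖) (a, b) :=
          ((hca.comp_of_eq continuousAt_fst rfl).sub (hcb.comp_of_eq continuousAt_snd rfl)).norm
        have hc2 : ContinuousAt (fun p : ℂ × ℂ => ‖p.1 - p.2‖) (a, b) :=
          (continuous_fst.sub continuous_snd).norm.continuousAt
        have e1 : ∀ᶠ p : ℂ × ℂ in nhds (a, b), m / 2 < ‖zf F p.1 - zf F p.2‖ :=
          hc1.eventually_const_lt (by show m / 2 < m; linarith)
        have e2 : ∀ᶠ p : ℂ × ℂ in nhds (a, b), ‖p.1 - p.2‖ < ‖a - b‖ + 1 :=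
          hc2.eventually_lt_const (by show ‖a - b‖ < ‖a - b‖ + 1; linarith)
        have hD : 0 < ‖a - b‖ + 1 := by positivity
        refine ⟨_, mem_nhdsWithin_of_mem_nhds (e1.and e2), m / 2 / (‖a - b‖ + 1), by positivity, ?_⟩
        rintro ⟨x, y⟩ ⟨hx, hy⟩
        have hx' : m / 2 < ‖zf F x - zf F y‖ := hx
        have hy' : ‖x - y‖ < ‖a - b‖ + 1 := hy
        show m / 2 / (‖a - b‖ + 1) * ‖x - y‖ ≤ ‖zf F x - zf F y‖
        calc m / 2 / (‖a - b‖ + 1) * ‖x - y‖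
            ≤ m / 2 / (‖a - b‖ + 1) * (‖a - b‖ + 1) :=
              mul_le_mul_of_nonneg_left hy'.le (by positivity)
          _ = m / 2 := div_mul_cancel₀ _ hD.ne'
          _ ≤ ‖zf F x - zf F y‖ := hx'.le
  obtain ⟨c, hc, hcp⟩ := key
  exact ⟨c, hc, fun a ha b hb => hcp (a, b) ⟨ha, hb⟩⟩

theorem pre_adm {κ : ℝ} {F : ℂ → ℂ} {w : ℂ} (h : Pre κ F w) (hinj : InjOn (zf F) Hc) :
    ∃ κ' : ℝ, Adm κ' F w := by
  have hκ0 : 0 < κ := by linarith [h.one_le]
  suffices hc : ∃ c > 0, ∀ a ∈ Hc, ∀ b ∈ Hc, c * ‖a - b‖ ≤ ‖zf F a - zf F b‖ by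
    obtain ⟨c, hc0, hc⟩ := hc
    refine ⟨max κ c⁻¹, { one_le := ?_, diff := h.diff, bound := ?_, pos := ?_, tail := ?_, low := ?_ }⟩
    · exact h.one_le.trans (le_max_left _ _)
    · exact fun l hl => (h.bound l hl).trans (le_max_left _ _)
    · exact fun l hl => (inv_anti₀ hκ0 (le_max_left _ _)).trans (h.pos l hl)
    · exact fun l hl => (h.tail l hl).trans
        (mul_le_mul_of_nonneg_right (le_max_left _ _) (tl_nonneg (norm_nonneg l)))
    · intro a ha b hb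
      refine le_trans (mul_le_mul_of_nonneg_right ?_ (norm_nonneg _)) (hc a ha b hb)
      have := inv_anti₀ (inv_pos.2 hc0) (le_max_right κ c⁻¹)
      rwa [inv_inv] at this
  obtain ⟨hw1, hw2⟩ := pre_w h
  set v := w.re with hv
  have hv0 : 0 < v := lt_of_lt_of_le (inv_pos.2 hκ0) hw1
  have hsinh : 0 < Real.sinh v := Real.sinh_pos_iff.2 hv0
  set S := Real.sinh v with hS
  set K := 2 * κ * Real.exp κ with hK
  have hK0 : 0 < K := by positivity
  set R₂ := 4 * K / S with hR₂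
  have hR₂0 : 0 < R₂ := by positivity
  -- far apart
  have far : ∀ a ∈ Hc, ∀ b ∈ Hc, R₂ ≤ ‖a - b‖ → S / 2 * ‖a - b‖ ≤ ‖zf F a - zf F b‖ := by
    intro a ha b hb hab
    have h1 := zf_asym h a ha
    have h2 := zf_asym h b hb
    have h3 := tw_lower w (a - b) hv0.le
    have h4 : tw w (a - b) = (zf F a - zf F b) - ((zf F a - tw w a) - (zf F b - tw w b)) := by
      rw [tw_sub]; ring
    have h5 : ‖tw w (a - b)‖ ≤ ‖zf F a - zf F b‖ + (‖zf F a - tw w a‖ + ‖zf F b - tw w b‖) := by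
      rw [h4]
      exact (norm_sub_le _ _).trans (add_le_add le_rfl (norm_sub_le _ _))
    have h6 : 4 * K ≤ S * ‖a - b‖ := by
      have := mul_le_mul_of_nonneg_left hab hsinh.le
      have h7 : S * R₂ = 4 * K := by rw [hR₂]; field_simp
      linarith
    have h7 : S * ‖a - b‖ ≤ ‖tw w (a - b)‖ := h3
    linarith
  -- near infinity
  set e := min 1 (S / (2 * Real.exp (v + 1))) with he
  have he0 : 0 < e := lt_min one_pos (by positivity)
  have he1 : e ≤ 1 := min_le_left _ _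
  have he2 : Real.exp (v + 1) * e ≤ S / 2 := by
    calc Real.exp (v + 1) * e ≤ Real.exp (v + 1) * (S / (2 * Real.exp (v + 1))) :=
          mul_le_mul_of_nonneg_left (min_le_right _ _) (Real.exp_pos _).le
      _ = S / 2 := by
          have := (Real.exp_pos (v + 1)).ne'
          field_simp
  obtain ⟨R₃, hR₃, htl⟩ := tl_lim (e := e / κ) (by positivity)
  have near : ∀ a ∈ Hc, ∀ b ∈ Hc, ‖a - b‖ ≤ R₂ → R₃ + R₂ ≤ ‖a‖ →
      S / 2 * ‖a - b‖ ≤ ‖zf F a - zf F b‖ := by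
    intro a ha b hb hab hna
    have hseg : segment ℝ a b ⊆ Hc := convex_Hc.segment_subset ha hb
    have hbig : ∀ z ∈ segment ℝ a b, R₃ ≤ ‖z‖ := by
      intro z hz
      have h1 : ‖z - a‖ ≤ ‖b - a‖ := by
        have := norm_sub_le_of_mem_segment hz
        exact this
      have h2 : ‖a‖ ≤ ‖z‖ + ‖z - a‖ := by
        have h3 : a = z - (z - a) := by ring
        calc ‖a‖ = ‖z - (z - a)‖ := by rw [← h3]
          _ ≤ _ := norm_sub_le _ _
      rw [norm_sub_rev b a] at h1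
      linarith
    have hFw : ∀ z ∈ segment ℝ a b, ‖F z - w‖ ≤ e := by
      intro z hz
      refine (h.tail z (hseg hz)).trans ?_
      have h1 := htl ‖z‖ (hbig z hz)
      calc κ * tl ‖z‖ ≤ κ * (e / κ) := mul_le_mul_of_nonneg_left h1 hκ0.le
        _ = e := by field_simp
    have h1 := zf_approx one_pos h.diff (convex_segment a b)
      (hseg.trans (Hc_sub_Hd one_pos)) hFw (M := v + 1)
      (by rw [← hv, abs_of_pos hv0]; linarith) (left_mem_segment ℝ a b) (right_mem_segment ℝ a b)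
    have h3 := tw_lower w (b - a) hv0.le
    have h4 : tw w (b - a) = (zf F b - zf F a) - (zf F b - zf F a - tw w (b - a)) := by ring
    have h5 : ‖tw w (b - a)‖ ≤ ‖zf F b - zf F a‖ + ‖zf F b - zf F a - tw w (b - a)‖ := by
      calc ‖tw w (b - a)‖ = ‖(zf F b - zf F a) - (zf F b - zf F a - tw w (b - a))‖ := by rw [← h4]
        _ ≤ _ := norm_sub_le _ _
    have h6 : Real.exp (v + 1) * e * ‖b - a‖ ≤ S / 2 * ‖b - a‖ :=
      mul_le_mul_of_nonneg_right he2 (norm_nonneg _)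
    have h7 : S * ‖b - a‖ ≤ ‖tw w (b - a)‖ := h3
    rw [norm_sub_rev a b, norm_sub_rev (zf F a) (zf F b)]
    linarith
  obtain ⟨c, hc, hcomp⟩ := tlow_compact h hinj (R₃ + R₂)
  refine ⟨min c (S / 2), lt_min hc (by positivity), ?_⟩
  intro a ha b hb
  have hr : min c (S / 2) * ‖a - b‖ ≤ S / 2 * ‖a - b‖ :=
    mul_le_mul_of_nonneg_right (min_le_right _ _) (norm_nonneg _)
  rcases le_total R₂ ‖a - b‖ with h1 | h1
  · exact hr.trans (far a ha b hb h1)
  rcases le_total (R₃ + R₂) ‖a‖ with h2 | h2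
  · exact hr.trans (near a ha b hb h1 h2)
  rcases le_total (R₃ + R₂) ‖b‖ with h3 | h3
  · refine hr.trans ?_
    rw [norm_sub_rev a b] at h1
    have := near b hb a ha h1 h3
    rwa [norm_sub_rev b a, norm_sub_rev (zf F b) (zf F a)] at this
  · refine (mul_le_mul_of_nonneg_right (min_le_left _ _) (norm_nonneg _)).trans ?_
    refine hcomp a ⟨ha, ?_⟩ b ⟨hb, ?_⟩
    · rw [mem_closedBall, dist_zero_right]; exact h2
    · rw [mem_closedBall, dist_zero_right]; exact h3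

end PoolB27
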