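import Pool.Agent.Work.MP_b27c98_an.Defs
import Pool.Agent.Work.MP_b27c98_an.ZfB
import Pool.Agent.Work.MP_b27c98_an.ZfC
import Pool.Agent.Work.MP_b27c98_an.Low
import Pool.Agent.Work.MP_b27c98_an.Asym
import Pool.Agent.Work.MP_b27c98_an.TInj
import Pool.Agent.Work.MP_b27c98_an.TLow
import Pool.Agent.Work.MP_b27c98_an.Exit
import Pool.Agent.Work.MP_b27c98_an.InsD
import Pool.Agent.Work.MP_b27c98_an.InsP
import Pool.Agent.Work.MP_b27c98_an.InsS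
import Pool.Agent.Work.MP_b27c98_an.InsB

/-
MODULE InsX (size M, assembly). The insertion theorem.

PROOF. L₀ := max of the constants of InsP.ins_pre and InsB.ins_boundary, of 2/d, 1, 2 V Λ/(d e) and
(2 κ k + 1)/η, η := eta κ V d > 0. Let L ≥ L₀, F₁ := ins F G s L.
(1) ins_pre: Pre κ₁ F₁ w₁; ins_boundary: injective on ℝ; TInj.pre_inj: InjOn (zf F₁) Hc; TLow.pre_adm: Adm κ' F₁ w₁.
(2) closeness: InsD.ins_sub_F: ≤ 2V/d ‖l‖/L ≤ 2VΛ/(d L) ≤ e for l ∈ Hd 1, ‖l‖ ≤ Λ.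
(3) for l ∈ Hc, Λ ≤ ‖l‖ ≤ η L: InsS.ins_small with b = 0 and zf F₁ 0 = 0: ‖zf F₁ l‖ ≥ (2κ)⁻¹ ‖l‖ ≥ (2κ)⁻¹ Λ ≥ k.
   For ‖l‖ ≥ η L: Exit.exit_bound with r = η L: h1: ‖l‖ = η L: ‖zf F₁ l‖ ≥ (2κ)⁻¹ η L ≥ k; h2 is the second claim
   of ins_boundary; hprop = Asym.zf_proper, hopen = Low.zf_open (Re F₁ > 0 on Ho by Pre.pos), hinj from (1).
-/

namespace PoolB27

open Complex Set Metric

theorem insertion {κ V k : ℝ} (hκ : 1 ≤ κ) (hV : 0 ≤ V) (hk : 0 ≤ k) {d g δ Λ e : ℝ} (hd : 0 < d)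
    (hg : 0 < g) (hδ : 0 < δ) (hΛ : 2 * κ * k ≤ Λ) (hΛ' : 0 < Λ) (he : 0 < e) :
    ∃ L₀ > 0, ∀ (F : ℂ → ℂ) (w : ℂ), Adm κ F w → ∀ (G : ℂ → ℂ) (wG : ℂ), GCl V d g δ G wG →
      ∀ s : ℝ, (G s).re = w.re →
      ∀ m : ℝ, (∀ a b : ℝ, δ ≤ |a - b| → m ≤ ‖zf G a - zf G b‖) →
      ∀ L : ℝ, L₀ ≤ L → 2 * C0 κ V + k + 1 ≤ L * m →
        (∃ κ' : ℝ, Adm κ' (ins F G s L) (w + wG - G s)) ∧
        (∀ l ∈ Hd 1, ‖l‖ ≤ Λ → ‖ins F G s L l - F l‖ ≤ e) ∧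
        (∀ l ∈ Hc, Λ ≤ ‖l‖ → k ≤ ‖zf (ins F G s L) l‖) := by
  have hκ0 : 0 < κ := by linarith
  have hη := eta_pos hκ hV hd
  obtain ⟨L₁, hL₁, hpre⟩ := ins_pre (δ := δ) hκ hV hd hg
  obtain ⟨L₂, hL₂, hbdy⟩ := ins_boundary (g := g) hκ hV hd hδ hk
  refine ⟨L₁ + L₂ + 2 / d + 1 + 2 * V * Λ / (d * e) + (2 * κ * k + 1) / eta κ V d,
    by positivity, ?_⟩
  intro F w hF G wG hG s hs m hm L hL hLm
  have p1 : 0 < 2 / d := by positivity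
  have p2 : 0 ≤ 2 * V * Λ / (d * e) := by positivity
  have p3 : 0 < (2 * κ * k + 1) / eta κ V d := by positivity
  have hLL₁ : L₁ ≤ L := by linarith
  have hLL₂ : L₂ ≤ L := by linarith
  have hL0 : 0 < L := by linarith
  have hdL2 : 2 ≤ d * L := by
    have h1 : 2 / d ≤ L := by linarith
    rwa [div_le_iff₀ hd, mul_comm] at h1
  have hLΛ : 2 * V * Λ / (d * e) ≤ L := by linarith
  have hLη : (2 * κ * k + 1) / eta κ V d ≤ L := by linarith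
  obtain ⟨κ₁, hκ₁⟩ := hpre F w hF.toPre G wG hG s hs L hLL₁
  obtain ⟨hb1, hb2⟩ := hbdy F w hF G wG hG s hs m hm L hLL₂ hLm
  have hinj : InjOn (zf (ins F G s L)) Hc := pre_inj hκ₁ hb1
  refine ⟨pre_adm hκ₁ hinj, ?_, ?_⟩
  · intro l hl hlΛ
    refine (ins_sub_F hG hd s hL0 hdL2 l hl).trans ?_
    have h1 : 2 * V / d * (‖l‖ / L) ≤ 2 * V / d * (Λ / L) := by
      have : 0 ≤ 2 * V / d := by positivity
      gcongr
    refine h1.trans ?_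
    have h2 : 2 * V * Λ ≤ L * (d * e) := by rwa [div_le_iff₀ (by positivity)] at hLΛ
    have h3 : 2 * V / d * (Λ / L) = 2 * V * Λ / (d * L) := by field_simp
    rw [h3, div_le_iff₀ (by positivity)]
    nlinarith
  · have hsmall : ∀ l ∈ Hc, ‖l‖ ≤ eta κ V d * L → (2 * κ)⁻¹ * ‖l‖ ≤ ‖zf (ins F G s L) l‖ := by
      intro l hl hle
      have h0 : (0 : ℂ) ∈ Hc := by show (0:ℝ) ≤ (0:ℂ).im; simp
      have h1 := ins_small hF hG hd s hL0 hdL2 hl h0 hle (by rw [norm_zero]; positivity)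
      rwa [zf_zero, sub_zero, sub_zero] at h1
    have hconv : ∀ x : ℝ, 2 * κ * k ≤ x → k ≤ (2 * κ)⁻¹ * x := by
      intro x hx
      rw [inv_mul_eq_div, le_div_iff₀ (by positivity)]
      linarith
    have hr : 2 * κ * k + 1 ≤ eta κ V d * L := by
      rw [div_le_iff₀ hη] at hLη
      linarith
    have hposF : ∀ l ∈ Ho, 0 < (ins F G s L l).re := fun l hl =>
      lt_of_lt_of_le (inv_pos.2 (by linarith [hκ₁.one_le])) (hκ₁.pos l (Ho_sub_Hc hl))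
    have hexit := exit_bound (z := zf (ins F G s L))
      ((zf_continuousOn one_pos hκ₁.diff).mono (Hc_sub_Hd one_pos))
      (zf_proper hκ₁) (zf_open one_pos hκ₁.diff hposF) hinj (zf_zero _)
      (r := eta κ V d * L) (k := k) (by positivity)
      (fun l hl hle => (hconv _ (by rw [hle]; linarith)).trans (hsmall l hl hle.le))
      hb2
    intro l hl hlΛ
    rcases le_total ‖l‖ (eta κ V d * L) with h1 | h1
    · exact (hconv _ (hΛ.trans hlΛ)).trans (hsmall l hl h1)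
    · exact hexit l hl h1

end PoolB27
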