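import Pool.Agent.Work.MP_b27c98_an.Defs
import Pool.Agent.Work.MP_b27c98_an.TlB
import Pool.Agent.Work.MP_b27c98_an.Adj

/-
MODULE Qex (size M). A function which raises the real part from 0 (at 0) to 1 (at infinity) with an
arbitrarily small imaginary part on the real line.

PROOF. Q l := (1/N) Σ_{i<N} qf (l / 16^i), N ≥ 1 with (8/3)/N ≤ η. l/16^i ∈ Hd 1 for l ∈ Hd 1 (Im l/16^i > -1/16^i ≥ -1),
l/16^i ∈ Hc for l ∈ Hc. From module Adj: diff, ‖Q‖ ≤ 5, Re Q ≥ 0 on Hc, Q 0 = 0.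
tail: ‖Q l - 1‖ ≤ (1/N) Σ 8/(1 + ‖l‖/16^i)² ≤ 8 (16^N)² /(1+‖l‖)² ≤ C tl ‖l‖ (1 + ‖l‖/16^i ≥ (1+‖l‖)/16^N).
imaginary part at real s, x := |s|/2: |Im Q s| ≤ (1/N) Σ_{i<N} 2 x_i/(1+x_i²)², x_i := x/16^i.
 Elementary inequality for x ≥ 0: 2x/(1+x²)² ≤ (8/3) (x/(1+x) - (x/16)/(1+x/16)) because the bracket is
 15 x/((1+x)(16+x)) and (1+x)(16+x) ≤ 20 (1+x²)² for x ≥ 0 [16+17x+x² ≤ 20 + 40x² + 20x⁴:
 4 - 17x + 39x² ≥ 0 has discriminant 289 - 624 < 0]. So with Φ(x) = x/(1+x) the sum telescopes: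
 Σ_{i<N} 2x_i/(1+x_i²)² ≤ (8/3) (Φ(x_0) - Φ(x_N)) ≤ 8/3.
-/

namespace PoolB27

open Complex Set Metric

private theorem qel {x : ℝ} (hx : 0 ≤ x) :
    2 * x / (x ^ 2 + 1) ^ 2 ≤ (8 / 3) * (x / (1 + x) - (x / 16) / (1 + x / 16)) := by
  have h1 : x / (1 + x) - (x / 16) / (1 + x / 16) = 15 * x / ((1 + x) * (16 + x)) := by
    have h2 : (1 + x) ≠ 0 := by positivity
    have h3 : (16 + x) ≠ 0 := by positivity
    have h4 : (1 + x / 16) ≠ 0 := by positivity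
    field_simp
    ring
  rw [h1, show (8 / 3 : ℝ) * (15 * x / ((1 + x) * (16 + x))) = 40 * x / ((1 + x) * (16 + x)) by ring,
    div_le_div_iff₀ (by positivity) (by positivity)]
  have key : (1 + x) * (16 + x) ≤ 20 * (x ^ 2 + 1) ^ 2 := by
    nlinarith [sq_nonneg (x - 17 / 78), sq_nonneg (x ^ 2)]
  have := mul_le_mul_of_nonneg_left key hx
  linarith

/-- the average -/
private noncomputable def Qf (N : ℕ) (l : ℂ) : ℂ :=
  (N : ℂ)⁻¹ * ∑ i ∈ Finset.range N, qf (l / ((16 ^ i : ℝ) : ℂ))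

private theorem div_im' (l : ℂ) (r : ℝ) : (l / (r : ℂ)).im = l.im / r := by
  exact Complex.div_ofReal_im l r

private theorem mem_Hd_div {l : ℂ} (hl : l ∈ Hd 1) (i : ℕ) : l / ((16 ^ i : ℝ) : ℂ) ∈ Hd 1 := by
  have h1 : (-1 : ℝ) < l.im := hl
  show (-1 : ℝ) < (l / ((16 ^ i : ℝ) : ℂ)).im
  rw [div_im', lt_div_iff₀ (by positivity)]
  have h2 : (1 : ℝ) ≤ 16 ^ i := one_le_pow₀ (by norm_num)
  linarith

private theorem mem_Hc_div {l : ℂ} (hl : l ∈ Hc) (i : ℕ) : l / ((16 ^ i : ℝ) : ℂ) ∈ Hc := by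
  have h1 : (0 : ℝ) ≤ l.im := hl
  show (0 : ℝ) ≤ (l / ((16 ^ i : ℝ) : ℂ)).im
  rw [div_im']
  positivity

private theorem avg_norm {N : ℕ} (hN : 0 < N) {f : ℕ → ℂ} {M : ℝ}
    (hf : ∀ i ∈ Finset.range N, ‖f i‖ ≤ M) :
    ‖(N : ℂ)⁻¹ * ∑ i ∈ Finset.range N, f i‖ ≤ M := by
  have hN' : (0 : ℝ) < N := Nat.cast_pos.2 hN
  have h1 : ‖∑ i ∈ Finset.range N, f i‖ ≤ N * M := by
    refine (norm_sum_le_of_le _ hf).trans (le_of_eq ?_)
    rw [Finset.sum_const, Finset.card_range, nsmul_eq_mul]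
  rw [norm_mul, norm_inv, norm_natCast, inv_mul_le_iff₀ hN']
  exact h1

theorem exists_Q {η : ℝ} (hη : 0 < η) :
    ∃ Q : ℂ → ℂ, DifferentiableOn ℂ Q (Hd 1) ∧ (∀ l ∈ Hd 1, ‖Q l‖ ≤ 5) ∧
      (∀ l ∈ Hc, 0 ≤ (Q l).re) ∧ Q 0 = 0 ∧ (∃ C : ℝ, ∀ l ∈ Hc, ‖Q l - 1‖ ≤ C * tl ‖l‖) ∧
      (∀ s : ℝ, |(Q s).im| ≤ η) := by
  obtain ⟨N, hN⟩ := exists_nat_gt ((8 / 3) / η)
  have hNpos : (0 : ℝ) < N := lt_trans (by positivity) hN
  have hN0 : 0 < N := Nat.cast_pos.1 hNpos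
  have hNc : (N : ℂ) ≠ 0 := by exact_mod_cast hN0.ne'
  refine ⟨Qf N, ?_, ?_, ?_, ?_, ?_, ?_⟩
  · unfold Qf
    refine (DifferentiableOn.fun_sum fun i _ => ?_).const_mul _
    exact qf_diff.comp (differentiableOn_id.div_const _) (fun l hl => mem_Hd_div hl i)
  · intro l hl
    exact avg_norm hN0 fun i _ => qf_bound _ (mem_Hd_div hl i)
  · intro l hl
    unfold Qf
    have h1 : ((N : ℂ)⁻¹ * ∑ i ∈ Finset.range N, qf (l / ((16 ^ i : ℝ) : ℂ))).re =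
        (N : ℝ)⁻¹ * ∑ i ∈ Finset.range N, (qf (l / ((16 ^ i : ℝ) : ℂ))).re := by
      have h2 : (N : ℂ)⁻¹ = (((N : ℝ)⁻¹ : ℝ) : ℂ) := by push_cast; rfl
      rw [h2, Complex.re_ofReal_mul, Complex.re_sum]
    rw [h1]
    exact mul_nonneg (by positivity)
      (Finset.sum_nonneg fun i _ => qf_re _ (mem_Hc_div hl i))
  · unfold Qf
    simp [qf_zero]
  · refine ⟨8 * (16 ^ N) ^ 2, fun l hl => ?_⟩
    have h1 : Qf N l - 1 = (N : ℂ)⁻¹ * ∑ i ∈ Finset.range N, (qf (l / ((16 ^ i : ℝ) : ℂ)) - 1) := by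
      unfold Qf
      rw [Finset.sum_sub_distrib, Finset.sum_const, Finset.card_range, nsmul_eq_mul, mul_one,
        mul_sub, inv_mul_cancel₀ hNc]
    rw [h1]
    refine avg_norm hN0 fun i hi => ?_
    have h2 := qf_tail _ (mem_Hc_div hl i)
    refine h2.trans ?_
    have hi' : (16 : ℝ) ^ i ≤ 16 ^ N := pow_le_pow_right₀ (by norm_num) (Finset.mem_range.1 hi).le
    have h16 : (1 : ℝ) ≤ 16 ^ N := one_le_pow₀ (by norm_num)
    have h3 : ‖l / ((16 ^ i : ℝ) : ℂ)‖ = ‖l‖ / 16 ^ i := by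
      rw [norm_div, Complex.norm_real, Real.norm_of_nonneg (by positivity)]
    have h4 : (1 + ‖l‖) / 16 ^ N ≤ 1 + ‖l‖ / 16 ^ i := by
      rw [add_div]
      refine add_le_add ?_ ?_
      · rw [div_le_one (by positivity)]
        exact h16
      · exact div_le_div_of_nonneg_left (norm_nonneg _) (by positivity) hi'
    have h5 := inv_sq_le_tl (norm_nonneg l)
    rw [h3]
    calc 8 / (1 + ‖l‖ / 16 ^ i) ^ 2 ≤ 8 / ((1 + ‖l‖) / 16 ^ N) ^ 2 := by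
          refine div_le_div_of_nonneg_left (by norm_num) (by positivity) ?_
          exact pow_le_pow_left₀ (by positivity) h4 2
      _ = 8 * (16 ^ N) ^ 2 * (1 / (1 + ‖l‖) ^ 2) := by
          rw [div_pow]
          field_simp
      _ ≤ 8 * (16 ^ N) ^ 2 * tl ‖l‖ := mul_le_mul_of_nonneg_left h5 (by positivity)
  · intro s
    have h1 : (Qf N s).im = (N : ℝ)⁻¹ * ∑ i ∈ Finset.range N, (qf ((s / 16 ^ i : ℝ) : ℂ)).im := by
      unfold Qf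
      have h2 : (N : ℂ)⁻¹ = (((N : ℝ)⁻¹ : ℝ) : ℂ) := by push_cast; rfl
      rw [h2, Complex.im_ofReal_mul, Complex.im_sum]
      congr 1
      refine Finset.sum_congr rfl fun i _ => ?_
      rw [Complex.ofReal_div]
    rw [h1, abs_mul, abs_of_nonneg (by positivity : (0 : ℝ) ≤ (N : ℝ)⁻¹), inv_mul_le_iff₀ hNpos]
    have h3 : ∀ i, |(qf ((s / 16 ^ i : ℝ) : ℂ)).im| ≤
        (8 / 3) * ((|s| / 2 / 16 ^ i) / (1 + |s| / 2 / 16 ^ i) -
          (|s| / 2 / 16 ^ (i + 1)) / (1 + |s| / 2 / 16 ^ (i + 1))) := by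
      intro i
      rw [qf_im, abs_neg, abs_div, abs_mul]
      have e1 : |s / 16 ^ i / 2| = |s| / 2 / 16 ^ i := by
        rw [abs_div, abs_div, abs_of_nonneg (by positivity : (0 : ℝ) ≤ 16 ^ i), abs_two]
        ring
      have e2 : |((s / 16 ^ i / 2) ^ 2 + 1) ^ 2| = ((|s| / 2 / 16 ^ i) ^ 2 + 1) ^ 2 := by
        rw [abs_of_nonneg (by positivity), ← e1, sq_abs]
      rw [e1, e2, abs_two]
      have h4 := qel (x := |s| / 2 / 16 ^ i) (by positivity)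
      have e3 : |s| / 2 / 16 ^ (i + 1) = |s| / 2 / 16 ^ i / 16 := by
        rw [pow_succ, div_div _ (16 ^ i) 16]
      rw [e3]
      exact h4
    calc |∑ i ∈ Finset.range N, (qf ((s / 16 ^ i : ℝ) : ℂ)).im|
        ≤ ∑ i ∈ Finset.range N, |(qf ((s / 16 ^ i : ℝ) : ℂ)).im| := Finset.abs_sum_le_sum_abs _ _
      _ ≤ ∑ i ∈ Finset.range N, (8 / 3) * ((|s| / 2 / 16 ^ i) / (1 + |s| / 2 / 16 ^ i) -
          (|s| / 2 / 16 ^ (i + 1)) / (1 + |s| / 2 / 16 ^ (i + 1))) :=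
        Finset.sum_le_sum fun i _ => h3 i
      _ = (8 / 3) * ((|s| / 2 / 16 ^ 0) / (1 + |s| / 2 / 16 ^ 0) -
          (|s| / 2 / 16 ^ N) / (1 + |s| / 2 / 16 ^ N)) := by
        rw [← Finset.mul_sum, Finset.sum_range_sub' (fun i => (|s| / 2 / 16 ^ i) /
          (1 + |s| / 2 / 16 ^ i))]
      _ ≤ (8 / 3) * (1 - 0) := by
        refine mul_le_mul_of_nonneg_left (sub_le_sub ?_ (by positivity)) (by norm_num)
        rw [div_le_one (by positivity)]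
        linarith
      _ ≤ N * η := by
        rw [div_lt_iff₀ hη] at hN
        linarith

end PoolB27
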