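import Pool.Agent.Work.MP_b27c98_an.Defs
import Pool.Agent.Work.MP_b27c98_an.TlB
import Pool.Agent.Work.MP_b27c98_an.ZfB
import Pool.Agent.Work.MP_b27c98_an.CurB
import Pool.Agent.Work.MP_b27c98_an.Asym
import Pool.Agent.Work.MP_b27c98_an.Qex
import Pool.Agent.Work.MP_b27c98_an.InsX

/-
MODULE Raise (size M). Raising the real part at infinity to a prescribed value A.

PROOF. T := A - Re w > 0. Q from Qex.exists_Q with η = 1/(2T). G l := Re w + T Q l (Re w real constant).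
GCl V 1 g 1 G (Re w + T) with V := |Re w| + 5 T, g := Re w ≥ κ⁻¹ > 0 (Asym.pre_w): pos since Re Q ≥ 0 on Hc;
 tail: G - (Re w + T) = T (Q - 1); osc: |Im G s - Im G s'| ≤ 2 T η = 1.
m := 1/2: for |x - y| ≥ 1, |Im G| ≤ 1/2 on ℝ, CurB.cur_osc_im and ZfB.zf_eq_cur give
 ‖zf G x - zf G y‖ ≥ |x-y|/2 ≥ 1/2.
(G 0).re = Re w (Q 0 = 0). InsX.insertion with δ = 1, s = 0, L := max L₀ (2 (2 C0 κ V + k + 1)); Λ₀ := max (2κk) 1.
F' := ins F G 0 L, w' := w + (Re w + T) - G 0 = w + T, Re w' = A.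
-/

namespace PoolB27

open Complex Set Metric

theorem raise {F : ℂ → ℂ} {κ : ℝ} {w : ℂ} (hF : Adm κ F w) {A : ℝ} (hA : w.re < A) {k : ℝ}
    (hk : 0 ≤ k) :
    ∃ Λ₀ : ℝ, ∀ Λ : ℝ, Λ₀ ≤ Λ → ∀ e : ℝ, 0 < e →
      ∃ (F' : ℂ → ℂ) (κ' : ℝ) (w' : ℂ), Adm κ' F' w' ∧ w'.re = A ∧
        (∀ l ∈ Hd 1, ‖l‖ ≤ Λ → ‖F' l - F l‖ ≤ e) ∧
        (∀ l ∈ Hc, Λ ≤ ‖l‖ → k ≤ ‖zf F' l‖) := by
  set T : ℝ := A - w.re with hT
  have hT0 : 0 < T := sub_pos.2 hA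
  have hκ : 1 ≤ κ := hF.one_le
  have hw : κ⁻¹ ≤ w.re := (pre_w hF.toPre).1
  have hw0 : 0 < w.re := (inv_pos.2 (by linarith)).trans_le hw
  obtain ⟨Q, hQd, hQ5, hQre, hQ0, ⟨C, hC⟩, hQim⟩ := exists_Q (η := 1 / (2 * T)) (by positivity)
  let G : ℂ → ℂ := fun l => (w.re : ℂ) + (T : ℂ) * Q l
  have hGd : DifferentiableOn ℂ G (Hd 1) := (hQd.const_mul (T : ℂ)).const_add (w.re : ℂ)
  have hGim : ∀ s : ℝ, (G s).im = T * (Q s).im := fun s => by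
    simp [G]
  have hGim' : ∀ s : ℝ, |(G s).im| ≤ 1 / 2 := fun s => by
    rw [hGim, abs_mul, abs_of_pos hT0]
    calc T * |(Q s).im| ≤ T * (1 / (2 * T)) := mul_le_mul_of_nonneg_left (hQim s) hT0.le
      _ = 1 / 2 := by field_simp
  have hG0 : G 0 = w.re := by
    simp [G, hQ0]
  have hGC : GCl (|w.re| + 5 * T) 1 w.re 1 G ((w.re : ℂ) + T) := by
    refine ⟨hGd, fun l hl => ?_, fun l hl => ?_, ⟨T * C, fun l hl => ?_⟩, fun s s' _ => ?_⟩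
    · calc ‖G l‖ ≤ ‖(w.re : ℂ)‖ + ‖(T : ℂ) * Q l‖ := norm_add_le _ _
        _ = |w.re| + T * ‖Q l‖ := by
          rw [norm_mul, Complex.norm_real, Complex.norm_real, Real.norm_eq_abs, Real.norm_eq_abs,
            abs_of_pos hT0]
        _ ≤ |w.re| + 5 * T := by nlinarith [hQ5 l hl]
    · have h1 : (G l).re = w.re + T * (Q l).re := by simp [G]
      rw [h1]
      nlinarith [hQre l hl]
    · have h1 : G l - ((w.re : ℂ) + T) = T * (Q l - 1) := by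
        simp only [G]
        ring
      rw [h1, norm_mul, Complex.norm_real, Real.norm_eq_abs, abs_of_pos hT0, mul_assoc]
      exact mul_le_mul_of_nonneg_left (hC l hl) hT0.le
    · calc |(G s).im - (G s').im| ≤ |(G s).im| + |(G s').im| := abs_sub _ _
        _ ≤ 1 / 2 + 1 / 2 := add_le_add (hGim' s) (hGim' s')
        _ = 1 := by norm_num
  have hm : ∀ a b : ℝ, 1 ≤ |a - b| → 1 / 2 ≤ ‖zf G a - zf G b‖ := by
    intro a b hab
    have h1 := cur_osc_im (f := fun t : ℝ => G t) (cont_real one_pos hGd) (a := b) (b := a)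
      (fun t _ => (hGim' t).trans (by norm_num))
    rw [zf_eq_cur one_pos hGd a, zf_eq_cur one_pos hGd b]
    linarith
  refine ⟨max (2 * κ * k) 1, fun Λ hΛ e he => ?_⟩
  have hΛ1 : 2 * κ * k ≤ Λ := (le_max_left _ _).trans hΛ
  have hΛ2 : 0 < Λ := one_pos.trans_le ((le_max_right _ _).trans hΛ)
  obtain ⟨L₀, _, hins⟩ := insertion (κ := κ) (V := |w.re| + 5 * T) (k := k) hκ (by positivity) hk
    (d := 1) (g := w.re) (δ := 1) (Λ := Λ) (e := e) one_pos hw0 one_pos hΛ1 hΛ2 he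
  obtain ⟨⟨κ', h1⟩, h2, h3⟩ := hins F w hF G _ hGC 0 (by
    rw [ofReal_zero, hG0, ofReal_re]) (1 / 2) hm
    (max L₀ (2 * (2 * C0 κ (|w.re| + 5 * T) + k + 1))) (le_max_left _ _) (by
      have := le_max_right L₀ (2 * (2 * C0 κ (|w.re| + 5 * T) + k + 1))
      linarith)
  refine ⟨_, κ', _, h1, ?_, h2, h3⟩
  rw [ofReal_zero, hG0]
  simp [hT]

end PoolB27
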