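import Pool.Agent.Work.MP_b27c98_an.Defs
import Pool.Agent.Work.MP_b27c98_an.ZfB
import Pool.Agent.Work.MP_b27c98_an.ZfL

/-
MODULE Tol (size S). Tolerance.

PROOF. We may assume Λ ≥ 1 (Tolr F Λ θ for a larger Λ implies it for the smaller one; or treat Λ < 0 trivially).
θ := min (1/(2κ)) (min 1 (1/(2 κ exp(κ+1) Λ))). Let F' be as in Tolr. S := Hc ∩ closedBall 0 Λ, convex, S ⊆ Hd 1.
Re F' ≥ κ⁻¹ - θ > 0 on S. |Re F|, |Re F'| ≤ κ + 1. ZfL.zf_close with e = θ, M = κ + 1: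
‖(zf F' b - zf F' a) - (zf F b - zf F a)‖ ≤ exp(κ+1) θ ‖b - a‖ ≤ (2κ)⁻¹ ‖b-a‖ (Λ ≥ 1), so with Adm.low
‖zf F' b - zf F' a‖ ≥ (2κ)⁻¹ ‖b-a‖: injective on S. With a = 0: ‖zf F' b - zf F b‖ ≤ exp(κ+1) θ Λ ≤ 1 (zf 0 = 0).
-/

namespace PoolB27

open Complex Set Metric

theorem tol {F : ℂ → ℂ} {κ : ℝ} {w : ℂ} (hF : Adm κ F w) (Λ : ℝ) : ∃ θ > 0, Tolr F Λ θ := by
  have hκ1 : 1 ≤ κ := hF.one_le
  have hκ0 : 0 < κ := by linarith
  set Λ' : ℝ := max Λ 1 with hΛ'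
  have hΛ1 : 1 ≤ Λ' := le_max_right _ _
  have hΛΛ : Λ ≤ Λ' := le_max_left _ _
  have hΛ0 : 0 < Λ' := by linarith
  have hE : 0 < Real.exp (κ + 1) := Real.exp_pos _
  set θ : ℝ := min (1 / (2 * κ)) (min 1 (1 / (2 * κ * Real.exp (κ + 1) * Λ'))) with hθ
  have hθ0 : 0 < θ := by
    rw [hθ]
    positivity
  have hθ1 : θ ≤ 1 / (2 * κ) := min_le_left _ _
  have hθ2 : θ ≤ 1 := (min_le_right _ _).trans (min_le_left _ _)
  have hθ3 : θ ≤ 1 / (2 * κ * Real.exp (κ + 1) * Λ') := (min_le_right _ _).trans (min_le_right _ _)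
  have hEθ : Real.exp (κ + 1) * θ * Λ' ≤ 1 / (2 * κ) := by
    calc Real.exp (κ + 1) * θ * Λ' ≤
        Real.exp (κ + 1) * (1 / (2 * κ * Real.exp (κ + 1) * Λ')) * Λ' := by gcongr
      _ = 1 / (2 * κ) := by field_simp
  have hEθ' : Real.exp (κ + 1) * θ ≤ 1 / (2 * κ) := by
    refine le_trans ?_ hEθ
    exact le_mul_of_one_le_right (by positivity) hΛ1
  refine ⟨θ, hθ0, ?_⟩
  intro F' hF' hclose
  set S : Set ℂ := Hc ∩ closedBall 0 Λ with hS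
  have hSc : Convex ℝ S := convex_Hc.inter (convex_closedBall _ _)
  have hSd : S ⊆ Hd 1 := fun z hz => Hc_sub_Hd one_pos hz.1
  have he : ∀ z ∈ S, ‖F' z - F z‖ ≤ θ := fun z hz =>
    hclose z (hSd hz) (mem_closedBall_zero_iff.1 hz.2)
  have hM : ∀ z ∈ S, |(F z).re| ≤ κ + 1 := fun z hz =>
    ((Complex.abs_re_le_norm _).trans (hF.bound z (hSd hz))).trans (by linarith)
  have hM' : ∀ z ∈ S, |(F' z).re| ≤ κ + 1 := by
    intro z hz
    have h1 := he z hz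
    have h2 := hF.bound z (hSd hz)
    have h3 : ‖F' z‖ ≤ ‖F' z - F z‖ + ‖F z‖ := by
      have := norm_add_le (F' z - F z) (F z)
      rwa [sub_add_cancel] at this
    exact (Complex.abs_re_le_norm _).trans (by linarith)
  have key : ∀ a ∈ S, ∀ b ∈ S, ‖(zf F' b - zf F' a) - (zf F b - zf F a)‖ ≤
      Real.exp (κ + 1) * θ * ‖b - a‖ := fun a ha b hb =>
    zf_close one_pos hF' hF.diff hSc hSd he hM' hM ha hb
  refine ⟨?_, ?_, ?_⟩
  · intro l hl hlΛ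
    have h1 := he l ⟨hl, mem_closedBall_zero_iff.2 hlΛ⟩
    have h2 := hF.pos l hl
    have h3 : |(F' l - F l).re| ≤ θ := (Complex.abs_re_le_norm _).trans h1
    rw [sub_re, abs_le] at h3
    have h4 : κ⁻¹ - 1 / (2 * κ) = 1 / (2 * κ) := by
      field_simp
      norm_num
    have h5 : 0 < 1 / (2 * κ) := by positivity
    linarith [h3.1]
  · intro a ha b hb hab
    by_contra hne
    have h1 := key a ha b hb
    rw [hab, sub_self, zero_sub, norm_neg] at h1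
    have h2 := hF.low b hb.1 a ha.1
    have h3 : 0 < ‖b - a‖ := norm_pos_iff.2 (sub_ne_zero.2 (Ne.symm hne))
    have h4 : κ⁻¹ * ‖b - a‖ ≤ 1 / (2 * κ) * ‖b - a‖ :=
      (h2.trans h1).trans (mul_le_mul_of_nonneg_right hEθ' h3.le)
    have h5 : κ⁻¹ ≤ 1 / (2 * κ) := le_of_mul_le_mul_right h4 h3
    have h6 : κ⁻¹ - 1 / (2 * κ) = 1 / (2 * κ) := by
      field_simp
      norm_num
    have h7 : 0 < 1 / (2 * κ) := by positivity
    linarith
  · intro l hl hlΛ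
    have hΛn : 0 ≤ Λ := (norm_nonneg l).trans hlΛ
    have h0 : (0 : ℂ) ∈ S := ⟨by simp [Hc], by simpa using hΛn⟩
    have h1 := key 0 h0 l ⟨hl, mem_closedBall_zero_iff.2 hlΛ⟩
    rw [zf_zero, zf_zero, sub_zero, sub_zero, sub_zero] at h1
    refine h1.trans ?_
    calc Real.exp (κ + 1) * θ * ‖l‖ ≤ Real.exp (κ + 1) * θ * Λ' := by
          apply mul_le_mul_of_nonneg_left (hlΛ.trans hΛΛ) (by positivity)
      _ ≤ 1 / (2 * κ) := hEθ
      _ ≤ 1 := by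
          rw [div_le_one (by positivity)]
          linarith

theorem tolr_mono {F : ℂ → ℂ} {Λ θ θ' : ℝ} (h : Tolr F Λ θ) (hθ : θ' ≤ θ) : Tolr F Λ θ' :=
  fun F' hF' hclose => h F' hF' (fun l hl hlΛ => (hclose l hl hlΛ).trans hθ)

end PoolB27
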