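import Pool.Agent.Work.MP_b27c98_an.Defs
import Pool.Agent.Work.MP_b27c98_an.ZfB
import Pool.Agent.Work.MP_b27c98_an.Raise
import Pool.Agent.Work.MP_b27c98_an.Adj
import Pool.Agent.Work.MP_b27c98_an.Tol
import Pool.Agent.Work.MP_b27c98_an.InsX
import Pool.Agent.Work.MP_b27c98_an.InsG
import Pool.Agent.Work.MP_b27c98_an.Fold

/-
MODULE BigS (size M, assembly). One big step: raise, adjust, insert into the fold.

PROOF. V, δ, A₀ from Fold.fold; A := A₀. Let F, κ, w, k be given (Re w < A₀, k ≥ 0).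
1. Raise.raise with A = A₀ and k + 1: Λ₁. Λ₀ := max Λ₁ 1. Let Λ ≥ Λ₀, e > 0. Raise with e/2 gives F', κ', w', Re w' = A₀,
   ‖F' - F‖ ≤ e/2 on {Hd 1, ‖l‖ ≤ Λ}, k + 1 ≤ ‖zf F' l‖ for l ∈ Hc, ‖l‖ ≥ Λ.
2. κ₂ := 2κ'. Λ' := max Λ (2 κ₂ k). Tol.tol for F' and Λ': θ > 0. e₁ := min θ (e/2) > 0.
   Adj.adjust for κ': τ₀. τ₁ := min τ₀ (e₁/10).
3. C := C0 κ₂ V ≥ 0. R := 2C + k + 1 > 0. h := exp(k (R + 2C + 6)) + 2. η := min (min (1/h) τ₁) (A₀/2) > 0.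
   Fold with η: d, g > 0. InsX.insertion for κ₂, V, k, d, g, δ, Λ' (2κ₂k ≤ Λ'), e := e₁/2: L₁. InsG.ins_growth for κ₂, V, h, d, δ, Λ: L₂.
   M := max (max L₁ L₂) 1, μ := R/M: Fold gives G, wG, s₀, s₁, m, 0 < m ≤ μ. L := R/m ≥ M, L m = R.
   τ := Re G s₀ - A₀, |τ| ≤ η ≤ τ₁. F₂ := F' + τ qf is Adm κ₂ with w₂ = w' + τ, Re w₂ = Re (G s₀).
   F₁ := ins F₂ G s₀ L.  Insertion: Adm κ'' F₁ (w₂ + wG - G s₀), real part = Re wG ≤ η ≤ A₀/2 < A₀.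
4. closeness: on {Hd 1, ‖l‖ ≤ Λ'}: ‖F₁ - F'‖ ≤ e₁/2 + 5|τ| ≤ e₁ (Adj.qf_bound). So ‖F₁ - F‖ ≤ e on ‖l‖ ≤ Λ.
5. l ∈ Hc, ‖l‖ ≥ Λ': k ≤ ‖zf F₁ l‖ by the insertion. Λ ≤ ‖l‖ ≤ Λ': Tolr F' Λ' θ (F₁ is differentiable on Hd 1 and e₁ ≤ θ):
   ‖zf F₁ l - zf F' l‖ ≤ 1 and ‖zf F' l‖ ≥ k + 1.
6. p := L(s₁ - s₀) + h i ∈ Ho. ins_growth ((G s₁).re ≤ η ≤ 1/h, |s₁ - s₀| ≥ δ): Λ ≤ ‖p‖,
   ‖zf F₁ p‖ ≤ L m + 2C + 4 = R + 2C + 4, so exp(k(‖zf F₁ p‖ + 2)) ≤ exp(k (R + 2C + 6)) ≤ h = Im p.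
-/

namespace PoolB27

open Complex Set Metric

theorem exists_big : ∃ A > 0, Big A := by
  obtain ⟨V, δ, A₀, hV, hδ, hA₀, hfold⟩ := fold
  refine ⟨A₀, hA₀, ?_⟩
  intro F κ w hF hw k hk
  obtain ⟨Λ₁, hraise⟩ := raise hF hw (k := k + 1) (by linarith)
  refine ⟨max Λ₁ 1, fun Λ hΛ e he => ?_⟩
  have hΛ1 : 1 ≤ Λ := (le_max_right _ _).trans hΛ
  obtain ⟨F', κ', w', hF', hw', hcl, hfar⟩ :=
    hraise Λ ((le_max_left _ _).trans hΛ) (e / 2) (by linarith)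
  have hκ' : 1 ≤ κ' := hF'.one_le
  obtain ⟨κ₂, hκ₂⟩ : ∃ x, x = 2 * κ' := ⟨_, rfl⟩
  have hκ₂1 : 1 ≤ κ₂ := by rw [hκ₂]; linarith
  obtain ⟨Λ', hΛ'⟩ : ∃ x, x = max Λ (2 * κ₂ * k) := ⟨_, rfl⟩
  have hΛΛ' : Λ ≤ Λ' := hΛ' ▸ le_max_left _ _
  have hkΛ' : 2 * κ₂ * k ≤ Λ' := hΛ' ▸ le_max_right _ _
  obtain ⟨θ, hθ, htol⟩ := tol hF' Λ'
  obtain ⟨e₁, he₁⟩ : ∃ x, x = min θ (e / 2) := ⟨_, rfl⟩
  have he₁0 : 0 < e₁ := he₁ ▸ lt_min hθ (by linarith)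
  have he₁θ : e₁ ≤ θ := he₁ ▸ min_le_left _ _
  have he₁e : e₁ ≤ e / 2 := he₁ ▸ min_le_right _ _
  obtain ⟨τ₀, hτ₀, hadj⟩ := adjust hκ'
  obtain ⟨C, hC⟩ : ∃ x, x = C0 κ₂ V := ⟨_, rfl⟩
  have hC0 : 0 ≤ C := by
    rw [hC]; unfold C0
    have := Real.exp_pos (V + κ₂)
    positivity
  obtain ⟨R, hR⟩ : ∃ x, x = 2 * C + k + 1 := ⟨_, rfl⟩
  have hR0 : 0 < R := by rw [hR]; linarith
  obtain ⟨h, hh⟩ : ∃ x, x = Real.exp (k * (R + 2 * C + 6)) + 2 := ⟨_, rfl⟩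
  have hh2 : 2 ≤ h := by rw [hh]; linarith [Real.exp_pos (k * (R + 2 * C + 6))]
  obtain ⟨η, hη⟩ : ∃ x, x = min (min (1 / h) (min τ₀ (e₁ / 10))) (A₀ / 2) := ⟨_, rfl⟩
  have hη0 : 0 < η := by
    rw [hη]
    exact lt_min (lt_min (by positivity) (lt_min hτ₀ (by linarith))) (by linarith)
  have hηh : η ≤ 1 / h := by rw [hη]; exact (min_le_left _ _).trans (min_le_left _ _)
  have hητ : η ≤ τ₀ := by
    rw [hη]; exact (min_le_left _ _).trans ((min_le_right _ _).trans (min_le_left _ _))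
  have hηe : η ≤ e₁ / 10 := by
    rw [hη]; exact (min_le_left _ _).trans ((min_le_right _ _).trans (min_le_right _ _))
  have hηA : η ≤ A₀ / 2 := by rw [hη]; exact min_le_right _ _
  obtain ⟨d, hd, g, hg, hμ⟩ := hfold η hη0
  obtain ⟨L₁, hL₁0, hins⟩ := insertion (κ := κ₂) (V := V) (k := k) hκ₂1 hV hk (d := d) (g := g)
    (δ := δ) (Λ := Λ') (e := e₁ / 2) hd hg hδ hkΛ' (by linarith) (by linarith)
  obtain ⟨L₂, hL₂0, hgr⟩ := ins_growth (κ := κ₂) (V := V) (h := h) (d := d) (δ := δ) (Λ := Λ)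
    hκ₂1 hV hh2 hd hδ
  obtain ⟨M, hM⟩ : ∃ x, x = max (max L₁ L₂) 1 := ⟨_, rfl⟩
  have hM1 : 1 ≤ M := hM ▸ le_max_right _ _
  have hML₁ : L₁ ≤ M := by rw [hM]; exact (le_max_left _ _).trans (le_max_left _ _)
  have hML₂ : L₂ ≤ M := by rw [hM]; exact (le_max_right _ _).trans (le_max_left _ _)
  obtain ⟨G, wG, s₀, s₁, m, hG, hwG, hm0, hmμ, hmlow, hmeq, hδs, hGs₀, hGs₁⟩ :=
    hμ (R / M) (by positivity)
  obtain ⟨L, hL⟩ : ∃ x, x = R / m := ⟨_, rfl⟩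
  have hLm : L * m = R := by rw [hL]; field_simp
  have hLM : M ≤ L := by
    rw [hL, le_div_iff₀ hm0]
    have h1 : m * M ≤ R := (le_div_iff₀ (by linarith)).1 hmμ
    linarith
  obtain ⟨τ, hτ⟩ : ∃ x, x = (G s₀).re - A₀ := ⟨_, rfl⟩
  have hτη : |τ| ≤ η := by rw [hτ]; exact hGs₀
  have hF₂ : Adm κ₂ (fun l => F' l + τ * qf l) (w' + τ) := by
    rw [hκ₂]
    exact hadj F' w' hF' τ (hτη.trans hητ)
  have hre : (G s₀).re = (w' + (τ : ℂ)).re := by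
    rw [add_re, ofReal_re, hw', hτ]
    ring
  obtain ⟨⟨κ'', hadm⟩, hclose, hfar2⟩ := hins _ _ hF₂ G wG hG s₀ hre m hmlow L (hML₁.trans hLM)
    (by rw [hLm, hR, hC])
  have hc1 : ∀ l ∈ Hd 1, ‖l‖ ≤ Λ' → ‖ins (fun l => F' l + τ * qf l) G s₀ L l - F' l‖ ≤ e₁ := by
    intro l hl hlΛ
    have h1 := hclose l hl hlΛ
    have h2 : ‖(τ : ℂ) * qf l‖ ≤ e₁ / 2 := by
      rw [norm_mul, norm_real, Real.norm_eq_abs]
      have h3 := qf_bound l hl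
      calc |τ| * ‖qf l‖ ≤ η * 5 := mul_le_mul hτη h3 (norm_nonneg _) hη0.le
        _ ≤ e₁ / 2 := by linarith
    have h4 : ins (fun l => F' l + τ * qf l) G s₀ L l - F' l =
        (ins (fun l => F' l + τ * qf l) G s₀ L l - (F' l + τ * qf l)) + τ * qf l := by ring
    rw [h4]
    refine (norm_add_le _ _).trans ?_
    linarith
  have hc2 := htol _ hadm.diff (fun l hl hlΛ => (hc1 l hl hlΛ).trans he₁θ)
  refine ⟨ins (fun l => F' l + τ * qf l) G s₀ L, κ'', w' + τ + wG - G s₀, hadm, ?_, ?_, ?_, ?_⟩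
  · have h1 : (w' + (τ : ℂ) + wG - G s₀).re = (w' + (τ : ℂ)).re + wG.re - (G s₀).re := by
      simp only [add_re, sub_re]
    rw [h1, ← hre]
    linarith
  · intro l hl hlΛ
    have h1 := hc1 l hl (hlΛ.trans hΛΛ')
    have h2 := hcl l hl hlΛ
    have h3 : ins (fun l => F' l + τ * qf l) G s₀ L l - F l =
        (ins (fun l => F' l + τ * qf l) G s₀ L l - F' l) + (F' l - F l) := by ring
    rw [h3]
    refine (norm_add_le _ _).trans ?_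
    linarith
  · intro l hl hlΛ
    rcases le_total Λ' ‖l‖ with h1 | h1
    · exact hfar2 l hl h1
    · have h2 := hc2.2.2 l hl h1
      have h3 := hfar l hl hlΛ
      have h4 : zf F' l = zf (ins (fun l => F' l + τ * qf l) G s₀ L) l -
          (zf (ins (fun l => F' l + τ * qf l) G s₀ L) l - zf F' l) := by ring
      rw [h4] at h3
      have h5 := h3.trans (norm_sub_le _ _)
      linarith
  · have h1 := hgr _ _ hF₂.toPre G wG g hG hg.le s₀ s₁ hre hδs (hGs₁.trans hηh) L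
      (hML₂.trans hLM)
    refine ⟨((L * (s₁ - s₀) : ℝ) : ℂ) + h * I, ?_, h1.1, ?_⟩
    · show (0 : ℝ) < (((L * (s₁ - s₀) : ℝ) : ℂ) + h * I).im
      simp only [add_im, ofReal_im, mul_im, ofReal_re, I_im, I_re, mul_one, mul_zero, zero_add,
        add_zero]
      linarith
    · have him : (((L * (s₁ - s₀) : ℝ) : ℂ) + h * I).im = h := by
        simp only [add_im, ofReal_im, mul_im, ofReal_re, I_im, I_re, mul_one, mul_zero, zero_add,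
          add_zero]
      rw [him]
      have h2 := h1.2
      rw [hmeq, hLm, ← hC] at h2
      have h3 : Real.exp (k * (‖zf (ins (fun l => F' l + τ * qf l) G s₀ L)
          (((L * (s₁ - s₀) : ℝ) : ℂ) + h * I)‖ + 2)) ≤ Real.exp (k * (R + 2 * C + 6)) := by
        rw [Real.exp_le_exp]
        exact mul_le_mul_of_nonneg_left (by linarith) hk
      rw [hh]
      rw [hh] at h3
      linarith

end PoolB27
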