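import Pool.Agent.Work.MP_b27c98_an.Defs
import Pool.Agent.Work.MP_b27c98_an.TwB
import Pool.Agent.Work.MP_b27c98_an.TlB
import Pool.Agent.Work.MP_b27c98_an.ZfB

/-
MODULE Cst (size S). Constant data are admissible.

PROOF. F = A constant (A > 0 real). By ZfB.zf_sub, zf F b - zf F a = tw A (b - a), TwB.tw_lower: ≥ sinh A ‖b - a‖.
κ := max (max 1 A) (max (1/A) (1/sinh A)).
-/

namespace PoolB27

open Complex Set Metric

theorem adm_const {A : ℝ} (hA : 0 < A) : ∃ κ : ℝ, Adm κ (fun _ => (A : ℂ)) (A : ℂ) := by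
  have hs : 0 < Real.sinh A := Real.sinh_pos_iff.2 hA
  set κ : ℝ := max (max 1 A) (max (1 / A) (1 / Real.sinh A)) with hκ
  have h1 : 1 ≤ κ := (le_max_left _ _).trans (le_max_left _ _)
  have h2 : A ≤ κ := (le_max_right _ _).trans (le_max_left _ _)
  have h3 : 1 / A ≤ κ := (le_max_left _ _).trans (le_max_right _ _)
  have h4 : 1 / Real.sinh A ≤ κ := (le_max_right _ _).trans (le_max_right _ _)
  have hκ0 : 0 < κ := by linarith
  have h5 : κ⁻¹ ≤ A := by
    rw [inv_le_comm₀ hκ0 hA, ← one_div]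
    exact h3
  have h6 : κ⁻¹ ≤ Real.sinh A := by
    rw [inv_le_comm₀ hκ0 hs, ← one_div]
    exact h4
  have hd : DifferentiableOn ℂ (fun _ : ℂ => (A : ℂ)) (Hd 1) := differentiableOn_const _
  refine ⟨κ, { one_le := h1, diff := hd, bound := ?_, pos := ?_, tail := ?_, low := ?_ }⟩
  · intro l _
    rw [Complex.norm_real, Real.norm_of_nonneg hA.le]
    exact h2
  · intro l _
    rw [ofReal_re]
    exact h5
  · intro l _
    rw [sub_self, norm_zero]
    exact mul_nonneg hκ0.le (tl_nonneg (norm_nonneg _))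
  · intro a ha b hb
    have h7 := zf_sub one_pos hd (Hc_sub_Hd one_pos hb) (Hc_sub_Hd one_pos ha)
    simp only [intervalIntegral.integral_const, sub_zero, one_smul] at h7
    rw [h7]
    have h8 := tw_lower (A : ℂ) (a - b) (by rw [ofReal_re]; exact hA.le)
    rw [ofReal_re] at h8
    exact (mul_le_mul_of_nonneg_right h6 (norm_nonneg _)).trans h8

end PoolB27
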