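import Mathlib

/-
MP_b27c98_an (growth of positive minimal graphs with zero boundary values).
Definitions of the project. PLAN of the whole proof: /team-store/blueprint_b27c98.md

GOAL: a positive minimal graph over an unbounded domain, zero on the boundary, whose maximum
function exceeds exp(C r) for arbitrarily large r, for every C.

Weierstrass data: F holomorphic near the closed upper half plane, Re F > 0;
  zf F l = (i/2) (conj (int_0^l exp F) + int_0^l exp(-F)),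
the surface is (zf F l, Im l).
-/

namespace PoolB27

open Complex Set Metric

/-- closed upper half plane -/
def Hc : Set ℂ := {z | 0 ≤ z.im}

/-- open upper half plane -/
def Ho : Set ℂ := {z | 0 < z.im}

/-- the half plane Im z > -d -/
def Hd (d : ℝ) : Set ℂ := {z | -d < z.im}

/-- closed first quadrant -/
def Qc : Set ℂ := {z | 0 ≤ z.re ∧ 0 ≤ z.im}

/-- integral of `f` along the segment from `0` to `l` -/
noncomputable def pr (f : ℂ → ℂ) (l : ℂ) : ℂ := ∫ t in (0:ℝ)..1, f ((t : ℂ) * l) * l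

/-- the differential of `zf F` at a point where `F = w`, applied to `h` -/
noncomputable def tw (w h : ℂ) : ℂ :=
  I / 2 * (starRingEnd ℂ (exp w * h) + exp (-w) * h)

/-- velocity of the boundary curve where `F = w` -/
noncomputable def bd (w : ℂ) : ℂ := tw w 1

/-- the horizontal part of the minimal surface -/
noncomputable def zf (F : ℂ → ℂ) (l : ℂ) : ℂ :=
  I / 2 * (starRingEnd ℂ (pr (fun x => exp (F x)) l) + pr (fun x => exp (-F x)) l)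

/-- the curve with velocity `bd (f t)` -/
noncomputable def cur (f : ℝ → ℂ) (s : ℝ) : ℂ := ∫ t in (0:ℝ)..s, bd (f t)

/-- the tail function `(1+t)^(-3/2)` -/
noncomputable def tl (t : ℝ) : ℝ := 1 / ((1 + t) * √(1 + t))

/-- admissible data, without injectivity -/
structure Pre (κ : ℝ) (F : ℂ → ℂ) (w : ℂ) : Prop where
  one_le : 1 ≤ κ
  diff : DifferentiableOn ℂ F (Hd 1)
  bound : ∀ l ∈ Hd 1, ‖F l‖ ≤ κ
  pos : ∀ l ∈ Hc, κ⁻¹ ≤ (F l).re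
  tail : ∀ l ∈ Hc, ‖F l - w‖ ≤ κ * tl ‖l‖

/-- admissible data -/
structure Adm (κ : ℝ) (F : ℂ → ℂ) (w : ℂ) : Prop extends Pre κ F w where
  low : ∀ a ∈ Hc, ∀ b ∈ Hc, κ⁻¹ * ‖a - b‖ ≤ ‖zf F a - zf F b‖

/-- the pieces which are inserted at a large scale -/
structure GCl (V d g δ : ℝ) (G : ℂ → ℂ) (w : ℂ) : Prop where
  diff : DifferentiableOn ℂ G (Hd d)
  bound : ∀ l ∈ Hd d, ‖G l‖ ≤ V
  pos : ∀ l ∈ Hc, g ≤ (G l).re
  tail : ∃ C : ℝ, ∀ l ∈ Hc, ‖G l - w‖ ≤ C * tl ‖l‖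
  osc : ∀ s s' : ℝ, |s - s'| ≤ δ → |(G s).im - (G s').im| ≤ 1

/-- constants -/
noncomputable def C0 (κ V : ℝ) : ℝ := 2 * κ * Real.exp (V + κ)

/-- constants -/
noncomputable def eta (κ V d : ℝ) : ℝ := d / (4 * κ * (V + 1) * Real.exp (κ + 2 * V))

/-- insertion of `F` into `G` at the boundary point `s`, at scale `L` -/
noncomputable def ins (F G : ℂ → ℂ) (s L : ℝ) (l : ℂ) : ℂ := F l + G ((s : ℂ) + l / L) - G s

/-- small correction function -/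
noncomputable def qf (l : ℂ) : ℂ := 1 + 1 / (l / 2 + I) ^ 2

/-- tolerance: everything within `θ` of `F` on the half disc of radius `Λ` is still good there -/
def Tolr (F : ℂ → ℂ) (Λ θ : ℝ) : Prop :=
  ∀ F' : ℂ → ℂ, DifferentiableOn ℂ F' (Hd 1) → (∀ l ∈ Hd 1, ‖l‖ ≤ Λ → ‖F' l - F l‖ ≤ θ) →
    (∀ l ∈ Hc, ‖l‖ ≤ Λ → 0 < (F' l).re) ∧ InjOn (zf F') (Hc ∩ closedBall 0 Λ) ∧
    (∀ l ∈ Hc, ‖l‖ ≤ Λ → ‖zf F' l - zf F l‖ ≤ 1)

/-- the property of one big step of the construction -/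
def Big (A : ℝ) : Prop :=
  ∀ (F : ℂ → ℂ) (κ : ℝ) (w : ℂ), Adm κ F w → w.re < A → ∀ k : ℝ, 0 ≤ k →
    ∃ Λ₀ : ℝ, ∀ Λ : ℝ, Λ₀ ≤ Λ → ∀ e : ℝ, 0 < e →
      ∃ (F' : ℂ → ℂ) (κ' : ℝ) (w' : ℂ), Adm κ' F' w' ∧ w'.re < A ∧
        (∀ l ∈ Hd 1, ‖l‖ ≤ Λ → ‖F' l - F l‖ ≤ e) ∧
        (∀ l ∈ Hc, Λ ≤ ‖l‖ → k ≤ ‖zf F' l‖) ∧
        ∃ p ∈ Ho, Λ ≤ ‖p‖ ∧ Real.exp (k * (‖zf F' p‖ + 2)) ≤ p.im

/-- the final data -/
structure Good (F : ℂ → ℂ) : Prop where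
  diff : DifferentiableOn ℂ F (Hd 1)
  pos : ∀ l ∈ Hc, 0 < (F l).re
  inj : InjOn (zf F) Hc
  proper : ∀ R : ℝ, ∃ r : ℝ, ∀ l ∈ Hc, r ≤ ‖l‖ → R ≤ ‖zf F l‖
  growth : ∀ n : ℕ, ∃ p ∈ Ho, (n : ℝ) ≤ ‖zf F p‖ ∧ Real.exp (n * ‖zf F p‖) < p.im

/-! The explicit level function -/

/-- the root of `2 l` in the closed first quadrant -/
noncomputable def sq (l : ℂ) : ℂ := ((√(‖l‖ + l.re) : ℝ) : ℂ) + ((√(‖l‖ - l.re) : ℝ) : ℂ) * I

/-- the level function in the variable `σ = sq l` -/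
noncomputable def gg (α : ℝ) (σ : ℂ) : ℂ :=
  2 * Real.pi * I + 2 * log (σ + exp (α * I)) - 2 * log (σ - exp (-(α * I)))

/-- the level function -/
noncomputable def Gf (α : ℝ) (l : ℂ) : ℂ := gg α (sq l)

/-- the regularised level function -/
noncomputable def fam (α ε : ℝ) (l : ℂ) : ℂ :=
  Gf α (l + ε * I) + ε - (Gf α (l + (128 / ε ^ 2 : ℝ) * I) - 2 * Real.pi * I)

/-- constants of the family for `α ≥ a` -/
noncomputable def cV (a : ℝ) : ℝ := 8 / Real.sin a + 8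

/-- constants of the family for `α ≥ a` -/
noncomputable def cD (a : ℝ) : ℝ := (Real.sin a) ^ 4 / 3200

/-- velocity of the limit curve for `α = 0` -/
noncomputable def b0 (s : ℝ) : ℂ :=
  I / 2 * (starRingEnd ℂ (((sq s + 1) / (sq s - 1)) ^ 2) + (((sq s + 1) / (sq s - 1)) ^ 2)⁻¹)

/-- first contact of a family of curves `Γ α`, `α ∈ [a,b]` -/
def Touch (a b δ S : ℝ) (Γ : ℝ → ℝ → ℂ) : Prop :=
  ∃ α₀ ∈ Icc a b, ∃ s s' : ℝ, s < s' ∧ δ ≤ s' - s ∧ |s| ≤ S ∧ |s'| ≤ S ∧ Γ α₀ s = Γ α₀ s' ∧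
    ∀ r > 0, ∃ α ∈ Icc a b, ∃ t t' m : ℝ, |α - α₀| < r ∧ |t - s| < r ∧ |t' - s'| < r ∧
      0 < m ∧ m < r ∧ δ ≤ |t - t'| ∧ ‖Γ α t - Γ α t'‖ = m ∧
      ∀ x y : ℝ, δ ≤ |x - y| → m ≤ ‖Γ α x - Γ α y‖

/-- inverse of `zf F` -/
noncomputable def psi (F : ℂ → ℂ) (z : ℂ) : ℂ := Function.invFunOn (zf F) Hc z

/-- the function on the domain `zf F '' Ho` -/
noncomputable def uf (F : ℂ → ℂ) (z : ℂ) : ℝ := (psi F z).im

/-- the field `∇u / √(1 + |∇u|²)` -/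
noncomputable def nf (u : ℂ → ℝ) (z : ℂ) : ℂ := (√(1 + ‖gradient u z‖ ^ 2))⁻¹ • gradient u z

/-- left side of the minimal surface equation: the divergence of `∇u / √(1 + |∇u|²)` -/
noncomputable def mco (u : ℂ → ℝ) (z : ℂ) : ℝ :=
  (fderiv ℝ (nf u) z 1).re + (fderiv ℝ (nf u) z I).im

end PoolB27
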