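import Pool.Agent.Work.MP_b27c98_an.Defs
import Pool.Agent.Work.MP_b27c98_an.ZfB

/-
MODULE LimE (size M). The limit function is good.

PROOF. Λ n ≥ n. For l ∈ Hd 1 with ‖l‖ ≤ Λ n: ‖F (m+1) l - F m l‖ ≤ ρ m ≤ ρ n 2^(n-m) for all m ≥ n (Λ increasing), so F m l
is a Cauchy sequence; F l := lim (limUnder or Classical choice; outside Hd 1 anything) and
 (*) ‖F l - F n l‖ ≤ 2 ρ n for l ∈ Hd 1, ‖l‖ ≤ Λ n.
ρ n -> 0 and every compact subset of Hd 1 is in {‖l‖ ≤ Λ n} for large n: F n -> F locally uniformly on the open set Hd 1, so F is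
holomorphic there (TendstoLocallyUniformlyOn.differentiableOn).
By (*) and Tolr (F n) (Λ n) (2 ρ n): Re F > 0 on Hc, zf F is injective on Hc ∩ closedBall 0 (Λ n) for each n, hence on Hc, and
 (**) ‖zf F l - zf (F n) l‖ ≤ 1 for l ∈ Hc, ‖l‖ ≤ Λ n.
PROPER: claim: l ∈ Hc, ‖l‖ ≥ Λ n implies ‖zf F l‖ ≥ n - 1: take the largest m with Λ m ≤ ‖l‖ (m ≥ n exists since Λ -> ∞): ‖l‖ ≤ Λ (m+1),
 ‖zf (F (m+1)) l‖ ≥ m, (**) for m+1.
GROWTH: for n take p := p (n+1) ∈ Ho: ‖p‖ ≥ Λ (n+1) gives ‖zf (F (n+2)) p‖ ≥ n + 1, ‖p‖ ≤ Λ (n+2) and (**): ‖zf F p‖ ≥ n and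
 ‖zf F p‖ ≤ ‖zf (F (n+2)) p‖ + 1, so n ‖zf F p‖ < (n+1)(‖zf (F (n+2)) p‖ + 2), exp(...) < Im p.
-/

namespace PoolB27

open Complex Set Metric

theorem good_of_seq {F : ℕ → ℂ → ℂ} {Λ ρ : ℕ → ℝ} {p : ℕ → ℂ} (h : ∀ n : ℕ,
      DifferentiableOn ℂ (F n) (Hd 1) ∧ 0 ≤ Λ n ∧ Λ n + 1 ≤ Λ (n + 1) ∧ 0 < ρ n ∧
      ρ (n + 1) ≤ ρ n / 2 ∧ ρ n ≤ (1 / 2) ^ n ∧ Tolr (F n) (Λ n) (2 * ρ n) ∧
      (∀ l ∈ Hd 1, ‖l‖ ≤ Λ n → ‖F (n + 1) l - F n l‖ ≤ ρ n) ∧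
      (∀ l ∈ Hc, Λ n ≤ ‖l‖ → (n : ℝ) ≤ ‖zf (F (n + 1)) l‖) ∧
      p n ∈ Ho ∧ Λ n ≤ ‖p n‖ ∧ ‖p n‖ ≤ Λ (n + 1) ∧
      Real.exp (n * (‖zf (F (n + 1)) (p n)‖ + 2)) ≤ (p n).im) : ∃ F' : ℂ → ℂ, Good F' := by
  have hdf : ∀ n, DifferentiableOn ℂ (F n) (Hd 1) := fun n => (h n).1
  have hΛs : ∀ n, Λ n + 1 ≤ Λ (n + 1) := fun n => (h n).2.2.1
  have hρ0 : ∀ n, 0 < ρ n := fun n => (h n).2.2.2.1
  have hρs : ∀ n, ρ (n + 1) ≤ ρ n / 2 := fun n => (h n).2.2.2.2.1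
  have hρp : ∀ n, ρ n ≤ (1 / 2) ^ n := fun n => (h n).2.2.2.2.2.1
  have htol : ∀ n, Tolr (F n) (Λ n) (2 * ρ n) := fun n => (h n).2.2.2.2.2.2.1
  have hcl : ∀ n, ∀ l ∈ Hd 1, ‖l‖ ≤ Λ n → ‖F (n + 1) l - F n l‖ ≤ ρ n :=
    fun n => (h n).2.2.2.2.2.2.2.1
  have hfar : ∀ n, ∀ l ∈ Hc, Λ n ≤ ‖l‖ → (n : ℝ) ≤ ‖zf (F (n + 1)) l‖ :=
    fun n => (h n).2.2.2.2.2.2.2.2.1
  have hp := fun n => (h n).2.2.2.2.2.2.2.2.2
  have hΛm : Monotone Λ := monotone_nat_of_le_succ (fun n => by linarith [hΛs n])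
  have hΛn : ∀ n : ℕ, (n : ℝ) ≤ Λ n := by
    intro n
    induction n with
    | zero => simpa using (h 0).2.1
    | succ n ih => push_cast; linarith [hΛs n]
  have hdist : ∀ n m : ℕ, n ≤ m → ∀ l ∈ Hd 1, ‖l‖ ≤ Λ n → ‖F m l - F n l‖ ≤ 2 * ρ n - 2 * ρ m := by
    intro n m hnm l hl hln
    induction m, hnm using Nat.le_induction with
    | base => simp
    | succ m hm ih =>
      have h1 : ‖F (m + 1) l - F m l‖ ≤ ρ m := hcl m l hl (hln.trans (hΛm hm))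
      have h2 : F (m + 1) l - F n l = (F (m + 1) l - F m l) + (F m l - F n l) := by ring
      rw [h2]
      refine (norm_add_le _ _).trans ?_
      linarith [hρs m]
  have hρt : Filter.Tendsto ρ Filter.atTop (nhds 0) :=
    squeeze_zero (fun n => (hρ0 n).le) hρp
      (tendsto_pow_atTop_nhds_zero_of_lt_one (by norm_num) (by norm_num))
  have hΛt : ∀ x : ℝ, ∀ᶠ n in Filter.atTop, x ≤ Λ n := by
    intro x
    obtain ⟨N, hN⟩ := exists_nat_ge x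
    filter_upwards [Filter.eventually_ge_atTop N] with n hn
    exact hN.trans ((hΛn N).trans (hΛm hn))
  have hlim : ∀ l, ∃ y, l ∈ Hd 1 → Filter.Tendsto (fun n => F n l) Filter.atTop (nhds y) := by
    intro l
    by_cases hl : l ∈ Hd 1
    · have hc : CauchySeq (fun n => F n l) := by
        rw [Metric.cauchySeq_iff']
        intro ε hε
        have h1 : ∀ᶠ n in Filter.atTop, ρ n < ε / 2 := hρt.eventually (gt_mem_nhds (by linarith))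
        obtain ⟨N, hN1, hN2⟩ := (h1.and (hΛt ‖l‖)).exists
        refine ⟨N, fun n hn => ?_⟩
        rw [dist_eq_norm]
        refine (hdist N n hn l hl hN2).trans_lt ?_
        linarith [hρ0 n]
      obtain ⟨y, hy⟩ := cauchySeq_tendsto_of_complete hc
      exact ⟨y, fun _ => hy⟩
    · exact ⟨0, fun h' => absurd h' hl⟩
  choose F' hF' using hlim
  have hstar : ∀ n, ∀ l ∈ Hd 1, ‖l‖ ≤ Λ n → ‖F' l - F n l‖ ≤ 2 * ρ n := by
    intro n l hl hln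
    have h1 : Filter.Tendsto (fun m => ‖F m l - F n l‖) Filter.atTop (nhds ‖F' l - F n l‖) :=
      ((hF' l hl).sub_const _).norm
    refine le_of_tendsto h1 ?_
    filter_upwards [Filter.eventually_ge_atTop n] with m hm
    linarith [hdist n m hm l hl hln, hρ0 m]
  have hlu : TendstoLocallyUniformlyOn F F' Filter.atTop (Hd 1) := by
    rw [Metric.tendstoLocallyUniformlyOn_iff]
    intro ε hε x hx
    refine ⟨Hd 1 ∩ ball x 1, inter_mem_nhdsWithin _ (ball_mem_nhds x one_pos), ?_⟩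
    have h1 : ∀ᶠ n in Filter.atTop, ρ n < ε / 2 := hρt.eventually (gt_mem_nhds (by linarith))
    filter_upwards [h1, hΛt (‖x‖ + 1)] with n hn1 hn2 y hy
    rw [dist_eq_norm]
    have hy2 : ‖y‖ ≤ ‖x‖ + 1 := by
      have h3 : ‖y - x‖ < 1 := by simpa [dist_eq_norm] using hy.2
      have h4 : y = x + (y - x) := by ring
      calc ‖y‖ = ‖x + (y - x)‖ := by rw [← h4]
        _ ≤ ‖x‖ + ‖y - x‖ := norm_add_le _ _
        _ ≤ ‖x‖ + 1 := by linarith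
    linarith [hstar n y hy.1 (hy2.trans hn2)]
  have hdiff : DifferentiableOn ℂ F' (Hd 1) :=
    hlu.differentiableOn (Filter.Eventually.of_forall hdf) (isOpen_Hd 1)
  have hT := fun n => htol n F' hdiff (hstar n)
  refine ⟨F', hdiff, ?_, ?_, ?_, ?_⟩
  · intro l hl
    obtain ⟨N, hN⟩ := exists_nat_ge ‖l‖
    exact (hT N).1 l hl (hN.trans (hΛn N))
  · intro a ha b hb hab
    obtain ⟨N, hN⟩ := exists_nat_ge (max ‖a‖ ‖b‖)
    refine (hT N).2.1 ⟨ha, ?_⟩ ⟨hb, ?_⟩ hab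
    · rw [mem_closedBall_zero_iff]
      exact (le_max_left _ _).trans (hN.trans (hΛn N))
    · rw [mem_closedBall_zero_iff]
      exact (le_max_right _ _).trans (hN.trans (hΛn N))
  · intro R
    obtain ⟨n, hn⟩ := exists_nat_ge (R + 1)
    refine ⟨Λ n, fun l hl hln => ?_⟩
    have hex : ∃ j, ‖l‖ < Λ j := by
      obtain ⟨N, hN⟩ := exists_nat_gt ‖l‖
      exact ⟨N, hN.trans_le (hΛn N)⟩
    classical
    have hj := Nat.find_spec hex
    have hjn : n < Nat.find hex := by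
      by_contra hc
      have h1 := hΛm (not_lt.1 hc)
      linarith
    obtain ⟨m, hm⟩ : ∃ m, Nat.find hex = m + 1 := ⟨Nat.find hex - 1, by omega⟩
    have hm2 : ¬ ‖l‖ < Λ m := Nat.find_min hex (by omega)
    rw [hm] at hj
    have h1 := hfar m l hl (not_lt.1 hm2)
    have h2 := (hT (m + 1)).2.2 l hl hj.le
    have h3 : ‖zf (F (m + 1)) l‖ ≤ ‖zf F' l‖ + ‖zf F' l - zf (F (m + 1)) l‖ := by
      have h4 : zf (F (m + 1)) l = zf F' l - (zf F' l - zf (F (m + 1)) l) := by ring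
      calc ‖zf (F (m + 1)) l‖ = ‖zf F' l - (zf F' l - zf (F (m + 1)) l)‖ := by rw [← h4]
        _ ≤ _ := norm_sub_le _ _
    have h5 : (n : ℝ) ≤ m := by exact_mod_cast (by omega : n ≤ m)
    linarith
  · intro n
    obtain ⟨q1, q2, q3, q4⟩ := hp (n + 1)
    refine ⟨p (n + 1), q1, ?_, ?_⟩
    · have h1 := hfar (n + 1) _ (Ho_sub_Hc q1) q2
      have h2 := (hT (n + 1 + 1)).2.2 _ (Ho_sub_Hc q1) q3
      have h3 : ‖zf (F (n + 1 + 1)) (p (n + 1))‖ ≤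
          ‖zf F' (p (n + 1))‖ + ‖zf F' (p (n + 1)) - zf (F (n + 1 + 1)) (p (n + 1))‖ := by
        have h4 : zf (F (n + 1 + 1)) (p (n + 1)) = zf F' (p (n + 1)) -
          (zf F' (p (n + 1)) - zf (F (n + 1 + 1)) (p (n + 1))) := by ring
        conv_lhs => rw [h4]
        exact norm_sub_le _ _
      push_cast at h1
      linarith
    · refine lt_of_lt_of_le (Real.exp_lt_exp.2 ?_) q4
      have h2 := (hT (n + 1 + 1)).2.2 _ (Ho_sub_Hc q1) q3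
      have h3 : ‖zf F' (p (n + 1))‖ ≤ ‖zf (F (n + 1 + 1)) (p (n + 1))‖ +
          ‖zf F' (p (n + 1)) - zf (F (n + 1 + 1)) (p (n + 1))‖ := by
        have h4 : zf F' (p (n + 1)) = zf (F (n + 1 + 1)) (p (n + 1)) +
          (zf F' (p (n + 1)) - zf (F (n + 1 + 1)) (p (n + 1))) := by ring
        conv_lhs => rw [h4]
        exact norm_add_le _ _
      have h5 : (0 : ℝ) ≤ n := Nat.cast_nonneg n
      have h6 : 0 ≤ ‖zf (F (n + 1 + 1)) (p (n + 1))‖ := norm_nonneg _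
      have h7 : (n : ℝ) * ‖zf F' (p (n + 1))‖ ≤ n * (‖zf (F (n + 1 + 1)) (p (n + 1))‖ + 1) :=
        mul_le_mul_of_nonneg_left (by linarith) h5
      push_cast
      nlinarith

end PoolB27
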