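import Pool.Agent.Work.MP_b27c98_an.Defs
import Pool.Agent.Work.MP_b27c98_an.TwB
import Pool.Agent.Work.MP_b27c98_an.ZfB
import Pool.Agent.Work.MP_b27c98_an.ZfC
import Pool.Agent.Work.MP_b27c98_an.Low

/-
MODULE PdeA (size M). The inverse map psi F of zf F is of class C² on zf F '' Ho.

PROOF. psi_left: InjOn.leftInvOn_invFunOn. At l ∈ Ho the strict derivative T h = tw (F l) h of zf F is invertible (TwB.tw_lower,
Re F l > 0) and zf F is C² at l (ZfC). The inverse function theorem (ContDiffAt.toOpenPartialHomeomorph /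
HasStrictFDerivAt.to_localInverse, ContDiffAt.to_localInverse) gives a local inverse g of class C² near z₀ = zf F l, g z₀ = l, g has values
in the open set Ho near z₀ and zf F (g z) = z for z near z₀. By injectivity on Hc: psi F z = g z near z₀. So psi F is C² at z₀, with
derivative the inverse of T: T' (tw (F l) h) = h.
-/

namespace PoolB27

open Complex Set Metric

theorem psi_left {F : ℂ → ℂ} (hF : Good F) : ∀ l ∈ Hc, psi F (zf F l) = l :=
  fun _ hl => hF.inj.leftInvOn_invFunOn hl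

theorem dom_open {F : ℂ → ℂ} (hF : Good F) : IsOpen (zf F '' Ho) :=
  zf_open one_pos hF.diff (fun l hl => hF.pos l (Ho_sub_Hc hl)) Ho (Subset.refl _) isOpen_Ho

private theorem zf_equiv {F : ℂ → ℂ} (hF : Good F) {l : ℂ} (hl : l ∈ Ho) :
    ∃ T : ℂ ≃L[ℝ] ℂ, (∀ h, T h = tw (F l) h) ∧
      HasStrictFDerivAt (zf F) (T : ℂ →L[ℝ] ℂ) l := by
  obtain ⟨T, hT, hT'⟩ := zf_deriv one_pos hF.diff (Hc_sub_Hd one_pos (Ho_sub_Hc hl))
  have hs : 0 < Real.sinh (F l).re := Real.sinh_pos_iff.2 (hF.pos l (Ho_sub_Hc hl))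
  have hinj : Function.Injective (T : ℂ →ₗ[ℝ] ℂ) := by
    rw [← LinearMap.ker_eq_bot, LinearMap.ker_eq_bot']
    intro h hh
    have h1 : tw (F l) h = 0 := by
      rw [← hT]
      exact hh
    have h2 := tw_lower (F l) h (hF.pos l (Ho_sub_Hc hl)).le
    rw [h1, norm_zero] at h2
    have h3 : ‖h‖ ≤ 0 := by
      by_contra hcon
      push Not at hcon
      nlinarith
    exact norm_le_zero_iff.1 h3
  let e := (LinearEquiv.ofInjectiveEndo (T : ℂ →ₗ[ℝ] ℂ) hinj).toContinuousLinearEquiv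
  have he : ∀ h, e h = T h := fun h => rfl
  refine ⟨e, fun h => (he h).trans (hT h), ?_⟩
  have : (e : ℂ →L[ℝ] ℂ) = T := ContinuousLinearMap.ext he
  rw [this]
  exact hT'

private theorem psi_eventually {F : ℂ → ℂ} (hF : Good F) {l : ℂ} (hl : l ∈ Ho) (g : ℂ → ℂ)
    (hg : ContinuousAt g (zf F l)) (hgl : g (zf F l) = l)
    (hr : ∀ᶠ z in nhds (zf F l), zf F (g z) = z) : psi F =ᶠ[nhds (zf F l)] g := by
  have h1 : ∀ᶠ z in nhds (zf F l), g z ∈ Ho := by
    apply hg.eventually_mem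
    rw [hgl]
    exact isOpen_Ho.mem_nhds hl
  filter_upwards [h1, hr] with z hz1 hz2
  have h2 := psi_left hF (g z) (Ho_sub_Hc hz1)
  rwa [hz2] at h2

theorem psi_contDiffAt {F : ℂ → ℂ} (hF : Good F) {l : ℂ} (hl : l ∈ Ho) :
    ContDiffAt ℝ 2 (psi F) (zf F l) := by
  obtain ⟨T, -, hT⟩ := zf_equiv hF hl
  have hc := zf_contDiffAt one_pos hF.diff (Hc_sub_Hd one_pos (Ho_sub_Hc hl))
  have h2 : (2 : WithTop ℕ∞) ≠ 0 := by norm_num
  have h1 := hc.to_localInverse hT.hasFDerivAt h2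
  refine h1.congr_of_eventuallyEq (psi_eventually hF hl _ h1.continuousAt
    (hc.localInverse_apply_image hT.hasFDerivAt h2) ?_)
  exact (hc.hasStrictFDerivAt' hT.hasFDerivAt h2).eventually_right_inverse

theorem psi_deriv {F : ℂ → ℂ} (hF : Good F) {l : ℂ} (hl : l ∈ Ho) :
    ∃ T : ℂ →L[ℝ] ℂ, HasFDerivAt (psi F) T (zf F l) ∧ ∀ h, T (tw (F l) h) = h := by
  obtain ⟨T, hT1, hT⟩ := zf_equiv hF hl
  refine ⟨(T.symm : ℂ →L[ℝ] ℂ), ?_, fun h => ?_⟩
  · refine hT.to_localInverse.hasFDerivAt.congr_of_eventuallyEq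
      (psi_eventually hF hl _ hT.localInverse_continuousAt hT.localInverse_apply_image
        hT.eventually_right_inverse)
  · rw [← hT1]
    exact T.symm_apply_apply h

end PoolB27
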