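import Pool.Agent.Work.MP_b27c98_an.Defs
import Pool.Agent.Work.MP_b27c98_an.TwB
import Pool.Agent.Work.MP_b27c98_an.PdeA

/-
MODULE PdeB (size M). Gradients of the two real coordinates of psi F.

Let l ∈ Ho, v := Re F l > 0, φ := Im F l, n := exp(-iφ). TwB.tw_eq: tw (F l) h = n (i cosh v a + sinh v b), h = a + ib.
T := derivative of psi F at zf F l, T (tw (F l) h) = h (PdeA.psi_deriv). The map h -> tw (F l) h is onto.
HasGradientAt (fun z => (psi F z).im) (n/sinh v) (zf F l): must show Im (T k) = ⟪n/sinh v, k⟫ for all k; for k = tw (F l) h: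
 left side b, right side (1/sinh v) Re (conj(n) n (i cosh v a + sinh v b)) = b. (The inner product of ℂ over ℝ is Re (conj x y);
 Complex.inner.) Same for the real part: ∇s = i n/cosh v: (1/cosh v) Re (conj(i) (i cosh v a + sinh v b)) = a.
nf_uf: ‖∇u‖ = 1/sinh v, √(1 + 1/sinh²v) = cosh v/sinh v, so nf u = (sinh v/cosh v)(n/sinh v) = n/cosh v = -i (i n/cosh v) = -i ∇s.
-/

namespace PoolB27

open Complex Set Metric

private theorem nn (φ : ℝ) : starRingEnd ℂ (exp (-((φ : ℂ) * I))) * exp (-((φ : ℂ) * I)) = 1 := by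
  rw [← exp_conj, ← exp_add]
  have : starRingEnd ℂ (-((φ : ℂ) * I)) + -((φ : ℂ) * I) = 0 := by
    simp
  rw [this, exp_zero]

private theorem norm_n (φ : ℝ) : ‖exp (-((φ : ℂ) * I))‖ = 1 := by
  rw [norm_exp]
  simp

private theorem tw_onto {w : ℂ} (hw : 0 < w.re) (k : ℂ) : ∃ h, tw w h = k := by
  have hs : Real.sinh w.re ≠ 0 := (Real.sinh_pos_iff.2 hw).ne'
  have hc : Real.cosh w.re ≠ 0 := (Real.cosh_pos _).ne'
  let k' : ℂ := starRingEnd ℂ (exp (-((w.im : ℂ) * I))) * k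
  refine ⟨⟨k'.im / Real.cosh w.re, k'.re / Real.sinh w.re⟩, ?_⟩
  rw [tw_eq]
  have h1 : ((Real.cosh w.re * (k'.im / Real.cosh w.re) : ℝ) : ℂ) * I +
      ((Real.sinh w.re * (k'.re / Real.sinh w.re) : ℝ) : ℂ) = k' := by
    rw [mul_div_cancel₀ _ hc, mul_div_cancel₀ _ hs, add_comm]
    exact re_add_im k'
  change exp (-((w.im : ℂ) * I)) * (((Real.cosh w.re * (k'.im / Real.cosh w.re) : ℝ) : ℂ) * I +
      ((Real.sinh w.re * (k'.re / Real.sinh w.re) : ℝ) : ℂ)) = k
  rw [h1]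
  change exp (-((w.im : ℂ) * I)) * (starRingEnd ℂ (exp (-((w.im : ℂ) * I))) * k) = k
  rw [← mul_assoc, mul_comm (exp _), nn, one_mul]

theorem grad_uf {F : ℂ → ℂ} (hF : Good F) {l : ℂ} (hl : l ∈ Ho) :
    gradient (uf F) (zf F l) = exp (-((F l).im * I)) / ((Real.sinh (F l).re : ℝ) : ℂ) := by
  obtain ⟨T, hT, hT'⟩ := psi_deriv hF hl
  have hp : 0 < (F l).re := hF.pos l (Ho_sub_Hc hl)
  have hs : Real.sinh (F l).re ≠ 0 := (Real.sinh_pos_iff.2 hp).ne'
  apply HasGradientAt.gradient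
  rw [hasGradientAt_iff_hasFDerivAt]
  have h1 : HasFDerivAt (uf F) (imCLM.comp T) (zf F l) := imCLM.hasFDerivAt.comp _ hT
  convert! h1 using 1
  refine ContinuousLinearMap.ext fun k => ?_
  obtain ⟨h, rfl⟩ := tw_onto hp k
  rw [InnerProductSpace.toDual_apply_apply, ContinuousLinearMap.comp_apply, hT', imCLM_apply,
    Complex.inner, tw_eq, map_div₀, conj_ofReal]
  have h2 : starRingEnd ℂ (exp (-(((F l).im : ℂ) * I))) / ((Real.sinh (F l).re : ℝ) : ℂ) *
      (exp (-(((F l).im : ℂ) * I)) * (((Real.cosh (F l).re * h.re : ℝ) : ℂ) * I +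
        ((Real.sinh (F l).re * h.im : ℝ) : ℂ))) =
      (starRingEnd ℂ (exp (-(((F l).im : ℂ) * I))) * exp (-(((F l).im : ℂ) * I))) *
      ((((Real.cosh (F l).re * h.re : ℝ) : ℂ) * I +
        ((Real.sinh (F l).re * h.im : ℝ) : ℂ)) / ((Real.sinh (F l).re : ℝ) : ℂ)) := by ring
  rw [mul_comm, h2, nn, one_mul, div_ofReal_re]
  simp only [add_re, mul_re, ofReal_re, I_re, mul_zero, ofReal_im, I_im, mul_one, sub_self,
    zero_add]
  field_simp

theorem grad_sf {F : ℂ → ℂ} (hF : Good F) {l : ℂ} (hl : l ∈ Ho) :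
    gradient (fun z => (psi F z).re) (zf F l) =
      I * exp (-((F l).im * I)) / ((Real.cosh (F l).re : ℝ) : ℂ) := by
  obtain ⟨T, hT, hT'⟩ := psi_deriv hF hl
  have hp : 0 < (F l).re := hF.pos l (Ho_sub_Hc hl)
  have hc : Real.cosh (F l).re ≠ 0 := (Real.cosh_pos _).ne'
  apply HasGradientAt.gradient
  rw [hasGradientAt_iff_hasFDerivAt]
  have h1 : HasFDerivAt (fun z => (psi F z).re) (reCLM.comp T) (zf F l) :=
    reCLM.hasFDerivAt.comp _ hT
  convert! h1 using 1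
  refine ContinuousLinearMap.ext fun k => ?_
  obtain ⟨h, rfl⟩ := tw_onto hp k
  rw [InnerProductSpace.toDual_apply_apply, ContinuousLinearMap.comp_apply, hT', reCLM_apply,
    Complex.inner, tw_eq, map_div₀, conj_ofReal, map_mul, conj_I]
  have h2 : -I * starRingEnd ℂ (exp (-(((F l).im : ℂ) * I))) / ((Real.cosh (F l).re : ℝ) : ℂ) *
      (exp (-(((F l).im : ℂ) * I)) * (((Real.cosh (F l).re * h.re : ℝ) : ℂ) * I +
        ((Real.sinh (F l).re * h.im : ℝ) : ℂ))) =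
      (starRingEnd ℂ (exp (-(((F l).im : ℂ) * I))) * exp (-(((F l).im : ℂ) * I))) *
      ((-I * (((Real.cosh (F l).re * h.re : ℝ) : ℂ) * I +
        ((Real.sinh (F l).re * h.im : ℝ) : ℂ))) / ((Real.cosh (F l).re : ℝ) : ℂ)) := by ring
  rw [mul_comm, h2, nn, one_mul, div_ofReal_re]
  simp only [add_re, mul_re, neg_re, neg_im, ofReal_re, I_re, mul_zero, ofReal_im, I_im, mul_one,
    sub_self, zero_add, add_im, mul_im, neg_zero, zero_mul, add_zero, zero_sub]
  field_simp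

theorem nf_uf {F : ℂ → ℂ} (hF : Good F) {l : ℂ} (hl : l ∈ Ho) :
    nf (uf F) (zf F l) = -I * gradient (fun z => (psi F z).re) (zf F l) := by
  have hp : 0 < (F l).re := hF.pos l (Ho_sub_Hc hl)
  have hs : 0 < Real.sinh (F l).re := Real.sinh_pos_iff.2 hp
  have hc : 0 < Real.cosh (F l).re := Real.cosh_pos _
  unfold nf
  rw [grad_sf hF hl, grad_uf hF hl]
  have h1 : ‖exp (-(((F l).im : ℂ) * I)) / ((Real.sinh (F l).re : ℝ) : ℂ)‖ =
      1 / Real.sinh (F l).re := by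
    rw [norm_div, norm_n, norm_real, Real.norm_of_nonneg hs.le]
  have h2 : √(1 + (1 / Real.sinh (F l).re) ^ 2) = Real.cosh (F l).re / Real.sinh (F l).re := by
    rw [Real.sqrt_eq_iff_mul_self_eq (by positivity) (by positivity)]
    have h3 := Real.cosh_sq (F l).re
    field_simp
    linarith
  rw [h1, h2, real_smul]
  have hs' : ((Real.sinh (F l).re : ℝ) : ℂ) ≠ 0 := by exact_mod_cast hs.ne'
  have hc' : ((Real.cosh (F l).re : ℝ) : ℂ) ≠ 0 := by exact_mod_cast hc.ne'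
  have hI : (I : ℂ) * I = -1 := I_mul_I
  rw [ofReal_inv, ofReal_div]
  field_simp
  linear_combination hI

end PoolB27
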