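import Pool.Agent.Work.MP_b27c98_an.Defs

/-
MODULE PdeC (size M, calculus). A rotated gradient is divergence free.

PROOF. On the open set D, s is C², gradient s z = s_x + i s_y with s_x = fderiv s z 1, s_y = fderiv s z I (inner product
Re (conj (gradient) h) = fderiv s z h with h = 1, I). N = -i gradient s = s_y - i s_x near z. So
 Re (fderiv N z 1) + Im (fderiv N z I) = ∂_x s_y - ∂_y s_x = 0 by the symmetry of the second derivative
(ContDiffAt.isSymmSndFDerivAt or second_derivative_symmetric).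
-/

set_option autoImplicit false

namespace PoolB27

open Complex Set Metric Filter Topology

private theorem grad_inner {s : ℂ → ℝ} (z h : ℂ) :
    (gradient s z).re * h.re + (gradient s z).im * h.im = fderiv ℝ s z h := by
  have h1 : inner ℝ (gradient s z) h = fderiv ℝ s z h := by
    unfold gradient
    rw [InnerProductSpace.toDual_symm_apply]
  rw [← h1, Complex.inner]
  simp
  ring

theorem div_rot {D : Set ℂ} (hD : IsOpen D) {s : ℂ → ℝ} (hs : ContDiffOn ℝ 2 s D) {N : ℂ → ℂ}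
    (hN : ∀ z ∈ D, N z = -I * gradient s z) {z : ℂ} (hz : z ∈ D) :
    (fderiv ℝ N z 1).re + (fderiv ℝ N z I).im = 0 := by
  have hsz : ContDiffAt ℝ 2 s z := hs.contDiffAt (hD.mem_nhds hz)
  have hd : ContDiffAt ℝ 1 (fderiv ℝ s) z := hsz.fderiv_right (m := 1) (by norm_num)
  have hdd : DifferentiableAt ℝ (fderiv ℝ s) z := hd.differentiableAt (by norm_num)
  have hNeq : N =ᶠ[𝓝 z] fun w => ((fderiv ℝ s w I : ℝ) : ℂ) - ((fderiv ℝ s w 1 : ℝ) : ℂ) * I := by
    filter_upwards [hD.mem_nhds hz] with w hw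
    rw [hN w hw, ← grad_inner w I, ← grad_inner w 1]
    apply Complex.ext
    · simp
    · simp
  have h1 : HasFDerivAt (fun w => fderiv ℝ s w I) ((fderiv ℝ (fderiv ℝ s) z).flip I) z :=
    hdd.hasFDerivAt.clm_apply (hasFDerivAt_const I z) |>.congr_fderiv (by ext; simp)
  have h2 : HasFDerivAt (fun w => fderiv ℝ s w 1) ((fderiv ℝ (fderiv ℝ s) z).flip 1) z :=
    hdd.hasFDerivAt.clm_apply (hasFDerivAt_const (1:ℂ) z) |>.congr_fderiv (by ext; simp)
  have h3 : HasFDerivAt (fun w => ((fderiv ℝ s w I : ℝ) : ℂ) - ((fderiv ℝ s w 1 : ℝ) : ℂ) * I)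
      (ofRealCLM.comp ((fderiv ℝ (fderiv ℝ s) z).flip I) -
        (ContinuousLinearMap.smulRight (ofRealCLM.comp ((fderiv ℝ (fderiv ℝ s) z).flip 1)) I :
          ℂ →L[ℝ] ℂ)) z := by
    apply HasFDerivAt.sub
    · exact (ofRealCLM.hasFDerivAt.comp z h1)
    · have := (ofRealCLM.hasFDerivAt.comp z h2).mul_const I
      refine this.congr_fderiv ?_
      ext w
      simp [mul_comm]
  have h4 : fderiv ℝ N z = _ := (h3.congr_of_eventuallyEq hNeq).fderiv
  rw [h4]
  have hsymm : fderiv ℝ (fderiv ℝ s) z 1 I = fderiv ℝ (fderiv ℝ s) z I 1 :=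
    (hsz.isSymmSndFDerivAt (by simp)).eq 1 I
  simp [hsymm]

end PoolB27
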