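import Pool.Agent.Work.MP_b27c98_an.Defs
import Pool.Agent.Work.MP_b27c98_an.ZfB
import Pool.Agent.Work.MP_b27c98_an.ZfC
import Pool.Agent.Work.MP_b27c98_an.Topo
import Pool.Agent.Work.MP_b27c98_an.PdeA

/-
MODULE PdeD (size M, topology). The domain D = zf F '' Ho.

PROOF. zf F is continuous on Hc (ZfC.zf_continuousOn, Hc ⊆ Hd 1), injective and proper. zf F '' Hc is closed (Topo.closed_image)
and Hc = closure Ho, so closure D = zf F '' Hc (⊆: D ⊆ closed set; ⊇: a point of Hc is a limit of points of Ho, continuity). D is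
open (PdeA.dom_open), so frontier D = closure D \ D = zf F '' Hc \ zf F '' Ho = zf F '' {Im = 0} by injectivity = range of s -> zf F s.
D connected: image of a convex set under a continuous map. D unbounded: Good.growth gives points of D of norm ≥ n.
psi_cont: psi F is continuous on zf F '' Hc: let z_n = zf F l_n -> z = zf F l, l_n, l ∈ Hc. l_n is bounded (proper); every subsequence
has a convergent subsequence, with limit l' ∈ Hc, zf F l' = z, so l' = l. So l_n -> l.
bdry_proper: |zf F s| -> ∞ as |s| -> ∞ for real s.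
-/

namespace PoolB27

open Complex Set Metric

private theorem zf_contAt {F : ℂ → ℂ} (hF : Good F) {l : ℂ} (hl : l ∈ Hc) :
    ContinuousAt (zf F) l :=
  (zf_continuousOn one_pos hF.diff).continuousAt ((isOpen_Hd 1).mem_nhds (Hc_sub_Hd one_pos hl))

private theorem zf_contHc {F : ℂ → ℂ} (hF : Good F) : ContinuousOn (zf F) Hc :=
  fun _ hl => (zf_contAt hF hl).continuousWithinAt

private theorem closed_image' {z : ℂ → ℂ} {K : Set ℂ} (hK : IsClosed K) (hc : ContinuousOn z K)
    (hprop : ∀ R : ℝ, ∃ r : ℝ, ∀ l ∈ K, r ≤ ‖l‖ → R ≤ ‖z l‖) : IsClosed (z '' K) := by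
  rw [← isSeqClosed_iff_isClosed]
  intro x y hx hxy
  choose l hl hlx using hx
  obtain ⟨R, hR⟩ := hxy.norm.bddAbove_range
  obtain ⟨r, hr⟩ := hprop (R + 1)
  have hb : ∀ n, l n ∈ closedBall (0 : ℂ) r ∩ K := by
    intro n
    refine ⟨?_, hl n⟩
    rw [mem_closedBall_zero_iff]
    by_contra hcon
    push Not at hcon
    have h1 := hr (l n) (hl n) hcon.le
    rw [hlx] at h1
    have h2 : ‖x n‖ ≤ R := hR ⟨n, rfl⟩
    linarith
  obtain ⟨a, ha, φ, hφ, hlim⟩ := ((isCompact_closedBall (0 : ℂ) r).inter_right hK).tendsto_subseq hb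
  have h3 : Filter.Tendsto (fun n => z (l (φ n))) Filter.atTop (nhds (z a)) := by
    have h4 := hc a ha.2
    refine h4.tendsto.comp (tendsto_nhdsWithin_iff.2 ⟨hlim, Filter.Eventually.of_forall fun n =>
      hl (φ n)⟩)
  have h5 : Filter.Tendsto (fun n => z (l (φ n))) Filter.atTop (nhds y) := by
    have h6 := hxy.comp hφ.tendsto_atTop
    refine h6.congr fun n => ?_
    exact (hlx (φ n)).symm
  exact ⟨a, ha.2, tendsto_nhds_unique h3 h5⟩

theorem dom_closure {F : ℂ → ℂ} (hF : Good F) : closure (zf F '' Ho) = zf F '' Hc := by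
  apply Subset.antisymm
  · exact closure_minimal (image_mono Ho_sub_Hc)
      (closed_image' isClosed_Hc (zf_contHc hF) hF.proper)
  · rintro _ ⟨l, hl, rfl⟩
    have h1 : l ∈ closure Ho := by
      have : closure Ho = Hc := Complex.closure_setOfPred_lt_im 0
      rw [this]
      exact hl
    exact (zf_contAt hF hl).continuousWithinAt.mem_closure_image h1

theorem dom_frontier {F : ℂ → ℂ} (hF : Good F) :
    frontier (zf F '' Ho) = range (fun s : ℝ => zf F s) := by
  rw [frontier, (dom_open hF).interior_eq, dom_closure hF]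
  apply Subset.antisymm
  · rintro _ ⟨⟨l, hl, rfl⟩, h2⟩
    have h3 : l.im = 0 := by
      have h4 : (0 : ℝ) ≤ l.im := hl
      rcases h4.eq_or_lt with h | h
      · exact h.symm
      · exact absurd ⟨l, h, rfl⟩ h2
    refine ⟨l.re, ?_⟩
    have : ((l.re : ℝ) : ℂ) = l := Complex.ext rfl h3.symm
    change zf F ((l.re : ℝ) : ℂ) = zf F l
    rw [this]
  · rintro _ ⟨s, rfl⟩
    refine ⟨⟨s, real_mem_Hc s, rfl⟩, ?_⟩
    rintro ⟨l, hl, h⟩
    have h1 := hF.inj (Ho_sub_Hc hl) (real_mem_Hc s) h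
    rw [h1] at hl
    have h2 : (0 : ℝ) < ((s : ℝ) : ℂ).im := hl
    rw [ofReal_im] at h2
    exact lt_irrefl _ h2

theorem dom_connected {F : ℂ → ℂ} (hF : Good F) : IsConnected (zf F '' Ho) := by
  refine IsConnected.image ⟨⟨I, ?_⟩, ?_⟩ _ ((zf_contHc hF).mono Ho_sub_Hc)
  · change (0 : ℝ) < I.im
    rw [I_im]
    exact one_pos
  · exact (convex_halfSpace_im_gt 0).isPreconnected

theorem dom_unbounded {F : ℂ → ℂ} (hF : Good F) : ¬ Bornology.IsBounded (zf F '' Ho) := by
  intro h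
  obtain ⟨C, hC⟩ := h.exists_norm_le
  obtain ⟨n, hn⟩ := exists_nat_gt C
  obtain ⟨p, hp, h1, -⟩ := hF.growth n
  have h2 := hC _ ⟨p, hp, rfl⟩
  linarith

theorem psi_cont {F : ℂ → ℂ} (hF : Good F) : ContinuousOn (psi F) (zf F '' Hc) := by
  rw [continuousOn_iff_isClosed]
  intro t ht
  refine ⟨zf F '' (Hc ∩ t), closed_image' (isClosed_Hc.inter ht)
    ((zf_contHc hF).mono inter_subset_left) ?_, ?_⟩
  · intro R
    obtain ⟨r, hr⟩ := hF.proper R
    exact ⟨r, fun l hl => hr l hl.1⟩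
  · apply Subset.antisymm
    · rintro _ ⟨h1, ⟨l, hl, rfl⟩⟩
      rw [mem_preimage, psi_left hF l hl] at h1
      exact ⟨⟨l, ⟨hl, h1⟩, rfl⟩, ⟨l, hl, rfl⟩⟩
    · rintro _ ⟨⟨l, ⟨hl, hlt⟩, rfl⟩, h2⟩
      refine ⟨?_, h2⟩
      rw [mem_preimage, psi_left hF l hl]
      exact hlt

theorem bdry_curve {F : ℂ → ℂ} (hF : Good F) :
    Continuous (fun s : ℝ => zf F s) ∧ Function.Injective (fun s : ℝ => zf F s) ∧
      Filter.Tendsto (fun s : ℝ => zf F s) (Filter.cocompact ℝ) (Filter.cocompact ℂ) := by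
  refine ⟨?_, ?_, ?_⟩
  · rw [continuous_iff_continuousAt]
    intro s
    exact ContinuousAt.comp (f := fun s : ℝ => (s : ℂ)) (g := zf F) (zf_contAt hF (real_mem_Hc s))
      continuous_ofReal.continuousAt
  · intro s t h
    exact ofReal_injective (hF.inj (real_mem_Hc s) (real_mem_Hc t) h)
  · rw [← Metric.cobounded_eq_cocompact, ← Metric.cobounded_eq_cocompact,
      ← tendsto_norm_atTop_iff_cobounded, Filter.tendsto_atTop]
    intro R
    obtain ⟨r, hr⟩ := hF.proper R
    filter_upwards [eventually_cobounded_le_norm (E := ℝ) r] with s hs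
    refine hr s (real_mem_Hc s) ?_
    rwa [norm_real]

end PoolB27
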