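import Pool.Agent.Work.MP_b27c98_an.Defs
import Pool.Agent.Work.MP_b27c98_an.Tol
import Pool.Agent.Work.MP_b27c98_an.Cst

/-
MODULE SeqE (size M). The sequence of data, by recursion.

PROOF. State: x = (F, κ, w, Λ, ρ) with Adm κ F w, w.re < A, 0 ≤ Λ, 0 < ρ ≤ 1, Tolr F Λ (2ρ).
Step number n from x = (F, κ, w, Λ, ρ): h (k := n) gives Λ₀' for F. PROBLEM: Λ of the state must be ≥ this Λ₀'. So the state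
number n also contains the property  Λ₀(F, n) ≤ Λ, i.e. (the rest of Big for F with k = n):
  St n x := Adm κ F w ∧ w.re < A ∧ 0 ≤ Λ ∧ 0 < ρ ∧ ρ ≤ (1/2)^n ∧ Tolr F Λ (2ρ) ∧
    ∀ e > 0, ∃ F' κ' w', Adm κ' F' w' ∧ w'.re < A ∧ (close e on Λ) ∧ (∀ l ∈ Hc, Λ ≤ ‖l‖ → n ≤ ‖zf F' l‖) ∧ ∃ p ∈ Ho, Λ ≤ ‖p‖ ∧ ...
Initial state: F = A/2 (Cst.adm_const), Λ large, ρ from Tol.tol.
Step n -> n+1: apply the last property with e := ρ: F', κ', w', p. Apply h to F' with k := n + 1: Λ₀. Λ' := max (max Λ₀ (Λ + 1)) ‖p‖ (and ≥ 0).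
θ from Tol.tol for F', Λ'. ρ' := min (θ/2) (min (ρ/2) ((1/2)^(n+1))). Then St (n+1) x'.
Use a dependent recursion (Nat.rec on a sigma type / subtype {x // St n x}) or `exists_seq...`; then read off the sequences.
-/

namespace PoolB27

open Complex Set Metric

/-- the states -/
private def St (A : ℝ) (n : ℕ) (x : (ℂ → ℂ) × ℝ × ℝ) : Prop :=
  DifferentiableOn ℂ x.1 (Hd 1) ∧ 0 ≤ x.2.1 ∧ 0 < x.2.2 ∧ x.2.2 ≤ (1 / 2) ^ n ∧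
    Tolr x.1 x.2.1 (2 * x.2.2) ∧
    ∀ e : ℝ, 0 < e →
      ∃ (F' : ℂ → ℂ) (κ' : ℝ) (w' : ℂ), Adm κ' F' w' ∧ w'.re < A ∧
        (∀ l ∈ Hd 1, ‖l‖ ≤ x.2.1 → ‖F' l - x.1 l‖ ≤ e) ∧
        (∀ l ∈ Hc, x.2.1 ≤ ‖l‖ → (n : ℝ) ≤ ‖zf F' l‖) ∧
        ∃ p ∈ Ho, x.2.1 ≤ ‖p‖ ∧ Real.exp (n * (‖zf F' p‖ + 2)) ≤ p.im

private theorem mk_state {A : ℝ} (h : Big A) {F : ℂ → ℂ} {κ : ℝ} {w : ℂ} (hF : Adm κ F w)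
    (hw : w.re < A) (n : ℕ) (Λm r : ℝ) (hr : 0 < r) :
    ∃ Λ ρ : ℝ, Λm ≤ Λ ∧ ρ ≤ r ∧ St A n (F, Λ, ρ) := by
  obtain ⟨Λ₀, hΛ₀⟩ := h F κ w hF hw n (Nat.cast_nonneg n)
  obtain ⟨θ, hθ, htol⟩ := tol hF (max (max Λ₀ Λm) 0)
  refine ⟨max (max Λ₀ Λm) 0, min (θ / 2) (min r ((1 / 2) ^ n)),
    (le_max_right _ _).trans (le_max_left _ _), (min_le_right _ _).trans (min_le_left _ _), ?_⟩
  refine ⟨hF.diff, le_max_right _ _, ?_, (min_le_right _ _).trans (min_le_right _ _), ?_, ?_⟩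
  · exact lt_min (by linarith) (lt_min hr (by positivity))
  · refine tolr_mono htol ?_
    have : min (θ / 2) (min r ((1 / 2) ^ n)) ≤ θ / 2 := min_le_left _ _
    show 2 * min (θ / 2) (min r ((1 / 2) ^ n)) ≤ θ
    linarith
  · exact hΛ₀ _ ((le_max_left _ _).trans (le_max_left _ _))

private theorem step {A : ℝ} (h : Big A) (n : ℕ) (x : (ℂ → ℂ) × ℝ × ℝ) (hx : St A n x) :
    ∃ (y : (ℂ → ℂ) × ℝ × ℝ), St A (n + 1) y ∧ x.2.1 + 1 ≤ y.2.1 ∧ y.2.2 ≤ x.2.2 / 2 ∧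
      (∀ l ∈ Hd 1, ‖l‖ ≤ x.2.1 → ‖y.1 l - x.1 l‖ ≤ x.2.2) ∧
      (∀ l ∈ Hc, x.2.1 ≤ ‖l‖ → (n : ℝ) ≤ ‖zf y.1 l‖) ∧
      ∃ p ∈ Ho, x.2.1 ≤ ‖p‖ ∧ ‖p‖ ≤ y.2.1 ∧ Real.exp (n * (‖zf y.1 p‖ + 2)) ≤ p.im := by
  obtain ⟨h1, h2, h3, h4, h5, h6⟩ := hx
  obtain ⟨F', κ', w', g1, g2, g3, g4, p, g5, g6, g7⟩ := h6 x.2.2 h3
  obtain ⟨Λ, ρ, k1, k2, k3⟩ := mk_state h g1 g2 (n + 1) (max (x.2.1 + 1) ‖p‖) (x.2.2 / 2)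
    (by linarith)
  exact ⟨(F', Λ, ρ), k3, (le_max_left _ _).trans k1, k2, g3, g4, p, g5, g6,
    (le_max_right _ _).trans k1, g7⟩

theorem exists_seq {A : ℝ} (hA : 0 < A) (h : Big A) :
    ∃ (F : ℕ → ℂ → ℂ) (Λ ρ : ℕ → ℝ) (p : ℕ → ℂ), ∀ n : ℕ,
      DifferentiableOn ℂ (F n) (Hd 1) ∧ 0 ≤ Λ n ∧ Λ n + 1 ≤ Λ (n + 1) ∧ 0 < ρ n ∧
      ρ (n + 1) ≤ ρ n / 2 ∧ ρ n ≤ (1 / 2) ^ n ∧ Tolr (F n) (Λ n) (2 * ρ n) ∧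
      (∀ l ∈ Hd 1, ‖l‖ ≤ Λ n → ‖F (n + 1) l - F n l‖ ≤ ρ n) ∧
      (∀ l ∈ Hc, Λ n ≤ ‖l‖ → (n : ℝ) ≤ ‖zf (F (n + 1)) l‖) ∧
      p n ∈ Ho ∧ Λ n ≤ ‖p n‖ ∧ ‖p n‖ ≤ Λ (n + 1) ∧
      Real.exp (n * (‖zf (F (n + 1)) (p n)‖ + 2)) ≤ (p n).im := by
  obtain ⟨κ, hκ⟩ := adm_const (A := A / 2) (by linarith)
  obtain ⟨Λ₀, ρ₀, -, -, h0⟩ := mk_state h hκ (by rw [ofReal_re]; linarith) 0 0 1 one_pos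
  let xs : (n : ℕ) → {x : (ℂ → ℂ) × ℝ × ℝ // St A n x} := fun n =>
    Nat.rec (motive := fun n => {x : (ℂ → ℂ) × ℝ × ℝ // St A n x}) ⟨_, h0⟩
      (fun n x => ⟨(step h n x.1 x.2).choose, (step h n x.1 x.2).choose_spec.1⟩) n
  have hxs : ∀ n, (xs n).1.2.1 + 1 ≤ (xs (n + 1)).1.2.1 ∧
      (xs (n + 1)).1.2.2 ≤ (xs n).1.2.2 / 2 ∧
      (∀ l ∈ Hd 1, ‖l‖ ≤ (xs n).1.2.1 → ‖(xs (n + 1)).1.1 l - (xs n).1.1 l‖ ≤ (xs n).1.2.2) ∧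
      (∀ l ∈ Hc, (xs n).1.2.1 ≤ ‖l‖ → (n : ℝ) ≤ ‖zf (xs (n + 1)).1.1 l‖) ∧
      ∃ p ∈ Ho, (xs n).1.2.1 ≤ ‖p‖ ∧ ‖p‖ ≤ (xs (n + 1)).1.2.1 ∧
        Real.exp (n * (‖zf (xs (n + 1)).1.1 p‖ + 2)) ≤ p.im := by
    intro n
    exact (step h n (xs n).1 (xs n).2).choose_spec.2
  choose p hp using fun n => (hxs n).2.2.2.2
  refine ⟨fun n => (xs n).1.1, fun n => (xs n).1.2.1, fun n => (xs n).1.2.2, p, fun n => ?_⟩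
  have h1 := (xs n).2
  exact ⟨h1.1, h1.2.1, (hxs n).1, h1.2.2.1, (hxs n).2.1, h1.2.2.2.1, h1.2.2.2.2.1, (hxs n).2.2.1,
    (hxs n).2.2.2.1, (hp n).1, (hp n).2.1, (hp n).2.2.1, (hp n).2.2.2⟩

end PoolB27
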