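import Pool.Agent.Work.MP_b27c98_an.Defs
import Pool.Agent.Work.MP_b27c98_an.ZfB
import Pool.Agent.Work.MP_b27c98_an.BigS
import Pool.Agent.Work.MP_b27c98_an.SeqE
import Pool.Agent.Work.MP_b27c98_an.LimE
import Pool.Agent.Work.MP_b27c98_an.PdeA
import Pool.Agent.Work.MP_b27c98_an.PdeB
import Pool.Agent.Work.MP_b27c98_an.PdeC
import Pool.Agent.Work.MP_b27c98_an.PdeD

/-
MODULE Fin (size S-M, assembly). The final theorem.

PROOF. BigS.exists_big, SeqE.exists_seq, LimE.good_of_seq give F with Good F. D := zf F '' Ho, u := uf F = Im (psi F).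
open, connected, unbounded, boundary curve: PdeA, PdeD. u is C² on D (PdeA.psi_contDiffAt, composition with im), continuous on
closure D = zf F '' Hc (PdeD). u (zf F l) = Im l: positive on D, zero on the frontier = {zf F s}. mco u = 0 on D: PdeC.div_rot with
s = Re psi F, N = nf u (PdeB.nf_uf).
Growth: given C, r₀ take n ≥ C, n ≥ r₀ + 1: p ∈ Ho, r := ‖zf F p‖ ≥ n > r₀, u (zf F p) = Im p > exp(n r) ≥ exp(C r).
sSup: {u z | z ∈ D, ‖z‖ = r} is bounded above: u is continuous on the compact set closure D ∩ sphere 0 r. le_csSup.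
-/

namespace PoolB27

open Complex Set Metric

theorem exists_good : ∃ F : ℂ → ℂ, Good F := by
  obtain ⟨A, hA, hB⟩ := exists_big
  obtain ⟨F, Λ, ρ, p, h⟩ := exists_seq hA hB
  exact good_of_seq h

theorem final : ∃ (D : Set ℂ) (u : ℂ → ℝ),
    IsOpen D ∧ IsConnected D ∧ ¬ Bornology.IsBounded D ∧
    (∃ γ : ℝ → ℂ, Continuous γ ∧ Function.Injective γ ∧
      Filter.Tendsto γ (Filter.cocompact ℝ) (Filter.cocompact ℂ) ∧ frontier D = range γ) ∧
    ContDiffOn ℝ 2 u D ∧ ContinuousOn u (closure D) ∧ (∀ z ∈ D, 0 < u z) ∧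
    (∀ z ∈ frontier D, u z = 0) ∧ (∀ z ∈ D, mco u z = 0) ∧
    (∀ r : ℝ, BddAbove (u '' {z ∈ D | ‖z‖ = r})) ∧
    ∀ C > 0, ∀ r₀ > 0, ∃ r > r₀, Real.exp (C * r) < sSup (u '' {z ∈ D | ‖z‖ = r}) := by
  obtain ⟨F, hF⟩ := exists_good
  have hu : ∀ l ∈ Hc, uf F (zf F l) = l.im := by
    intro l hl
    rw [uf, psi_left hF l hl]
  have hcl : ContinuousOn (uf F) (closure (zf F '' Ho)) := by
    rw [dom_closure hF]
    exact Complex.continuous_im.comp_continuousOn (psi_cont hF)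
  have hcd : ∀ z ∈ zf F '' Ho, ContDiffAt ℝ 2 (psi F) z := by
    rintro _ ⟨l, hl, rfl⟩
    exact psi_contDiffAt hF hl
  have hbdd : ∀ r : ℝ, BddAbove (uf F '' {z ∈ zf F '' Ho | ‖z‖ = r}) := by
    intro r
    have hK : IsCompact (closure (zf F '' Ho) ∩ sphere (0 : ℂ) r) :=
      (isCompact_sphere 0 r).inter_left isClosed_closure
    refine (hK.bddAbove_image (hcl.mono inter_subset_left)).mono (image_mono ?_)
    rintro z ⟨hz, hzr⟩
    exact ⟨subset_closure hz, mem_sphere_zero_iff_norm.2 hzr⟩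
  refine ⟨zf F '' Ho, uf F, dom_open hF, dom_connected hF, dom_unbounded hF,
    ⟨fun s => zf F s, (bdry_curve hF).1, (bdry_curve hF).2.1, (bdry_curve hF).2.2,
      dom_frontier hF⟩, ?_, hcl, ?_, ?_, ?_, hbdd, ?_⟩
  · intro z hz
    exact ((Complex.imCLM.contDiff.contDiffAt).comp z (hcd z hz)).contDiffWithinAt
  · rintro _ ⟨l, hl, rfl⟩
    rw [hu l (Ho_sub_Hc hl)]
    exact hl
  · intro z hz
    rw [dom_frontier hF] at hz
    obtain ⟨s, rfl⟩ := hz
    simp only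
    rw [hu _ (real_mem_Hc s), ofReal_im]
  · intro z hz
    have hs : ContDiffOn ℝ 2 (fun z => (psi F z).re) (zf F '' Ho) := by
      intro z hz
      exact ((Complex.reCLM.contDiff.contDiffAt).comp z (hcd z hz)).contDiffWithinAt
    refine div_rot (dom_open hF) hs ?_ hz
    rintro _ ⟨l, hl, rfl⟩
    exact nf_uf hF hl
  · intro C hC r₀ hr₀
    obtain ⟨n, hn⟩ := exists_nat_ge (max C (r₀ + 1))
    have hn1 : C ≤ n := (le_max_left _ _).trans hn
    have hn2 : r₀ + 1 ≤ n := (le_max_right _ _).trans hn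
    obtain ⟨p, hp, h1, h2⟩ := hF.growth n
    refine ⟨‖zf F p‖, by linarith, ?_⟩
    have h3 : Real.exp (C * ‖zf F p‖) ≤ Real.exp (n * ‖zf F p‖) :=
      Real.exp_le_exp.2 (mul_le_mul_of_nonneg_right hn1 (norm_nonneg _))
    refine (h3.trans_lt h2).trans_le ?_
    refine le_csSup (hbdd _) ⟨zf F p, ⟨⟨p, hp, rfl⟩, rfl⟩, hu p (Ho_sub_Hc hp)⟩

end PoolB27
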