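import Pool.Agent.Work.MP_b27c98_an.Defs
import Pool.Agent.Work.MP_b27c98_an.ZfB
import Pool.Agent.Work.MP_b27c98_an.Tol
import Pool.Agent.Work.MP_b27c98_an.Cst
import Pool.Agent.Work.MP_b27c98_an.PhiA

/-
The sequence and the limit with an arbitrary nondecreasing growth function (same proofs as in SeqE, LimE).
-/

namespace PoolB27

open Complex Set Metric

/-- the states -/
private def St (Φ : ℝ → ℝ) (A : ℝ) (n : ℕ) (x : (ℂ → ℂ) × ℝ × ℝ) : Prop :=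
  DifferentiableOn ℂ x.1 (Hd 1) ∧ 0 ≤ x.2.1 ∧ 0 < x.2.2 ∧ x.2.2 ≤ (1 / 2) ^ n ∧
    Tolr x.1 x.2.1 (2 * x.2.2) ∧
    ∀ e : ℝ, 0 < e →
      ∃ (F' : ℂ → ℂ) (κ' : ℝ) (w' : ℂ), Adm κ' F' w' ∧ w'.re < A ∧
        (∀ l ∈ Hd 1, ‖l‖ ≤ x.2.1 → ‖F' l - x.1 l‖ ≤ e) ∧
        (∀ l ∈ Hc, x.2.1 ≤ ‖l‖ → (n : ℝ) ≤ ‖zf F' l‖) ∧
        ∃ p ∈ Ho, x.2.1 ≤ ‖p‖ ∧ Φ (‖zf F' p‖ + 2) < p.im

private theorem mk_state {Φ : ℝ → ℝ} {A : ℝ} (h : BigP Φ A) {F : ℂ → ℂ} {κ : ℝ} {w : ℂ}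
    (hF : Adm κ F w) (hw : w.re < A) (n : ℕ) (Λm r : ℝ) (hr : 0 < r) :
    ∃ Λ ρ : ℝ, Λm ≤ Λ ∧ ρ ≤ r ∧ St Φ A n (F, Λ, ρ) := by
  obtain ⟨Λ₀, hΛ₀⟩ := h F κ w hF hw n (Nat.cast_nonneg n)
  obtain ⟨θ, hθ, htol⟩ := tol hF (max (max Λ₀ Λm) 0)
  refine ⟨max (max Λ₀ Λm) 0, min (θ / 2) (min r ((1 / 2) ^ n)),
    (le_max_right _ _).trans (le_max_left _ _), (min_le_right _ _).trans (min_le_left _ _), ?_⟩
  refine ⟨hF.diff, le_max_right _ _, ?_, (min_le_right _ _).trans (min_le_right _ _), ?_, ?_⟩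
  · exact lt_min (by linarith) (lt_min hr (by positivity))
  · refine tolr_mono htol ?_
    have : min (θ / 2) (min r ((1 / 2) ^ n)) ≤ θ / 2 := min_le_left _ _
    show 2 * min (θ / 2) (min r ((1 / 2) ^ n)) ≤ θ
    linarith
  · exact hΛ₀ _ ((le_max_left _ _).trans (le_max_left _ _))

private theorem step {Φ : ℝ → ℝ} {A : ℝ} (h : BigP Φ A) (n : ℕ) (x : (ℂ → ℂ) × ℝ × ℝ)
    (hx : St Φ A n x) :
    ∃ (y : (ℂ → ℂ) × ℝ × ℝ), St Φ A (n + 1) y ∧ x.2.1 + 1 ≤ y.2.1 ∧ y.2.2 ≤ x.2.2 / 2 ∧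
      (∀ l ∈ Hd 1, ‖l‖ ≤ x.2.1 → ‖y.1 l - x.1 l‖ ≤ x.2.2) ∧
      (∀ l ∈ Hc, x.2.1 ≤ ‖l‖ → (n : ℝ) ≤ ‖zf y.1 l‖) ∧
      ∃ p ∈ Ho, x.2.1 ≤ ‖p‖ ∧ ‖p‖ ≤ y.2.1 ∧ Φ (‖zf y.1 p‖ + 2) < p.im := by
  obtain ⟨h1, h2, h3, h4, h5, h6⟩ := hx
  obtain ⟨F', κ', w', g1, g2, g3, g4, p, g5, g6, g7⟩ := h6 x.2.2 h3
  obtain ⟨Λ, ρ, k1, k2, k3⟩ := mk_state h g1 g2 (n + 1) (max (x.2.1 + 1) ‖p‖) (x.2.2 / 2)
    (by linarith)
  exact ⟨(F', Λ, ρ), k3, (le_max_left _ _).trans k1, k2, g3, g4, p, g5, g6,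
    (le_max_right _ _).trans k1, g7⟩

theorem exists_seqP {Φ : ℝ → ℝ} {A : ℝ} (hA : 0 < A) (h : BigP Φ A) :
    ∃ (F : ℕ → ℂ → ℂ) (Λ ρ : ℕ → ℝ) (p : ℕ → ℂ), ∀ n : ℕ,
      DifferentiableOn ℂ (F n) (Hd 1) ∧ 0 ≤ Λ n ∧ Λ n + 1 ≤ Λ (n + 1) ∧ 0 < ρ n ∧
      ρ (n + 1) ≤ ρ n / 2 ∧ ρ n ≤ (1 / 2) ^ n ∧ Tolr (F n) (Λ n) (2 * ρ n) ∧
      (∀ l ∈ Hd 1, ‖l‖ ≤ Λ n → ‖F (n + 1) l - F n l‖ ≤ ρ n) ∧
      (∀ l ∈ Hc, Λ n ≤ ‖l‖ → (n : ℝ) ≤ ‖zf (F (n + 1)) l‖) ∧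
      p n ∈ Ho ∧ Λ n ≤ ‖p n‖ ∧ ‖p n‖ ≤ Λ (n + 1) ∧
      Φ (‖zf (F (n + 1)) (p n)‖ + 2) < (p n).im := by
  obtain ⟨κ, hκ⟩ := adm_const (A := A / 2) (by linarith)
  obtain ⟨Λ₀, ρ₀, -, -, h0⟩ := mk_state h hκ (by rw [ofReal_re]; linarith) 0 0 1 one_pos
  let xs : (n : ℕ) → {x : (ℂ → ℂ) × ℝ × ℝ // St Φ A n x} := fun n =>
    Nat.rec (motive := fun n => {x : (ℂ → ℂ) × ℝ × ℝ // St Φ A n x}) ⟨_, h0⟩
      (fun n x => ⟨(step h n x.1 x.2).choose, (step h n x.1 x.2).choose_spec.1⟩) n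
  have hxs : ∀ n, (xs n).1.2.1 + 1 ≤ (xs (n + 1)).1.2.1 ∧
      (xs (n + 1)).1.2.2 ≤ (xs n).1.2.2 / 2 ∧
      (∀ l ∈ Hd 1, ‖l‖ ≤ (xs n).1.2.1 → ‖(xs (n + 1)).1.1 l - (xs n).1.1 l‖ ≤ (xs n).1.2.2) ∧
      (∀ l ∈ Hc, (xs n).1.2.1 ≤ ‖l‖ → (n : ℝ) ≤ ‖zf (xs (n + 1)).1.1 l‖) ∧
      ∃ p ∈ Ho, (xs n).1.2.1 ≤ ‖p‖ ∧ ‖p‖ ≤ (xs (n + 1)).1.2.1 ∧
        Φ (‖zf (xs (n + 1)).1.1 p‖ + 2) < p.im := by
    intro n
    exact (step h n (xs n).1 (xs n).2).choose_spec.2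
  choose p hp using fun n => (hxs n).2.2.2.2
  refine ⟨fun n => (xs n).1.1, fun n => (xs n).1.2.1, fun n => (xs n).1.2.2, p, fun n => ?_⟩
  have h1 := (xs n).2
  exact ⟨h1.1, h1.2.1, (hxs n).1, h1.2.2.1, (hxs n).2.1, h1.2.2.2.1, h1.2.2.2.2.1, (hxs n).2.2.1,
    (hxs n).2.2.2.1, (hp n).1, (hp n).2.1, (hp n).2.2.1, (hp n).2.2.2⟩


theorem good_of_seqP {Φ : ℝ → ℝ} (hΦ : Monotone Φ) {F : ℕ → ℂ → ℂ} {Λ ρ : ℕ → ℝ} {p : ℕ → ℂ} (h : ∀ n : ℕ,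
      DifferentiableOn ℂ (F n) (Hd 1) ∧ 0 ≤ Λ n ∧ Λ n + 1 ≤ Λ (n + 1) ∧ 0 < ρ n ∧
      ρ (n + 1) ≤ ρ n / 2 ∧ ρ n ≤ (1 / 2) ^ n ∧ Tolr (F n) (Λ n) (2 * ρ n) ∧
      (∀ l ∈ Hd 1, ‖l‖ ≤ Λ n → ‖F (n + 1) l - F n l‖ ≤ ρ n) ∧
      (∀ l ∈ Hc, Λ n ≤ ‖l‖ → (n : ℝ) ≤ ‖zf (F (n + 1)) l‖) ∧
      p n ∈ Ho ∧ Λ n ≤ ‖p n‖ ∧ ‖p n‖ ≤ Λ (n + 1) ∧
      Φ (‖zf (F (n + 1)) (p n)‖ + 2) < (p n).im) :
    ∃ F' : ℂ → ℂ, DifferentiableOn ℂ F' (Hd 1) ∧ (∀ l ∈ Hc, 0 < (F' l).re) ∧ InjOn (zf F') Hc ∧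
      (∀ R : ℝ, ∃ r : ℝ, ∀ l ∈ Hc, r ≤ ‖l‖ → R ≤ ‖zf F' l‖) ∧
      (∀ n : ℕ, ∃ p ∈ Ho, (n : ℝ) ≤ ‖zf F' p‖ ∧ Φ ‖zf F' p‖ < p.im) := by
  have hdf : ∀ n, DifferentiableOn ℂ (F n) (Hd 1) := fun n => (h n).1
  have hΛs : ∀ n, Λ n + 1 ≤ Λ (n + 1) := fun n => (h n).2.2.1
  have hρ0 : ∀ n, 0 < ρ n := fun n => (h n).2.2.2.1
  have hρs : ∀ n, ρ (n + 1) ≤ ρ n / 2 := fun n => (h n).2.2.2.2.1
  have hρp : ∀ n, ρ n ≤ (1 / 2) ^ n := fun n => (h n).2.2.2.2.2.1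
  have htol : ∀ n, Tolr (F n) (Λ n) (2 * ρ n) := fun n => (h n).2.2.2.2.2.2.1
  have hcl : ∀ n, ∀ l ∈ Hd 1, ‖l‖ ≤ Λ n → ‖F (n + 1) l - F n l‖ ≤ ρ n :=
    fun n => (h n).2.2.2.2.2.2.2.1
  have hfar : ∀ n, ∀ l ∈ Hc, Λ n ≤ ‖l‖ → (n : ℝ) ≤ ‖zf (F (n + 1)) l‖ :=
    fun n => (h n).2.2.2.2.2.2.2.2.1
  have hp := fun n => (h n).2.2.2.2.2.2.2.2.2
  have hΛm : Monotone Λ := monotone_nat_of_le_succ (fun n => by linarith [hΛs n])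
  have hΛn : ∀ n : ℕ, (n : ℝ) ≤ Λ n := by
    intro n
    induction n with
    | zero => simpa using (h 0).2.1
    | succ n ih => push_cast; linarith [hΛs n]
  have hdist : ∀ n m : ℕ, n ≤ m → ∀ l ∈ Hd 1, ‖l‖ ≤ Λ n → ‖F m l - F n l‖ ≤ 2 * ρ n - 2 * ρ m := by
    intro n m hnm l hl hln
    induction m, hnm using Nat.le_induction with
    | base => simp
    | succ m hm ih =>
      have h1 : ‖F (m + 1) l - F m l‖ ≤ ρ m := hcl m l hl (hln.trans (hΛm hm))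
      have h2 : F (m + 1) l - F n l = (F (m + 1) l - F m l) + (F m l - F n l) := by ring
      rw [h2]
      refine (norm_add_le _ _).trans ?_
      linarith [hρs m]
  have hρt : Filter.Tendsto ρ Filter.atTop (nhds 0) :=
    squeeze_zero (fun n => (hρ0 n).le) hρp
      (tendsto_pow_atTop_nhds_zero_of_lt_one (by norm_num) (by norm_num))
  have hΛt : ∀ x : ℝ, ∀ᶠ n in Filter.atTop, x ≤ Λ n := by
    intro x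
    obtain ⟨N, hN⟩ := exists_nat_ge x
    filter_upwards [Filter.eventually_ge_atTop N] with n hn
    exact hN.trans ((hΛn N).trans (hΛm hn))
  have hlim : ∀ l, ∃ y, l ∈ Hd 1 → Filter.Tendsto (fun n => F n l) Filter.atTop (nhds y) := by
    intro l
    by_cases hl : l ∈ Hd 1
    · have hc : CauchySeq (fun n => F n l) := by
        rw [Metric.cauchySeq_iff']
        intro ε hε
        have h1 : ∀ᶠ n in Filter.atTop, ρ n < ε / 2 := hρt.eventually (gt_mem_nhds (by linarith))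
        obtain ⟨N, hN1, hN2⟩ := (h1.and (hΛt ‖l‖)).exists
        refine ⟨N, fun n hn => ?_⟩
        rw [dist_eq_norm]
        refine (hdist N n hn l hl hN2).trans_lt ?_
        linarith [hρ0 n]
      obtain ⟨y, hy⟩ := cauchySeq_tendsto_of_complete hc
      exact ⟨y, fun _ => hy⟩
    · exact ⟨0, fun h' => absurd h' hl⟩
  choose F' hF' using hlim
  have hstar : ∀ n, ∀ l ∈ Hd 1, ‖l‖ ≤ Λ n → ‖F' l - F n l‖ ≤ 2 * ρ n := by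
    intro n l hl hln
    have h1 : Filter.Tendsto (fun m => ‖F m l - F n l‖) Filter.atTop (nhds ‖F' l - F n l‖) :=
      ((hF' l hl).sub_const _).norm
    refine le_of_tendsto h1 ?_
    filter_upwards [Filter.eventually_ge_atTop n] with m hm
    linarith [hdist n m hm l hl hln, hρ0 m]
  have hlu : TendstoLocallyUniformlyOn F F' Filter.atTop (Hd 1) := by
    rw [Metric.tendstoLocallyUniformlyOn_iff]
    intro ε hε x hx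
    refine ⟨Hd 1 ∩ ball x 1, inter_mem_nhdsWithin _ (ball_mem_nhds x one_pos), ?_⟩
    have h1 : ∀ᶠ n in Filter.atTop, ρ n < ε / 2 := hρt.eventually (gt_mem_nhds (by linarith))
    filter_upwards [h1, hΛt (‖x‖ + 1)] with n hn1 hn2 y hy
    rw [dist_eq_norm]
    have hy2 : ‖y‖ ≤ ‖x‖ + 1 := by
      have h3 : ‖y - x‖ < 1 := by simpa [dist_eq_norm] using hy.2
      have h4 : y = x + (y - x) := by ring
      calc ‖y‖ = ‖x + (y - x)‖ := by rw [← h4]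
        _ ≤ ‖x‖ + ‖y - x‖ := norm_add_le _ _
        _ ≤ ‖x‖ + 1 := by linarith
    linarith [hstar n y hy.1 (hy2.trans hn2)]
  have hdiff : DifferentiableOn ℂ F' (Hd 1) :=
    hlu.differentiableOn (Filter.Eventually.of_forall hdf) (isOpen_Hd 1)
  have hT := fun n => htol n F' hdiff (hstar n)
  refine ⟨F', hdiff, ?_, ?_, ?_, ?_⟩
  · intro l hl
    obtain ⟨N, hN⟩ := exists_nat_ge ‖l‖
    exact (hT N).1 l hl (hN.trans (hΛn N))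
  · intro a ha b hb hab
    obtain ⟨N, hN⟩ := exists_nat_ge (max ‖a‖ ‖b‖)
    refine (hT N).2.1 ⟨ha, ?_⟩ ⟨hb, ?_⟩ hab
    · rw [mem_closedBall_zero_iff]
      exact (le_max_left _ _).trans (hN.trans (hΛn N))
    · rw [mem_closedBall_zero_iff]
      exact (le_max_right _ _).trans (hN.trans (hΛn N))
  · intro R
    obtain ⟨n, hn⟩ := exists_nat_ge (R + 1)
    refine ⟨Λ n, fun l hl hln => ?_⟩
    have hex : ∃ j, ‖l‖ < Λ j := by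
      obtain ⟨N, hN⟩ := exists_nat_gt ‖l‖
      exact ⟨N, hN.trans_le (hΛn N)⟩
    classical
    have hj := Nat.find_spec hex
    have hjn : n < Nat.find hex := by
      by_contra hc
      have h1 := hΛm (not_lt.1 hc)
      linarith
    obtain ⟨m, hm⟩ : ∃ m, Nat.find hex = m + 1 := ⟨Nat.find hex - 1, by omega⟩
    have hm2 : ¬ ‖l‖ < Λ m := Nat.find_min hex (by omega)
    rw [hm] at hj
    have h1 := hfar m l hl (not_lt.1 hm2)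
    have h2 := (hT (m + 1)).2.2 l hl hj.le
    have h3 : ‖zf (F (m + 1)) l‖ ≤ ‖zf F' l‖ + ‖zf F' l - zf (F (m + 1)) l‖ := by
      have h4 : zf (F (m + 1)) l = zf F' l - (zf F' l - zf (F (m + 1)) l) := by ring
      calc ‖zf (F (m + 1)) l‖ = ‖zf F' l - (zf F' l - zf (F (m + 1)) l)‖ := by rw [← h4]
        _ ≤ _ := norm_sub_le _ _
    have h5 : (n : ℝ) ≤ m := by exact_mod_cast (by omega : n ≤ m)
    linarith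
  · intro n
    obtain ⟨q1, q2, q3, q4⟩ := hp (n + 1)
    refine ⟨p (n + 1), q1, ?_, ?_⟩
    · have h1 := hfar (n + 1) _ (Ho_sub_Hc q1) q2
      have h2 := (hT (n + 1 + 1)).2.2 _ (Ho_sub_Hc q1) q3
      have h3 : ‖zf (F (n + 1 + 1)) (p (n + 1))‖ ≤
          ‖zf F' (p (n + 1))‖ + ‖zf F' (p (n + 1)) - zf (F (n + 1 + 1)) (p (n + 1))‖ := by
        have h4 : zf (F (n + 1 + 1)) (p (n + 1)) = zf F' (p (n + 1)) -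
          (zf F' (p (n + 1)) - zf (F (n + 1 + 1)) (p (n + 1))) := by ring
        conv_lhs => rw [h4]
        exact norm_sub_le _ _
      push_cast at h1
      linarith
    · refine lt_of_le_of_lt (hΦ ?_) q4
      have h2 := (hT (n + 1 + 1)).2.2 _ (Ho_sub_Hc q1) q3
      have h3 : ‖zf F' (p (n + 1))‖ ≤ ‖zf (F (n + 1 + 1)) (p (n + 1))‖ +
          ‖zf F' (p (n + 1)) - zf (F (n + 1 + 1)) (p (n + 1))‖ := by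
        have h4 : zf F' (p (n + 1)) = zf (F (n + 1 + 1)) (p (n + 1)) +
          (zf F' (p (n + 1)) - zf (F (n + 1 + 1)) (p (n + 1))) := by ring
        conv_lhs => rw [h4]
        exact norm_add_le _ _
      linarith

end PoolB27
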