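import Mathlib

/-
Public definitions for the hand-in of MP_b27c98_an. The plane is ℂ, z = x + iy.
-/

namespace PoolB27

open Complex

/-- the vector field `∇u / √(1 + |∇u|²)` -/
noncomputable def mField (u : ℂ → ℝ) (z : ℂ) : ℂ :=
  (√(1 + ‖gradient u z‖ ^ 2))⁻¹ • gradient u z

/-- its divergence: the left side of the minimal surface equation -/
noncomputable def mDiv (u : ℂ → ℝ) (z : ℂ) : ℝ :=
  (fderiv ℝ (mField u) z 1).re + (fderiv ℝ (mField u) z I).im

/-- `u` is a solution on the domain `D`, in the sense of the problem -/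
structure IsSolution (D : Set ℂ) (u : ℂ → ℝ) : Prop where
  smooth : ContDiffOn ℝ 2 u D
  cont : ContinuousOn u (closure D)
  eq : ∀ z ∈ D, mDiv u z = 0
  pos : ∀ z ∈ D, 0 < u z
  zero : ∀ z ∈ frontier D, u z = 0

/-- the values of `u` on the circle of radius `r` -/
def onCircle (D : Set ℂ) (u : ℂ → ℝ) (r : ℝ) : Set ℝ := u '' {z ∈ D | ‖z‖ = r}

/-- the maximum function, read as a supremum -/
noncomputable def maxFun (D : Set ℂ) (u : ℂ → ℝ) (r : ℝ) : ℝ := sSup (onCircle D u r)

end PoolB27
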