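import Pool.Agent.Work.MP_b27c98_an.Defs
import Pool.Agent.Work.MP_b27c98_an.Pub
import Pool.Agent.Work.MP_b27c98_an.Prim
import Pool.Agent.Work.MP_b27c98_an.ZfB
import Pool.Agent.Work.MP_b27c98_an.CurB
import Pool.Agent.Work.MP_b27c98_an.PhiA
import Pool.Agent.Work.MP_b27c98_an.PhiB
import Pool.Agent.Work.MP_b27c98_an.PdeA
import Pool.Agent.Work.MP_b27c98_an.PdeB
import Pool.Agent.Work.MP_b27c98_an.PdeC
import Pool.Agent.Work.MP_b27c98_an.PdeD

/-
The final theorem with an arbitrary nondecreasing growth function.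
-/

namespace PoolB27

open Complex Set Metric

theorem exists_goodP {Φ : ℝ → ℝ} (hΦ : Monotone Φ) : ∃ F : ℂ → ℂ, Good F ∧
    ∀ n : ℕ, ∃ p ∈ Ho, (n : ℝ) ≤ ‖zf F p‖ ∧ Φ ‖zf F p‖ < p.im := by
  have hΨ : Monotone (fun r : ℝ => max (Φ r) (Real.exp ((max r 0) ^ 2))) := by
    intro a b hab
    refine max_le_max (hΦ hab) (Real.exp_le_exp.2 ?_)
    have h1 : max a 0 ≤ max b 0 := max_le_max_right 0 hab
    have h2 : 0 ≤ max a 0 := le_max_right _ _
    nlinarith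
  obtain ⟨A, hA, hB⟩ := exists_bigP hΨ
  obtain ⟨F₀, Λ, ρ, p, h⟩ := exists_seqP hA hB
  obtain ⟨F, h1, h2, h3, h4, h5⟩ := good_of_seqP hΨ h
  refine ⟨F, ⟨h1, h2, h3, h4, ?_⟩, ?_⟩
  · intro n
    obtain ⟨p, hp, hp1, hp2⟩ := h5 n
    refine ⟨p, hp, hp1, lt_of_le_of_lt ?_ hp2⟩
    refine le_trans ?_ (le_max_right _ _)
    rw [Real.exp_le_exp, max_eq_left (norm_nonneg _)]
    nlinarith [norm_nonneg (zf F p)]
  · intro n
    obtain ⟨p, hp, hp1, hp2⟩ := h5 n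
    exact ⟨p, hp, hp1, lt_of_le_of_lt (le_max_left _ _) hp2⟩

/-- the boundary curve is smooth and regular -/
theorem bdry_smooth {F : ℂ → ℂ} (hF : DifferentiableOn ℂ F (Hd 1)) :
    ContDiff ℝ ⊤ (fun s : ℝ => zf F s) ∧ ∀ s : ℝ, deriv (fun s : ℝ => zf F s) s ≠ 0 := by
  constructor
  · have hN : DifferentiableOn ℂ (fun x => exp (-F x)) (Hd 1) := hF.neg.cexp
    have key : ∀ f : ℂ → ℂ, DifferentiableOn ℂ f (Hd 1) → ∀ s : ℝ,
        ContDiffAt ℝ ⊤ (fun s : ℝ => pr f s) s := by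
      intro f hf s
      have h1 : DifferentiableOn ℂ (pr f) (Hd 1) := fun z hz =>
        (pr_hasDerivAt one_pos hf hz).differentiableAt.differentiableWithinAt
      have h2 : AnalyticAt ℂ (pr f) s :=
        h1.analyticAt ((isOpen_Hd 1).mem_nhds (Hc_sub_Hd one_pos (real_mem_Hc s)))
      have h3 : ContDiffAt ℝ ⊤ (pr f) s := (h2.contDiffAt (n := ⊤)).restrict_scalars ℝ
      exact h3.comp s ofRealCLM.contDiff.contDiffAt
    rw [contDiff_iff_contDiffAt]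
    intro s
    have h1 := key _ hF.cexp s
    have h2 := key _ hN s
    have h3 : ContDiffAt ℝ ⊤ (fun s : ℝ => starRingEnd ℂ (pr (fun x => exp (F x)) s)) s :=
      conjCLE.contDiff.contDiffAt.comp s h1
    exact contDiffAt_const.mul (h3.add h2)
  · intro s
    have h1 : (fun s : ℝ => zf F s) = cur (fun t : ℝ => F t) := by
      funext s
      exact zf_eq_cur one_pos hF s
    rw [h1, (cur_hasDerivAt (cont_real one_pos hF) s).deriv]
    have h2 := one_le_norm_bd (F s)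
    intro h3
    rw [h3, norm_zero] at h2
    linarith

theorem finalP {Φ : ℝ → ℝ} (hΦ : Monotone Φ) : ∃ (D : Set ℂ) (u : ℂ → ℝ),
    IsOpen D ∧ IsConnected D ∧ ¬ Bornology.IsBounded D ∧
    (∃ γ : ℝ → ℂ, ContDiff ℝ ⊤ γ ∧ (∀ s, deriv γ s ≠ 0) ∧ Function.Injective γ ∧
      Filter.Tendsto γ (Filter.cocompact ℝ) (Filter.cocompact ℂ) ∧ frontier D = range γ) ∧
    IsSolution D u ∧ (∀ r : ℝ, BddAbove (onCircle D u r)) ∧
    (∀ C > 0, ∀ r₀ > 0, ∃ r > r₀, Real.exp (C * r) < maxFun D u r) ∧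
    (∀ r₀ : ℝ, ∃ r > r₀, Φ r < maxFun D u r) := by
  obtain ⟨F, hF, hg⟩ := exists_goodP hΦ
  have hu : ∀ l ∈ Hc, uf F (zf F l) = l.im := by
    intro l hl
    rw [uf, psi_left hF l hl]
  have hcl : ContinuousOn (uf F) (closure (zf F '' Ho)) := by
    rw [dom_closure hF]
    exact Complex.continuous_im.comp_continuousOn (psi_cont hF)
  have hcd : ∀ z ∈ zf F '' Ho, ContDiffAt ℝ 2 (psi F) z := by
    rintro _ ⟨l, hl, rfl⟩
    exact psi_contDiffAt hF hl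
  have hbdd : ∀ r : ℝ, BddAbove (onCircle (zf F '' Ho) (uf F) r) := by
    intro r
    have hK : IsCompact (closure (zf F '' Ho) ∩ sphere (0 : ℂ) r) :=
      (isCompact_sphere 0 r).inter_left isClosed_closure
    refine (hK.bddAbove_image (hcl.mono inter_subset_left)).mono (image_mono ?_)
    rintro z ⟨hz, hzr⟩
    exact ⟨subset_closure hz, mem_sphere_zero_iff_norm.2 hzr⟩
  have hsup : ∀ p ∈ Ho, p.im ≤ maxFun (zf F '' Ho) (uf F) ‖zf F p‖ := by
    intro p hp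
    exact le_csSup (hbdd _) ⟨zf F p, ⟨⟨p, hp, rfl⟩, rfl⟩, hu p (Ho_sub_Hc hp)⟩
  have hbs := bdry_smooth hF.diff
  refine ⟨zf F '' Ho, uf F, dom_open hF, dom_connected hF, dom_unbounded hF,
    ⟨fun s => zf F s, hbs.1, hbs.2, (bdry_curve hF).2.1, (bdry_curve hF).2.2,
      dom_frontier hF⟩, ⟨?_, hcl, ?_, ?_, ?_⟩, hbdd, ?_, ?_⟩
  · intro z hz
    exact ((Complex.imCLM.contDiff.contDiffAt).comp z (hcd z hz)).contDiffWithinAt
  · intro z hz
    have hs : ContDiffOn ℝ 2 (fun z => (psi F z).re) (zf F '' Ho) := by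
      intro z hz
      exact ((Complex.reCLM.contDiff.contDiffAt).comp z (hcd z hz)).contDiffWithinAt
    refine div_rot (dom_open hF) hs ?_ hz
    rintro _ ⟨l, hl, rfl⟩
    exact nf_uf hF hl
  · rintro _ ⟨l, hl, rfl⟩
    rw [hu l (Ho_sub_Hc hl)]
    exact hl
  · intro z hz
    rw [dom_frontier hF] at hz
    obtain ⟨s, rfl⟩ := hz
    simp only
    rw [hu _ (real_mem_Hc s), ofReal_im]
  · intro C hC r₀ hr₀
    obtain ⟨n, hn⟩ := exists_nat_ge (max C (r₀ + 1))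
    have hn1 : C ≤ n := (le_max_left _ _).trans hn
    have hn2 : r₀ + 1 ≤ n := (le_max_right _ _).trans hn
    obtain ⟨p, hp, h1, h2⟩ := hF.growth n
    refine ⟨‖zf F p‖, by linarith, ?_⟩
    have h3 : Real.exp (C * ‖zf F p‖) ≤ Real.exp (n * ‖zf F p‖) :=
      Real.exp_le_exp.2 (mul_le_mul_of_nonneg_right hn1 (norm_nonneg _))
    exact (h3.trans_lt h2).trans_le (hsup p hp)
  · intro r₀
    obtain ⟨n, hn⟩ := exists_nat_gt r₀
    obtain ⟨p, hp, h1, h2⟩ := hg n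
    exact ⟨‖zf F p‖, by linarith, h2.trans_le (hsup p hp)⟩

end PoolB27
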